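import Pool.Agent.Lib.MP_869d3b_nt.StmE

/-!
# MP_869d3b_nt: [IW PQ] the points `P`, `Q` and the abscissa of `P + Q`
-/

set_option autoImplicit false

namespace Pool.Agent.Lib.MP_869d3b_nt

theorem p_PQ (Ω : Type) [Field Ω] [DecidableEq Ω] [CharZero Ω] (hadd : S_add Ω) : S_PQ Ω := by
  intro s r p hs hr hp
  have hp2 : p ^ 2 = p - 2 := by
    linear_combination (1 / 4 : Ω) * (2 * p + 1 + s - 2) * hp + (1 / 4 : Ω) * hs
  obtain rfl : s = 2 * p - 1 := by linear_combination -hp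
  clear hs hp
  have hp4 : p ^ 4 = -3 * p + 2 := by linear_combination (p ^ 2 + p - 1) * hp2
  refine ⟨hp2, ?_, ?_, ?_⟩
  · unfold OnC
    linear_combination ((10 * p - 2) ^ 2 / 625) * hr + (1716 / 25) * hp4 + (1716 / 5) * hp2
  · unfold OnC
    linear_combination ((6 * p + 10) ^ 2 / 28561) * hr + (660 / 169) * hp4 + (5940 / 2197) * hp2
  · intro P Q hP hQ
    have hne : (-39 / 5 : Ω) ≠ 33 / 13 := by
      intro h
      have h1 : ((672 : ℕ) : Ω) = 0 := by
        push_cast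
        linear_combination -65 * h
      exact absurd (Nat.cast_eq_zero.1 h1) (by norm_num)
    have h := (hadd p hp2 P Q _ _ _ _ hP hQ).1 hne _ rfl
    have hl : ((3 + 5 * (2 * p - 1)) * r / 25 - (13 + 3 * (2 * p - 1)) * r / 169) /
        (-39 / 5 - 33 / 13 : Ω) = -(55 * p - 21) * r / 1560 := by
      have h0 : (-39 / 5 - 33 / 13 : Ω) ≠ 0 := sub_ne_zero.2 hne
      rw [div_eq_iff h0]
      ring
    rw [hl] at h
    have e0 : (1 - p) ^ 3 = p - 3 := by linear_combination (2 - p) * hp2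
    have e1 : (2 * p - 1) ^ 2 = -7 := by linear_combination 4 * hp2
    have e2 : (1 - p) ^ 6 = 7 - 5 * p := by
      linear_combination ((1 - p) ^ 3 + (p - 3)) * e0 + hp2
    have e : (-(55 * p - 21) * r / 1560) ^ 2 + 1 + p ^ 4 - -39 / 5 - 33 / 13 =
        -39 * ((2 * p - 1) * (1 - p) ^ 3 / 24) ^ 2 := by
      linear_combination ((55 * p - 21) ^ 2 / 1560 ^ 2) * hr + hp4 +
        (39 / 576) * ((1 - p) ^ 6 * e1 + (-7) * e2) + (33275 / 12480) * hp2
    rw [e] at h
    exact ⟨_, h⟩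

end Pool.Agent.Lib.MP_869d3b_nt
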