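import Pool.Agent.Lib.MP_869d3b_nt.StmE

/-!
# MP_869d3b_nt, section 0: piece act (the action of an automorphism on the points)
-/

set_option autoImplicit false
set_option linter.unusedSectionVars false

namespace Pool.Agent.Lib.MP_869d3b_nt

section Act

variable {Ω : Type} [Field Ω] [DecidableEq Ω] [CharZero Ω]

/-- The function given by an automorphism. -/
private theorem act_fun (h1 : S_coord Ω) (p : Ω) (hp : p ^ 2 = p - 2) (σ : Ω ≃+* Ω)
    (hσ : σ p = p) :
    ∃ f : Pt p → Pt p, f 0 = 0 ∧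
      ∀ (P : Pt p) (z y : Ω), HasC P z y → HasC (f P) (σ z) (σ y) := by
  obtain ⟨c1, c2, c3, c4, c5, c6, c7⟩ := h1 p hp
  have key : ∀ P : Pt p, ∃ Q : Pt p, (P = 0 → Q = 0) ∧
      ∀ z y : Ω, HasC P z y → HasC Q (σ z) (σ y) := by
    intro P
    rcases c3 P with h | ⟨z, y, hP⟩
    · refine ⟨0, fun _ => rfl, fun z y hz => ?_⟩
      rw [h] at hz
      exact absurd hz (c6 z y)
    · have h2 := c2 P z y hP
      have h3 : OnC p (σ z) (σ y) := by
        unfold OnC at h2 ⊢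
        have h4 := congrArg σ h2
        simpa only [map_pow, map_mul, map_sub, map_one, hσ] using h4
      obtain ⟨Q, hQ⟩ := c1 _ _ h3
      refine ⟨Q, fun h => ?_, fun z' y' h' => ?_⟩
      · exfalso
        rw [h] at hP
        exact c6 _ _ hP
      · obtain ⟨e1, e2⟩ := c4 P z y z' y' hP h'
        rw [← e1, ← e2]
        exact hQ
  choose f hf0 hf using key
  exact ⟨f, hf0 0 rfl, hf⟩

/-- The function is additive. -/
private theorem act_add (h1 : S_coord Ω) (h2 : S_add Ω) (p : Ω) (hp : p ^ 2 = p - 2)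
    (σ : Ω ≃+* Ω) (hσ : σ p = p) (f : Pt p → Pt p) (hf0 : f 0 = 0)
    (hf : ∀ (P : Pt p) (z y : Ω), HasC P z y → HasC (f P) (σ z) (σ y)) (P Q : Pt p) :
    f (P + Q) = f P + f Q := by
  obtain ⟨c1, c2, c3, c4, c5, c6, c7⟩ := h1 p hp
  rcases c3 P with h | ⟨z1, y1, hP⟩
  · rw [h, zero_add, hf0, zero_add]
  rcases c3 Q with h | ⟨z2, y2, hQ⟩
  · rw [h, add_zero, hf0, add_zero]
  obtain ⟨a1, a2, a3⟩ := h2 p hp P Q z1 y1 z2 y2 hP hQ
  obtain ⟨b1, b2, b3⟩ := h2 p hp (f P) (f Q) (σ z1) (σ y1) (σ z2) (σ y2) (hf _ _ _ hP)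
    (hf _ _ _ hQ)
  have gen : ∀ l : Ω,
      HasC (P + Q) (l ^ 2 + 1 + p ^ 4 - z1 - z2)
        (-(l * ((l ^ 2 + 1 + p ^ 4 - z1 - z2) - z1) + y1)) →
      HasC (f P + f Q) ((σ l) ^ 2 + 1 + p ^ 4 - σ z1 - σ z2)
        (-(σ l * (((σ l) ^ 2 + 1 + p ^ 4 - σ z1 - σ z2) - σ z1) + σ y1)) →
      f (P + Q) = f P + f Q := by
    intro l k1 k2
    have k3 := hf _ _ _ k1
    have e1 : σ (l ^ 2 + 1 + p ^ 4 - z1 - z2) = (σ l) ^ 2 + 1 + p ^ 4 - σ z1 - σ z2 := by
      simp only [map_add, map_sub, map_pow, map_one, hσ]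
    have e2 : σ (-(l * ((l ^ 2 + 1 + p ^ 4 - z1 - z2) - z1) + y1)) =
        -(σ l * (((σ l) ^ 2 + 1 + p ^ 4 - σ z1 - σ z2) - σ z1) + σ y1) := by
      rw [map_neg, map_add, map_mul, map_sub, e1]
    rw [e1, e2] at k3
    exact c5 _ _ _ _ k3 k2
  by_cases hz : z1 = z2
  · have hs : y1 ^ 2 = y2 ^ 2 := by
      have q1 := c2 P z1 y1 hP
      have q2 := c2 Q z2 y2 hQ
      unfold OnC at q1 q2
      rw [q1, q2, hz]
    rcases sq_eq_sq_iff_eq_or_eq_neg.1 hs with hy | hy
    · by_cases hy0 : y1 = 0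
      · have hy' : y1 = -y2 := by rw [← hy, hy0, neg_zero]
        rw [a2 hz hy', hf0, b2 (congrArg σ hz) (by rw [hy', map_neg])]
      · apply gen ((3 * z1 ^ 2 - 2 * (1 + p ^ 4) * z1 + p ^ 4) / (2 * y1)) (a3 hz hy hy0 _ rfl)
        apply b3 (congrArg σ hz) (congrArg σ hy)
        · intro h
          exact hy0 ((map_eq_zero_iff σ σ.injective).1 h)
        · have t2 : σ 2 = 2 := map_ofNat σ 2
          have t3 : σ 3 = 3 := map_ofNat σ 3
          rw [map_div₀]
          simp only [map_add, map_sub, map_mul, map_pow, map_one, hσ, t2, t3]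
    · rw [a2 hz hy, hf0, b2 (congrArg σ hz) (by rw [hy, map_neg])]
  · apply gen ((y1 - y2) / (z1 - z2)) (a1 hz _ rfl)
    apply b1 (fun h => hz (σ.injective h))
    rw [map_div₀, map_sub, map_sub]

/-- [E act] -/
theorem p_act (Ω : Type) [Field Ω] [DecidableEq Ω] [CharZero Ω] (h1 : S_coord Ω)
    (h2 : S_add Ω) : S_act Ω := by
  intro p hp σ hσ
  obtain ⟨c1, c2, c3, c4, c5, c6, c7⟩ := h1 p hp
  refine ⟨?_, ?_, ?_⟩
  · have hσ' : σ.symm p = p := by
      rw [RingEquiv.symm_apply_eq, hσ]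
    obtain ⟨f, hf0, hf⟩ := act_fun h1 p hp σ hσ
    obtain ⟨f', hf0', hf'⟩ := act_fun h1 p hp σ.symm hσ'
    refine ⟨⟨⟨f, f', ?_, ?_⟩, ?_⟩, ?_⟩
    · intro P
      rcases c3 P with h | ⟨z, y, hP⟩
      · rw [h, hf0, hf0']
      · have k := hf' _ _ _ (hf _ _ _ hP)
        rw [RingEquiv.symm_apply_apply, RingEquiv.symm_apply_apply] at k
        exact c5 _ _ _ _ k hP
    · intro P
      rcases c3 P with h | ⟨z, y, hP⟩
      · rw [h, hf0', hf0]
      · have k := hf _ _ _ (hf' _ _ _ hP)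
        rw [RingEquiv.apply_symm_apply, RingEquiv.apply_symm_apply] at k
        exact c5 _ _ _ _ k hP
    · intro P Q
      exact act_add h1 h2 p hp σ hσ f hf0 hf P Q
    · intro P z y hP
      exact hf P z y hP
  · intro g hg φ hφ P
    rcases c3 P with h | ⟨z, y, hP⟩
    · rw [h, map_zero, map_zero, map_zero]
    · by_cases hz : z = 1
      · subst hz
        have q := c2 P 1 y hP
        unfold OnC at q
        have hy : y = 0 := by
          have q2 : y ^ 2 = 0 := by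
            rw [q]
            ring
          exact (pow_eq_zero_iff two_ne_zero).1 q2
        subst hy
        have k := hg P 1 0 hP
        rw [map_one, map_zero] at k
        rw [hφ.one P hP, map_zero, hφ.one (g P) k]
      · have hz' : σ z ≠ 1 := by
          intro h
          apply hz
          apply σ.injective
          rw [h, map_one]
        have k1 := hg _ _ _ (hφ.aff P z y hP hz)
        have k2 := hφ.aff (g P) (σ z) (σ y) (hg P z y hP) hz'
        have e1 : σ (z * (z - p ^ 4) / (p ^ 2 * (z - 1))) =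
            σ z * (σ z - p ^ 4) / (p ^ 2 * (σ z - 1)) := by
          rw [map_div₀]
          simp only [map_sub, map_mul, map_pow, map_one, hσ]
        have e2 : σ (y * ((1 - p) ^ 4 - (z - 1) ^ 2) / (p ^ 3 * (z - 1) ^ 2)) =
            σ y * ((1 - p) ^ 4 - (σ z - 1) ^ 2) / (p ^ 3 * (σ z - 1) ^ 2) := by
          rw [map_div₀]
          simp only [map_sub, map_mul, map_pow, map_one, hσ]
        rw [e1, e2] at k1
        exact c5 _ _ _ _ k1 k2
  · intro g hg P z y hP
    have k := hg P z y hP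
    refine ⟨⟨?_, ?_⟩, ⟨?_, ?_⟩⟩
    · intro h
      rw [h] at k
      exact c4 P (σ z) (σ y) z y k hP
    · rintro ⟨e1, e2⟩
      rw [e1, e2] at k
      exact c5 _ _ _ _ k hP
    · intro h
      rw [h] at k
      exact c4 (-P) (σ z) (σ y) z (-y) k (c7 P z y hP)
    · rintro ⟨e1, e2⟩
      rw [e1, e2] at k
      exact c5 _ _ _ _ k (c7 P z y hP)

end Act

end Pool.Agent.Lib.MP_869d3b_nt
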