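import Pool.Agent.Lib.MP_869d3b_nt.StmE

/-!
# MP_869d3b_nt, section 0: piece add (the addition formulas)
-/

set_option autoImplicit false

namespace Pool.Agent.Lib.MP_869d3b_nt

theorem add_gen {Ω : Type} [Field Ω] [DecidableEq Ω] (p : Ω) (P Q : Pt p) (z1 y1 z2 y2 : Ω)
    (hP : HasC P z1 y1) (hQ : HasC Q z2 y2) (hne : ¬ (z1 = z2 ∧ y1 = -y2)) (l : Ω)
    (hl : l = (cv p).slope z1 z2 y1 y2) :
    HasC (P + Q) (l ^ 2 + 1 + p ^ 4 - z1 - z2)
      (-(l * ((l ^ 2 + 1 + p ^ 4 - z1 - z2) - z1) + y1)) := by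
  obtain ⟨h1, rfl⟩ := hP
  obtain ⟨h2, rfl⟩ := hQ
  have hneg : (cv p).negY z2 y2 = -y2 := by
    simp only [WeierstrassCurve.Affine.negY, cv]
    ring
  have hxy : ¬ (z1 = z2 ∧ y1 = (cv p).negY z2 y2) := by
    rw [hneg]
    exact hne
  have hX : (cv p).addX z1 z2 ((cv p).slope z1 z2 y1 y2) = l ^ 2 + 1 + p ^ 4 - z1 - z2 := by
    rw [← hl]
    simp only [WeierstrassCurve.Affine.addX, cv]
    ring
  have hY : (cv p).addY z1 z2 y1 ((cv p).slope z1 z2 y1 y2) =
      -(l * ((l ^ 2 + 1 + p ^ 4 - z1 - z2) - z1) + y1) := by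
    rw [← hl]
    simp only [WeierstrassCurve.Affine.addY, WeierstrassCurve.Affine.negY,
      WeierstrassCurve.Affine.negAddY, WeierstrassCurve.Affine.addX, cv]
    ring
  have h := WeierstrassCurve.Affine.nonsingular_add h1 h2 hxy
  rw [hX, hY] at h
  refine ⟨h, ?_⟩
  rw [WeierstrassCurve.Affine.Point.add_some hxy]
  congr 1

/-- [E add] -/
theorem p_add (Ω : Type) [Field Ω] [DecidableEq Ω] [CharZero Ω] : S_add Ω := by
  intro p _ P Q z1 y1 z2 y2 hP hQ
  refine ⟨?_, ?_, ?_⟩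
  · intro hz l hl
    apply add_gen p P Q z1 y1 z2 y2 hP hQ (fun h => hz h.1) l
    rw [hl, WeierstrassCurve.Affine.slope_of_X_ne hz]
  · intro hz hy
    obtain ⟨h1, rfl⟩ := hP
    obtain ⟨h2, rfl⟩ := hQ
    apply WeierstrassCurve.Affine.Point.add_of_Y_eq hz
    simp only [WeierstrassCurve.Affine.negY, cv]
    rw [hy]
    ring
  · intro hz hy hy0 l hl
    have hne : y1 ≠ -y2 := by
      intro h
      apply hy0
      rw [← hy] at h
      have h2 : 2 * y1 = 0 := by linear_combination h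
      exact (mul_eq_zero.1 h2).resolve_left two_ne_zero
    apply add_gen p P Q z1 y1 z2 y2 hP hQ (fun h => hne h.2) l
    have hneg : (cv p).negY z2 y2 = -y2 := by
      simp only [WeierstrassCurve.Affine.negY, cv]
      ring
    have hneg1 : (cv p).negY z1 y1 = -y1 := by
      simp only [WeierstrassCurve.Affine.negY, cv]
      ring
    rw [hl, WeierstrassCurve.Affine.slope_of_Y_ne hz (by rw [hneg]; exact hne), hneg1]
    simp only [cv]
    congr 1
    · ring
    · ring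

end Pool.Agent.Lib.MP_869d3b_nt
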