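import Pool.Agent.Lib.MP_869d3b_nt.StmE

/-!
# MP_869d3b_nt, piece [E coll1]
-/

set_option autoImplicit false

namespace Pool.Agent.Lib.MP_869d3b_nt

theorem p_coll1 (Ω : Type) [Field Ω] [DecidableEq Ω] [CharZero Ω] (h1 : S_coord Ω)
    (h2 : S_add Ω) : S_coll1 Ω := by
  intro p hp P Q z1 y1 z2 y2 z3 y3 hP hQ hR
  obtain ⟨_, c2, _, c4, _, c6, _⟩ := h1 p hp
  obtain ⟨a1, a2, a3⟩ := h2 p hp P Q z1 y1 z2 y2 hP hQ
  have e1 : y1 ^ 2 = z1 * (z1 - 1) * (z1 - p ^ 4) := c2 P z1 y1 hP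
  have e2 : y2 ^ 2 = z2 * (z2 - 1) * (z2 - p ^ 4) := c2 Q z2 y2 hQ
  by_cases hz : z1 = z2
  · subst hz
    have hy : y1 ≠ -y2 := by
      intro h
      have h0 := a2 rfl h
      rw [h0] at hR
      exact c6 _ _ hR
    have hyy : y1 = y2 := by
      have h0 : (y1 - y2) * (y1 + y2) = 0 := by linear_combination e1 - e2
      rcases mul_eq_zero.1 h0 with h | h
      · exact sub_eq_zero.1 h
      · exact absurd (eq_neg_of_add_eq_zero_left h) hy
    subst hyy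
    have hy0 : y1 ≠ 0 := by
      rintro rfl
      exact hy (by simp)
    obtain ⟨l, hl⟩ : ∃ l : Ω, l = (3 * z1 ^ 2 - 2 * (1 + p ^ 4) * z1 + p ^ 4) / (2 * y1) :=
      ⟨_, rfl⟩
    obtain ⟨h3, h4⟩ := c4 _ _ _ _ _ hR (a3 rfl rfl hy0 l hl)
    have hl2 : 2 * y1 * l = 3 * z1 ^ 2 - 2 * (1 + p ^ 4) * z1 + p ^ 4 := by
      rw [hl]; field_simp
    refine ⟨l, y1 - l * z1, ⟨?_, ?_, ?_⟩, by ring, by ring, ?_⟩
    · linear_combination h3
    · rw [h3]; linear_combination hl2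
    · rw [h3]; linear_combination z1 * hl2 - e1
    · rw [h4, h3]; ring
  · have hz' : z1 - z2 ≠ 0 := sub_ne_zero.2 hz
    obtain ⟨l, hl⟩ : ∃ l : Ω, l = (y1 - y2) / (z1 - z2) := ⟨_, rfl⟩
    obtain ⟨h3, h4⟩ := c4 _ _ _ _ _ hR (a1 hz l hl)
    have hl2 : l * (z1 - z2) = y1 - y2 := by
      rw [hl]; field_simp
    obtain ⟨c, hc⟩ : ∃ c : Ω, c = y1 - l * z1 := ⟨_, rfl⟩
    have hy2 : y2 = l * z2 + c := by rw [hc]; linear_combination hl2
    have hy1 : y1 = l * z1 + c := by rw [hc]; ring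
    obtain ⟨A, hA⟩ : ∃ A : Ω, A = (p ^ 4 - 2 * l * c) - (z1 * z2 + z1 * z3 + z2 * z3) := ⟨_, rfl⟩
    obtain ⟨B, hB⟩ : ∃ B : Ω, B = z1 * z2 * z3 - c ^ 2 := ⟨_, rfl⟩
    have q1 : A * z1 + B = 0 := by
      rw [hA, hB, h3]
      rw [hy1] at e1
      linear_combination -e1
    have q2 : A * z2 + B = 0 := by
      rw [hA, hB, h3]
      rw [hy2] at e2
      linear_combination -e2
    have hA0 : A = 0 := by
      have h0 : A * (z1 - z2) = 0 := by linear_combination q1 - q2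
      rcases mul_eq_zero.1 h0 with h | h
      · exact h
      · exact absurd h hz'
    have hB0 : B = 0 := by rw [hA0] at q1; linear_combination q1
    refine ⟨l, c, ⟨?_, ?_, ?_⟩, hy1, hy2, ?_⟩
    · linear_combination h3
    · linear_combination hA - hA0
    · linear_combination hB0 - hB
    · rw [h4, h3, hy1]; ring

end Pool.Agent.Lib.MP_869d3b_nt
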