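import Pool.Agent.Lib.MP_869d3b_nt.StmE

/-!
# MP_869d3b_nt: piece coll2
-/

set_option autoImplicit false

namespace Pool.Agent.Lib.MP_869d3b_nt

private theorem coll2_p4 {Ω : Type} [Field Ω] [CharZero Ω] {p : Ω} (hp : p ^ 2 = p - 2) :
    p ^ 4 ≠ 0 ∧ p ^ 4 ≠ 1 := by
  have h4 : p ^ 4 = -3 * p + 2 := by linear_combination (p ^ 2 + p - 1) * hp
  have h2 : (2 : Ω) ≠ 0 := two_ne_zero
  constructor
  · intro h
    have h0 : p = 0 := by simpa using h
    apply h2
    rw [h0] at hp
    linear_combination hp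
  · intro h
    rw [h4] at h
    have h3 : 3 * p = 1 := by linear_combination -h
    have h5 : (16 : Ω) = 0 := by linear_combination 9 * hp - (3 * p - 2) * h3
    exact absurd h5 (by norm_num)

theorem p_coll2 (Ω : Type) [Field Ω] [DecidableEq Ω] [CharZero Ω] (hcoord : S_coord Ω)
    (hadd : S_add Ω) : S_coll2 Ω := by
  intro p hp P Q R l c z1 z2 z3 hcoll hP hQ hR
  obtain ⟨hc1, hc2, -, -, hc5, -, -⟩ := hcoord p hp
  obtain ⟨ha1, ha2, ha3⟩ := hadd p hp P Q z1 (l * z1 + c) z2 (l * z2 + c) hP hQ
  obtain ⟨e1, e2, e3⟩ := hcoll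
  have hz3 : l ^ 2 + 1 + p ^ 4 - z1 - z2 = z3 := by linear_combination -e1
  by_cases hz : z1 = z2
  · subst hz
    by_cases hy : l * z1 + c = 0
    · exfalso
      have hon := hc2 P z1 (l * z1 + c) hP
      unfold OnC at hon
      rw [hy] at hon
      have hd : 3 * z1 ^ 2 - 2 * (1 + p ^ 4) * z1 + p ^ 4 = 0 := by
        linear_combination 2 * l * hy + 2 * z1 * e1 - e2
      obtain ⟨hp0, hp1⟩ := coll2_p4 hp
      have hprod : z1 * (z1 - 1) * (z1 - p ^ 4) = 0 := by rw [← hon]; ring
      rcases mul_eq_zero.1 hprod with h | h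
      · rcases mul_eq_zero.1 h with h | h
        · rw [h] at hd
          apply hp0
          linear_combination hd
        · have h' : z1 = 1 := by linear_combination h
          rw [h'] at hd
          apply hp1
          linear_combination -hd
      · have h' : z1 = p ^ 4 := by linear_combination h
        have h7 : p ^ 4 * (p ^ 4 - 1) = 0 := by
          rw [h'] at hd
          linear_combination hd
        rcases mul_eq_zero.1 h7 with h8 | h8
        · exact hp0 h8
        · apply hp1
          linear_combination h8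
    · have hl : l = (3 * z1 ^ 2 - 2 * (1 + p ^ 4) * z1 + p ^ 4) / (2 * (l * z1 + c)) := by
        rw [eq_div_iff (mul_ne_zero two_ne_zero hy)]
        linear_combination e2 - 2 * z1 * e1
      have h := ha3 rfl rfl hy l hl
      rw [hz3] at h
      have h9 : -(l * (z3 - z1) + (l * z1 + c)) = -(l * z3 + c) := by ring
      rw [h9] at h
      exact hc5 _ _ _ _ h hR
  · have hl : l = ((l * z1 + c) - (l * z2 + c)) / (z1 - z2) := by
      rw [eq_div_iff (sub_ne_zero.2 hz)]
      ring
    have h := ha1 hz l hl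
    rw [hz3] at h
    have h9 : -(l * (z3 - z1) + (l * z1 + c)) = -(l * z3 + c) := by ring
    rw [h9] at h
    exact hc5 _ _ _ _ h hR

end Pool.Agent.Lib.MP_869d3b_nt
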