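import Pool.Agent.Lib.MP_869d3b_nt.StmE

/-!
# MP_869d3b_nt, section 0: the image of three collinear points
-/

set_option autoImplicit false

namespace Pool.Agent.Lib.MP_869d3b_nt

section
variable {F : Type} [Field F]

/-- one point -/
private theorem collImg_one (mu l k X : F) (hX : X ≠ 0) (hk : k ≠ 0)
    (h : X ^ 3 + (1 + mu - l ^ 2) * X ^ 2 + (mu - 2 * l * k) * X - k ^ 2 = 0) :
    (l * X + k) * (mu - X ^ 2) / X ^ 2 =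
      (mu / k - l) * ((X + 1) * (X + mu) / X) + -((l - k) * (l * mu - k)) / k := by
  field_simp
  linear_combination (-mu) * h

private theorem collImg_q2 (a b c q : F) : a / q * (b / q) + a / q * (c / q) + b / q * (c / q) =
    (a * b + a * c + b * c) / q ^ 2 := by
  ring

private theorem collImg_q3 (a b c q : F) : a / q * (b / q) * (c / q) = a * b * c / q ^ 3 := by
  ring

private theorem collImg_s1 (mu l k X1 X2 X3 : F) (h1 : X1 ≠ 0) (h2 : X2 ≠ 0) (h3 : X3 ≠ 0)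
    (hk : k ≠ 0) (e1 : X1 + X2 + X3 = l ^ 2 - (1 + mu))
    (e2 : X1 * X2 + X1 * X3 + X2 * X3 = mu - 2 * l * k) (e3 : X1 * X2 * X3 = k ^ 2) :
    (X1 + 1) * (X1 + mu) / X1 + (X2 + 1) * (X2 + mu) / X2 + (X3 + 1) * (X3 + mu) / X3 =
      (mu / k - l) ^ 2 + 2 * (1 + mu) := by
  have hk2 : k ^ 2 ≠ 0 := pow_ne_zero 2 hk
  apply mul_right_cancel₀ hk2
  have a1 : ((X1 + 1) * (X1 + mu) / X1 + (X2 + 1) * (X2 + mu) / X2 + (X3 + 1) * (X3 + mu) / X3) *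
      (X1 * X2 * X3) = (X1 + X2 + X3 + 3 * (1 + mu)) * (X1 * X2 * X3) +
        mu * (X1 * X2 + X1 * X3 + X2 * X3) := by
    field_simp
    ring
  rw [e1, e2, e3] at a1
  rw [a1]
  field_simp
  ring

private theorem collImg_s2 (mu l k X1 X2 X3 : F) (h1 : X1 ≠ 0) (h2 : X2 ≠ 0) (h3 : X3 ≠ 0)
    (hk : k ≠ 0) (e1 : X1 + X2 + X3 = l ^ 2 - (1 + mu))
    (e2 : X1 * X2 + X1 * X3 + X2 * X3 = mu - 2 * l * k) (e3 : X1 * X2 * X3 = k ^ 2) :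
    (X1 + 1) * (X1 + mu) / X1 * ((X2 + 1) * (X2 + mu) / X2) +
      (X1 + 1) * (X1 + mu) / X1 * ((X3 + 1) * (X3 + mu) / X3) +
      (X2 + 1) * (X2 + mu) / X2 * ((X3 + 1) * (X3 + mu) / X3) =
      (1 - mu) ^ 2 - 2 * (mu / k - l) * (-((l - k) * (l * mu - k)) / k) := by
  have hk2 : k ^ 2 ≠ 0 := pow_ne_zero 2 hk
  apply mul_right_cancel₀ hk2
  have a1 : ((X1 + 1) * (X1 + mu) / X1 * ((X2 + 1) * (X2 + mu) / X2) +
      (X1 + 1) * (X1 + mu) / X1 * ((X3 + 1) * (X3 + mu) / X3) +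
      (X2 + 1) * (X2 + mu) / X2 * ((X3 + 1) * (X3 + mu) / X3)) * (X1 * X2 * X3) =
      (X1 * X2 + X1 * X3 + X2 * X3) * (X1 * X2 * X3) +
      mu * ((X1 + X2 + X3) * (X1 * X2 + X1 * X3 + X2 * X3) - 3 * (X1 * X2 * X3)) +
      mu ^ 2 * (X1 + X2 + X3) +
      2 * (1 + mu) * ((X1 + X2 + X3) * (X1 * X2 * X3) + mu * (X1 * X2 + X1 * X3 + X2 * X3)) +
      3 * (1 + mu) ^ 2 * (X1 * X2 * X3) := by
    field_simp
    ring
  rw [e1, e2, e3] at a1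
  rw [a1]
  field_simp
  ring

private theorem collImg_s3 (mu l k X1 X2 X3 : F) (h1 : X1 ≠ 0) (h2 : X2 ≠ 0) (h3 : X3 ≠ 0)
    (hk : k ≠ 0) (e1 : X1 + X2 + X3 = l ^ 2 - (1 + mu))
    (e2 : X1 * X2 + X1 * X3 + X2 * X3 = mu - 2 * l * k) (e3 : X1 * X2 * X3 = k ^ 2) :
    (X1 + 1) * (X1 + mu) / X1 * ((X2 + 1) * (X2 + mu) / X2) * ((X3 + 1) * (X3 + mu) / X3) =
      (-((l - k) * (l * mu - k)) / k) ^ 2 := by
  have hk2 : k ^ 2 ≠ 0 := pow_ne_zero 2 hk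
  apply mul_right_cancel₀ hk2
  have a1 : ((X1 + 1) * (X1 + mu) / X1 * ((X2 + 1) * (X2 + mu) / X2) *
      ((X3 + 1) * (X3 + mu) / X3)) * (X1 * X2 * X3) =
      (X1 * X2 * X3 + (X1 * X2 + X1 * X3 + X2 * X3) + (X1 + X2 + X3) + 1) *
      (X1 * X2 * X3 + mu * (X1 * X2 + X1 * X3 + X2 * X3) + mu ^ 2 * (X1 + X2 + X3) + mu ^ 3) := by
    field_simp
    ring
  rw [e1, e2, e3] at a1
  rw [a1]
  field_simp
  ring

end

theorem p_collImg (Ω : Type) [Field Ω] [DecidableEq Ω] [CharZero Ω] : S_collImg Ω := by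
  intro p l c z1 z2 z3 hp hC h1 h2 h3
  obtain ⟨e1, e2, e3⟩ := hC
  have hp0 : p ≠ 0 := by
    rintro rfl
    norm_num at hp
  have hp4 : p ^ 4 = -3 * p + 2 := by linear_combination (p ^ 2 + p - 1) * hp
  have hmu : (1 - p) ^ 4 = 1 - p ^ 4 := by linear_combination (2 * p ^ 2 - 2 * p) * hp
  obtain ⟨mu, hmuD⟩ : ∃ mu, mu = 1 - p ^ 4 := ⟨_, rfl⟩
  obtain ⟨k, hkD⟩ : ∃ k, k = c + l := ⟨_, rfl⟩
  obtain ⟨X1, hX1⟩ : ∃ X1, X1 = z1 - 1 := ⟨_, rfl⟩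
  obtain ⟨X2, hX2⟩ : ∃ X2, X2 = z2 - 1 := ⟨_, rfl⟩
  obtain ⟨X3, hX3⟩ : ∃ X3, X3 = z3 - 1 := ⟨_, rfl⟩
  have n1 : X1 ≠ 0 := by rw [hX1]; exact sub_ne_zero.2 h1
  have n2 : X2 ≠ 0 := by rw [hX2]; exact sub_ne_zero.2 h2
  have n3 : X3 ≠ 0 := by rw [hX3]; exact sub_ne_zero.2 h3
  have g1 : X1 + X2 + X3 = l ^ 2 - (1 + mu) := by
    rw [hX1, hX2, hX3, hmuD]
    linear_combination e1
  have g2 : X1 * X2 + X1 * X3 + X2 * X3 = mu - 2 * l * k := by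
    rw [hX1, hX2, hX3, hmuD, hkD]
    linear_combination e2 - 2 * e1
  have g3 : X1 * X2 * X3 = k ^ 2 := by
    rw [hX1, hX2, hX3, hkD]
    linear_combination e3 - e2 + e1
  have hk : k ≠ 0 := by
    rintro rfl
    rw [zero_pow two_ne_zero] at g3
    exact mul_ne_zero (mul_ne_zero n1 n2) n3 g3
  have r1 : X1 ^ 3 + (1 + mu - l ^ 2) * X1 ^ 2 + (mu - 2 * l * k) * X1 - k ^ 2 = 0 := by
    linear_combination X1 ^ 2 * g1 - X1 * g2 + g3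
  have r2 : X2 ^ 3 + (1 + mu - l ^ 2) * X2 ^ 2 + (mu - 2 * l * k) * X2 - k ^ 2 = 0 := by
    linear_combination X2 ^ 2 * g1 - X2 * g2 + g3
  have r3 : X3 ^ 3 + (1 + mu - l ^ 2) * X3 ^ 2 + (mu - 2 * l * k) * X3 - k ^ 2 = 0 := by
    linear_combination X3 ^ 2 * g1 - X3 * g2 + g3
  have fz : ∀ z X : Ω, X = z - 1 → fZ Ω p z = (X + 1) * (X + mu) / X / p ^ 2 := by
    intro z X hX
    unfold fZ
    have hz : z = X + 1 := by rw [hX]; ring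
    have hz4 : X + 1 - p ^ 4 = X + mu := by rw [hmuD]; ring
    rw [hz, hz4, add_sub_cancel_right, div_div, mul_comm (p ^ 2)]
  have fy : ∀ z X y : Ω, X = z - 1 → fY Ω p z y = y * (mu - X ^ 2) / X ^ 2 / p ^ 3 := by
    intro z X y hX
    unfold fY
    rw [hmu, ← hmuD, ← hX, div_div, mul_comm (p ^ 3)]
  have hy : ∀ z X : Ω, X = z - 1 → l * z + c = l * X + k := by
    intro z X hX
    rw [hX, hkD]
    ring
  have m1 : 1 + mu = 3 * p := by rw [hmuD, hp4]; ring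
  have m2 : 6 * p = (1 + p ^ 4) * p ^ 2 := by
    rw [hp4]
    linear_combination (3 * p) * hp
  refine ⟨(mu / k - l) / p, (-((l - k) * (l * mu - k)) / k) / p ^ 3, ⟨?_, ?_, ?_⟩, ?_, ?_, ?_⟩
  · rw [fz z1 X1 hX1, fz z2 X2 hX2, fz z3 X3 hX3, ← add_div, ← add_div,
      collImg_s1 mu l k X1 X2 X3 n1 n2 n3 hk g1 g2 g3, m1, div_pow, add_div, add_assoc]
    congr 1
    rw [div_eq_iff (pow_ne_zero 2 hp0)]
    linear_combination m2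
  · rw [fz z1 X1 hX1, fz z2 X2 hX2, fz z3 X3 hX3, collImg_q2,
      collImg_s2 mu l k X1 X2 X3 n1 n2 n3 hk g1 g2 g3]
    have h4 : (1 - mu) ^ 2 = p ^ 8 := by rw [hmuD]; ring
    rw [h4, sub_div]
    congr 1
    · rw [div_eq_iff (pow_ne_zero 2 (pow_ne_zero 2 hp0))]
      ring
    · ring
  · rw [fz z1 X1 hX1, fz z2 X2 hX2, fz z3 X3 hX3, collImg_q3,
      collImg_s3 mu l k X1 X2 X3 n1 n2 n3 hk g1 g2 g3]
    ring
  · rw [hy z1 X1 hX1, fy z1 X1 _ hX1, fz z1 X1 hX1, collImg_one mu l k X1 n1 hk r1]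
    field_simp
  · rw [hy z2 X2 hX2, fy z2 X2 _ hX2, fz z2 X2 hX2, collImg_one mu l k X2 n2 hk r2]
    field_simp
  · rw [hy z3 X3 hX3, fy z3 X3 _ hX3, fz z3 X3 hX3, collImg_one mu l k X3 n3 hk r3]
    field_simp

end Pool.Agent.Lib.MP_869d3b_nt
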