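import Pool.Agent.Lib.MP_869d3b_nt.StmE

/-!
# MP_869d3b_nt, section 0: piece coord (basic facts on coordinates)
-/

set_option autoImplicit false

namespace Pool.Agent.Lib.MP_869d3b_nt

section coord

variable {Ω : Type} [Field Ω]

theorem coord_p4 (p : Ω) (hp : p ^ 2 = p - 2) : p ^ 4 = 2 - 3 * p := by
  linear_combination (p ^ 2 + p - 2 + 1) * hp

theorem coord_p_ne [CharZero Ω] (p : Ω) (hp : p ^ 2 = p - 2) : p ≠ 0 := by
  intro h
  rw [h] at hp
  have h2 : (2 : Ω) = 0 := by linear_combination hp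
  exact two_ne_zero h2

theorem coord_p4_ne [CharZero Ω] (p : Ω) (hp : p ^ 2 = p - 2) : p ^ 4 ≠ 1 := by
  intro h
  have h1 := coord_p4 p hp
  have h2 : 3 * p = 1 := by linear_combination h1 - h
  have h3 : (16 : Ω) = 0 := by
    linear_combination 9 * hp + (-3 * p + 2) * h2
  exact (by norm_num : (16 : Ω) ≠ 0) h3

theorem coord_eq (p z y : Ω) : (cv p).Equation z y ↔ OnC p z y := by
  rw [WeierstrassCurve.Affine.equation_iff]
  simp only [cv, OnC]
  constructor
  · intro h
    linear_combination h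
  · intro h
    linear_combination h

theorem coord_ns [CharZero Ω] (p : Ω) (hp : p ^ 2 = p - 2) (z y : Ω) (h : OnC p z y) :
    (cv p).Nonsingular z y := by
  rw [WeierstrassCurve.Affine.nonsingular_iff]
  refine ⟨(coord_eq p z y).2 h, ?_⟩
  by_contra hcon
  push Not at hcon
  obtain ⟨h1, h2⟩ := hcon
  simp only [cv] at h1 h2
  have hy : y = 0 := by
    have h3 : (2 : Ω) * y = 0 := by linear_combination h2
    exact (mul_eq_zero.1 h3).resolve_left two_ne_zero
  have h4 : 3 * z ^ 2 - 2 * (1 + p ^ 4) * z + p ^ 4 = 0 := by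
    linear_combination -h1
  have h5 : z * (z - 1) * (z - p ^ 4) = 0 := by
    rw [OnC, hy] at h
    rw [← h]
    ring
  have hp4 : p ^ 4 ≠ 0 := pow_ne_zero 4 (coord_p_ne p hp)
  have hp1 : p ^ 4 - 1 ≠ 0 := sub_ne_zero.2 (coord_p4_ne p hp)
  rcases mul_eq_zero.1 h5 with h6 | h6
  · rcases mul_eq_zero.1 h6 with h7 | h7
    · apply hp4
      rw [h7] at h4
      linear_combination h4
    · apply hp1
      have h8 : z = 1 := sub_eq_zero.1 h7
      rw [h8] at h4
      linear_combination -h4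
  · have h8 : z = p ^ 4 := sub_eq_zero.1 h6
    rw [h8] at h4
    have h9 : p ^ 4 * (p ^ 4 - 1) = 0 := by linear_combination h4
    rcases mul_eq_zero.1 h9 with h10 | h10
    · exact hp4 h10
    · exact hp1 h10

end coord

theorem p_coord (Ω : Type) [Field Ω] [DecidableEq Ω] [CharZero Ω] : S_coord Ω := by
  intro p hp
  refine ⟨?_, ?_, ?_, ?_, ?_, ?_, ?_⟩
  · intro z y h
    exact ⟨WeierstrassCurve.Affine.Point.some z y (coord_ns p hp z y h), coord_ns p hp z y h, rfl⟩
  · rintro P z y ⟨h, -⟩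
    exact (coord_eq p z y).1 h.1
  · intro P
    match P with
    | .zero => exact Or.inl rfl
    | .some z y h => exact Or.inr ⟨z, y, h, rfl⟩
  · rintro P z y z' y' ⟨h, h1⟩ ⟨h', h2⟩
    rw [h1] at h2
    injection h2 with h3 h4
    exact ⟨h3, h4⟩
  · rintro P Q z y ⟨h, h1⟩ ⟨h', h2⟩
    rw [h1, h2]
  · rintro z y ⟨h, h1⟩
    exact WeierstrassCurve.Affine.Point.some_ne_zero h h1.symm
  · rintro P z y ⟨h, h1⟩
    have h2 : (cv p).negY z y = -y := by
      simp [WeierstrassCurve.Affine.negY, cv]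
    have h3 : (cv p).Nonsingular z (-y) := by
      rw [← h2]
      exact (WeierstrassCurve.Affine.nonsingular_neg z y).2 h
    refine ⟨h3, ?_⟩
    rw [h1, WeierstrassCurve.Affine.Point.neg_some]
    congr 1

end Pool.Agent.Lib.MP_869d3b_nt
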