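import Pool.Agent.Lib.MP_869d3b_nt.StmE

/-!
# MP_869d3b_nt, piece [E desc]
-/

set_option autoImplicit false

namespace Pool.Agent.Lib.MP_869d3b_nt

theorem p_desc (Ω : Type) [Field Ω] [DecidableEq Ω] [CharZero Ω] (h1 : S_coord Ω)
    (h2 : S_add Ω) (h3 : S_coll1 Ω) (h4 : S_descOne Ω) (h5 : S_rat Ω) : S_desc Ω := by
  intro p hp φ hφ F hpF P Q z1 y1 z2 y2 hP hQ h h'
  obtain ⟨_, _, c3, _, _, c6, _⟩ := h1 p hp
  obtain ⟨hadd, _, hzero, _, _, _⟩ := h5 p hp F hpF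
  obtain ⟨_, a2, _⟩ := h2 p hp P Q z1 y1 z2 y2 h h'
  obtain ⟨m1, n1⟩ := hP z1 y1 h
  obtain ⟨m2, n2⟩ := hQ z2 y2 h'
  have key : ∀ z3 y3 : Ω, HasC (P + Q) z3 y3 → ∃ c ∈ F, z1 * z2 * z3 = c ^ 2 := by
    intro z3 y3 hR
    obtain ⟨l, c, ⟨r1, r2, r3⟩, s1, s2, _⟩ := h3 p hp P Q z1 y1 z2 y2 z3 y3 h h' hR
    have hc : c = y1 - l * z1 := by rw [s1]; ring
    have hl : l ∈ F := by
      by_cases hz : z1 = z2
      · have hyy : y1 = y2 := by rw [s1, s2, hz]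
        have hy0 : y1 ≠ 0 := by
          intro h0
          have hy : y1 = -y2 := by rw [← hyy, h0, neg_zero]
          have h00 := a2 hz hy
          rw [h00] at hR
          exact c6 _ _ hR
        have hl2 : l * (2 * y1) = 3 * z1 ^ 2 - 2 * (1 + p ^ 4) * z1 + p ^ 4 := by
          rw [← hz] at r1 r2
          rw [hc] at r2
          linear_combination r2 - 2 * z1 * r1
        have hl3 : l = (3 * z1 ^ 2 - 2 * (1 + p ^ 4) * z1 + p ^ 4) / (2 * y1) := by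
          rw [eq_div_iff (mul_ne_zero two_ne_zero hy0), hl2]
        rw [hl3]
        apply_rules [add_mem, sub_mem, mul_mem, div_mem, pow_mem, neg_mem, one_mem, ofNat_mem]
      · have hl3 : l = (y1 - y2) / (z1 - z2) := by
          rw [eq_div_iff (sub_ne_zero.2 hz), s1, s2]; ring
        rw [hl3]
        exact F.div_mem (F.sub_mem n1 n2) (F.sub_mem m1 m2)
    refine ⟨c, ?_, r3⟩
    rw [hc]
    exact F.sub_mem n1 (F.mul_mem hl m1)
  refine ⟨key, ?_⟩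
  intro w hw hw0 hzz
  rcases c3 (P + Q) with h0 | ⟨z3, y3, hR⟩
  · exact ⟨0, hzero, by rw [h0, map_zero]⟩
  · obtain ⟨c, hc, hcc⟩ := key z3 y3 hR
    refine h4 p hp φ hφ F hpF (P + Q) z3 y3 (c / w) (hadd P Q hP hQ) hR (F.div_mem hc hw) ?_
    rw [div_pow, eq_div_iff (pow_ne_zero 2 hw0), ← hcc, ← hzz]
    ring

end Pool.Agent.Lib.MP_869d3b_nt
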