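import Pool.Agent.Lib.MP_869d3b_nt.StmE

set_option autoImplicit false

namespace Pool.Agent.Lib.MP_869d3b_nt

section DescOne

variable (Ω : Type) [Field Ω] [DecidableEq Ω] [CharZero Ω]

theorem p_descOne (h1 : S_coord Ω) (h2 : S_ker Ω) (h3 : S_half Ω) : S_descOne Ω := by
  intro p hp φ hφ F hpF R a b w hRat hR hw haw
  obtain ⟨c1, c2, c3, c4, c5, c6, c7⟩ := h1 p hp
  have haF : a ∈ F := (hRat a b hR).1
  have hbF : b ∈ F := (hRat a b hR).2
  by_cases hw0 : w = 0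
  · subst hw0
    have ha0 : a = 0 := by rw [haw]; ring
    subst ha0
    have h4 := c2 R 0 b hR
    unfold OnC at h4
    have hb0 : b = 0 := by
      have : b ^ 2 = 0 := by rw [h4]; ring
      exact pow_eq_zero_iff (two_ne_zero) |>.1 this
    subst hb0
    exact ⟨R, hRat, (h2 p hp φ hφ).2.2.1 R hR⟩
  · obtain ⟨S, hS, hSc⟩ := h3 p hp φ hφ R a b w hR haw.symm hw0
    have h2F : (2 : Ω) ∈ F := by
      have := natCast_mem F 2
      simpa using this
    have h1F : (1 : Ω) ∈ F := F.one_mem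
    have hzF : p ^ 2 / 2 * (p ^ 2 + w ^ 2 - b / w) ∈ F :=
      F.mul_mem (F.div_mem (F.pow_mem hpF 2) h2F)
        (F.sub_mem (F.add_mem (F.pow_mem hpF 2) (F.pow_mem hw 2)) (F.div_mem hbF hw))
    refine ⟨S, ?_, hS⟩
    intro z y hzy
    obtain ⟨e1, e2⟩ := c4 S _ _ _ _ hSc hzy
    rw [← e1, ← e2]
    exact ⟨hzF, F.mul_mem (F.mul_mem hpF hw) (F.sub_mem hzF h1F)⟩

end DescOne

end Pool.Agent.Lib.MP_869d3b_nt
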