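import Pool.Agent.Lib.MP_869d3b_nt.StmE

/-!
# MP_869d3b_nt: the function `φ` exists
-/

set_option autoImplicit false

namespace Pool.Agent.Lib.MP_869d3b_nt

private theorem fun_onC {Ω : Type} [Field Ω] [CharZero Ω] (p z y : Ω) (hp : p ^ 2 = p - 2)
    (h : OnC p z y) (hz : z ≠ 1) : OnC p (fZ Ω p z) (fY Ω p z y) := by
  have hp0 : p ≠ 0 := by
    rintro rfl
    have h2 : (2 : Ω) = 0 := by linear_combination hp
    exact two_ne_zero h2
  have hX : z - 1 ≠ 0 := sub_ne_zero.2 hz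
  have hAB : (z * (z - p ^ 4) - p ^ 2 * (z - 1)) * (z * (z - p ^ 4) - p ^ 6 * (z - 1)) =
      ((1 - p) ^ 4 - (z - 1) ^ 2) ^ 2 := by
    have h4 : p ^ 4 = -3 * p + 2 := by linear_combination (p ^ 2 + p - 1) * hp
    have h6 : p ^ 6 = 5 * p + 2 := by
      linear_combination (p ^ 4 + p ^ 3 - p ^ 2 - 3 * p - 1) * hp
    have hm : (1 - p) ^ 4 = 3 * p - 1 := by
      linear_combination (p ^ 2 - 3 * p + 1) * hp
    rw [h4, h6, hm, hp]
    linear_combination (-4 * (z - 1) ^ 2) * hp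
  have e1 : fZ Ω p z - 1 = (z * (z - p ^ 4) - p ^ 2 * (z - 1)) / (p ^ 2 * (z - 1)) := by
    unfold fZ
    field_simp
  have e2 : fZ Ω p z - p ^ 4 = (z * (z - p ^ 4) - p ^ 6 * (z - 1)) / (p ^ 2 * (z - 1)) := by
    unfold fZ
    field_simp
    try ring
  unfold OnC at h ⊢
  rw [e1, e2]
  have e3 : fY Ω p z y ^ 2 = y ^ 2 * ((1 - p) ^ 4 - (z - 1) ^ 2) ^ 2 / (p ^ 6 * (z - 1) ^ 4) := by
    unfold fY
    rw [div_pow, mul_pow, mul_pow, ← pow_mul, ← pow_mul]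
  rw [e3, h, ← hAB]
  unfold fZ
  rw [div_mul_div_comm, div_mul_div_comm, div_eq_div_iff (mul_ne_zero (pow_ne_zero _ hp0) (pow_ne_zero _ hX)) (by simp [hp0, hX])]
  ring

theorem p_fun (Ω : Type) [Field Ω] [DecidableEq Ω] [CharZero Ω] (hc : S_coord Ω) : S_fun Ω := by
  intro p hp
  obtain ⟨hex, hon, hcase, huniq, heq, h0, hneg⟩ := hc p hp
  have hQ : ∀ P : Pt p, ∃ Q : Pt p, (P = 0 → Q = 0) ∧ (HasC P 1 0 → Q = 0) ∧
      ∀ z y : Ω, HasC P z y → z ≠ 1 → HasC Q (fZ Ω p z) (fY Ω p z y) := by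
    intro P
    rcases hcase P with rfl | ⟨z, y, hzy⟩
    · exact ⟨0, fun _ => rfl, fun _ => rfl, fun z y h _ => absurd h (h0 z y)⟩
    · by_cases hz : z = 1
      · exact ⟨0, fun _ => rfl, fun _ => rfl,
          fun z' y' h h' => absurd ((huniq P z' y' z y h hzy).1.trans hz) h'⟩
      · obtain ⟨Q, hQ⟩ := hex _ _ (fun_onC p z y hp (hon P z y hzy) hz)
        refine ⟨Q, fun h => ?_, fun h => ?_, fun z' y' h _ => ?_⟩
        · rw [h] at hzy
          exact absurd hzy (h0 z y)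
        · exact absurd (huniq P z y 1 0 hzy h).1 hz
        · obtain ⟨e1, e2⟩ := huniq P z' y' z y h hzy
          rw [e1, e2]
          exact hQ
  choose f hf using hQ
  exact ⟨f, (hf 0).1 rfl, fun P h => (hf P).2.1 h, fun P z y h h' => (hf P).2.2 z y h h'⟩

end Pool.Agent.Lib.MP_869d3b_nt
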