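import Pool.Agent.Lib.MP_869d3b_nt.StmE

set_option autoImplicit false

namespace Pool.Agent.Lib.MP_869d3b_nt

section HalfConv

variable (Ω : Type) [Field Ω] [DecidableEq Ω] [CharZero Ω]

private lemma halfConv_p0 {p : Ω} (hp : p ^ 2 = p - 2) : p ≠ 0 := by
  rintro rfl
  have h2 : (2 : Ω) ≠ 0 := two_ne_zero
  apply h2
  linear_combination hp

private lemma halfConv_p4 {p : Ω} (hp : p ^ 2 = p - 2) : p ^ 4 = -3 * p + 2 := by
  linear_combination (p ^ 2 + p - 1) * hp

private lemma halfConv_mu {p : Ω} (hp : p ^ 2 = p - 2) : (1 - p) ^ 4 = 1 - p ^ 4 := by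
  linear_combination (2 * p ^ 2 - 2 * p) * hp

theorem p_halfConv (h1 : S_coord Ω) (h2 : S_ker Ω) : S_halfConv Ω := by
  intro p hp φ hφ R S a b z y r hR hS hφS hr
  obtain ⟨c1, c2, c3, c4, c5, c6, c7⟩ := h1 p hp
  have hp0 : p ≠ 0 := halfConv_p0 Ω hp
  have hmu := halfConv_mu Ω hp
  have h2Ω : (2 : Ω) ≠ 0 := two_ne_zero
  have hz : z ≠ 1 := by
    rintro rfl
    have h3 := c2 S 1 y hS
    unfold OnC at h3
    have hy : y = 0 := by
      have : y ^ 2 = 0 := by rw [h3]; ring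
      exact pow_eq_zero_iff (two_ne_zero) |>.1 this
    subst hy
    have h0 := hφ.one S hS
    rw [hφS] at h0
    rw [h0] at hR
    exact c6 _ _ hR
  have hX : z - 1 ≠ 0 := sub_ne_zero.2 hz
  have h3 := c2 S z y hS
  unfold OnC at h3
  have h4 := hφ.aff S z y hS hz
  rw [hφS] at h4
  obtain ⟨ha, hb⟩ := c4 R a b _ _ hR h4
  have hr2 : r ^ 2 = a := by
    rw [hr, ha]
    field_simp
    linear_combination h3
  have hy : y = p * r * (z - 1) := by
    rw [hr]; field_simp
  have hrel : z * (z - p ^ 4) = p ^ 2 * r ^ 2 * (z - 1) := by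
    have : z * (z - p ^ 4) * (z - 1) = p ^ 2 * r ^ 2 * (z - 1) * (z - 1) := by
      linear_combination -h3 + (y + p * r * (z - 1)) * hy
    exact mul_right_cancel₀ hX this
  refine ⟨hz, hr2, ?_, ?_⟩
  · intro hr0
    refine ⟨?_, hy⟩
    have hb2 : b * (p ^ 2 * (z - 1)) = r * ((1 - p) ^ 4 - (z - 1) ^ 2) := by
      rw [hb, hy]
      field_simp
    have hb3 : b * p ^ 2 = r * (p ^ 4 + p ^ 2 * r ^ 2 - 2 * z) := by
      have : b * p ^ 2 * (z - 1) = r * (p ^ 4 + p ^ 2 * r ^ 2 - 2 * z) * (z - 1) := by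
        linear_combination hb2 + r * hmu + r * hrel
      exact mul_right_cancel₀ hX this
    field_simp
    linear_combination hb3
  · intro hr0
    subst hr0
    have hy0 : y = 0 := by rw [hy]; ring
    refine ⟨?_, hy0, ?_⟩
    · rw [hb, hy0]; simp
    · have : z * (z - p ^ 4) = 0 := by rw [hrel]; ring
      rcases mul_eq_zero.1 this with h | h
      · exact Or.inl h
      · exact Or.inr (sub_eq_zero.1 h)

end HalfConv

end Pool.Agent.Lib.MP_869d3b_nt
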