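import Pool.Agent.Lib.MP_869d3b_nt.StmE

set_option autoImplicit false

namespace Pool.Agent.Lib.MP_869d3b_nt

section Ker

variable (Ω : Type) [Field Ω] [DecidableEq Ω] [CharZero Ω]

private lemma ker_p0 {p : Ω} (hp : p ^ 2 = p - 2) : p ≠ 0 := by
  rintro rfl
  have h2 : (2 : Ω) ≠ 0 := two_ne_zero
  apply h2
  linear_combination hp

private lemma ker_p4 {p : Ω} (hp : p ^ 2 = p - 2) : p ^ 4 = -3 * p + 2 := by
  linear_combination (p ^ 2 + p - 1) * hp

private lemma ker_p41 {p : Ω} (hp : p ^ 2 = p - 2) : p ^ 4 ≠ 1 := by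
  intro h
  have h4 := ker_p4 Ω hp
  have h3 : 3 * p = 1 := by linear_combination h4 - h
  have h16 : (16 : Ω) = 0 := by linear_combination 9 * hp - (3 * p - 2) * h3
  norm_num at h16

theorem p_ker (h1 : S_coord Ω) (h2 : S_add Ω) : S_ker Ω := by
  intro p hp φ hφ
  obtain ⟨c1, c2, c3, c4, c5, c6, c7⟩ := h1 p hp
  have hp0 : p ≠ 0 := ker_p0 Ω hp
  have hp41 : p ^ 4 ≠ 1 := ker_p41 Ω hp
  have h2Ω : (2 : Ω) ≠ 0 := two_ne_zero
  refine ⟨?_, ?_, ?_, ?_, ?_⟩
  · intro P
    constructor
    · intro h0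
      rcases c3 P with h | ⟨z, y, hP⟩
      · exact Or.inl h
      · right
        by_cases hz : z = 1
        · subst hz
          have h3 := c2 P 1 y hP
          unfold OnC at h3
          have hy : y = 0 := by
            have : y ^ 2 = 0 := by rw [h3]; ring
            exact pow_eq_zero_iff (two_ne_zero) |>.1 this
          subst hy
          exact hP
        · exfalso
          have h3 := hφ.aff P z y hP hz
          rw [h0] at h3
          exact c6 _ _ h3
    · rintro (h | h)
      · rw [h, map_zero]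
      · exact hφ.one P h
  · rintro P (h | h)
    · have h3 := hφ.aff P 0 0 h zero_ne_one
      have e1 : (0 : Ω) * (0 - p ^ 4) / (p ^ 2 * (0 - 1)) = 0 := by rw [zero_mul, zero_div]
      have e2 : (0 : Ω) * ((1 - p) ^ 4 - (0 - 1) ^ 2) / (p ^ 3 * (0 - 1) ^ 2) = 0 := by
        rw [zero_mul, zero_div]
      rw [e1, e2] at h3
      exact h3
    · have h3 := hφ.aff P (p ^ 4) 0 h hp41
      have e1 : (p ^ 4) * (p ^ 4 - p ^ 4) / (p ^ 2 * (p ^ 4 - 1)) = 0 := by
        rw [sub_self, mul_zero, zero_div]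
      have e2 : (0 : Ω) * ((1 - p) ^ 4 - (p ^ 4 - 1) ^ 2) / (p ^ 3 * (p ^ 4 - 1) ^ 2) = 0 := by
        rw [zero_mul, zero_div]
      rw [e1, e2] at h3
      exact h3
  · intro P h
    have h3 := hφ.aff P 0 0 h zero_ne_one
    have e1 : (0 : Ω) * (0 - p ^ 4) / (p ^ 2 * (0 - 1)) = 0 := by rw [zero_mul, zero_div]
    have e2 : (0 : Ω) * ((1 - p) ^ 4 - (0 - 1) ^ 2) / (p ^ 3 * (0 - 1) ^ 2) = 0 := by
      rw [zero_mul, zero_div]
    rw [e1, e2] at h3
    exact c5 _ _ _ _ h3 h
  · intro P h
    rcases c3 P with h0 | ⟨z, y, hP⟩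
    · exact Or.inl h0
    · right
      have hneg : P = -P := eq_neg_of_add_eq_zero_left h
      have h4 := c7 P z y hP
      rw [← hneg] at h4
      have hy := (c4 P z y z (-y) hP h4).2
      have hy0 : y = 0 := by
        have : 2 * y = 0 := by linear_combination hy
        rcases mul_eq_zero.1 this with h | h
        · exact absurd h h2Ω
        · exact h
      subst hy0
      have h3 := c2 P z 0 hP
      unfold OnC at h3
      have h5 : z * (z - 1) * (z - p ^ 4) = 0 := by rw [← h3]; ring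
      rcases mul_eq_zero.1 h5 with h6 | h6
      · rcases mul_eq_zero.1 h6 with h7 | h7
        · subst h7
          exact Or.inr (Or.inl hP)
        · have h8 : z = 1 := sub_eq_zero.1 h7
          subst h8
          exact Or.inl hP
      · have h8 : z = p ^ 4 := sub_eq_zero.1 h6
        subst h8
        exact Or.inr (Or.inr hP)
  · intro T hT
    refine ⟨?_, ?_⟩
    · intro h0
      rw [h0] at hT
      exact c6 _ _ hT
    · exact (h2 p hp T T 1 0 1 0 hT hT).2.1 rfl (by simp)

end Ker

end Pool.Agent.Lib.MP_869d3b_nt
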