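import Pool.Agent.Lib.MP_869d3b_nt.StmE

/-!
# MP_869d3b_nt, [E kerPow]: the kernels of the powers of `φ`
-/

set_option autoImplicit false

namespace Pool.Agent.Lib.MP_869d3b_nt

theorem p_kerPow (Ω : Type) [Field Ω] [DecidableEq Ω] [CharZero Ω] (hco : S_coord Ω)
    (hke : S_ker Ω) : S_kerPow Ω := by
  intro p hp φ hφ t ht
  obtain ⟨k1, k2, k3, k4, k5⟩ := hke p hp φ hφ
  obtain ⟨_, _, _, c4, c5, _, _⟩ := hco p hp
  obtain ⟨hT0, hTT⟩ := k5 (t 1) ht.one
  have hk : ∀ P : Pt p, φ P = 0 → P = 0 ∨ P = t 1 := by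
    intro P hP
    rcases (k1 P).1 hP with h | h
    · exact Or.inl h
    · exact Or.inr (c5 P (t 1) 1 0 h ht.one)
  have hφ1 : φ (t 1) = 0 := by rw [ht.step 0, ht.zero]
  have hTT' : (2 : ℤ) • t 1 = 0 := by rw [two_zsmul, hTT]
  -- (1)
  have h1 : ∀ n : ℕ, (2 ^ n : ℤ) • t (n + 1) = t 1 := by
    intro n
    induction n with
    | zero => simp
    | succ n ih =>
      have e1 : φ ((2 ^ (n + 1) : ℤ) • t (n + 1 + 1)) = 0 := by
        rw [map_zsmul, ht.step, pow_succ, mul_comm, mul_zsmul, ih, hTT']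
      rcases hk _ e1 with h | h
      · exfalso
        have e2 : φ ((2 ^ n : ℤ) • t (n + 1 + 1)) = t 1 := by
          rw [map_zsmul, ht.step, ih]
        have e3 : (2 ^ n : ℤ) • t (n + 1 + 1) + (2 ^ n : ℤ) • t (n + 1 + 1) = 0 := by
          rw [← add_zsmul, ← h]
          congr 1
          ring
        have e4 : ¬ HasC (φ ((2 ^ n : ℤ) • t (n + 1 + 1))) 0 0 := by
          intro h0
          rw [e2] at h0
          exact zero_ne_one (c4 (t 1) 0 0 1 0 h0 ht.one).1
        rcases k4 _ e3 with h0 | h0 | h0 | h0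
        · rw [h0, map_zero] at e2
          exact hT0 e2.symm
        · have h5 := c5 _ (t 1) 1 0 h0 ht.one
          rw [h5, hφ1] at e2
          exact hT0 e2.symm
        · exact e4 (k2 _ (Or.inl h0))
        · exact e4 (k2 _ (Or.inr h0))
      · exact h
  -- (2)
  have h2 : ∀ n : ℕ, (2 ^ n : ℤ) • t n = 0 := by
    intro n
    cases n with
    | zero => rw [ht.zero, smul_zero]
    | succ n => rw [pow_succ, mul_comm, mul_zsmul, h1, hTT']
  refine ⟨?_, ?_, h2, h1, ?_⟩
  · intro n
    induction n with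
    | zero =>
      intro P hP
      refine ⟨0, ?_⟩
      rw [zero_zsmul]
      exact hP
    | succ n ih =>
      intro P hP
      rw [Function.iterate_succ_apply] at hP
      obtain ⟨j, hj⟩ := ih _ hP
      have e1 : φ (P - j • t (n + 1)) = 0 := by
        rw [map_sub, map_zsmul, ht.step, hj, sub_self]
      rcases hk _ e1 with h | h
      · exact ⟨j, sub_eq_zero.1 h⟩
      · refine ⟨2 ^ n + j, ?_⟩
        rw [add_zsmul, h1, ← h, sub_add_cancel]
  · intro n
    induction n with
    | zero => exact ht.zero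
    | succ n ih => rw [Function.iterate_succ_apply, ht.step, ih]
  · intro n
    induction n with
    | zero =>
      intro j _
      simp
    | succ n ih =>
      intro j hj
      have e1 : j • t n = 0 := by
        rw [← ht.step n, ← map_zsmul, hj, map_zero]
      obtain ⟨m, hm⟩ := ih j e1
      have e2 : m • t 1 = 0 := by
        rw [← h1 n, ← mul_zsmul, mul_comm, ← hm, hj]
      rcases Int.even_or_odd' m with ⟨c, hc | hc⟩
      · refine ⟨c, ?_⟩
        rw [hm, hc, pow_succ, mul_assoc]
      · exfalso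
        rw [hc, add_zsmul, one_zsmul, mul_comm, mul_zsmul, hTT', smul_zero, zero_add] at e2
        exact hT0 e2

end Pool.Agent.Lib.MP_869d3b_nt
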