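import Pool.Agent.Lib.MP_869d3b_nt.StmE

/-!
# MP_869d3b_nt: `f (-P) = - f P` and `f (P + T) = f P`
-/

set_option autoImplicit false

namespace Pool.Agent.Lib.MP_869d3b_nt

section alg

variable {Ω : Type} [Field Ω]

private theorem negT_p0 [CharZero Ω] (p : Ω) (hp : p ^ 2 = p - 2) : p ≠ 0 := by
  rintro rfl
  have h2 : (2 : Ω) = 0 := by linear_combination hp
  exact two_ne_zero h2

private theorem negT_m0 [CharZero Ω] (p : Ω) (hp : p ^ 2 = p - 2) : (1 - p) ^ 4 ≠ 0 := by
  intro h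
  have h1 : 1 - p = 0 := by simpa using h
  have h2 : p = 1 := by linear_combination -h1
  rw [h2] at hp
  have h3 : (2 : Ω) = 0 := by linear_combination hp
  exact two_ne_zero h3

private theorem negT_p4 (p : Ω) (hp : p ^ 2 = p - 2) : p ^ 4 = 1 - (1 - p) ^ 4 := by
  linear_combination (2 * p ^ 2 - 2 * p) * hp

/-- the abscissa of `P + T` -/
private theorem negT_z (p m z y : Ω) (h4 : p ^ 4 = 1 - m) (h : OnC p z y) (hz : z ≠ 1) :
    ((y - 0) / (z - 1)) ^ 2 + 1 + p ^ 4 - z - 1 = 1 + m / (z - 1) := by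
  have hX : z - 1 ≠ 0 := sub_ne_zero.2 hz
  unfold OnC at h
  rw [sub_zero, div_pow, h, h4]
  field_simp
  ring

/-- the ordinate of `P + T` -/
private theorem negT_y (m z y : Ω) (hz : z ≠ 1) :
    -((y - 0) / (z - 1) * ((1 + m / (z - 1)) - z) + y) = -(m * y) / (z - 1) ^ 2 := by
  have hX : z - 1 ≠ 0 := sub_ne_zero.2 hz
  field_simp
  ring

private theorem negT_fZ (p m z : Ω) (hp0 : p ≠ 0) (h4 : p ^ 4 = 1 - m) (hm0 : m ≠ 0)
    (hz : z ≠ 1) : fZ Ω p (1 + m / (z - 1)) = fZ Ω p z := by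
  have hX : z - 1 ≠ 0 := sub_ne_zero.2 hz
  unfold fZ
  rw [h4, add_sub_cancel_left]
  field_simp
  ring

private theorem negT_fY (p m z y : Ω) (hp0 : p ≠ 0) (hm : (1 - p) ^ 4 = m) (hm0 : m ≠ 0)
    (hz : z ≠ 1) : fY Ω p (1 + m / (z - 1)) (-(m * y) / (z - 1) ^ 2) = fY Ω p z y := by
  have hX : z - 1 ≠ 0 := sub_ne_zero.2 hz
  unfold fY
  rw [hm, add_sub_cancel_left]
  field_simp
  ring

private theorem negT_neg (p z y : Ω) : fY Ω p z (-y) = -fY Ω p z y := by
  unfold fY
  ring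

end alg

theorem p_negT (Ω : Type) [Field Ω] [DecidableEq Ω] [CharZero Ω] (hc : S_coord Ω)
    (ha : S_add Ω) : S_negT Ω := by
  intro p hp f hf
  obtain ⟨hex, hon, hcase, huniq, heq, h0, hneg⟩ := hc p hp
  have hp0 := negT_p0 p hp
  have hm0 := negT_m0 p hp
  have h4 := negT_p4 p hp
  have hy1 : ∀ (P : Pt p) (y : Ω), HasC P 1 y → y = 0 := by
    intro P y h
    have h1 := hon P 1 y h
    unfold OnC at h1
    rw [sub_self, mul_zero, zero_mul] at h1
    exact pow_eq_zero_iff (two_ne_zero) |>.1 h1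
  constructor
  · intro P
    rcases hcase P with rfl | ⟨z, y, hzy⟩
    · rw [neg_zero, hf.zero, neg_zero]
    · by_cases hz : z = 1
      · subst hz
        have hy := hy1 P y hzy
        subst hy
        have h1 := hneg P 1 0 hzy
        rw [neg_zero] at h1
        rw [hf.one P hzy, hf.one (-P) h1, neg_zero]
      · have h1 := hf.aff _ _ _ (hneg P z y hzy) hz
        rw [negT_neg] at h1
        exact heq _ _ _ _ h1 (hneg _ _ _ (hf.aff _ _ _ hzy hz))
  · intro P T hT
    rcases hcase P with rfl | ⟨z, y, hzy⟩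
    · rw [zero_add, hf.zero, hf.one T hT]
    · by_cases hz : z = 1
      · subst hz
        have hy := hy1 P y hzy
        subst hy
        have h1 := (ha p hp P T 1 0 1 0 hzy hT).2.1 rfl neg_zero.symm
        rw [h1, hf.zero, hf.one P hzy]
      · have h1 := (ha p hp P T z y 1 0 hzy hT).1 hz _ rfl
        rw [negT_z p _ z y h4 (hon P z y hzy) hz, negT_y _ z y hz] at h1
        have hz' : 1 + (1 - p) ^ 4 / (z - 1) ≠ 1 := by
          intro h
          have h2 : (1 - p) ^ 4 / (z - 1) = 0 := by linear_combination h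
          rcases div_eq_zero_iff.1 h2 with h3 | h3
          · exact hm0 h3
          · exact hz (sub_eq_zero.1 h3)
        have h2 := hf.aff _ _ _ h1 hz'
        rw [negT_fZ p _ z hp0 h4 hm0 hz, negT_fY p _ z y hp0 rfl hm0 hz] at h2
        exact heq _ _ _ _ h2 (hf.aff _ _ _ hzy hz)

end Pool.Agent.Lib.MP_869d3b_nt
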