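import Pool.Agent.Lib.MP_869d3b_nt.StmE

/-!
# MP_869d3b_nt, section 0: the endomorphism exists
-/

set_option autoImplicit false

namespace Pool.Agent.Lib.MP_869d3b_nt

theorem p_phi (Ω : Type) [Field Ω] [DecidableEq Ω] [CharZero Ω] (hcoord : S_coord Ω)
    (hadd : S_add Ω) (hc1 : S_coll1 Ω) (hc2 : S_coll2 Ω) (himg : S_collImg Ω) (hfun : S_fun Ω)
    (hnegT : S_negT Ω) : S_phi Ω := by
  intro p hp
  obtain ⟨c1, c2, c3, c4, c5, c6, c7⟩ := hcoord p hp
  obtain ⟨f, hf⟩ := hfun p hp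
  obtain ⟨n1, n2⟩ := hnegT p hp f hf
  obtain ⟨T, hT⟩ := c1 1 0 (by unfold OnC; ring)
  have fT : f T = 0 := hf.one T hT
  have hTT : T + T = 0 := (hadd p hp T T 1 0 1 0 hT hT).2.1 rfl neg_zero.symm
  have hcase : ∀ P : Pt p, P = 0 ∨ P = T ∨ ∃ z y : Ω, HasC P z y ∧ z ≠ 1 := by
    intro P
    rcases c3 P with h | ⟨z, y, h⟩
    · exact Or.inl h
    · by_cases hz : z = 1
      · subst hz
        have h1 := c2 P 1 y h
        unfold OnC at h1
        rw [sub_self, mul_zero, zero_mul] at h1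
        have h2 : y = 0 := pow_eq_zero_iff two_ne_zero |>.1 h1
        subst h2
        exact Or.inr (Or.inl (c5 P T 1 0 h hT))
      · exact Or.inr (Or.inr ⟨z, y, h, hz⟩)
  have hadd' : ∀ P Q : Pt p, f (P + Q) = f P + f Q := by
    intro P Q
    rcases hcase P with rfl | rfl | ⟨z1, y1, hP, hz1⟩
    · rw [zero_add, hf.zero, zero_add]
    · rw [add_comm, n2 Q _ hT, fT, zero_add]
    · rcases hcase Q with rfl | rfl | ⟨z2, y2, hQ, hz2⟩
      · rw [add_zero, hf.zero, add_zero]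
      · rw [n2 P _ hT, fT, add_zero]
      · rcases hcase (P + Q) with h | h | ⟨z3, y3, hR, hz3⟩
        · have h1 : Q = -P := (neg_eq_of_add_eq_zero_right h).symm
          rw [h, hf.zero, h1, n1, add_neg_cancel]
        · have h1 : Q = -P + T := by rw [← h, neg_add_cancel_left]
          rw [h, fT, h1, n2 (-P) T hT, n1, add_neg_cancel]
        · obtain ⟨l, c, hC, e1, e2, e3⟩ := hc1 p hp P Q z1 y1 z2 y2 z3 y3 hP hQ hR
          obtain ⟨l', c', hC', g1, g2, g3⟩ := himg p l c z1 z2 z3 hp hC hz1 hz2 hz3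
          have k1 := hf.aff P z1 y1 hP hz1
          have k2 := hf.aff Q z2 y2 hQ hz2
          have k3 := hf.aff (P + Q) z3 y3 hR hz3
          have hodd : fY Ω p z3 y3 = -fY Ω p z3 (-y3) := by
            unfold fY
            ring
          rw [e1, g1] at k1
          rw [e2, g2] at k2
          rw [hodd, e3, g3] at k3
          exact (hc2 p hp (f P) (f Q) (f (P + Q)) l' c' _ _ _ hC' k1 k2 k3).symm
  exact ⟨AddMonoidHom.mk' f hadd', hf.one, hf.aff⟩

end Pool.Agent.Lib.MP_869d3b_nt
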