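import Pool.Agent.Lib.MP_869d3b_nt.StmE

/-!
# MP_869d3b_nt, piece [E rat]
-/

set_option autoImplicit false

namespace Pool.Agent.Lib.MP_869d3b_nt

theorem p_rat (Ω : Type) [Field Ω] [DecidableEq Ω] [CharZero Ω] (h1 : S_coord Ω)
    (h2 : S_add Ω) : S_rat Ω := by
  intro p hp F hpF
  obtain ⟨_, c2, c3, c4, _, c6, c7⟩ := h1 p hp
  have hof : ∀ (P : Pt p) (z y : Ω), HasC P z y → z ∈ F → y ∈ F → Rat F P := by
    intro P z y h hz hy z' y' h'
    obtain ⟨e, e'⟩ := c4 _ _ _ _ _ h h'
    rw [← e, ← e']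
    exact ⟨hz, hy⟩
  have hzero : Rat F (0 : Pt p) := fun z y h => absurd h (c6 z y)
  have hneg : ∀ P : Pt p, Rat F P → Rat F (-P) := by
    intro P hP
    rcases c3 P with h | ⟨z, y, h⟩
    · rw [h, neg_zero]; exact hzero
    · exact hof _ _ _ (c7 _ _ _ h) (hP z y h).1 (F.neg_mem (hP z y h).2)
  have hadd : ∀ P Q : Pt p, Rat F P → Rat F Q → Rat F (P + Q) := by
    intro P Q hP hQ
    rcases c3 P with h | ⟨z1, y1, h⟩
    · rw [h, zero_add]; exact hQ
    rcases c3 Q with h' | ⟨z2, y2, h'⟩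
    · rw [h', add_zero]; exact hP
    obtain ⟨a1, a2, a3⟩ := h2 p hp P Q z1 y1 z2 y2 h h'
    obtain ⟨m1, n1⟩ := hP z1 y1 h
    obtain ⟨m2, n2⟩ := hQ z2 y2 h'
    have e1 : y1 ^ 2 = z1 * (z1 - 1) * (z1 - p ^ 4) := c2 P z1 y1 h
    have e2 : y2 ^ 2 = z2 * (z2 - 1) * (z2 - p ^ 4) := c2 Q z2 y2 h'
    by_cases hz : z1 = z2
    · by_cases hy : y1 = -y2
      · rw [a2 hz hy]; exact hzero
      · have hyy : y1 = y2 := by
          have h0 : (y1 - y2) * (y1 + y2) = 0 := by
            rw [← hz] at e2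
            linear_combination e1 - e2
          rcases mul_eq_zero.1 h0 with h | h
          · exact sub_eq_zero.1 h
          · exact absurd (eq_neg_of_add_eq_zero_left h) hy
        have hy0 : y1 ≠ 0 := by
          intro h0
          rw [h0] at hyy
          exact hy (by rw [h0, ← hyy, neg_zero])
        have hl : (3 * z1 ^ 2 - 2 * (1 + p ^ 4) * z1 + p ^ 4) / (2 * y1) ∈ F := by
          apply_rules [add_mem, sub_mem, mul_mem, div_mem, pow_mem, neg_mem, one_mem, ofNat_mem]
        refine hof _ _ _ (a3 hz hyy hy0 _ rfl) ?_ ?_ <;>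
          apply_rules [add_mem, sub_mem, mul_mem, div_mem, pow_mem, neg_mem, one_mem, ofNat_mem]
    · refine hof _ _ _ (a1 hz _ rfl) ?_ ?_ <;>
        apply_rules [add_mem, sub_mem, mul_mem, div_mem, pow_mem, neg_mem, one_mem, ofNat_mem]
  have hphi : ∀ (φ : Pt p →+ Pt p), IsPhi p φ → ∀ P : Pt p, Rat F P → Rat F (φ P) := by
    intro φ hφ P hP
    rcases c3 P with h | ⟨z, y, h⟩
    · rw [h, map_zero]; exact hzero
    · obtain ⟨m, n⟩ := hP z y h
      by_cases hz : z = 1
      · have e : y ^ 2 = z * (z - 1) * (z - p ^ 4) := c2 P z y h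
        have hy : y = 0 := by
          rw [hz] at e
          have : y ^ 2 = 0 := by linear_combination e
          exact pow_eq_zero_iff (two_ne_zero) |>.1 this
        rw [hz, hy] at h
        rw [hφ.one P h]; exact hzero
      · refine hof _ _ _ (hφ.aff P z y h hz) ?_ ?_ <;>
          apply_rules [add_mem, sub_mem, mul_mem, div_mem, pow_mem, neg_mem, one_mem, ofNat_mem]
  refine ⟨hadd, hneg, hzero, ?_, hphi, ?_⟩
  · intro n P hP
    let G : AddSubgroup (Pt p) :=
      { carrier := {P | Rat F P}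
        add_mem' := fun {a b} ha hb => hadd a b ha hb
        zero_mem' := hzero
        neg_mem' := fun {a} ha => hneg a ha }
    exact G.zsmul_mem (x := P) hP n
  · intro φ hφ n
    induction n with
    | zero => intro P hP; exact hP
    | succ n ih =>
      intro P hP
      rw [Function.iterate_succ_apply']
      exact hphi φ hφ _ (ih P hP)

end Pool.Agent.Lib.MP_869d3b_nt
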