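import Pool.Agent.Lib.MP_869d3b_nt.StmE

set_option autoImplicit false

namespace Pool.Agent.Lib.MP_869d3b_nt

theorem p_surj (Ω : Type) [Field Ω] [DecidableEq Ω] [CharZero Ω] (hc : S_coord Ω)
    (hk : S_ker Ω) (hh : S_half Ω) : S_surj Ω := by
  intro hac p hp φ hφ R
  obtain ⟨-, h2, h3, -⟩ := hc p hp
  obtain ⟨-, -, k3, -⟩ := hk p hp φ hφ
  rcases h3 R with rfl | ⟨a, b, hR⟩
  · exact ⟨0, map_zero φ⟩
  · by_cases ha : a = 0
    · subst ha
      have hb : b ^ 2 = 0 * (0 - 1) * (0 - p ^ 4) := h2 R 0 b hR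
      have hb0 : b = 0 := by
        rw [zero_mul, zero_mul] at hb
        exact pow_eq_zero_iff (two_ne_zero) |>.1 hb
      subst hb0
      exact ⟨R, k3 R hR⟩
    · obtain ⟨r, hr⟩ := IsAlgClosed.exists_pow_nat_eq a (n := 2) (by norm_num)
      have hr0 : r ≠ 0 := by
        rintro rfl
        exact ha (by rw [← hr]; ring)
      obtain ⟨S, hS, -⟩ := hh p hp φ hφ R a b r hR hr hr0
      exact ⟨S, hS⟩

end Pool.Agent.Lib.MP_869d3b_nt
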