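import Pool.Agent.Lib.MP_869d3b_nt.StmE

/-!
# MP_869d3b_nt, [E tower]: a compatible system of generators
-/

set_option autoImplicit false

namespace Pool.Agent.Lib.MP_869d3b_nt

theorem p_tower (Ω : Type) [Field Ω] [DecidableEq Ω] [CharZero Ω] (hco : S_coord Ω)
    (hsu : S_surj Ω) : S_tower Ω := by
  intro hac p hp φ hφ
  obtain ⟨c1, _, _, _, c5, _, _⟩ := hco p hp
  have hsurj := hsu hac p hp φ hφ
  have hp0 : p ≠ 0 := by
    intro h
    rw [h] at hp
    norm_num at hp
  have hp1 : p + 1 ≠ 0 := by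
    intro h
    have e : p = -1 := eq_neg_of_add_eq_zero_left h
    rw [e] at hp
    norm_num at hp
  have hp3 : p ^ 3 = -p - 2 := by
    have e : p ^ 3 = p * p ^ 2 := by ring
    rw [e, hp]
    linear_combination hp
  have hp4 : p ^ 4 = -3 * p + 2 := by
    have e : p ^ 4 = p * p ^ 3 := by ring
    rw [e, hp3]
    linear_combination -hp
  obtain ⟨T, hT⟩ := c1 1 0 (by unfold OnC; ring)
  obtain ⟨T2, hT2⟩ := c1 (-p) (p * (1 + p)) (by
    unfold OnC
    rw [hp4]
    linear_combination (p ^ 2 + 2 * p + 1) * hp - hp3)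
  have e1 : φ T2 = T := by
    have h := hφ.aff T2 (-p) (p * (1 + p)) hT2 (by
      intro h
      apply hp1
      linear_combination -h)
    have hz : (-p) * ((-p) - p ^ 4) / (p ^ 2 * ((-p) - 1)) = 1 := by
      have hd : p ^ 2 * ((-p) - 1) ≠ 0 := by
        apply mul_ne_zero (pow_ne_zero 2 hp0)
        intro h
        apply hp1
        linear_combination -h
      rw [div_eq_one_iff_eq hd, hp4]
      linear_combination p * hp
    have hy : p * (1 + p) * ((1 - p) ^ 4 - ((-p) - 1) ^ 2) / (p ^ 3 * ((-p) - 1) ^ 2) = 0 := by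
      have h0 : (1 - p) ^ 4 - ((-p) - 1) ^ 2 = 0 := by
        linear_combination hp4 - 4 * hp3 + 5 * hp
      rw [h0, mul_zero, zero_div]
    rw [hz, hy] at h
    exact c5 _ _ 1 0 h hT
  choose S hS using hsurj
  let u : ℕ → Pt p := fun n => Nat.rec T2 (fun _ x => S x) n
  let t : ℕ → Pt p := fun n => match n with
    | 0 => 0
    | 1 => T
    | (n + 2) => u n
  refine ⟨t, rfl, hT, hT2, ?_⟩
  intro n
  match n with
  | 0 => exact hφ.one T hT
  | 1 => exact e1
  | (n + 2) => exact hS (u n)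

end Pool.Agent.Lib.MP_869d3b_nt
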