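import Pool.Agent.Lib.MP_869d3b_nt.StmE
import Pool.Agent.Lib.MP_869d3b_nt.P_coord
import Pool.Agent.Lib.MP_869d3b_nt.P_add
import Pool.Agent.Lib.MP_869d3b_nt.P_coll1
import Pool.Agent.Lib.MP_869d3b_nt.P_coll2
import Pool.Agent.Lib.MP_869d3b_nt.P_fun
import Pool.Agent.Lib.MP_869d3b_nt.P_negT
import Pool.Agent.Lib.MP_869d3b_nt.P_collImg
import Pool.Agent.Lib.MP_869d3b_nt.P_phi
import Pool.Agent.Lib.MP_869d3b_nt.P_ker
import Pool.Agent.Lib.MP_869d3b_nt.P_half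
import Pool.Agent.Lib.MP_869d3b_nt.P_halfConv
import Pool.Agent.Lib.MP_869d3b_nt.P_rat
import Pool.Agent.Lib.MP_869d3b_nt.P_descOne
import Pool.Agent.Lib.MP_869d3b_nt.P_desc
import Pool.Agent.Lib.MP_869d3b_nt.P_surj
import Pool.Agent.Lib.MP_869d3b_nt.P_tower
import Pool.Agent.Lib.MP_869d3b_nt.P_kerPow
import Pool.Agent.Lib.MP_869d3b_nt.P_PQ
import Pool.Agent.Lib.MP_869d3b_nt.P_act

/-!
# MP_869d3b_nt: section 0 assembled
-/

set_option autoImplicit false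

namespace Pool.Agent.Lib.MP_869d3b_nt

section

variable (Ω : Type) [Field Ω] [DecidableEq Ω] [CharZero Ω]

theorem a_coord : S_coord Ω := p_coord Ω
theorem a_add : S_add Ω := p_add Ω
theorem a_coll1 : S_coll1 Ω := p_coll1 Ω (a_coord Ω) (a_add Ω)
theorem a_coll2 : S_coll2 Ω := p_coll2 Ω (a_coord Ω) (a_add Ω)
theorem a_fun : S_fun Ω := p_fun Ω (a_coord Ω)
theorem a_negT : S_negT Ω := p_negT Ω (a_coord Ω) (a_add Ω)
theorem a_collImg : S_collImg Ω := p_collImg Ω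
theorem a_phi : S_phi Ω :=
  p_phi Ω (a_coord Ω) (a_add Ω) (a_coll1 Ω) (a_coll2 Ω) (a_collImg Ω) (a_fun Ω) (a_negT Ω)
theorem a_ker : S_ker Ω := p_ker Ω (a_coord Ω) (a_add Ω)
theorem a_half : S_half Ω := p_half Ω (a_coord Ω)
theorem a_halfConv : S_halfConv Ω := p_halfConv Ω (a_coord Ω) (a_ker Ω)
theorem a_rat : S_rat Ω := p_rat Ω (a_coord Ω) (a_add Ω)
theorem a_descOne : S_descOne Ω := p_descOne Ω (a_coord Ω) (a_ker Ω) (a_half Ω)
theorem a_desc : S_desc Ω :=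
  p_desc Ω (a_coord Ω) (a_add Ω) (a_coll1 Ω) (a_descOne Ω) (a_rat Ω)
theorem a_surj : S_surj Ω := p_surj Ω (a_coord Ω) (a_ker Ω) (a_half Ω)
theorem a_tower : S_tower Ω := p_tower Ω (a_coord Ω) (a_surj Ω)
theorem a_kerPow : S_kerPow Ω := p_kerPow Ω (a_coord Ω) (a_ker Ω)
theorem a_PQ : S_PQ Ω := p_PQ Ω (a_add Ω)

end

end Pool.Agent.Lib.MP_869d3b_nt
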