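import Pool.Agent.Lib.MP_869d3b_nt.StmM

set_option autoImplicit false

namespace Pool.Agent.Lib.MP_869d3b_nt

theorem p_Xinf : S_Xinf := by
  intro F Ω _ _ _ h
  by_contra hinf
  rw [not_infinite_iff_finite] at hinf
  have hn : Nat.card (X 2 F Ω) < 2 ^ (Nat.card (X 2 F Ω) + 1) :=
    lt_trans (Nat.lt_succ_self _) Nat.lt_two_pow_self
  obtain ⟨M, hM, hdeg⟩ := h (Nat.card (X 2 F Ω) + 1) (Nat.succ_le_succ (Nat.zero_le _))
  have hML : M ≤ maxUnramified 2 F Ω := le_sSup hM
  have hL : Normal F (maxUnramified 2 F Ω) := by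
    have h1 : maxUnramified 2 F Ω =
        ⨆ N : {N : IntermediateField F Ω // IsUnramifiedAbelianP 2 N}, N.1 := by
      unfold maxUnramified
      rw [sSup_eq_iSup']
      rfl
    rw [h1]
    have : ∀ N : {N : IntermediateField F Ω // IsUnramifiedAbelianP 2 N}, Normal F N.1 := by
      intro N
      have := N.2.galois
      infer_instance
    exact IntermediateField.normal_iSup F Ω _
  have := hM.galois
  have := hM.finite
  let : Algebra M (maxUnramified 2 F Ω) := (IntermediateField.inclusion hML).toRingHom.toAlgebra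
  have : IsScalarTower F M (maxUnramified 2 F Ω) := IsScalarTower.of_algebraMap_eq fun x => by
    rfl
  have hs := AlgEquiv.restrictNormalHom_surjective (F := F) (K₁ := M) (maxUnramified 2 F Ω)
  have h2 := Nat.card_le_card_of_surjective _ hs
  rw [IsGalois.card_aut_eq_finrank, hdeg] at h2
  exact absurd h2 (not_le.2 hn)

end Pool.Agent.Lib.MP_869d3b_nt
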