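import Pool.Agent.Lib.MP_869d3b_nt.StmZ

/-!
# MP_869d3b_nt: piece [IW below1]
-/

set_option autoImplicit false

open NumberField IsDedekindDomain

namespace Pool.Agent.Lib.MP_869d3b_nt

theorem p_below1 : S_below1 := by
  intro M Ω _ _ _ _ P hP
  have hu : ∀ y : P.primeCompl, IsUnit (((algebraMap M Ω).comp (algebraMap (𝓞 M) M)) y) := by
    intro y
    rw [isUnit_iff_ne_zero]
    intro h
    apply y.2
    rw [RingHom.comp_apply, map_eq_zero, ← map_zero (algebraMap (𝓞 M) M)] at h
    rw [RingOfIntegers.coe_injective h]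
    exact P.zero_mem
  obtain ⟨f, hf⟩ : ∃ f : Localization.AtPrime P →+* Ω,
      ∀ x : 𝓞 M, f (algebraMap (𝓞 M) (Localization.AtPrime P) x) = algebraMap M Ω (x : M) :=
    ⟨IsLocalization.lift (M := P.primeCompl) hu, fun x => IsLocalization.lift_eq hu x⟩
  obtain ⟨A, h, hloc⟩ := IsLocalRing.exists_factor_valuationRing f
  refine ⟨A, fun x => ?_⟩
  have h1 : algebraMap M Ω (x : M) ∈ A := by
    rw [← hf]
    exact h _
  have h2 : (algebraMap M Ω (x : M) ∈ A.nonunits) ↔
      ¬ IsUnit (⟨algebraMap M Ω (x : M), h1⟩ : A) := by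
    rw [← mem_nonunits_iff, ← IsLocalRing.mem_maximalIdeal,
      ← ValuationSubring.coe_mem_nonunits_iff]
  rw [h2, ← IsLocalization.AtPrime.to_map_mem_maximal_iff (Localization.AtPrime P) P x,
    IsLocalRing.mem_maximalIdeal, mem_nonunits_iff, not_iff_not]
  have h3 : (f.codRestrict A.toSubring h) (algebraMap (𝓞 M) (Localization.AtPrime P) x) =
      (⟨algebraMap M Ω (x : M), h1⟩ : A) := Subtype.ext (hf x)
  constructor
  · intro h4
    rw [← h3]
    exact h4.map _
  · intro h4
    rw [← h3] at h4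
    exact hloc.map_nonunit _ h4

end Pool.Agent.Lib.MP_869d3b_nt
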