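import Pool.Agent.Lib.MP_869d3b_nt.StmZ

/-!
# MP_869d3b_nt: piece [IW below2]
-/

set_option autoImplicit false

open NumberField IsDedekindDomain

namespace Pool.Agent.Lib.MP_869d3b_nt

theorem p_below2 : S_below2 := by
  intro M Ω _ _ _ B
  have hmem : ∀ x : 𝓞 M, algebraMap M Ω (x : M) ∈ B := by
    intro x
    have h1 : IsIntegral ℤ (algebraMap M Ω (x : M)) := by
      have h2 : IsIntegral ℤ (x : M) := RingOfIntegers.isIntegral_coe x
      exact h2.map ((algebraMap M Ω).toIntAlgHom)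
    have h3 : IsIntegral B (algebraMap M Ω (x : M)) := h1.tower_top
    obtain ⟨y, hy⟩ := IsIntegrallyClosed.algebraMap_eq_of_integral h3
    rw [← hy]
    exact y.2
  obtain ⟨f, hf⟩ : ∃ f : 𝓞 M →+* B, ∀ a : 𝓞 M, ((f a : B) : Ω) = algebraMap M Ω (a : M) :=
    ⟨((algebraMap M Ω).comp (algebraMap (𝓞 M) M)).codRestrict B.toSubring hmem, fun a => rfl⟩
  refine ⟨(IsLocalRing.maximalIdeal B).comap f, Ideal.comap_isPrime f _, fun x => ?_⟩
  rw [Ideal.mem_comap, ← ValuationSubring.coe_mem_nonunits_iff, hf]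

end Pool.Agent.Lib.MP_869d3b_nt
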