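import Pool.Agent.Lib.MP_869d3b_nt.StmZ

/-!
# MP_869d3b_nt, the piece [IW chi]
-/

set_option autoImplicit false

namespace Pool.Agent.Lib.MP_869d3b_nt

theorem p_chi : S_chi := by
  intro p _ k Ω _ _ _ _ hac halg N hN
  have := hac
  have := halg
  have : IsGalois k N := hN.isGalois
  have : Normal k N := IsGalois.to_normal
  have hcl : IsAlgClosure k Ω := ⟨hac, halg⟩
  have : Normal k Ω := IsAlgClosure.normal k Ω
  obtain ⟨e⟩ := hN.iso
  refine ⟨(e : (N ≃ₐ[k] N) →* Multiplicative ℤ_[p]).comp (AlgEquiv.restrictNormalHom N), ?_, ?_, ?_⟩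
  · exact e.continuous.comp (InfiniteGalois.restrictNormalHom_continuous N)
  · exact e.surjective.comp (AlgEquiv.restrictNormalHom_surjective Ω)
  · intro σ
    have h1 : ((e : (N ≃ₐ[k] N) →* Multiplicative ℤ_[p]).comp
        (AlgEquiv.restrictNormalHom N)) σ = e (AlgEquiv.restrictNormalHom N σ) := rfl
    rw [h1, map_eq_one_iff e e.injective]
    constructor
    · intro h x hx
      have h2 := AlgEquiv.restrictNormal_commutes σ N ⟨x, hx⟩
      have h3 : σ.restrictNormal N = 1 := h
      rw [h3] at h2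
      exact h2.symm
    · intro h
      ext x
      have h2 := AlgEquiv.restrictNormal_commutes σ N x
      have h3 : algebraMap N Ω ((AlgEquiv.restrictNormalHom N σ) x) = σ (algebraMap N Ω x) := h2
      rw [AlgEquiv.one_apply]
      exact h3.trans (h _ x.2)

end Pool.Agent.Lib.MP_869d3b_nt
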