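import Pool.Agent.Lib.MP_869d3b_nt.StmM

/-!
# MP_869d3b_nt, piece `[M core1]`: inertia acts trivially away from `p`
-/

set_option autoImplicit false

open NumberField IsDedekindDomain

namespace Pool.Agent.Lib.MP_869d3b_nt

/-- Inertia acts trivially away from `p`. -/
theorem p_core1 (Ω : Type) [Field Ω] [DecidableEq Ω] [CharZero Ω] (hR1 : S_R1 Ω) (hact : S_act Ω)
    (hhc : S_halfConv Ω) (hrat : S_rat Ω) (hcoord : S_coord Ω) : S_core1 Ω := by
  intro p hp φ hφ B hB L σ g hpL hσp hg hI n
  induction n with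
  | zero =>
    intro S _ h
    exact h
  | succ n ih =>
    intro S hS h
    have hRL : Rat L (φ S) := (hrat p hp L hpL).2.2.2.2.1 φ hφ S hS
    have hφS : g (φ S) = φ S := by
      apply ih (φ S) hRL
      rw [← Function.iterate_succ_apply]
      exact h
    obtain ⟨-, hA2, hA3⟩ := hact p hp σ hσp
    obtain ⟨-, hC2, hC3, -, -, -, -⟩ := hcoord p hp
    rcases hC3 S with rfl | ⟨z, y, hSz⟩
    · exact map_zero g
    · refine (hA3 g hg S z y hSz).1.2 ?_
      obtain ⟨hzL, hyL⟩ := hS z y hSz
      have hOn : OnC p z y := hC2 S z y hSz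
      by_cases hz1 : z = 1
      · have hy0 : y = 0 := by
          have h1 : y ^ 2 = 0 := by
            have h2 : y ^ 2 = z * (z - 1) * (z - p ^ 4) := hOn
            rw [h2, hz1, sub_self, mul_zero, zero_mul]
          exact pow_eq_zero_iff (two_ne_zero) |>.1 h1
        rw [hz1, hy0]
        exact ⟨map_one σ, map_zero σ⟩
      · have haff := hφ.aff S z y hSz hz1
        obtain ⟨hσa, hσb⟩ := (hA3 g hg (φ S) _ _ haff).1.1 hφS
        obtain ⟨haL, hbL⟩ := hRL _ _ haff
        have hOn' := hC2 (φ S) _ _ haff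
        generalize hra : z * (z - p ^ 4) / (p ^ 2 * (z - 1)) = a at haff hσa haL hOn'
        generalize hrb : y * ((1 - p) ^ 4 - (z - 1) ^ 2) / (p ^ 3 * (z - 1) ^ 2) = b at haff hσb hbL hOn'
        obtain ⟨-, hr2, hrne, hr0⟩ := hhc p hp φ hφ (φ S) S a b z y (y / (p * (z - 1))) haff hSz rfl rfl
        have hrL : y / (p * (z - 1)) ∈ L :=
          div_mem hyL (mul_mem hpL (sub_mem hzL (one_mem L)))
        generalize hr : y / (p * (z - 1)) = r at hr2 hrne hr0 hrL
        by_cases hr' : r = 0
        · obtain ⟨-, hy0, hz0⟩ := hr0 hr'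
          rcases hz0 with hz0 | hz0
          · rw [hz0, hy0]
            exact ⟨map_zero σ, map_zero σ⟩
          · rw [hz0, hy0]
            refine ⟨?_, map_zero σ⟩
            rw [map_pow, hσp]
        · have ha0 : a ≠ 0 := by
            rw [← hr2]
            exact pow_ne_zero 2 hr'
          have hσr : σ r = r := hR1 p hp B hB L σ hpL hσp hI a b r haL hbL hrL hOn' ha0 hσa hσb hr2
          obtain ⟨hzr, hyr⟩ := hrne hr'
          have hσz : σ z = z := by
            rw [hzr]
            simp only [map_mul, map_div₀, map_sub, map_add, map_pow, map_ofNat, hσp, hσr, hσb]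
          refine ⟨hσz, ?_⟩
          rw [hyr]
          simp only [map_mul, map_sub, map_one, hσp, hσr, hσz]

end Pool.Agent.Lib.MP_869d3b_nt
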