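import Pool.Agent.Lib.MP_869d3b_nt.StmM

/-!
# MP_869d3b_nt: piece core2
-/

set_option autoImplicit false

namespace Pool.Agent.Lib.MP_869d3b_nt

private theorem core2_iter {Ω : Type} [Field Ω] [DecidableEq Ω] {p : Ω} (φ : Pt p →+ Pt p)
    (g : Pt p ≃+ Pt p) (h : ∀ P : Pt p, g (φ P) = φ (g P)) (n : ℕ) (P : Pt p) :
    g (φ^[n] P) = φ^[n] (g P) := by
  induction n generalizing P with
  | zero => rfl
  | succ n ih => rw [Function.iterate_succ_apply, Function.iterate_succ_apply, ih, h]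

theorem p_core2 (Ω : Type) [Field Ω] [DecidableEq Ω] [CharZero Ω] (hloc : S_loc Ω)
    (hL1 : S_L1 Ω) (hL3 : S_L3 Ω) (hL10 : S_L10 Ω) (hact : S_act Ω) (hkp : S_kerPow Ω)
    (hrat : S_rat Ω) (hcoord : S_coord Ω) : S_core2 Ω := by
  intro hcl halg p hp φ hφ t ht B0 B hB0 hB L σ g hpL hσp hg hin htL hgt n m R S S' τ hSL hSR hS'
    hτ hR hsgn
  obtain ⟨h20, -⟩ := hloc hcl halg p hp B0 hB0
  obtain ⟨h2, -⟩ := hloc hcl halg p hp B hB
  obtain ⟨-, -, hc3, hc4, -, hc6, -⟩ := hcoord p hp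
  obtain ⟨hr1, hr2, -, hr4, -, -⟩ := hrat p hp L hpL
  -- the coordinates of `S'`
  obtain ⟨T, hpT, hT⟩ : ∃ T : Finset Ω, p ∈ T ∧ ∀ z y : Ω, HasC S' z y → z ∈ T ∧ y ∈ T := by
    rcases hc3 S' with h | ⟨z, y, h⟩
    · refine ⟨{p}, by simp, fun z y hzy => ?_⟩
      rw [h] at hzy
      exact absurd hzy (hc6 z y)
    · refine ⟨{p, z, y}, by simp, fun z' y' hzy => ?_⟩
      obtain ⟨rfl, rfl⟩ := hc4 S' z y z' y' h hzy
      simp
  obtain ⟨σ', hσ'⟩ := hL10 hcl halg B0 B h20 h2 T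
  have hTc : ∀ x ∈ T, x ∈ Subfield.closure (T : Set Ω) := fun x hx => Subfield.subset_closure hx
  have hp0 : p ≠ 0 := by
    rintro rfl
    norm_num at hp
  -- `σ' p = p`
  have hσ'p : σ' p = p := by
    have h1 : (σ' p) ^ 2 = σ' p - 2 := by
      rw [← map_pow, hp, map_sub, map_ofNat]
    have h3 : (σ' p - p) * (σ' p - (1 - p)) = 0 := by linear_combination h1 - hp
    rcases mul_eq_zero.1 h3 with h | h
    · exact sub_eq_zero.1 h
    · exfalso
      have h4 : σ' p = 1 - p := sub_eq_zero.1 h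
      have h5 : p⁻¹ ∉ B0 := by
        have := (B0.mem_nonunits_iff_or).1 hB0
        exact this.resolve_left hp0
      have h6 : (σ' p)⁻¹ ∉ B := by
        rw [← map_inv₀]
        intro h7
        exact h5 ((hσ' _ (inv_mem (hTc p hpT))).2 h7)
      have h8 : σ' p ∈ B.nonunits := (B.mem_nonunits_iff_or).2 (Or.inr h6)
      rw [h4] at h8
      have h9 : (1 : Ω) ∈ B.nonunits := by
        have := B.nonunits.add_mem h8 hB
        rwa [sub_add_cancel] at this
      rw [ValuationSubring.mem_nonunits_iff, map_one] at h9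
      exact lt_irrefl _ h9
  obtain ⟨⟨g', hg'⟩, hcomm, -⟩ := hact p hp σ' hσ'p
  have hcomm' := hcomm g' hg' φ hφ
  have hratB : ∀ x : Ω, x ∈ T → x ∈ FB B0 → σ' x ∈ FB B := by
    intro x hxT hx
    rw [hL1 halg B h2]
    rw [hL1 halg B0 h20] at hx
    intro N
    obtain ⟨q, hq⟩ := hx N
    refine ⟨q, ?_⟩
    have h10 : (x - (q : Ω)) / 2 ^ N ∈ Subfield.closure (T : Set Ω) := by
      refine div_mem (sub_mem (hTc x hxT) (SubfieldClass.ratCast_mem _ q)) (pow_mem ?_ N)
      exact_mod_cast natCast_mem (Subfield.closure (T : Set Ω)) 2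
    have h11 := (hσ' _ h10).1 hq
    rw [map_div₀, map_sub, map_ratCast, map_pow, map_ofNat] at h11
    exact h11
  have hratS : Rat (FB B) (g' S') := by
    intro z' y' hzy
    rcases hc3 S' with h | ⟨z, y, h⟩
    · rw [h, map_zero] at hzy
      exact absurd hzy (hc6 _ _)
    · obtain ⟨rfl, rfl⟩ := hc4 _ _ _ _ _ hzy (hg' S' z y h)
      obtain ⟨hzT, hyT⟩ := hT z y h
      obtain ⟨hz, hy⟩ := hS' z y h
      exact ⟨hratB z hzT hz, hratB y hyT hy⟩
  have hpFB : p ∈ FB B := (hloc hcl halg p hp B hB).2.1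
  have hratN : Rat (FB B) (-g' S') := (hrat p hp (FB B) hpFB).2.1 _ hratS
  -- the main step
  have main : ∀ U : Pt p, Rat (FB B) U → φ^[m + n] (S - U) = 0 → g S = S := by
    intro U hU hSU
    obtain ⟨j, hj⟩ := (hkp p hp φ hφ t ht).1 (m + n) _ hSU
    have hUeq : U = S + -(j • t (m + n)) := by rw [← hj]; abel
    have hUL : Rat L U := by
      rw [hUeq]
      exact hr1 _ _ hSL (hr2 _ (hr4 j _ (htL (m + n))))
    have hgU : g U = U := by
      rcases hc3 U with h | ⟨z, y, h⟩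
      · rw [h, map_zero]
      · refine (((hact p hp σ hσp).2.2 g hg U z y h).1).2 ?_
        exact ⟨hL3 halg B h2 L σ hin z (hUL z y h).1 (hU z y h).1,
          hL3 halg B h2 L σ hin y (hUL z y h).2 (hU z y h).2⟩
    have hS2 : S = U + j • t (m + n) := by rw [← hj]; abel
    rw [hS2, map_add, map_zsmul, hgt, hgU]
  have hgτ : φ^[m] (g' τ) = 0 := by
    rw [← core2_iter φ g' hcomm', hτ, map_zero]
  have hgS' : φ^[n] (g' S') = g' R - g' τ := by
    rw [← core2_iter φ g' hcomm', ← map_sub, hR, add_sub_cancel_right]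
  rcases hsgn σ' g' hσ'p hg' with h | h
  · refine main (g' S') hratS ?_
    rw [Function.iterate_add_apply, iterate_map_sub, hSR, hgS', h, sub_sub_cancel, hgτ]
  · refine main (-g' S') hratN ?_
    rw [Function.iterate_add_apply, sub_neg_eq_add, iterate_map_add, hSR, hgS', h]
    have h12 : R + (-R - g' τ) = -g' τ := by abel
    rw [h12, iterate_map_neg, hgτ, neg_zero]

end Pool.Agent.Lib.MP_869d3b_nt
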