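import Pool.Agent.Lib.MP_869d3b_nt.StmM

set_option autoImplicit false

namespace Pool.Agent.Lib.MP_869d3b_nt

/-- the subring of all `a + b p` -/
private def exB_ring {Ω : Type} [Field Ω] (p : Ω) (hp : p ^ 2 = p - 2) : Subring Ω where
  carrier := {x | ∃ a b : ℤ, x = a + b * p}
  mul_mem' := by
    rintro x y ⟨a, b, rfl⟩ ⟨c, d, rfl⟩
    refine ⟨a * c - 2 * b * d, a * d + b * c + b * d, ?_⟩
    push_cast
    linear_combination (b * d : Ω) * hp
  one_mem' := ⟨1, 0, by simp⟩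
  add_mem' := by
    rintro x y ⟨a, b, rfl⟩ ⟨c, d, rfl⟩
    exact ⟨a + c, b + d, by push_cast; ring⟩
  zero_mem' := ⟨0, 0, by simp⟩
  neg_mem' := by
    rintro x ⟨a, b, rfl⟩
    exact ⟨-a, -b, by push_cast; ring⟩

theorem p_exB (Ω : Type) [Field Ω] [DecidableEq Ω] [CharZero Ω] : S_exB Ω := by
  intro p hp
  have hpA : p ∈ exB_ring p hp := ⟨0, 1, by simp⟩
  have hI : Ideal.span {(⟨p, hpA⟩ : exB_ring p hp)} ≠ ⊤ := by
    intro h
    rw [Ideal.eq_top_iff_one, Ideal.mem_span_singleton'] at h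
    obtain ⟨⟨c, a, b, rfl⟩, hc⟩ := h
    have h1 : ((a : Ω) + b * p) * p = 1 := congrArg Subtype.val hc
    have h2 : ((a + b : ℤ) : Ω) * p = ((1 + 2 * b : ℤ) : Ω) := by
      push_cast
      linear_combination h1 - (b : Ω) * hp
    have h3 : (((2 * (1 + 2 * b) - (a + b)) ^ 2 : ℤ) : Ω) = ((-7 * (a + b) ^ 2 : ℤ) : Ω) := by
      have h4 : (((2 * (1 + 2 * b) - (a + b)) : ℤ) : Ω) = ((a + b : ℤ) : Ω) * (2 * p - 1) := by
        rw [Int.cast_sub, Int.cast_mul, ← h2]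
        push_cast
        ring
      have h5 : (2 * p - 1) ^ 2 = (-7 : Ω) := by linear_combination 4 * hp
      rw [Int.cast_pow, h4, mul_pow, h5]
      push_cast
      ring
    have h4 := Int.cast_injective h3
    have h5 : a + b = 0 := by nlinarith [sq_nonneg (a + b), sq_nonneg (2 * (1 + 2 * b) - (a + b))]
    rw [h5] at h2
    have h6 : (1 + 2 * b : ℤ) = 0 := by
      have : ((1 + 2 * b : ℤ) : Ω) = ((0 : ℤ) : Ω) := by rw [← h2]; simp
      exact Int.cast_injective this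
    omega
  obtain ⟨B, -, hB⟩ := Ideal.image_subset_nonunits_valuationSubring _ hI
  exact ⟨B, hB ⟨⟨p, hpA⟩, Ideal.subset_span rfl, rfl⟩⟩

end Pool.Agent.Lib.MP_869d3b_nt
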