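import Pool.Agent.Lib.MP_869d3b_nt.StmZ

/-!
# MP_869d3b_nt: piece [IW frac]
-/

set_option autoImplicit false

open NumberField IsDedekindDomain

namespace Pool.Agent.Lib.MP_869d3b_nt

private theorem frac_dvd {R : Type} [CommRing R] [IsDomain R] (Q : Ideal R) [Q.IsPrime] {a b : R}
    (h : algebraMap R (Localization.AtPrime Q) a ∣ algebraMap R (Localization.AtPrime Q) b) :
    ∃ s r : R, s ∉ Q ∧ s * b = a * r := by
  obtain ⟨c, hc⟩ := h
  obtain ⟨⟨r, s⟩, hrs⟩ := IsLocalization.surj Q.primeCompl c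
  refine ⟨s, r, s.2, ?_⟩
  have hle : Q.primeCompl ≤ nonZeroDivisors R := Ideal.primeCompl_le_nonZeroDivisors Q
  apply IsLocalization.injective (Localization.AtPrime Q) hle
  rw [map_mul, map_mul, hc, ← hrs]
  ring

private theorem frac_mul {Ω : Type} [Field Ω] {B : ValuationSubring Ω} {x y : Ω}
    (hx : x ∈ B.nonunits) (hy : y ∈ B) : x * y ∈ B.nonunits := by
  rw [ValuationSubring.mem_nonunits_iff] at hx ⊢
  rw [map_mul]
  rw [← B.valuation_le_one_iff] at hy
  exact mul_lt_one_of_lt_of_le hx hy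

theorem p_frac : S_frac := by
  intro E Ω _ _ _ _ B Q hQ hB x hx
  obtain ⟨a, b, hb, rfl⟩ := IsFractionRing.div_surjective (A := 𝓞 E) x
  have hb0 : algebraMap (𝓞 E) E b ≠ 0 := by
    intro h
    apply nonZeroDivisors.ne_zero hb
    apply RingOfIntegers.coe_injective
    rw [h, map_zero]
  by_cases hQ0 : Q = ⊥
  · subst hQ0
    refine ⟨a, b, ?_, ?_⟩
    · rw [Ideal.mem_bot]
      exact nonZeroDivisors.ne_zero hb
    · exact div_mul_cancel₀ _ hb0
  · have hd : IsDiscreteValuationRing (Localization.AtPrime Q) :=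
      IsLocalization.AtPrime.isDiscreteValuationRing_of_dedekind_domain (𝓞 E) hQ0 _
    rcases ValuationRing.dvd_total (algebraMap (𝓞 E) (Localization.AtPrime Q) b)
      (algebraMap (𝓞 E) (Localization.AtPrime Q) a) with h | h
    · obtain ⟨s, r, hs, h1⟩ := frac_dvd Q h
      refine ⟨r, s, hs, ?_⟩
      have h2 : algebraMap (𝓞 E) E (s * a) = algebraMap (𝓞 E) E (b * r) := by rw [h1]
      rw [map_mul, map_mul] at h2
      change algebraMap (𝓞 E) E a / algebraMap (𝓞 E) E b * algebraMap (𝓞 E) E s =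
        algebraMap (𝓞 E) E r
      rw [div_mul_eq_mul_div, div_eq_iff hb0]
      linear_combination h2
    · obtain ⟨s, r, hs, h1⟩ := frac_dvd Q h
      have h2 : algebraMap (𝓞 E) E (s * b) = algebraMap (𝓞 E) E (a * r) := by rw [h1]
      rw [map_mul, map_mul] at h2
      have h3 : algebraMap (𝓞 E) E a / algebraMap (𝓞 E) E b * algebraMap (𝓞 E) E r =
          algebraMap (𝓞 E) E s := by
        rw [div_mul_eq_mul_div, div_eq_iff hb0]
        linear_combination -h2
      refine ⟨s, r, fun hr => hs ?_, h3⟩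
      rw [hB] at hr ⊢
      change algebraMap E Ω (algebraMap (𝓞 E) E s) ∈ B.nonunits
      rw [← h3, map_mul, mul_comm]
      exact frac_mul hr hx

end Pool.Agent.Lib.MP_869d3b_nt
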