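import Pool.Agent.Lib.MP_869d3b_nt.StmZ

/-!
# MP_869d3b_nt, [Z gen]: a topological generator of a `ℤ_2`-extension
-/

set_option autoImplicit false

namespace Pool.Agent.Lib.MP_869d3b_nt

theorem p_gen : S_gen := by
  intro k Ω _ _ _ _ hac halg N hN
  haveI : IsAlgClosure k Ω := ⟨hac, halg⟩
  haveI := hN.isGalois
  obtain ⟨e⟩ := hN.iso
  obtain ⟨s0, hs0⟩ : ∃ s0 : N ≃ₐ[k] N, s0 = e.symm (Multiplicative.ofAdd 1) := ⟨_, rfl⟩
  refine ⟨s0.liftNormal Ω, fun x hx hfix => ?_⟩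
  have h1 : s0 ⟨x, hx⟩ = ⟨x, hx⟩ := by
    apply Subtype.ext
    have h := AlgEquiv.liftNormal_commutes s0 Ω (⟨x, hx⟩ : N)
    have h' : algebraMap N Ω ⟨x, hx⟩ = x := rfl
    rw [h', hfix] at h
    exact h.symm
  have hcl : IsClosed (MulAction.stabilizer (N ≃ₐ[k] N) (⟨x, hx⟩ : N) : Set (N ≃ₐ[k] N)) :=
    Subgroup.isClosed_of_isOpen _ (stabilizer_isOpen_of_isIntegral _)
  have hmem : s0 ∈ MulAction.stabilizer (N ≃ₐ[k] N) (⟨x, hx⟩ : N) := h1
  have hall : ∀ b : ℤ_[2], e.symm (Multiplicative.ofAdd b) ∈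
      MulAction.stabilizer (N ≃ₐ[k] N) (⟨x, hx⟩ : N) := by
    intro b
    refine DenseRange.induction_on (p := fun b : ℤ_[2] => e.symm (Multiplicative.ofAdd b) ∈
      MulAction.stabilizer (N ≃ₐ[k] N) (⟨x, hx⟩ : N)) PadicInt.denseRange_intCast b ?_ ?_
    · exact hcl.preimage (e.symm.continuous.comp continuous_ofAdd)
    · intro n
      have h : Multiplicative.ofAdd ((n : ℤ) : ℤ_[2]) = (Multiplicative.ofAdd (1 : ℤ_[2])) ^ n := by
        rw [← ofAdd_zsmul, zsmul_one]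
      rw [h, map_zpow, ← hs0]
      exact Subgroup.zpow_mem _ hmem n
  have hf : ∀ f : N ≃ₐ[k] N, f (⟨x, hx⟩ : N) = ⟨x, hx⟩ := by
    intro f
    have h := hall (Multiplicative.toAdd (e f))
    rw [ofAdd_toAdd, ContinuousMulEquiv.symm_apply_apply] at h
    exact h
  obtain ⟨a, ha⟩ := (InfiniteGalois.mem_range_algebraMap_iff_fixed (k := k) (K := N) _).2 hf
  refine ⟨a, ?_⟩
  have h := congrArg (algebraMap N Ω) ha
  rw [← IsScalarTower.algebraMap_apply] at h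
  exact h

end Pool.Agent.Lib.MP_869d3b_nt
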