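import Pool.Agent.Lib.MP_869d3b_nt.StmZ

/-!
# MP_869d3b_nt, [Z inert] inertia acting trivially implies unramified
-/

set_option autoImplicit false

open NumberField IsDedekindDomain

namespace Pool.Agent.Lib.MP_869d3b_nt

theorem p_inert (hb : S_below2) (hG : S_inertG) : S_inert := by
  intro k Ω _ _ _ _ _ hac halg M E hME hfin hgal B P hP hBP hI
  have : FiniteDimensional k E := hfin
  have hfinM : FiniteDimensional k M :=
    FiniteDimensional.of_injective (IntermediateField.inclusion hME).toLinearMap
      (IntermediateField.inclusion hME).injective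
  have : NumberField E := NumberField.of_module_finite k E
  have : NumberField M := NumberField.of_module_finite k M
  let : Algebra M E := (IntermediateField.inclusion hME).toRingHom.toAlgebra
  have hamap : ∀ x : M, algebraMap M E x = IntermediateField.inclusion hME x := fun x => rfl
  have : IsScalarTower k M E := IsScalarTower.of_algebraMap_eq (fun x => rfl)
  have : IsGalois M E := IsGalois.tower_top_of_isGalois k M E
  obtain ⟨Q, hQ, hBQ⟩ := hb E Ω B
  have hPQ : Q.LiesOver P := by
    constructor
    ext x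
    rw [Ideal.under_def, Ideal.mem_comap, hBP, hBQ]
    rfl
  have : (P.under (𝓞 k)).IsPrime := Ideal.IsPrime.under _ _
  have hQq : Q.LiesOver (P.under (𝓞 k)) := Ideal.LiesOver.trans Q P (P.under (𝓞 k))
  have hk : Nat.card (Q.inertia Gal(E/k)) = Q.ramificationIdx (𝓞 k) := by
    rw [Ideal.card_inertia_eq_ramificationIdxIn (P.under (𝓞 k)) Q,
      Ideal.ramificationIdxIn_eq_ramificationIdx (P.under (𝓞 k)) Q Gal(E/k)]
  have hM : Nat.card (Q.inertia Gal(E/M)) = Q.ramificationIdx (𝓞 M) := by
    rw [Ideal.card_inertia_eq_ramificationIdxIn P Q,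
      Ideal.ramificationIdxIn_eq_ramificationIdx P Q Gal(E/M)]
  have : IsAlgClosure k Ω := ⟨hac, halg⟩
  have hfix : ∀ s ∈ Q.inertia Gal(E/k), ∀ x : M, s (algebraMap M E x) = algebraMap M E x := by
    intro s hs x
    have hσ : ∀ y : E, (s.liftNormal Ω) (y : Ω) = (s y : E) := fun y =>
      AlgEquiv.liftNormal_commutes s Ω y
    have hin := (hG k Ω E hfin B Q hQ hBQ (s.liftNormal Ω) s hσ).2 (by
      intro a b hab
      have hb' : b = s • a := by
        apply RingOfIntegers.ext
        rw [← hab]
        rfl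
      rw [hb']
      exact hs a)
    have h1 := hI _ hin (x : Ω) x.2
    apply Subtype.ext
    rw [← hσ]
    exact h1
  let f : Q.inertia Gal(E/k) → Q.inertia Gal(E/M) := fun s =>
    ⟨AlgEquiv.ofRingEquiv (f := (s : Gal(E/k)).toRingEquiv) (fun x => hfix s s.2 x), by
      intro x
      exact s.2 x⟩
  have hf : Function.Injective f := by
    intro s t hst
    apply Subtype.ext
    apply AlgEquiv.ext
    intro x
    have h1 := congrArg (fun r : Q.inertia Gal(E/M) => (r : Gal(E/M)) x) hst
    exact h1
  have hle : Nat.card (Q.inertia Gal(E/k)) ≤ Nat.card (Q.inertia Gal(E/M)) :=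
    Nat.card_le_card_of_injective f hf
  have htow : Q.ramificationIdx (𝓞 k) = P.ramificationIdx (𝓞 k) * Q.ramificationIdx (𝓞 M) :=
    Ideal.ramificationIdx_tower P Q
  have hpos : 0 < Q.ramificationIdx (𝓞 M) := Q.ramificationIdx_pos (𝓞 M)
  have hposP : 0 < P.ramificationIdx (𝓞 k) := P.ramificationIdx_pos (𝓞 k)
  rw [hk, hM, htow] at hle
  have h1 : P.ramificationIdx (𝓞 k) ≤ 1 := by
    by_contra hcon
    push Not at hcon
    nlinarith
  have h2 : P.ramificationIdx (𝓞 k) = 1 := le_antisymm h1 hposP
  exact Ideal.ramificationIdx_eq_one_iff.1 h2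

end Pool.Agent.Lib.MP_869d3b_nt
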