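import Pool.Agent.Lib.MP_869d3b_nt.StmZ

/-!
# MP_869d3b_nt, section 3: piece inertConv
-/

set_option autoImplicit false

open NumberField IsDedekindDomain

namespace Pool.Agent.Lib.MP_869d3b_nt

/-- The inertia group of a prime at which the extension is unramified is trivial. -/
theorem inertConv_triv (k M : Type) [Field k] [NumberField k] [Field M] [NumberField M]
    [Algebra k M] [IsGalois k M] (P : Ideal (𝓞 M)) [P.IsPrime]
    (hP : Algebra.IsUnramifiedAt (𝓞 k) P) (τ : M ≃ₐ[k] M)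
    (hτ : ∀ x : 𝓞 M, τ • x - x ∈ P) : τ = 1 := by
  have h1 : P.ramificationIdx (𝓞 k) = 1 := Ideal.ramificationIdx_eq_one P (𝓞 k)
  have h2 : Nat.card (P.inertia (M ≃ₐ[k] M)) = Ideal.ramificationIdxIn (P.under (𝓞 k)) (𝓞 M) :=
    Ideal.card_inertia_eq_ramificationIdxIn (G := (M ≃ₐ[k] M)) (P.under (𝓞 k)) P
  rw [Ideal.ramificationIdxIn_eq_ramificationIdx (P.under (𝓞 k)) P (M ≃ₐ[k] M), h1] at h2
  have h3 : P.inertia (M ≃ₐ[k] M) = ⊥ := Subgroup.card_eq_one.1 h2
  have h4 : τ ∈ P.inertia (M ≃ₐ[k] M) := hτ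
  rw [h3, Subgroup.mem_bot] at h4
  exact h4

theorem p_inertConv (hG : S_inertG) : S_inertConv := by
  intro k Ω _ _ _ _ _ hcl halg M E hME hE hM B P hPp hBP hun σ hσ x hx
  have hfin : FiniteDimensional k M :=
    FiniteDimensional.of_injective (IntermediateField.inclusion hME).toLinearMap
      (IntermediateField.inclusion hME).injective
  have hNF : NumberField M := NumberField.of_module_finite k M
  have hInert : Inert B (M : Set Ω) σ := fun y hy hyB => hσ y (hME hy) hyB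
  let σ0 : M ≃ₐ[k] M := AlgEquiv.restrictNormal σ M
  have hσ0 : ∀ y : M, σ (y : Ω) = (σ0 y : M) := fun y =>
    (AlgEquiv.restrictNormal_commutes σ M y).symm
  have h1 := (hG k Ω M hfin B P hPp hBP σ σ0 hσ0).1 hInert
  have h2 : σ0 = 1 := by
    refine inertConv_triv k M P hun σ0 ?_
    intro y
    exact h1 y (σ0 • y) rfl
  have h3 := hσ0 ⟨x, hx⟩
  rw [h2] at h3
  exact h3

end Pool.Agent.Lib.MP_869d3b_nt
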