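import Pool.Agent.Lib.MP_869d3b_nt.StmZ

/-!
# MP_869d3b_nt, [Z inertG] comparison of the two forms of the inertia condition
-/

set_option autoImplicit false

open NumberField IsDedekindDomain

namespace Pool.Agent.Lib.MP_869d3b_nt

private theorem inertG_int {E Ω : Type} [Field E] [Field Ω] [Algebra E Ω] (B : ValuationSubring Ω)
    (x : 𝓞 E) : algebraMap E Ω (x : E) ∈ B := by
  have h1 : IsIntegral ℤ (x : E) := x.isIntegral_coe
  have h2 : IsIntegral ℤ (algebraMap E Ω (x : E)) := h1.map (algebraMap E Ω).toIntAlgHom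
  have h3 : IsIntegral B (algebraMap E Ω (x : E)) := h2.tower_top
  obtain ⟨y, hy⟩ := (IsIntegrallyClosed.isIntegral_iff (R := B) (K := Ω)).1 h3
  rw [← hy]
  exact y.2

theorem p_inertG (hfrac : S_frac) : S_inertG := by
  intro k Ω _ _ _ _ _ E hE B Q hQ hB σ σ0 hσ
  have : FiniteDimensional k E := hE
  have : NumberField E := NumberField.of_module_finite k E
  have hcoe : ∀ x : E, algebraMap E Ω x = (x : Ω) := fun x => rfl
  have hsub : ∀ c d : 𝓞 E, algebraMap E Ω ((c - d : 𝓞 E) : E) = ((c : E) : Ω) - ((d : E) : Ω) :=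
    fun c d => rfl
  constructor
  · intro hI x y hxy
    rw [hB]
    have h1 := hI ((x : E) : Ω) (x : E).2 (by have := inertG_int (Ω := Ω) B x; rwa [hcoe] at this)
    rw [hσ, hxy] at h1
    rw [hsub]
    exact h1
  · intro h x hx hxB
    obtain ⟨a, b, hb, hab⟩ := hfrac E Ω B Q hQ hB ⟨x, hx⟩ (by rw [hcoe]; exact hxB)
    have hint : ∀ c : 𝓞 E, ∃ c' : 𝓞 E, σ0 (c : E) = (c' : E) := by
      intro c
      exact ⟨⟨σ0 (c : E), (c.isIntegral_coe).map (σ0 : E →+* E).toIntAlgHom⟩, rfl⟩
    obtain ⟨a', ha'⟩ := hint a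
    obtain ⟨b', hb'⟩ := hint b
    have hqa := h a a' ha'
    have hqb := h b b' hb'
    have hb'Q : b' ∉ Q := by
      intro hmem
      apply hb
      have : b = b' - (b' - b) := by ring
      rw [this]
      exact Q.sub_mem hmem hqb
    -- valuations
    have va : B.valuation (((a' : E) : Ω) - ((a : E) : Ω)) < 1 := by
      have := (hB _).1 hqa
      rw [ValuationSubring.mem_nonunits_iff, hsub] at this
      exact this
    have vb : B.valuation (((b' : E) : Ω) - ((b : E) : Ω)) < 1 := by
      have := (hB _).1 hqb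
      rw [ValuationSubring.mem_nonunits_iff, hsub] at this
      exact this
    have vb' : B.valuation ((b' : E) : Ω) = 1 := by
      apply le_antisymm
      · rw [ValuationSubring.valuation_le_one_iff]
        exact inertG_int (Ω := Ω) B b'
      · by_contra hlt
        rw [not_le] at hlt
        apply hb'Q
        rw [hB, ValuationSubring.mem_nonunits_iff, hcoe]
        exact hlt
    have vx : B.valuation x ≤ 1 := (ValuationSubring.valuation_le_one_iff B x).2 hxB
    have e1 : x * ((b : E) : Ω) = ((a : E) : Ω) := by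
      have := congrArg (fun z : E => (z : Ω)) hab
      simpa using this
    have e2 : σ x * ((b' : E) : Ω) = ((a' : E) : Ω) := by
      have := congrArg σ e1
      rw [map_mul, hσ (b : E), hσ (a : E), hb', ha'] at this
      exact this
    have e3 : (σ x - x) * ((b' : E) : Ω) =
        (((a' : E) : Ω) - ((a : E) : Ω)) - x * (((b' : E) : Ω) - ((b : E) : Ω)) := by
      rw [sub_mul, e2, ← e1]
      ring
    rw [ValuationSubring.mem_nonunits_iff]
    have e4 : B.valuation (σ x - x) = B.valuation ((σ x - x) * ((b' : E) : Ω)) := by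
      rw [map_mul, vb', mul_one]
    rw [e4, e3]
    refine lt_of_le_of_lt (Valuation.map_sub _ _ _) (max_lt va ?_)
    rw [map_mul]
    exact (mul_le_of_le_one_left' vx).trans_lt vb

end Pool.Agent.Lib.MP_869d3b_nt
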