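import Pool.Agent.Lib.MP_869d3b_nt.StmM

/-!
# MP_869d3b_nt, piece [M kumA]
-/

set_option autoImplicit false

open NumberField IsDedekindDomain

namespace Pool.Agent.Lib.MP_869d3b_nt

theorem p_kumA
    (h1 : ∀ (Ω : Type) [Field Ω] [DecidableEq Ω] [CharZero Ω], S_act Ω)
    (h2 : ∀ (Ω : Type) [Field Ω] [DecidableEq Ω] [CharZero Ω], S_kerPow Ω)
    (h3 : ∀ (Ω : Type) [Field Ω] [DecidableEq Ω] [CharZero Ω], S_rat Ω)
    (h4 : ∀ (Ω : Type) [Field Ω] [DecidableEq Ω] [CharZero Ω], S_coord Ω) : S_kumA := by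
  intro F Ω _ _ _ _ _ hac halg p hp φ hφ t ht hpF htF n R S hR hS
  have hchar : CharZero F := (algebraMap F Ω).charZero_iff (algebraMap F Ω).injective |>.2 inferInstance
  obtain ⟨_, _, c3, c4, _, c6, _⟩ := h4 Ω p hp
  obtain ⟨k1, _, _, _, _⟩ := h2 Ω p hp φ hφ t ht
  -- the subfield `M`
  have hfin : (coo S).Finite := by
    rcases c3 S with h | ⟨z, y, h⟩
    · have : coo S = ∅ := by
        ext x
        constructor
        · rintro ⟨z, y, h', _⟩
          rw [h] at h'
          exact absurd h' (c6 z y)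
        · intro h; exact absurd h (Set.notMem_empty x)
      rw [this]; exact Set.finite_empty
    · refine Set.Finite.subset (Set.toFinite ({z, y} : Set Ω)) ?_
      rintro x ⟨z', y', h', hx⟩
      obtain ⟨e, e'⟩ := c4 _ _ _ _ _ h h'
      rcases hx with rfl | rfl
      · left; exact e.symm
      · right; exact e'.symm
  have hfd : FiniteDimensional F (IntermediateField.adjoin F (coo S)) := by
    have : Finite (coo S) := hfin
    exact IntermediateField.finiteDimensional_adjoin fun x _ => (halg.isAlgebraic x).isIntegral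
  -- facts on the action
  have hfixP : ∀ (σ : Ω ≃ₐ[F] Ω) (g : Pt p ≃+ Pt p), IsAct p (σ : Ω ≃+* Ω) g →
      ∀ (P : Pt p), (∀ z y : Ω, HasC P z y → σ z = z ∧ σ y = y) → g P = P := by
    intro σ g hg P hP
    have hσp : (σ : Ω ≃+* Ω) p = p := by
      obtain ⟨q, hq⟩ := hpF
      rw [← hq]; exact σ.commutes q
    obtain ⟨_, _, a3⟩ := h1 Ω p hp (σ : Ω ≃+* Ω) hσp
    rcases c3 P with h | ⟨z, y, h⟩
    · rw [h, map_zero]
    · exact ((a3 g hg P z y h).1).2 (hP z y h)
  have hfixR : ∀ (σ : Ω ≃ₐ[F] Ω) (g : Pt p ≃+ Pt p), IsAct p (σ : Ω ≃+* Ω) g →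
      ∀ (P : Pt p), Rat (algebraMap F Ω).fieldRange P → g P = P := by
    intro σ g hg P hP
    refine hfixP σ g hg P fun z y h => ?_
    obtain ⟨⟨q, hq⟩, ⟨q', hq'⟩⟩ := hP z y h
    rw [← hq, ← hq']
    exact ⟨σ.commutes q, σ.commutes q'⟩
  have hpow : ∀ (σ : Ω ≃ₐ[F] Ω) (g : Pt p ≃+ Pt p), IsAct p (σ : Ω ≃+* Ω) g →
      ∀ (m : ℕ) (P : Pt p), g (φ^[m] P) = φ^[m] (g P) := by
    intro σ g hg m
    have hσp : (σ : Ω ≃+* Ω) p = p := by
      obtain ⟨q, hq⟩ := hpF
      rw [← hq]; exact σ.commutes q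
    obtain ⟨_, a2, _⟩ := h1 Ω p hp (σ : Ω ≃+* Ω) hσp
    induction m with
    | zero => intro P; rfl
    | succ m ih =>
      intro P
      rw [Function.iterate_succ_apply', Function.iterate_succ_apply', a2 g hg φ hφ, ih P]
  have hkey : ∀ (σ : Ω ≃ₐ[F] Ω) (g : Pt p ≃+ Pt p), IsAct p (σ : Ω ≃+* Ω) g →
      ∃ j : ℤ, g S = S + j • t n := by
    intro σ g hg
    have h0 : φ^[n] (g S - S) = 0 := by
      rw [iterate_map_sub, ← hpow σ g hg n S, hS, hfixR σ g hg R hR, sub_self]
    obtain ⟨j, hj⟩ := k1 n _ h0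
    exact ⟨j, by rw [← hj]; abel⟩
  have hex : ∀ σ : Ω ≃ₐ[F] Ω, ∃ g : Pt p ≃+ Pt p, IsAct p (σ : Ω ≃+* Ω) g := by
    intro σ
    have hσp : (σ : Ω ≃+* Ω) p = p := by
      obtain ⟨q, hq⟩ := hpF
      rw [← hq]; exact σ.commutes q
    exact (h1 Ω p hp (σ : Ω ≃+* Ω) hσp).1
  refine ⟨hfd, ?_, ?_⟩
  · have hnorm : Normal F (IntermediateField.adjoin F (coo S)) := by
      have hn : Normal F Ω := by
        have := hac
        have := halg
        have : IsAlgClosure F Ω := ⟨hac, halg⟩
        exact IsAlgClosure.normal F Ω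
      rw [IntermediateField.normal_iff_forall_map_le']
      intro σ
      rw [IntermediateField.adjoin_map, IntermediateField.adjoin_le_iff]
      rintro x ⟨w, ⟨z, y, h, hw⟩, rfl⟩
      obtain ⟨g, hg⟩ := hex σ
      obtain ⟨j, hj⟩ := hkey σ g hg
      have hpM : p ∈ (IntermediateField.adjoin F (coo S)).toSubfield := by
        obtain ⟨q, hq⟩ := hpF
        have h0 := (IntermediateField.adjoin F (coo S)).algebraMap_mem q
        rw [hq] at h0
        exact h0
      obtain ⟨r1, _, _, r4, _, _⟩ := h3 Ω p hp (IntermediateField.adjoin F (coo S)).toSubfield hpM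
      have hSM : Rat (IntermediateField.adjoin F (coo S)).toSubfield S := by
        intro z' y' h'
        exact ⟨IntermediateField.subset_adjoin F _ ⟨z', y', h', Or.inl rfl⟩,
          IntermediateField.subset_adjoin F _ ⟨z', y', h', Or.inr rfl⟩⟩
      have htM : Rat (IntermediateField.adjoin F (coo S)).toSubfield (t n) := by
        intro z' y' h'
        obtain ⟨⟨q, hq⟩, ⟨q', hq'⟩⟩ := htF n z' y' h'
        rw [← hq, ← hq']
        exact ⟨(IntermediateField.adjoin F (coo S)).algebraMap_mem q,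
          (IntermediateField.adjoin F (coo S)).algebraMap_mem q'⟩
      have hgS : Rat (IntermediateField.adjoin F (coo S)).toSubfield (g S) := by
        rw [hj]
        exact r1 _ _ hSM (r4 j _ htM)
      obtain ⟨m1, m2⟩ := hgS _ _ (hg S z y h)
      rcases hw with rfl | rfl
      · exact m1
      · exact m2
    have hsep : Algebra.IsSeparable F (IntermediateField.adjoin F (coo S)) := inferInstance
    exact ⟨⟩
  · intro σ g hg
    refine ⟨hkey σ g hg, fun m => hfixR σ g hg _ (htF m), ?_, ?_⟩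
    · intro hgS x hx
      refine IntermediateField.adjoin_induction (F := F) (s := coo S)
        (p := fun x _ => σ x = x) ?_ ?_ ?_ ?_ ?_ hx
      · rintro w ⟨z, y, h, hw⟩
        have h' := hg S z y h
        rw [hgS] at h'
        obtain ⟨e, e'⟩ := c4 _ _ _ _ _ h h'
        rcases hw with rfl | rfl
        · exact e.symm
        · exact e'.symm
      · intro q; exact σ.commutes q
      · intro a b _ _ ha hb; rw [map_add, ha, hb]
      · intro a _ ha; rw [map_inv₀, ha]
      · intro a b _ _ ha hb; rw [map_mul, ha, hb]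
    · intro hx
      refine hfixP σ g hg S fun z y h => ⟨hx z ?_, hx y ?_⟩
      · exact IntermediateField.subset_adjoin F _ ⟨z, y, h, Or.inl rfl⟩
      · exact IntermediateField.subset_adjoin F _ ⟨z, y, h, Or.inr rfl⟩

end Pool.Agent.Lib.MP_869d3b_nt
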