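import Pool.Agent.Lib.MP_869d3b_nt.StmM

/-!
# MP_869d3b_nt, [M kumB]: the Galois group of `F(S)` is cyclic of order `2 ^ n`
-/

set_option autoImplicit false

namespace Pool.Agent.Lib.MP_869d3b_nt

private theorem kumB_uniq {Ω : Type} [Field Ω] [DecidableEq Ω] [CharZero Ω] (hco : S_coord Ω)
    {p : Ω} (hp : p ^ 2 = p - 2) {σ : Ω ≃+* Ω} {g g' : Pt p ≃+ Pt p} (h : IsAct p σ g)
    (h' : IsAct p σ g') (P : Pt p) : g P = g' P := by
  obtain ⟨-, -, c3, -, c5, -, -⟩ := hco p hp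
  rcases c3 P with rfl | ⟨z, y, hP⟩
  · rw [map_zero, map_zero]
  · exact c5 _ _ _ _ (h P z y hP) (h' P z y hP)

private theorem kumB_top {Ω : Type} [Field Ω] [DecidableEq Ω] {p : Ω} {φ : Pt p →+ Pt p}
    {t : ℕ → Pt p} (ht : IsTower p φ t) (m : ℕ) : φ^[m] (t (m + 1)) = t 1 := by
  induction m with
  | zero => rfl
  | succ m ih => rw [Function.iterate_succ_apply, ht.step, ih]

private theorem kumB_zmod {G : Type} [AddCommGroup G] {n : ℕ} {x : G}
    (h1 : (2 ^ n : ℤ) • x = 0) (h2 : ∀ j : ℤ, j • x = 0 → (2 ^ n : ℤ) ∣ j) (a b : ℤ) :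
    a • x = b • x ↔ ((a : ZMod (2 ^ n)) = (b : ZMod (2 ^ n))) := by
  rw [ZMod.intCast_eq_intCast_iff_dvd_sub]
  push_cast
  constructor
  · intro h
    apply h2
    rw [sub_zsmul, h, add_neg_cancel]
  · rintro ⟨c, hc⟩
    have hb : b = a + c * 2 ^ n := by linear_combination hc
    rw [hb, add_zsmul, mul_zsmul, h1, zsmul_zero, add_zero]

private theorem kumB_odd {n : ℕ} {j : ℤ} (hj : Odd j) :
    ∃ a : ZMod (2 ^ n), a * (j : ZMod (2 ^ n)) = 1 := by
  obtain ⟨b, hb⟩ := hj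
  have h1 : IsCoprime j 2 := ⟨1, -b, by rw [hb]; ring⟩
  obtain ⟨a, c, hac⟩ := h1.pow_right (n := n)
  refine ⟨(a : ZMod (2 ^ n)), ?_⟩
  have h2 := congrArg (Int.cast : ℤ → ZMod (2 ^ n)) hac
  push_cast at h2
  have h3 : (2 : ZMod (2 ^ n)) ^ n = 0 := by
    have h4 := ZMod.natCast_self (2 ^ n)
    push_cast at h4
    exact h4
  rw [h3, mul_zero, add_zero] at h2
  exact h2

theorem p_kumB (hA : S_kumA)
    (hact : ∀ (Ω : Type) [Field Ω] [DecidableEq Ω] [CharZero Ω], S_act Ω)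
    (hker : ∀ (Ω : Type) [Field Ω] [DecidableEq Ω] [CharZero Ω], S_kerPow Ω)
    (hco : ∀ (Ω : Type) [Field Ω] [DecidableEq Ω] [CharZero Ω], S_coord Ω) : S_kumB := by
  intro F Ω _ _ _ _ _ hΩ halg p hp φ hφ t ht hpF htF n R S hR hS hU
  have hF0 : CharZero F := (algebraMap F Ω).charZero
  have hcl : IsAlgClosure F Ω := ⟨hΩ, halg⟩
  obtain ⟨hfin, hgal, hA3⟩ := hA F Ω hΩ halg p hp φ hφ t ht hpF htF n R S hR hS
  obtain ⟨k1, k2, k3, k4, k5⟩ := hker Ω p hp φ hφ t ht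
  have hfix : ∀ σ : Ω ≃ₐ[F] Ω, (σ : Ω ≃+* Ω) p = p := by
    intro σ
    obtain ⟨a, ha⟩ := hpF
    rw [← ha]
    exact σ.commutes a
  choose g hg using fun σ : Ω ≃ₐ[F] Ω => (hact Ω p hp (σ : Ω ≃+* Ω) (hfix σ)).1
  choose j hj using fun σ : Ω ≃ₐ[F] Ω => (hA3 σ (g σ) (hg σ)).1
  have hgt : ∀ (σ : Ω ≃ₐ[F] Ω) (m : ℕ), g σ (t m) = t m :=
    fun σ m => (hA3 σ (g σ) (hg σ)).2.1 m
  have hmul : ∀ (σ τ : Ω ≃ₐ[F] Ω) (P : Pt p), g (σ * τ) P = g σ (g τ P) := by
    intro σ τ P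
    have h1 : IsAct p ((σ * τ : Ω ≃ₐ[F] Ω) : Ω ≃+* Ω) ((g τ).trans (g σ)) := by
      intro P z y hP
      exact hg σ (g τ P) (τ z) (τ y) (hg τ P z y hP)
    exact kumB_uniq (hco Ω) hp (hg (σ * τ)) h1 P
  have hz := kumB_zmod (n := n) (x := t n) (k3 n) (k5 n)
  let κ : (Ω ≃ₐ[F] Ω) →* Multiplicative (ZMod (2 ^ n)) :=
    MonoidHom.mk' (fun σ => Multiplicative.ofAdd ((j σ : ℤ) : ZMod (2 ^ n))) (by
      intro σ τ
      rw [← ofAdd_add, ← Int.cast_add]
      congr 1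
      rw [← hz]
      have h1 := hj (σ * τ)
      rw [hmul, hj τ, map_add, map_zsmul, hj σ, hgt, add_assoc] at h1
      rw [add_zsmul]
      exact (add_left_cancel h1).symm)
  have hκ1 : ∀ σ, κ σ = Multiplicative.ofAdd ((j σ : ℤ) : ZMod (2 ^ n)) := fun σ => rfl
  have hκ : κ.ker = (IntermediateField.adjoin F (coo S)).fixingSubgroup := by
    ext σ
    rw [MonoidHom.mem_ker, IntermediateField.mem_fixingSubgroup_iff,
      ← (hA3 σ (g σ) (hg σ)).2.2, hj σ, hκ1, ofAdd_eq_one, add_eq_left]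
    have h1 := hz (j σ) 0
    rw [zero_zsmul, Int.cast_zero] at h1
    exact h1.symm
  have hsurj : Function.Surjective κ := by
    rcases n with _ | m
    · have h1 : Subsingleton (Multiplicative (ZMod (2 ^ 0))) := by
        rw [pow_zero]
        infer_instance
      exact fun c => ⟨1, Subsingleton.elim _ _⟩
    · have hodd : ∃ σ, Odd (j σ) := by
        by_contra hcon
        push Not at hcon
        apply hU
        have hfx : ∀ σ : Ω ≃ₐ[F] Ω, g σ (φ^[m] S) = φ^[m] S := by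
          intro σ
          have h1 : Function.Semiconj (g σ) φ φ :=
            fun P => (hact Ω p hp (σ : Ω ≃+* Ω) (hfix σ)).2.1 (g σ) (hg σ) φ hφ P
          rw [(h1.iterate_right m).eq S, hj σ, iterate_map_add, iterate_map_zsmul, kumB_top ht]
          obtain ⟨a, ha⟩ := Int.not_odd_iff_even.1 (hcon σ)
          have h2 := k3 1
          rw [pow_one] at h2
          have h3 : j σ = a * 2 := by rw [ha]; ring
          rw [h3, mul_zsmul, h2, zsmul_zero, add_zero]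
        refine ⟨φ^[m] S, ?_, ?_⟩
        · intro z y hzy
          have h2 : ∀ σ : Ω ≃ₐ[F] Ω, σ z = z ∧ σ y = y := by
            intro σ
            exact (((hact Ω p hp (σ : Ω ≃+* Ω) (hfix σ)).2.2 (g σ) (hg σ) _ z y hzy).1).1 (hfx σ)
          exact ⟨(InfiniteGalois.mem_range_algebraMap_iff_fixed z).2 fun σ => (h2 σ).1,
            (InfiniteGalois.mem_range_algebraMap_iff_fixed y).2 fun σ => (h2 σ).2⟩
        · rw [← hS, Function.iterate_succ_apply']
      obtain ⟨σ, hσ⟩ := hodd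
      obtain ⟨a, ha⟩ := kumB_odd (n := m + 1) hσ
      intro c
      obtain ⟨i, hi⟩ := ZMod.intCast_surjective (Multiplicative.toAdd c * a)
      refine ⟨σ ^ i, ?_⟩
      rw [map_zpow, hκ1, ← ofAdd_zsmul, zsmul_eq_mul, hi, mul_assoc, ha, mul_one, ofAdd_toAdd]
  have hnM : Normal F (IntermediateField.adjoin F (coo S)) := hgal.to_normal
  constructor
  · intro s s'
    obtain ⟨σ, rfl⟩ := AlgEquiv.restrictNormalHom_surjective (F := F)
      (K₁ := IntermediateField.adjoin F (coo S)) Ω s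
    obtain ⟨τ, rfl⟩ := AlgEquiv.restrictNormalHom_surjective (F := F)
      (K₁ := IntermediateField.adjoin F (coo S)) Ω s'
    rw [← map_mul, ← map_mul]
    have h1 : (τ * σ)⁻¹ * (σ * τ) ∈ κ.ker := by
      rw [MonoidHom.mem_ker, map_mul, map_inv, map_mul, map_mul, mul_comm (κ τ) (κ σ),
        inv_mul_cancel]
    rw [hκ, IntermediateField.mem_fixingSubgroup_iff] at h1
    ext x
    rw [AlgEquiv.restrictNormalHom_apply, AlgEquiv.restrictNormalHom_apply]
    have h2 := congrArg (τ * σ) (h1 x x.2)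
    rw [← AlgEquiv.mul_apply, mul_inv_cancel_left] at h2
    exact h2
  · rw [IntermediateField.finrank_eq_fixingSubgroup_index, ← hκ, Subgroup.index_ker,
      MonoidHom.range_eq_top.2 hsurj, Subgroup.card_top,
      Nat.card_congr Multiplicative.toAdd, Nat.card_zmod]

end Pool.Agent.Lib.MP_869d3b_nt
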