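import Pool.Agent.Lib.MP_869d3b_nt.StmZ

/-!
# MP_869d3b_nt, section 3: the levels of `N`
-/

set_option autoImplicit false

open NumberField IsDedekindDomain

namespace Pool.Agent.Lib.MP_869d3b_nt

section

variable {k Ω : Type} [Field k] [Field Ω] [DecidableEq Ω] [Algebra k Ω]

private theorem lev_rat_iff {p : Ω} (N : IntermediateField k Ω) (S : Pt p) :
    Rat N.toSubfield S ↔ coo S ⊆ (N : Set Ω) := by
  constructor
  · rintro h x ⟨z, y, hS, rfl | rfl⟩
    · exact (h _ _ hS).1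
    · exact (h _ _ hS).2
  · intro h z y hS
    exact ⟨h ⟨z, y, hS, Or.inl rfl⟩, h ⟨z, y, hS, Or.inr rfl⟩⟩

private theorem lev_iter {p : Ω} {φ : Pt p →+ Pt p} {t : ℕ → Pt p} (ht : IsTower p φ t)
    (d m : ℕ) : φ^[d] (t (m + d)) = t m := by
  induction d with
  | zero => rfl
  | succ d ih => rw [Function.iterate_succ_apply, ← add_assoc, ht.step, ih]

private theorem lev_iter_comm {p : Ω} (φ : Pt p →+ Pt p) (g : Pt p ≃+ Pt p)
    (h : ∀ P : Pt p, g (φ P) = φ (g P)) (i : ℕ) (P : Pt p) : g (φ^[i] P) = φ^[i] (g P) := by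
  induction i with
  | zero => rfl
  | succ i ih => rw [Function.iterate_succ_apply', Function.iterate_succ_apply', h, ih]

private theorem lev_coo_finite [CharZero Ω] (hcoord : S_coord Ω) {p : Ω} (hp : p ^ 2 = p - 2)
    (S : Pt p) : (coo S).Finite := by
  obtain ⟨_, _, c3, c4, _, c6, _⟩ := hcoord p hp
  rcases c3 S with rfl | ⟨z, y, hS⟩
  · have : coo (0 : Pt p) = ∅ := by
      ext x
      constructor
      · rintro ⟨z, y, h, _⟩
        exact absurd h (c6 z y)
      · intro h
        exact absurd h (Set.notMem_empty x)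
    rw [this]
    exact Set.finite_empty
  · refine Set.Finite.subset (Set.toFinite {z, y}) ?_
    rintro x ⟨z', y', h, hx⟩
    obtain ⟨rfl, rfl⟩ := c4 S z y z' y' hS h
    rcases hx with rfl | rfl
    · exact Set.mem_insert _ _
    · exact Set.mem_insert_of_mem _ rfl

omit [DecidableEq Ω] in
private theorem lev_galois [CharZero Ω] (hclosed : IsAlgClosed Ω) (halg : Algebra.IsAlgebraic k Ω)
    (N : IntermediateField k Ω) (S : Set Ω) (hN : N = IntermediateField.adjoin k S)
    (h : ∀ σ : Ω ≃ₐ[k] Ω, ∀ x ∈ S, σ x ∈ N) : IsGalois k N := by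
  have hk : CharZero k := (algebraMap k Ω).charZero_iff (algebraMap k Ω).injective |>.2 inferInstance
  have hcl : IsAlgClosure k Ω := ⟨hclosed, halg⟩
  have hnorm : Normal k Ω := IsAlgClosure.normal k Ω
  have hN' : Normal k N := by
    rw [IntermediateField.normal_iff_forall_map_le']
    intro σ
    conv_lhs => rw [hN]
    rw [IntermediateField.adjoin_map, IntermediateField.adjoin_le_iff]
    rintro _ ⟨x, hx, rfl⟩
    exact h σ x hx
  exact ⟨⟩

omit [DecidableEq Ω] in
private theorem lev_fix (S : Set Ω) (σ : Ω ≃ₐ[k] Ω) (h : ∀ x ∈ S, σ x = x) :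
    ∀ x ∈ IntermediateField.adjoin k S, σ x = x := by
  intro x hx
  refine IntermediateField.adjoin_induction k (p := fun x _ => σ x = x) ?_ ?_ ?_ ?_ ?_ hx
  · exact h
  · intro c
    exact σ.commutes c
  · intro x y _ _ hx hy
    rw [map_add, hx, hy]
  · intro x _ hx
    rw [map_inv₀, hx]
  · intro x y _ _ hx hy
    rw [map_mul, hx, hy]

end

theorem p_lev (hcoord : ∀ (Ω : Type) [Field Ω] [DecidableEq Ω] [CharZero Ω], S_coord Ω)
    (hact : ∀ (Ω : Type) [Field Ω] [DecidableEq Ω] [CharZero Ω], S_act Ω)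
    (hker : ∀ (Ω : Type) [Field Ω] [DecidableEq Ω] [CharZero Ω], S_kerPow Ω)
    (hrat : ∀ (Ω : Type) [Field Ω] [DecidableEq Ω] [CharZero Ω], S_rat Ω) : S_lev := by
  intro k Ω _ _ _ _ _ hclosed halg p hp hpk φ hφ t ht
  obtain ⟨p0, hp0⟩ := hpk
  obtain ⟨k1, k2, k3, k4, k5⟩ := hker Ω p hp φ hφ t ht
  have hpN : ∀ N : IntermediateField k Ω, p ∈ N.toSubfield := fun N => by
    rw [← hp0]
    exact N.algebraMap_mem p0
  have hσp : ∀ σ : Ω ≃ₐ[k] Ω, (σ : Ω ≃+* Ω) p = p := fun σ => by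
    rw [← hp0]
    exact σ.commutes p0
  have hsub : ∀ n, Rat (Nlev k t n).toSubfield (t n) := fun n =>
    (lev_rat_iff _ _).2 (IntermediateField.subset_adjoin k _)
  have hmono : ∀ m n : ℕ, m ≤ n → Nlev k t m ≤ Nlev k t n ∧ Rat (Nlev k t n).toSubfield (t m) := by
    intro m n hmn
    have h1 : Rat (Nlev k t n).toSubfield (t m) := by
      obtain ⟨d, rfl⟩ := Nat.exists_eq_add_of_le hmn
      rw [← lev_iter ht d m]
      exact (hrat Ω p hp _ (hpN _)).2.2.2.2.2 φ hφ d _ (hsub _)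
    exact ⟨IntermediateField.adjoin_le_iff.2 ((lev_rat_iff _ _).1 h1), h1⟩
  have hinf : ∀ n : ℕ, Nlev k t n ≤ Ninf k t ∧ Rat (Ninf k t).toSubfield (t n) := by
    intro n
    have h1 : coo (t n) ⊆ (Ninf k t : Set Ω) :=
      (Set.subset_iUnion (fun n => coo (t n)) n).trans (IntermediateField.subset_adjoin k _)
    exact ⟨IntermediateField.adjoin_le_iff.2 h1, (lev_rat_iff _ _).2 h1⟩
  -- automorphisms preserve the fields over which `t n` is rational
  have hpres : ∀ (N : IntermediateField k Ω) (n : ℕ), Rat N.toSubfield (t n) →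
      ∀ σ : Ω ≃ₐ[k] Ω, ∀ x ∈ coo (t n), σ x ∈ N := by
    intro N n hN σ x hx
    obtain ⟨a1, a2, a3⟩ := hact Ω p hp (σ : Ω ≃+* Ω) (hσp σ)
    obtain ⟨g, hg⟩ := a1
    have hcomm : ∀ P : Pt p, g (φ P) = φ (g P) := a2 g hg φ hφ
    have h1 : φ^[n] (g (t n)) = 0 := by
      rw [← lev_iter_comm φ g hcomm, k2, map_zero]
    obtain ⟨j, hj⟩ := k1 n _ h1
    have h2 : Rat N.toSubfield (g (t n)) := by
      rw [hj]
      exact (hrat Ω p hp _ (hpN _)).2.2.2.1 j _ hN
    obtain ⟨z, y, hzy, hx'⟩ := hx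
    have h3 := hg _ _ _ hzy
    rcases hx' with rfl | rfl
    · exact (h2 _ _ h3).1
    · exact (h2 _ _ h3).2
  refine ⟨hmono, hinf, ?_, ?_, ?_, ?_, ?_⟩
  · intro n
    constructor
    · have := (lev_coo_finite (hcoord Ω) hp (t n)).to_subtype
      exact IntermediateField.finiteDimensional_adjoin fun x _ => (halg.isAlgebraic x).isIntegral
    · exact lev_galois hclosed halg _ (coo (t n)) rfl (hpres _ n (hsub n))
  · refine lev_galois hclosed halg _ (⋃ n, coo (t n)) rfl ?_
    intro σ x hx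
    obtain ⟨n, hn⟩ := Set.mem_iUnion.1 hx
    exact hpres _ n (hinf n).2 σ x hn
  · intro n σ g hg
    obtain ⟨_, _, a3⟩ := hact Ω p hp (σ : Ω ≃+* Ω) (hσp σ)
    rcases (hcoord Ω p hp).2.2.1 (t n) with h0 | ⟨z, y, hzy⟩
    · constructor
      · intro _ x hx
        refine lev_fix (coo (t n)) σ ?_ x hx
        rintro x ⟨z, y, h, _⟩
        rw [h0] at h
        exact absurd h ((hcoord Ω p hp).2.2.2.2.2.1 z y)
      · intro _
        rw [h0, map_zero]
    · rw [((a3 g hg) (t n) z y hzy).1]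
      constructor
      · rintro ⟨hz, hy⟩ x hx
        refine lev_fix (coo (t n)) σ ?_ x hx
        rintro x ⟨z', y', h, hx'⟩
        obtain ⟨rfl, rfl⟩ := (hcoord Ω p hp).2.2.2.1 _ _ _ _ _ hzy h
        rcases hx' with rfl | rfl
        · exact hz
        · exact hy
      · intro h
        have h1 := hsub n z y hzy
        exact ⟨h z h1.1, h y h1.2⟩
  · intro M hM hle
    have hFG : M.FG := IntermediateField.essFiniteType_iff.1 inferInstance
    obtain ⟨s, hs⟩ := hFG
    have hdir : Directed (· ≤ ·) fun n => Nlev k t n := by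
      intro a b
      exact ⟨max a b, (hmono _ _ (le_max_left _ _)).1, (hmono _ _ (le_max_right _ _)).1⟩
    have hle2 : Ninf k t ≤ ⨆ n, Nlev k t n := by
      refine IntermediateField.adjoin_le_iff.2 (Set.iUnion_subset fun n => ?_)
      exact (IntermediateField.subset_adjoin k _).trans
        (SetLike.coe_subset_coe.2 (le_iSup (fun n => Nlev k t n) n))
    have hex : ∀ x ∈ M, ∃ n, x ∈ Nlev k t n := by
      intro x hx
      have h1 : x ∈ ((⨆ n, Nlev k t n : IntermediateField k Ω) : Set Ω) := hle2 (hle hx)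
      rw [IntermediateField.coe_iSup_of_directed hdir] at h1
      exact Set.mem_iUnion.1 h1
    have hsM : ∀ x ∈ s, x ∈ M := fun x hx => by
      rw [← hs]
      exact IntermediateField.subset_adjoin k _ hx
    have hfin : ∀ s' : Finset Ω, (∀ x ∈ s', x ∈ M) → ∃ n, ∀ x ∈ s', x ∈ Nlev k t n := by
      intro s'
      induction s' using Finset.induction_on with
      | empty => exact fun _ => ⟨0, fun x hx => absurd hx (Finset.notMem_empty x)⟩
      | insert a s' _ ih =>
        intro h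
        obtain ⟨n, hn⟩ := ih fun x hx => h x (Finset.mem_insert_of_mem hx)
        obtain ⟨m, hm⟩ := hex a (h a (Finset.mem_insert_self _ _))
        refine ⟨max m n, fun x hx => ?_⟩
        rcases Finset.mem_insert.1 hx with rfl | hx
        · exact (hmono _ _ (le_max_left _ _)).1 hm
        · exact (hmono _ _ (le_max_right _ _)).1 (hn x hx)
    obtain ⟨n, hn⟩ := hfin s hsM
    refine ⟨max 2 n, le_max_left _ _, ?_⟩
    rw [← hs, IntermediateField.adjoin_le_iff]
    intro x hx
    exact (hmono _ _ (le_max_right _ _)).1 (hn x hx)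
  · unfold Nlev
    rw [IntermediateField.adjoin_eq_bot_iff]
    rintro x ⟨z, y, h, hx⟩
    obtain ⟨rfl, rfl⟩ := (hcoord Ω p hp).2.2.2.1 _ _ _ _ _ ht.two h
    rw [SetLike.mem_coe, IntermediateField.mem_bot]
    rcases hx with rfl | rfl
    · exact ⟨-p0, by rw [map_neg, hp0]⟩
    · exact ⟨p0 * (1 + p0), by rw [map_mul, map_add, map_one, hp0]⟩

end Pool.Agent.Lib.MP_869d3b_nt
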