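import Pool.Agent.Lib.MP_869d3b_nt.StmZ

/-!
# MP_869d3b_nt, [Z pow]: the action of the powers of an automorphism moving `t 3`
-/

set_option autoImplicit false

namespace Pool.Agent.Lib.MP_869d3b_nt

theorem p_pow (hco : ∀ (Ω : Type) [Field Ω] [DecidableEq Ω] [CharZero Ω], S_coord Ω)
    (hke : ∀ (Ω : Type) [Field Ω] [DecidableEq Ω] [CharZero Ω], S_ker Ω)
    (hkp : ∀ (Ω : Type) [Field Ω] [DecidableEq Ω] [CharZero Ω], S_kerPow Ω) : S_pow := by
  intro Ω _ _ _ p hp φ hφ t ht g hg h2 h3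
  obtain ⟨k1, _, _, _, k5⟩ := hke Ω p hp φ hφ
  obtain ⟨_, _, _, _, c5, _, _⟩ := hco Ω p hp
  obtain ⟨_, _, _, q4, _⟩ := hkp Ω p hp φ hφ t ht
  obtain ⟨hT0, hTT⟩ := k5 (t 1) ht.one
  have hk : ∀ P : Pt p, φ P = 0 → P = 0 ∨ P = t 1 := by
    intro P hP
    rcases (k1 P).1 hP with h | h
    · exact Or.inl h
    · exact Or.inr (c5 P (t 1) 1 0 h ht.one)
  have h22 : t 2 + t 2 = t 1 := by
    have := q4 1
    rwa [pow_one, two_zsmul] at this
  -- one step
  have step : ∀ (h : Pt p → Pt p) (j : ℕ), (∀ P Q, h (P + Q) = h P + h Q) →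
      (∀ P, h (φ P) = φ (h P)) → h (t 2) = t 2 → h (t (j + 2)) = t (j + 2) →
      h (t (j + 3)) ≠ t (j + 3) →
      h (h (t (j + 3))) = t (j + 3) ∧ h (h (t (j + 4))) ≠ t (j + 4) := by
    intro h j hadd hcomm hfix e1 e2
    have hT : h (t 1) = t 1 := by
      have : φ (t 2) = t 1 := ht.step 1
      rw [← this, hcomm, hfix]
    have s3 : φ (t (j + 3)) = t (j + 2) := ht.step (j + 2)
    have s4 : φ (t (j + 4)) = t (j + 3) := ht.step (j + 3)
    have eV : h (t (j + 3)) = t (j + 3) + t 1 := by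
      have : φ (h (t (j + 3)) - t (j + 3)) = 0 := by
        rw [map_sub, ← hcomm, s3, e1, sub_self]
      rcases hk _ this with h' | h'
      · exact absurd (sub_eq_zero.1 h') e2
      · rw [← h']; abel
    have eW : φ (h (t (j + 4)) - t (j + 4) - t 2) = 0 := by
      rw [map_sub, map_sub, ← hcomm, s4, eV, ht.step 1]
      abel
    refine ⟨?_, ?_⟩
    · rw [eV, hadd, hT, eV, add_assoc, hTT, add_zero]
    · intro hcon
      rcases hk _ eW with h' | h'
      · have e : h (t (j + 4)) = t (j + 4) + t 2 := by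
          rw [sub_eq_zero] at h'
          rw [← h']; abel
        rw [e, hadd, hfix, e, add_assoc, h22] at hcon
        exact hT0 (left_eq_add.1 hcon.symm)
      · have e : h (t (j + 4)) = t (j + 4) + (t 2 + t 1) := by
          rw [sub_eq_iff_eq_add] at h'
          rw [add_comm (t 2), ← h']; abel
        rw [e, hadd, hadd, hfix, hT, e, add_assoc,
          show (t 2 + t 1) + (t 2 + t 1) = (t 2 + t 2) + (t 1 + t 1) by abel, hTT, add_zero, h22]
          at hcon
        exact hT0 (left_eq_add.1 hcon.symm)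
  have main : ∀ j : ℕ, (∀ P Q, g^[2 ^ j] (P + Q) = g^[2 ^ j] P + g^[2 ^ j] Q) ∧
      (∀ P, g^[2 ^ j] (φ P) = φ (g^[2 ^ j] P)) ∧ g^[2 ^ j] (t 2) = t 2 ∧
      g^[2 ^ j] (t (j + 2)) = t (j + 2) ∧ g^[2 ^ j] (t (j + 3)) ≠ t (j + 3) := by
    intro j
    induction j with
    | zero =>
      refine ⟨?_, ?_, ?_, ?_, ?_⟩
      · intro P Q; simp
      · intro P; simpa using hg P
      · simpa using h2
      · simpa using h2
      · simpa using h3
    | succ j ih =>
      obtain ⟨i1, i2, i3, i4, i5⟩ := ih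
      have e : g^[2 ^ (j + 1)] = g^[2 ^ j] ∘ g^[2 ^ j] := by
        rw [← Function.iterate_add, pow_succ, mul_two]
      rw [e]
      obtain ⟨r1, r2⟩ := step _ j i1 i2 i3 i4 i5
      refine ⟨?_, ?_, ?_, ?_, ?_⟩
      · intro P Q
        simp only [Function.comp_apply, i1]
      · intro P
        simp only [Function.comp_apply, i2]
      · simp only [Function.comp_apply, i3]
      · rw [Function.comp_apply, show j + 1 + 2 = j + 3 by ring]
        exact r1
      · rw [Function.comp_apply, show j + 1 + 3 = j + 4 by ring]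
        exact r2
  intro j
  exact ⟨(main j).2.2.2.1, (main j).2.2.2.2⟩

end Pool.Agent.Lib.MP_869d3b_nt
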