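import Pool.Agent.Lib.MP_869d3b_nt.StmZ

/-!
# MP_869d3b_nt, section 3: a criterion for `G ≅ ℤ_2`
-/

set_option autoImplicit false

open NumberField IsDedekindDomain

namespace Pool.Agent.Lib.MP_869d3b_nt

section

variable {G : Type} [Group G] {H : ℕ → Subgroup G} {s : G}

/-- `g ≡ s ^ i` modulo `H n` -/
private def prC (H : ℕ → Subgroup G) (s : G) (n : ℕ) (g : G) (i : ℤ) : Prop := (s ^ i)⁻¹ * g ∈ H n

private theorem pr_pow_mem (hs : ∀ j, s ^ (2 ^ j) ∈ H j) (n : ℕ) (i : ℤ) (h : (2 : ℤ) ^ n ∣ i) :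
    s ^ i ∈ H n := by
  obtain ⟨u, rfl⟩ := h
  rw [zpow_mul]
  refine (H n).zpow_mem ?_ u
  have h1 : s ^ ((2 : ℤ) ^ n) = s ^ (2 ^ n) := by
    rw [← zpow_natCast]
    norm_cast
  rw [h1]
  exact hs n

private theorem pr_dvd (hmono : ∀ j, H (j + 1) ≤ H j) (hs : ∀ j, s ^ (2 ^ j) ∈ H j)
    (hs' : ∀ j, s ^ (2 ^ j) ∉ H (j + 1)) (n : ℕ) (i : ℤ) (h : s ^ i ∈ H n) : (2 : ℤ) ^ n ∣ i := by
  induction n generalizing i with
  | zero => exact one_dvd _
  | succ n ih =>
    obtain ⟨u, hu⟩ := ih i (hmono n h)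
    rcases Int.even_or_odd u with ⟨v, hv⟩ | ⟨v, hv⟩
    · exact ⟨v, by rw [hu, hv, pow_succ]; ring⟩
    · exfalso
      apply hs' n
      have h1 : i = (2 : ℤ) ^ n + 2 ^ (n + 1) * v := by rw [hu, hv, pow_succ]; ring
      rw [h1, zpow_add] at h
      have h2 : s ^ ((2 : ℤ) ^ (n + 1) * v) ∈ H (n + 1) := pr_pow_mem hs (n + 1) _ ⟨v, rfl⟩
      have h3 := (H (n + 1)).mul_mem h ((H (n + 1)).inv_mem h2)
      rw [mul_inv_cancel_right] at h3
      have h4 : s ^ ((2 : ℤ) ^ n) = s ^ (2 ^ n) := by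
        rw [← zpow_natCast]
        norm_cast
      rwa [h4] at h3

private theorem pr_exists (h0 : H 0 = ⊤)
    (hprod : ∀ j, ∀ a ∈ H j, ∀ b ∈ H j, a ∉ H (j + 1) → b ∉ H (j + 1) → a * b ∈ H (j + 1))
    (hs : ∀ j, s ^ (2 ^ j) ∈ H j) (hs' : ∀ j, s ^ (2 ^ j) ∉ H (j + 1)) (n : ℕ) (g : G) :
    ∃ i : ℤ, prC H s n g i := by
  induction n with
  | zero => exact ⟨0, by unfold prC; rw [h0]; exact Subgroup.mem_top _⟩
  | succ n ih =>
    obtain ⟨i, hi⟩ := ih
    by_cases h : prC H s (n + 1) g i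
    · exact ⟨i, h⟩
    · refine ⟨i + 2 ^ n, ?_⟩
      have h1 := hprod n _ ((H n).inv_mem (hs n)) _ hi
        (fun h2 => hs' n ((H (n + 1)).inv_mem_iff.1 h2)) h
      unfold prC
      have h4 : s ^ ((2 : ℤ) ^ n) = s ^ (2 ^ n) := by
        rw [← zpow_natCast]
        norm_cast
      rw [zpow_add, mul_inv_rev, h4, mul_assoc]
      exact h1

private theorem pr_unique (hmono : ∀ j, H (j + 1) ≤ H j) (hs : ∀ j, s ^ (2 ^ j) ∈ H j)
    (hs' : ∀ j, s ^ (2 ^ j) ∉ H (j + 1)) (n : ℕ) (g : G) (i i' : ℤ) (h : prC H s n g i)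
    (h' : prC H s n g i') : (2 : ℤ) ^ n ∣ i - i' := by
  apply pr_dvd hmono hs hs'
  have h1 := (H n).mul_mem h ((H n).inv_mem h')
  have h2 : (s ^ i)⁻¹ * g * ((s ^ i')⁻¹ * g)⁻¹ = s ^ (i' - i) := by
    rw [mul_inv_rev, inv_inv, mul_assoc, mul_inv_cancel_left, ← zpow_neg, ← zpow_add]
    congr 1
    ring
  rw [h2] at h1
  have h3 := (H n).inv_mem h1
  rw [← zpow_neg, neg_sub] at h3
  exact h3

private theorem pr_mul (hnorm : ∀ j, (H j).Normal) (n : ℕ) (g h : G) (i j : ℤ)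
    (h1 : prC H s n g i) (h2 : prC H s n h j) : prC H s n (g * h) (i + j) := by
  unfold prC at *
  have e : (s ^ (i + j))⁻¹ * (g * h) = (s ^ j)⁻¹ * ((s ^ i)⁻¹ * g) * (s ^ j)⁻¹⁻¹ *
      ((s ^ j)⁻¹ * h) := by
    rw [zpow_add]
    group
  rw [e]
  exact (H n).mul_mem ((hnorm n).conj_mem _ h1 _) h2

end

/-- the defining property of the limit -/
private def prD {G : Type} [Group G] (H : ℕ → Subgroup G) (s g : G) (x : ℤ_[2]) : Prop :=
  ∀ (n : ℕ) (i : ℤ), prC H s n g i → (2 : ℤ_[2]) ^ n ∣ x - i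

private theorem pr_cast (n : ℕ) (a : ℤ) (h : (2 : ℤ) ^ n ∣ a) : (2 : ℤ_[2]) ^ n ∣ (a : ℤ_[2]) := by
  obtain ⟨b, rfl⟩ := h
  exact ⟨(b : ℤ_[2]), by push_cast; ring⟩

private theorem pr_cast' (n : ℕ) (a : ℤ) (h : (2 : ℤ_[2]) ^ n ∣ (a : ℤ_[2])) : (2 : ℤ) ^ n ∣ a := by
  have h1 := (PadicInt.pow_p_dvd_int_iff (p := 2) n a).1 (by exact_mod_cast h)
  exact_mod_cast h1

/-- an element which is divisible by all powers of `2` is `0` -/
private theorem pr_zero (x : ℤ_[2]) (h : ∀ n : ℕ, (2 : ℤ_[2]) ^ n ∣ x) : x = 0 := by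
  by_contra hx
  have h1 := (PadicInt.mem_span_pow_iff_le_valuation x hx (x.valuation + 1)).1
    (Ideal.mem_span_singleton.2 (by exact_mod_cast h (x.valuation + 1)))
  omega

/-- a neighbourhood of `0` contains a ball -/
private theorem pr_nhds (s : Set ℤ_[2]) (hs : s ∈ nhds (0 : ℤ_[2])) :
    ∃ n : ℕ, ∀ x : ℤ_[2], (2 : ℤ_[2]) ^ n ∣ x → x ∈ s := by
  obtain ⟨ε, hε, hb⟩ := Metric.mem_nhds_iff.1 hs
  obtain ⟨n, hn⟩ := PadicInt.exists_pow_neg_lt 2 hε
  refine ⟨n, fun x hx => hb ?_⟩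
  rw [Metric.mem_ball, dist_zero_right]
  refine lt_of_le_of_lt ?_ hn
  rw [PadicInt.norm_le_pow_iff_mem_span_pow]
  exact Ideal.mem_span_singleton.2 (by exact_mod_cast hx)

theorem p_prof : S_prof := by
  intro G _ _ _ _ H hopen h0 hmono hnorm hprod hint hs
  obtain ⟨s, hs⟩ := hs
  have hs1 := fun j => (hs j).1
  have hs2 := fun j => (hs j).2
  -- existence of the limit
  have hex : ∀ g : G, ∃ x : ℤ_[2], prD H s g x := by
    intro g
    choose i hi using fun n => pr_exists h0 hprod hs1 hs2 n g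
    let C : ℕ → Set ℤ_[2] := fun n => Set.range fun y : ℤ_[2] => (2 : ℤ_[2]) ^ n * y + (i n : ℤ_[2])
    have hC : ∀ n x, x ∈ C n ↔ (2 : ℤ_[2]) ^ n ∣ x - i n := by
      intro n x
      constructor
      · rintro ⟨y, rfl⟩
        exact ⟨y, by ring⟩
      · rintro ⟨y, hy⟩
        exact ⟨y, by show (2 : ℤ_[2]) ^ n * y + (i n : ℤ_[2]) = x; rw [← hy]; ring⟩
    have hcomp : ∀ n, IsCompact (C n) := fun n =>
      isCompact_range ((continuous_const.mul continuous_id).add continuous_const)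
    have hdec : ∀ n, C (n + 1) ⊆ C n := by
      intro n x hx
      rw [hC] at hx ⊢
      have h1 : (2 : ℤ_[2]) ^ n ∣ x - i (n + 1) := (pow_dvd_pow _ (Nat.le_succ n)).trans hx
      have h2 := pr_cast n _ (pr_unique hmono hs1 hs2 n g (i (n + 1)) (i n)
        (hmono n (hi (n + 1))) (hi n))
      have h3 := dvd_add h1 h2
      push_cast at h3
      rwa [sub_add_sub_cancel] at h3
    obtain ⟨x, hx⟩ := IsCompact.nonempty_iInter_of_sequence_nonempty_isCompact_isClosed C hdec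
      (fun n => ⟨_, ⟨0, rfl⟩⟩) (hcomp 0) fun n => (hcomp n).isClosed
    refine ⟨x, fun n j hj => ?_⟩
    have h1 := (hC n x).1 (Set.mem_iInter.1 hx n)
    have h2 := pr_cast n _ (pr_unique hmono hs1 hs2 n g (i n) j (hi n) hj)
    have h3 := dvd_add h1 h2
    push_cast at h3
    rwa [sub_add_sub_cancel] at h3
  choose a ha using hex
  have huniq : ∀ g x, prD H s g x → x = a g := by
    intro g x hx
    rw [← sub_eq_zero]
    apply pr_zero
    intro n
    obtain ⟨i, hi⟩ := pr_exists h0 hprod hs1 hs2 n g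
    have h3 := dvd_sub (hx n i hi) (ha g n i hi)
    rwa [sub_sub_sub_cancel_right] at h3
  have hmul : ∀ g h, a (g * h) = a g + a h := by
    intro g h
    symm
    apply huniq
    intro n j hj
    obtain ⟨i1, hi1⟩ := pr_exists h0 hprod hs1 hs2 n g
    obtain ⟨i2, hi2⟩ := pr_exists h0 hprod hs1 hs2 n h
    have h1 := pr_cast n _ (pr_unique hmono hs1 hs2 n (g * h) (i1 + i2) j
      (pr_mul hnorm n g h i1 i2 hi1 hi2) hj)
    have h2 := dvd_add (dvd_add (ha g n i1 hi1) (ha h n i2 hi2)) h1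
    push_cast at h2
    have e : a g - i1 + (a h - i2) + (i1 + i2 - j) = a g + a h - (j : ℤ_[2]) := by ring
    rwa [e] at h2
  let F : G →* Multiplicative ℤ_[2] :=
    MonoidHom.mk' (fun g => Multiplicative.ofAdd (a g)) fun g h => by rw [hmul, ofAdd_add]
  -- the kernel of `a` modulo `2 ^ n`
  have hker : ∀ n g, g ∈ H n → (2 : ℤ_[2]) ^ n ∣ a g := by
    intro n g hg
    have h1 := ha g n 0 (by unfold prC; rw [zpow_zero, inv_one, one_mul]; exact hg)
    push_cast at h1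
    rwa [sub_zero] at h1
  have hker' : ∀ n g, (2 : ℤ_[2]) ^ n ∣ a g → g ∈ H n := by
    intro n g hg
    obtain ⟨i, hi⟩ := pr_exists h0 hprod hs1 hs2 n g
    have h1 := dvd_sub hg (ha g n i hi)
    rw [sub_sub_cancel] at h1
    have h2 := pr_pow_mem hs1 n i (pr_cast' n i h1)
    have h3 := (H n).mul_mem h2 hi
    rwa [mul_inv_cancel_left] at h3
  have hcont : Continuous F := by
    refine continuous_of_continuousAt_one F ?_
    intro U hU
    rw [map_one] at hU
    obtain ⟨n, hn⟩ := pr_nhds (Multiplicative.ofAdd ⁻¹' U)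
      (continuous_ofAdd.continuousAt.preimage_mem_nhds (by rw [ofAdd_zero]; exact hU))
    rw [Filter.mem_map]
    refine Filter.mem_of_superset ((hopen n).mem_nhds (H n).one_mem) fun g hg => ?_
    exact hn (a g) (hker n g hg)
  have hinj : Function.Injective F := by
    rw [injective_iff_map_eq_one]
    intro g hg
    have h1 : a g = 0 := by
      have : Multiplicative.ofAdd (a g) = 1 := hg
      rwa [ofAdd_eq_one] at this
    apply hint
    intro n
    apply hker'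
    rw [h1]
    exact dvd_zero _
  have hsurj : Function.Surjective F := by
    have h1 : IsClosed (Set.range a) := (isCompact_range (continuous_toAdd.comp hcont)).isClosed
    have h2 : Set.range (Int.cast : ℤ → ℤ_[2]) ⊆ Set.range a := by
      rintro _ ⟨i, rfl⟩
      refine ⟨s ^ i, ?_⟩
      symm
      apply huniq
      intro n j hj
      have h3 := pr_cast n _ (pr_unique hmono hs1 hs2 n (s ^ i) i j
        (by unfold prC; rw [inv_mul_cancel]; exact (H n).one_mem) hj)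
      push_cast at h3
      exact h3
    have h3 : Dense (Set.range a) := PadicInt.denseRange_intCast.mono h2
    have h4 : Set.range a = Set.univ := by rw [← h1.closure_eq]; exact h3.closure_eq
    intro x
    obtain ⟨g, hg⟩ := (h4.symm ▸ Set.mem_univ (Multiplicative.toAdd x) : _ ∈ Set.range a)
    exact ⟨g, by show Multiplicative.ofAdd (a g) = x; rw [hg]; rfl⟩
  let e : G ≃* Multiplicative ℤ_[2] := MulEquiv.ofBijective F ⟨hinj, hsurj⟩
  have he : Continuous e.toEquiv := hcont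
  exact ⟨{ e with
    continuous_toFun := hcont
    continuous_invFun := (Continuous.homeoOfEquivCompactToT2 he).symm.continuous }⟩

end Pool.Agent.Lib.MP_869d3b_nt
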