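import Pool.Agent.Lib.MP_869d3b_nt.StmZ

/-!
# MP_869d3b_nt, section 3: piece [Z quad]
-/

set_option autoImplicit false

open NumberField IsDedekindDomain

namespace Pool.Agent.Lib.MP_869d3b_nt

theorem p_quad (hgen : S_gen) : S_quad := by
  intro k Ω _ _ _ _ hac halg N hN a b x y hx hy hx2 hy2 hyn
  obtain ⟨σ, hσ⟩ := hgen k Ω hac halg N hN
  have hinj : Function.Injective (algebraMap k Ω) := (algebraMap k Ω).injective
  have hy' : σ y = -y := by
    have h1 : (σ y) ^ 2 = y ^ 2 := by rw [← map_pow, hy2, AlgEquiv.commutes]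
    rcases sq_eq_sq_iff_eq_or_eq_neg.1 h1 with h | h
    · exact absurd (hσ y hy h) hyn
    · exact h
  have hx' : σ x = x ∨ σ x = -x := by
    have h1 : (σ x) ^ 2 = x ^ 2 := by rw [← map_pow, hx2, AlgEquiv.commutes]
    exact sq_eq_sq_iff_eq_or_eq_neg.1 h1
  rcases hx' with h | h
  · left
    obtain ⟨c, hc⟩ := hσ x hx h
    refine ⟨c, hinj ?_⟩
    rw [map_pow, hc, hx2]
  · right
    have h1 : σ (x * y) = x * y := by rw [map_mul, h, hy', neg_mul_neg]
    obtain ⟨c, hc⟩ := hσ (x * y) (mul_mem hx hy) h1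
    refine ⟨c, hinj ?_⟩
    rw [map_pow, hc, mul_pow, hx2, hy2, map_mul]

end Pool.Agent.Lib.MP_869d3b_nt
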