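import Pool.Agent.Lib.MP_869d3b_nt.StmM

/-!
# MP_869d3b_nt, section 4: piece [M rec]
-/

set_option autoImplicit false

open NumberField IsDedekindDomain

namespace Pool.Agent.Lib.MP_869d3b_nt

theorem p_rec (Ω : Type) [Field Ω] [DecidableEq Ω] [CharZero Ω] (hstep : S_step Ω)
    (hloc : S_loc Ω) (hdesc : S_descOne Ω) (hrat : S_rat Ω) : S_rec Ω := by
  intro hac halg p hp B hpB φ hφ t ht P Q yP w y0 hP hPr hQr hw hPQ n hn
  obtain ⟨-, hpF, -, -, ⟨x, hx, -, hx2⟩, -⟩ := hloc hac halg p hp B hpB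
  obtain ⟨radd, -, rzero, rzsmul, -, rit⟩ := hrat p hp (FB B) hpF
  have ht1 : φ (φ (t 2)) = 0 := by
    rw [ht.step 1, ht.step 0, ht.zero]
  induction n, hn using Nat.le_induction with
  | base =>
    obtain ⟨U, hU, hUφ⟩ := hdesc p hp φ hφ (FB B) hpF (P + Q) (-39 * w ^ 2) y0 (x * w)
      (radd P Q hPr hQr) hPQ (mul_mem hx hw) (by rw [hx2]; ring)
    refine ⟨P + Q, U, 0, 0, 0, ?_, zero_mem _, hU, rfl, ?_⟩
    · rw [map_zero, add_zero]
    · rw [Function.iterate_one, hUφ, add_zero]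
  | succ n hn ih =>
    obtain ⟨R, S, τ, W, m, hR, hW, hS, hτ, hRS⟩ := ih
    obtain ⟨e, e', U, hU, hUφ⟩ := hstep hac halg p hp B hpB φ hφ (t 2) P S yP ht.two hP hPr hS
    obtain ⟨k, rfl⟩ : ∃ k, n = k + 1 := ⟨n - 1, by omega⟩
    refine ⟨R + e' • φ^[k + 1] P, U, τ - e • φ^[k + 1] (t 2), W + e' • φ^[k] P, m + 2, ?_, ?_, hU,
      ?_, ?_⟩
    · rw [hR, map_add, map_zsmul, ← Function.iterate_succ_apply' φ k P, add_assoc (P + Q)]
    · have hk : φ^[k] P ∈ AddSubgroup.closure (Set.range fun i : ℕ => φ^[i] P) :=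
        AddSubgroup.subset_closure (Set.mem_range_self (f := fun i : ℕ => φ^[i] P) k)
      exact add_mem hW (zsmul_mem hk e')
    · have h1 : φ^[m + 2] τ = 0 := by
        rw [add_comm m 2, Function.iterate_add_apply, hτ, iterate_map_zero]
      have h2 : φ^[m + 2] (φ^[k + 1] (t 2)) = 0 := by
        rw [← Function.iterate_add_apply, show m + 2 + (k + 1) = (m + k + 1) + 1 + 1 by ring,
          Function.iterate_succ_apply, Function.iterate_succ_apply, ht1, iterate_map_zero]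
      rw [iterate_map_sub, iterate_map_zsmul, h1, h2, zsmul_zero, sub_zero]
    · rw [Function.iterate_succ_apply φ (k + 1) U, hUφ, iterate_map_add, iterate_map_add,
        iterate_map_zsmul, iterate_map_zsmul, hRS]
      abel

end Pool.Agent.Lib.MP_869d3b_nt
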