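import Pool.Agent.Lib.MP_869d3b_nt.StmM

/-!
# MP_869d3b_nt, piece [M sec4]
-/

set_option autoImplicit false

open NumberField IsDedekindDomain

namespace Pool.Agent.Lib.MP_869d3b_nt

/-- Constants: `s = 2p - 1` is in every field containing `p`, and `w = s (1-p)³/24` is not zero. -/
private theorem sec4_w {Ω : Type} [Field Ω] [CharZero Ω] (p s : Ω) (hp : p ^ 2 = p - 2)
    (hs : s = 2 * p - 1) : s * (1 - p) ^ 3 / 24 ≠ 0 := by
  have h1 : s ≠ 0 := by
    intro h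
    have h7 : s ^ 2 = -7 := by rw [hs]; linear_combination 4 * hp
    rw [h] at h7
    norm_num at h7
  have h2 : (1 - p) ≠ 0 := by
    intro h
    have h3 : p * (1 - p) = 2 := by linear_combination -hp
    rw [h, mul_zero] at h3
    norm_num at h3
  exact div_ne_zero (mul_ne_zero h1 (pow_ne_zero 3 h2)) (by norm_num)

theorem p_sec4
    (hCoord : ∀ (Ω : Type) [Field Ω] [DecidableEq Ω] [CharZero Ω], S_coord Ω)
    (hRat : ∀ (Ω : Type) [Field Ω] [DecidableEq Ω] [CharZero Ω], S_rat Ω)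
    (hAct : ∀ (Ω : Type) [Field Ω] [DecidableEq Ω] [CharZero Ω], S_act Ω)
    (hPQ : ∀ (Ω : Type) [Field Ω] [DecidableEq Ω] [CharZero Ω], S_PQ Ω)
    (hSurj : ∀ (Ω : Type) [Field Ω] [DecidableEq Ω] [CharZero Ω], S_surj Ω)
    (hHalfConv : ∀ (Ω : Type) [Field Ω] [DecidableEq Ω] [CharZero Ω], S_halfConv Ω)
    (hLoc : ∀ (Ω : Type) [Field Ω] [CharZero Ω], S_loc Ω)
    (hExB : ∀ (Ω : Type) [Field Ω] [DecidableEq Ω] [CharZero Ω], S_exB Ω)
    (hRec : ∀ (Ω : Type) [Field Ω] [DecidableEq Ω] [CharZero Ω], S_rec Ω)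
    (hSgn : ∀ (Ω : Type) [Field Ω] [DecidableEq Ω] [CharZero Ω], S_sgn Ω)
    (hCore1 : ∀ (Ω : Type) [Field Ω] [DecidableEq Ω] [CharZero Ω], S_core1 Ω)
    (hCore2 : ∀ (Ω : Type) [Field Ω] [DecidableEq Ω] [CharZero Ω], S_core2 Ω)
    (hKumA : S_kumA) (hKumB : S_kumB) (hLift : S_lift) (hXinf : S_Xinf) : S_sec4 := by
  intro F Ω _ _ _ _ _ hac halg p r hp hr φ hφ t ht hpF hrF htF h39
  have hcharF : CharZero F :=
    (algebraMap F Ω).charZero_iff (algebraMap F Ω).injective |>.2 inferInstance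
  have halgF : Algebra.IsAlgebraic F Ω := by
    have := halg
    exact Algebra.IsAlgebraic.tower_top (K := ℚ) F
  obtain ⟨c1, _, c3, c4, _, c6, _⟩ := hCoord Ω p hp
  obtain ⟨s, hs⟩ : ∃ s : Ω, s = 2 * p - 1 := ⟨_, rfl⟩
  have hs7 : s ^ 2 = -7 := by rw [hs]; linear_combination 4 * hp
  obtain ⟨_, hOP, hOQ, hPQ'⟩ := hPQ Ω s r p hs7 hr (by rw [hs]; ring)
  obtain ⟨P, hP⟩ := c1 _ _ hOP
  obtain ⟨Q, hQ⟩ := c1 _ _ hOQ
  obtain ⟨y0, hPQc⟩ := hPQ' P Q hP hQ
  obtain ⟨w, hw⟩ : ∃ w : Ω, w = s * (1 - p) ^ 3 / 24 := ⟨_, rfl⟩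
  rw [← hw] at hPQc
  have hw0 : w ≠ 0 := by rw [hw]; exact sec4_w p s hp hs
  -- rationality of the points over a subfield containing `p`, `r`
  have hRP : ∀ E : Subfield Ω, p ∈ E → r ∈ E → Rat E P ∧ Rat E Q ∧ w ∈ E := by
    intro E hpE hrE
    have hsE : s ∈ E := by
      rw [hs]
      exact E.sub_mem (E.mul_mem (ofNat_mem E 2) hpE) E.one_mem
    refine ⟨?_, ?_, ?_⟩
    · intro z y h
      obtain ⟨e, e'⟩ := c4 _ _ _ _ _ hP h
      rw [← e, ← e']
      constructor <;>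
        apply_rules [add_mem, sub_mem, mul_mem, div_mem, pow_mem, neg_mem, one_mem, ofNat_mem]
    · intro z y h
      obtain ⟨e, e'⟩ := c4 _ _ _ _ _ hQ h
      rw [← e, ← e']
      constructor <;>
        apply_rules [add_mem, sub_mem, mul_mem, div_mem, pow_mem, neg_mem, one_mem, ofNat_mem]
    · rw [hw]
      apply_rules [add_mem, sub_mem, mul_mem, div_mem, pow_mem, neg_mem, one_mem, ofNat_mem]
  obtain ⟨B0, hB0⟩ := hExB Ω p hp
  obtain ⟨_, hpB0, _, _, _, _, hrB0, _⟩ := hLoc Ω hac halg p hp B0 hB0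
  obtain ⟨hPB0, hQB0, hwB0⟩ := hRP (FB B0) hpB0 (hrB0 r hr)
  obtain ⟨hPF, hQF, hwF⟩ := hRP (algebraMap F Ω).fieldRange hpF hrF
  obtain ⟨f1, f2, _, _, f5, _⟩ := hRat Ω p hp (algebraMap F Ω).fieldRange hpF
  refine hXinf F Ω ?_
  intro n hn
  obtain ⟨R, S', τ, W, m, hR, hW, hS'B0, hτ, hRS'⟩ := hRec Ω hac halg p hp B0 hB0 φ hφ t ht P Q
    ((3 + 5 * s) * r / 25) w y0 hP hPB0 hQB0 hwB0 hPQc n hn
  obtain ⟨g1, g2⟩ := hSgn Ω p hp φ hφ P Q W hW
  have hWF : Rat (algebraMap F Ω).fieldRange W := g2 _ hpF hPF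
  have hRF : Rat (algebraMap F Ω).fieldRange R := by
    rw [hR]
    exact f1 _ _ (f1 _ _ hPF hQF) (f5 φ hφ W hWF)
  obtain ⟨S, hS⟩ := (hSurj Ω hac p hp φ hφ).iterate n R
  -- `R` is not in the image of `φ` on rational points
  have hno : ¬ ∃ U : Pt p, Rat (algebraMap F Ω).fieldRange U ∧ φ U = R := by
    rintro ⟨U, hUF, hU⟩
    have hV : φ (U - W) = P + Q := by
      rw [map_sub, hU, hR]; abel
    have hVF : Rat (algebraMap F Ω).fieldRange (U - W) := by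
      rw [sub_eq_add_neg]
      exact f1 _ _ hUF (f2 _ hWF)
    rcases c3 (U - W) with h | ⟨z, y, h⟩
    · rw [h, map_zero] at hV
      rw [← hV] at hPQc
      exact c6 _ _ hPQc
    · obtain ⟨_, hz, _, _⟩ := hHalfConv Ω p hp φ hφ (P + Q) (U - W) (-39 * w ^ 2) y0 z y
        (y / (p * (z - 1))) hPQc h hV rfl
      obtain ⟨hzF, hyF⟩ := hVF z y h
      have hmem : y / (p * (z - 1)) / w ∈ (algebraMap F Ω).fieldRange :=
        Subfield.div_mem _ (Subfield.div_mem _ hyF (Subfield.mul_mem _ hpF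
          (Subfield.sub_mem _ hzF (Subfield.one_mem _)))) hwF
      obtain ⟨x, hx⟩ := hmem
      refine h39 ⟨x, ?_⟩
      apply (algebraMap F Ω).injective
      rw [map_pow, hx, div_pow, hz, map_neg, map_ofNat]
      field_simp
  have hM := hKumA F Ω hac halgF p hp φ hφ t ht hpF htF n R S hRF hS
  obtain ⟨hMfd, hMgal, hMact⟩ := hM
  obtain ⟨hMcomm, hMdeg⟩ := hKumB F Ω hac halgF p hp φ hφ t ht hpF htF n R S hRF hS hno
  refine ⟨IntermediateField.adjoin F (coo S), ⟨hMfd, hMgal, hMcomm, ⟨n, hMdeg⟩, ?_⟩, hMdeg⟩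
  apply hLift F Ω hac halgF (IntermediateField.adjoin F (coo S))
  intro B' σ hin
  have hσp : (σ : Ω ≃+* Ω) p = p := by
    obtain ⟨q, hq⟩ := hpF
    rw [← hq]; exact σ.commutes q
  obtain ⟨⟨g, hg⟩, _, _⟩ := hAct Ω p hp (σ : Ω ≃+* Ω) hσp
  obtain ⟨_, ht', hiff⟩ := hMact σ g hg
  apply hiff.1
  have hpM : p ∈ (IntermediateField.adjoin F (coo S)).toSubfield := by
    obtain ⟨q, hq⟩ := hpF
    have h0 := (IntermediateField.adjoin F (coo S)).algebraMap_mem q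
    rw [hq] at h0
    exact h0
  have hSM : Rat (IntermediateField.adjoin F (coo S)).toSubfield S := by
    intro z' y' h'
    exact ⟨IntermediateField.subset_adjoin F _ ⟨z', y', h', Or.inl rfl⟩,
      IntermediateField.subset_adjoin F _ ⟨z', y', h', Or.inr rfl⟩⟩
  have hFM : ∀ U : Pt p, Rat (algebraMap F Ω).fieldRange U →
      Rat (IntermediateField.adjoin F (coo S)).toSubfield U := by
    intro U hU z' y' h'
    obtain ⟨⟨q, hq⟩, ⟨q', hq'⟩⟩ := hU z' y' h'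
    rw [← hq, ← hq']
    exact ⟨(IntermediateField.adjoin F (coo S)).algebraMap_mem q,
      (IntermediateField.adjoin F (coo S)).algebraMap_mem q'⟩
  have hgR : g R = R := by
    rcases c3 R with h | ⟨z, y, h⟩
    · rw [h, map_zero]
    · obtain ⟨_, _, a3⟩ := hAct Ω p hp (σ : Ω ≃+* Ω) hσp
      refine ((a3 g hg R z y h).1).2 ?_
      obtain ⟨⟨q, hq⟩, ⟨q', hq'⟩⟩ := hRF z y h
      rw [← hq, ← hq']
      exact ⟨σ.commutes q, σ.commutes q'⟩
  by_cases hB' : p ∈ B'.nonunits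
  · refine hCore2 Ω hac halg p hp φ hφ t ht B0 B' hB0 hB'
      (IntermediateField.adjoin F (coo S)).toSubfield (σ : Ω ≃+* Ω) g hpM hσp hg hin
      (fun i => hFM _ (htF i)) ht' n m R S S' τ hSM hS hS'B0 hτ hRS' ?_
    intro σ' g' hσ'p hg'
    obtain ⟨_, _, a3⟩ := hAct Ω p hp σ' hσ'p
    have hσ's : σ' s = s := by
      rw [hs, map_sub, map_mul, hσ'p, map_one, map_ofNat]
    have hσ'r : σ' r = r ∨ σ' r = -r := by
      have h2 : (σ' r) ^ 2 = r ^ 2 := by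
        rw [← map_pow, hr, map_ofNat]
      exact sq_eq_sq_iff_eq_or_eq_neg.1 h2
    obtain ⟨b1, b2⟩ := g1 σ' g' hσ'p hg'
    rcases hσ'r with h | h
    · left
      rw [hR]
      apply b1
      · refine ((a3 g' hg' P _ _ hP).1).2 ⟨?_, ?_⟩
        · rw [map_div₀, map_neg, map_ofNat, map_ofNat]
        · rw [map_div₀, map_mul, map_add, map_mul, h, hσ's, map_ofNat, map_ofNat, map_ofNat]
      · refine ((a3 g' hg' Q _ _ hQ).1).2 ⟨?_, ?_⟩
        · rw [map_div₀, map_ofNat, map_ofNat]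
        · rw [map_div₀, map_mul, map_add, map_mul, h, hσ's, map_ofNat, map_ofNat, map_ofNat]
    · right
      rw [hR]
      apply b2
      · refine ((a3 g' hg' P _ _ hP).2).2 ⟨?_, ?_⟩
        · rw [map_div₀, map_neg, map_ofNat, map_ofNat]
        · rw [map_div₀, map_mul, map_add, map_mul, h, hσ's, map_ofNat, map_ofNat, map_ofNat]
          ring
      · refine ((a3 g' hg' Q _ _ hQ).2).2 ⟨?_, ?_⟩
        · rw [map_div₀, map_ofNat, map_ofNat]
        · rw [map_div₀, map_mul, map_add, map_mul, h, hσ's, map_ofNat, map_ofNat, map_ofNat]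
          ring
  · exact hCore1 Ω p hp φ hφ B' hB' (IntermediateField.adjoin F (coo S)).toSubfield
      (σ : Ω ≃+* Ω) g hpM hσp hg hin n S hSM (by rw [hS, hgR])

end Pool.Agent.Lib.MP_869d3b_nt
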