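import Pool.Agent.Lib.MP_869d3b_nt.StmM

/-!
# MP_869d3b_nt: automorphisms map `P + Q + φ W` to `± (P + Q + φ W)`
-/

set_option autoImplicit false

namespace Pool.Agent.Lib.MP_869d3b_nt

section

variable {Ω : Type} [Field Ω] [DecidableEq Ω]

private theorem sgn_iter {p : Ω} (φ : Pt p →+ Pt p) (g : Pt p ≃+ Pt p)
    (h : ∀ P : Pt p, g (φ P) = φ (g P)) (i : ℕ) (P : Pt p) : g (φ^[i] P) = φ^[i] (g P) := by
  induction i with
  | zero => rfl
  | succ i ih => rw [Function.iterate_succ_apply', Function.iterate_succ_apply', h, ih]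

private theorem sgn_neg {p : Ω} (φ : Pt p →+ Pt p) (i : ℕ) (P : Pt p) :
    φ^[i] (-P) = -(φ^[i] P) := by
  induction i with
  | zero => rfl
  | succ i ih => rw [Function.iterate_succ_apply', Function.iterate_succ_apply', ih, map_neg]

private theorem sgn_fix {p : Ω} (φ : Pt p →+ Pt p) (g : Pt p ≃+ Pt p)
    (h : ∀ P : Pt p, g (φ P) = φ (g P)) (P W : Pt p)
    (hW : W ∈ AddSubgroup.closure (Set.range fun i : ℕ => φ^[i] P)) (hP : g P = P) : g W = W := by
  refine AddSubgroup.closure_induction (p := fun x _ => g x = x) ?_ ?_ ?_ ?_ hW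
  · rintro x ⟨i, rfl⟩
    change g (φ^[i] P) = φ^[i] P
    rw [sgn_iter φ g h, hP]
  · exact map_zero g
  · intro x y _ _ hx hy
    rw [map_add, hx, hy]
  · intro x _ hx
    rw [map_neg, hx]

private theorem sgn_anti {p : Ω} (φ : Pt p →+ Pt p) (g : Pt p ≃+ Pt p)
    (h : ∀ P : Pt p, g (φ P) = φ (g P)) (P W : Pt p)
    (hW : W ∈ AddSubgroup.closure (Set.range fun i : ℕ => φ^[i] P)) (hP : g P = -P) :
    g W = -W := by
  refine AddSubgroup.closure_induction (p := fun x _ => g x = -x) ?_ ?_ ?_ ?_ hW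
  · rintro x ⟨i, rfl⟩
    change g (φ^[i] P) = -(φ^[i] P)
    rw [sgn_iter φ g h, hP, sgn_neg]
  · rw [map_zero, neg_zero]
  · intro x y _ _ hx hy
    rw [map_add, hx, hy, neg_add]
  · intro x _ hx
    rw [map_neg, hx]

end

theorem p_sgn (Ω : Type) [Field Ω] [DecidableEq Ω] [CharZero Ω] (hact : S_act Ω)
    (hrat : S_rat Ω) : S_sgn Ω := by
  intro p hp φ hφ P Q W hW
  refine ⟨fun σ g hσ hg => ?_, fun F hF hP => ?_⟩
  · have hcomm : ∀ P : Pt p, g (φ P) = φ (g P) := (hact p hp σ hσ).2.1 g hg φ hφ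
    constructor
    · intro h1 h2
      rw [map_add, map_add, hcomm, sgn_fix φ g hcomm P W hW h1, h1, h2]
    · intro h1 h2
      rw [map_add, map_add, hcomm, sgn_anti φ g hcomm P W hW h1, h1, h2, map_neg]
      abel
  · obtain ⟨r1, r2, r3, _, _, r6⟩ := hrat p hp F hF
    refine AddSubgroup.closure_induction (p := fun x _ => Rat F x) ?_ ?_ ?_ ?_ hW
    · rintro x ⟨i, rfl⟩
      exact r6 φ hφ i P hP
    · exact r3
    · intro x y _ _ hx hy
      exact r1 x y hx hy
    · intro x _ hx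
      exact r2 x hx

end Pool.Agent.Lib.MP_869d3b_nt
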