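import Pool.Agent.Lib.MP_869d3b_nt.StmZ

/-!
# MP_869d3b_nt, [Z sqrt]: the square root of `-p` in `Nlev 3`
-/

set_option autoImplicit false

open NumberField IsDedekindDomain

namespace Pool.Agent.Lib.MP_869d3b_nt

theorem p_sqrt
    (hact : ∀ (Ω : Type) [Field Ω] [DecidableEq Ω] [CharZero Ω], S_act Ω)
    (hhalf : ∀ (Ω : Type) [Field Ω] [DecidableEq Ω] [CharZero Ω], S_halfConv Ω)
    (hco : ∀ (Ω : Type) [Field Ω] [DecidableEq Ω] [CharZero Ω], S_coord Ω) : S_sqrt := by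
  intro k Ω _ _ _ _ _ hΩ halg p0 p hp0 hp φ hφ t ht
  have hk0 : CharZero k := (algebraMap k Ω).charZero
  have hcl : IsAlgClosure k Ω := ⟨hΩ, halg⟩
  obtain ⟨-, -, c3, -, -, c6, -⟩ := hco Ω p hp
  have h32 : φ (t 3) = t 2 := ht.step 2
  obtain ⟨z, y, hzy⟩ : ∃ z y : Ω, HasC (t 3) z y := by
    rcases c3 (t 3) with h | h
    · exfalso
      rw [h, map_zero] at h32
      have h2 := ht.two
      rw [← h32] at h2
      exact c6 _ _ h2
    · exact h
  obtain ⟨hz1, hr2, -, -⟩ := hhalf Ω p hp φ hφ (t 2) (t 3) (-p) (p * (1 + p)) z y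
    (y / (p * (z - 1))) ht.two hzy h32 rfl
  have hzM : z ∈ Nlev k t 3 := IntermediateField.subset_adjoin k _ ⟨z, y, hzy, Or.inl rfl⟩
  have hyM : y ∈ Nlev k t 3 := IntermediateField.subset_adjoin k _ ⟨z, y, hzy, Or.inr rfl⟩
  have hpM : p ∈ Nlev k t 3 := by
    have h := (Nlev k t 3).algebraMap_mem p0
    rw [← hp0] at h
    exact h
  refine ⟨⟨y / (p * (z - 1)), ?_, hr2⟩, ?_⟩
  · exact (Nlev k t 3).div_mem hyM
      ((Nlev k t 3).mul_mem hpM ((Nlev k t 3).sub_mem hzM (Nlev k t 3).one_mem))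
  · intro hns
    by_contra hcon
    push Not at hcon
    apply hns
    have hfix : ∀ σ : Ω ≃ₐ[k] Ω, (σ : Ω ≃+* Ω) p = p := by
      intro σ
      rw [hp0]
      exact σ.commutes p0
    have hx : ∀ σ : Ω ≃ₐ[k] Ω, σ (y / (p * (z - 1))) = y / (p * (z - 1)) := by
      intro σ
      obtain ⟨⟨g, hg⟩, -, h3⟩ := hact Ω p hp (σ : Ω ≃+* Ω) (hfix σ)
      obtain ⟨h4, h5⟩ := ((h3 g hg (t 3) z y hzy).1).1 (hcon σ g hg)
      have h4' : σ z = z := h4
      have h5' : σ y = y := h5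
      have h6 : σ p = p := hfix σ
      rw [map_div₀, map_mul, map_sub, map_one, h4', h5', h6]
    obtain ⟨x, hx'⟩ := (InfiniteGalois.mem_range_algebraMap_iff_fixed
      (k := k) (y / (p * (z - 1)))).2 hx
    refine ⟨x, (algebraMap k Ω).injective ?_⟩
    rw [map_pow, hx', hr2, map_neg, ← hp0]

end Pool.Agent.Lib.MP_869d3b_nt
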