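import Pool.Agent.Lib.MP_869d3b_nt.StmM

/-!
# MP_869d3b_nt, section 1: piece step (L8)
-/

set_option autoImplicit false

namespace Pool.Agent.Lib.MP_869d3b_nt

/-- [M step] -/
theorem p_step (Ω : Type) [Field Ω] [DecidableEq Ω] [CharZero Ω] (h1 : S_loc Ω) (h2 : S_desc Ω)
    (h3 : S_descOne Ω) (h4 : S_rat Ω) (h5 : S_coord Ω) (h6 : S_ker Ω) : S_step Ω := by
  intro hac halg p hp B hB φ hφ t2 P S yP ht2 hP hRP hRS
  obtain ⟨-, hpF, c10, c5, -, -, -, hcls⟩ := h1 hac halg p hp B hB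
  obtain ⟨-, cOn, cEx, cEq, -, -, -⟩ := h5 p hp
  obtain ⟨ratAdd, -, rat0, -, -, -⟩ := h4 p hp (FB B) hpF
  obtain ⟨-, -, kfix, -, -⟩ := h6 p hp φ hφ
  have hRt2 : Rat (FB B) t2 := by
    intro z y hzy
    obtain ⟨rfl, rfl⟩ := cEq t2 z y _ _ hzy ht2
    exact ⟨neg_mem hpF, mul_mem hpF (add_mem (one_mem _) hpF)⟩
  have hp0 : p ≠ 0 := by
    rintro rfl
    have h : (2 : Ω) = 0 := by linear_combination hp
    exact two_ne_zero h
  have two0 : (2 : Ω) ≠ 0 := two_ne_zero
  have five0 : (5 : Ω) ≠ 0 := by norm_num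
  have ten0 : (10 : Ω) ≠ 0 := by norm_num
  have tenF : (10 : Ω) ∈ FB B := by exact_mod_cast natCast_mem (FB B) 10
  have fiveF : (5 : Ω) ∈ FB B := by exact_mod_cast natCast_mem (FB B) 5
  -- points with abscissa 0
  have hzero : ∀ (R : Pt p) (y : Ω), HasC R 0 y → φ R = R := by
    intro R y hR
    have h := cOn R 0 y hR
    have hy : y = 0 := by
      have h' : y ^ 2 = 0 := by
        rw [show y ^ 2 = 0 * (0 - 1) * (0 - p ^ 4) from h]
        ring
      exact pow_eq_zero_iff (two_ne_zero) |>.1 h'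
    rw [hy] at hR
    exact kfix R hR
  -- class 5
  have key5 : ∀ (R : Pt p) (z y : Ω), Rat (FB B) R → HasC R z y → Cl B 5 z →
      ∃ U : Pt p, Rat (FB B) U ∧ φ U = R + P := by
    intro R z y hRR hR hc
    obtain ⟨w, hw, hw0, hz⟩ := hc
    obtain ⟨w', hw', hw'0, hz'⟩ := c5
    refine (h2 p hp φ hφ (FB B) hpF R P z y (-39 / 5) yP hRR hRP hR hP).2 (5 * w * w')
      (mul_mem (mul_mem fiveF hw) hw') (mul_ne_zero (mul_ne_zero five0 hw0) hw'0) ?_
    rw [hz, hz']
    ring
  rcases cEx S with hS | ⟨z, y, hS⟩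
  · refine ⟨0, 0, 0, rat0, ?_⟩
    rw [hS, map_zero, zero_smul, zero_smul, add_zero, add_zero]
  · by_cases hz : z = 0
    · subst hz
      refine ⟨0, 0, S, hRS, ?_⟩
      rw [hzero S y hS, zero_smul, zero_smul, add_zero, add_zero]
    · obtain ⟨hzF, hyF⟩ := hRS z y hS
      rcases hcls z y hzF hyF hz (cOn S z y hS) with hc | hc | hc | hc
      · obtain ⟨w, hw, hw0, hzw⟩ := hc
        obtain ⟨U, hU, hφU⟩ := h3 p hp φ hφ (FB B) hpF S z y w hRS hS hw (by rw [hzw]; ring)
        refine ⟨0, 0, U, hU, ?_⟩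
        rw [hφU, zero_smul, zero_smul, add_zero, add_zero]
      · rcases cEx (S + t2) with h0 | ⟨z3, y3, hS3⟩
        · refine ⟨1, 0, 0, rat0, ?_⟩
          rw [map_zero, one_smul, zero_smul, add_zero, h0]
        · have hR3 : Rat (FB B) (S + t2) := ratAdd S t2 hRS hRt2
          by_cases hz3 : z3 = 0
          · subst hz3
            refine ⟨1, 0, S + t2, hR3, ?_⟩
            rw [hzero (S + t2) y3 hS3, one_smul, zero_smul, add_zero]
          · obtain ⟨c, hc', hcc⟩ :=
              (h2 p hp φ hφ (FB B) hpF S t2 z y (-p) (p * (1 + p)) hRS hRt2 hS ht2).1 z3 y3 hS3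
            obtain ⟨w, hw, hw0, hzw⟩ := hc
            obtain ⟨w', hw', hw'0, hpw⟩ := c10
            have hc0 : c ≠ 0 := by
              rintro rfl
              have h : z * (-p) * z3 = 0 := by rw [hcc]; ring
              exact (mul_ne_zero (mul_ne_zero hz (neg_ne_zero.2 hp0)) hz3) h
            have hden : 10 * w * w' ≠ 0 := mul_ne_zero (mul_ne_zero ten0 hw0) hw'0
            have hcl : Cl B 5 z3 := by
              refine ⟨c / (10 * w * w'), div_mem hc' (mul_mem (mul_mem tenF hw) hw'),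
                div_ne_zero hc0 hden, ?_⟩
              rw [hzw, hpw] at hcc
              rw [div_pow, ← hcc]
              field_simp
              ring
            obtain ⟨U, hU, hφU⟩ := key5 (S + t2) z3 y3 hR3 hS3 hcl
            refine ⟨1, 1, U, hU, ?_⟩
            rw [hφU, one_smul, one_smul]
      · obtain ⟨U, hU, hφU⟩ := key5 S z y hRS hS hc
        refine ⟨0, 1, U, hU, ?_⟩
        rw [hφU, one_smul, zero_smul, add_zero]
      · obtain ⟨w, hw, hw0, hzw⟩ := hc
        obtain ⟨w', hw', hw'0, hpw⟩ := c10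
        obtain ⟨U, hU, hφU⟩ :=
          (h2 p hp φ hφ (FB B) hpF S t2 z y (-p) (p * (1 + p)) hRS hRt2 hS ht2).2
            (10 * w * w') (mul_mem (mul_mem tenF hw) hw')
            (mul_ne_zero (mul_ne_zero ten0 hw0) hw'0) (by rw [hzw, hpw]; ring)
        refine ⟨1, 0, U, hU, ?_⟩
        rw [hφU, one_smul, zero_smul, add_zero]

end Pool.Agent.Lib.MP_869d3b_nt
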