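import Pool.Agent.Lib.MP_869d3b_nt.StmZ

/-!
# MP_869d3b_nt, [Z unr]: `N/k` is unramified outside the primes containing `p0`
-/

set_option autoImplicit false

open NumberField IsDedekindDomain

namespace Pool.Agent.Lib.MP_869d3b_nt

private theorem unr_iter {Ω : Type} [Field Ω] [DecidableEq Ω] {p : Ω} {φ : Pt p →+ Pt p}
    {t : ℕ → Pt p} (ht : IsTower p φ t) (m : ℕ) : φ^[m] (t (m + 2)) = t 2 := by
  induction m with
  | zero => rfl
  | succ m ih =>
    rw [Function.iterate_succ_apply]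
    have h : φ (t (m + 1 + 2)) = t (m + 2) := ht.step (m + 2)
    rw [h, ih]

theorem p_unr (hlev : S_lev) (hbelow : S_below1) (hinert : S_inert)
    (hcore : ∀ (Ω : Type) [Field Ω] [DecidableEq Ω] [CharZero Ω], S_core1 Ω)
    (hact : ∀ (Ω : Type) [Field Ω] [DecidableEq Ω] [CharZero Ω], S_act Ω) : S_unr := by
  intro k Ω _ _ _ _ _ _ hΩ halg p0 p hp0 hp φ hφ t ht
  have hpk : p ∈ (algebraMap k Ω).fieldRange := ⟨(p0 : k), hp0.symm⟩
  obtain ⟨l1, -, l3, -, l5, l6, l7⟩ := hlev k Ω hΩ halg p hp hpk φ hφ t ht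
  have hpne : p ≠ 0 := by
    rintro rfl
    have h2 : (2 : Ω) ≠ 0 := two_ne_zero
    apply h2
    linear_combination hp
  intro M hMN hMfin P hP hPS
  obtain ⟨n, hn, hME⟩ := l6 M hMfin hMN
  have hMnf : NumberField M := NumberField.of_module_finite k M
  obtain ⟨B, hB⟩ := hbelow M Ω P hP
  have hpB : p ∉ B.nonunits := by
    intro hpB
    have hv : p0 ∈ P.comap (algebraMap (𝓞 k) (𝓞 M)) := by
      rw [Ideal.mem_comap, hB]
      have h1 : algebraMap M Ω ((algebraMap (𝓞 k) (𝓞 M) p0 : 𝓞 M) : M) = p := by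
        rw [hp0]
        rfl
      rw [h1]
      exact hpB
    have hne : P.comap (algebraMap (𝓞 k) (𝓞 M)) ≠ ⊥ := by
      intro h0
      rw [h0, Ideal.mem_bot] at hv
      apply hpne
      rw [hp0, hv]
      simp
    exact hPS ⟨P.comap (algebraMap (𝓞 k) (𝓞 M)), Ideal.comap_isPrime _ _, hne⟩ hv rfl
  obtain ⟨hEfin, hEgal⟩ := l3 n
  refine hinert k Ω hΩ halg M (Nlev k t n) hME hEfin hEgal B P hB ?_
  intro σ hσ x hx
  have hσp : (σ : Ω ≃+* Ω) p = p := by
    rw [hp0]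
    exact σ.commutes (p0 : k)
  obtain ⟨⟨g, hg⟩, -, -⟩ := hact Ω p hp (σ : Ω ≃+* Ω) hσp
  have hg2 : g (t 2) = t 2 := by
    rw [l5 2 σ g hg]
    intro x hx
    rw [l7, IntermediateField.mem_bot] at hx
    obtain ⟨a, rfl⟩ := hx
    exact σ.commutes a
  have hpM : p ∈ (Nlev k t n).toSubfield := by
    have h := (Nlev k t n).algebraMap_mem (p0 : k)
    rw [← hp0] at h
    exact h
  obtain ⟨m, rfl⟩ : ∃ m, n = m + 2 := ⟨n - 2, by omega⟩
  have hgn : g (t (m + 2)) = t (m + 2) := by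
    refine hcore Ω p hp φ hφ B hpB (Nlev k t (m + 2)).toSubfield (σ : Ω ≃+* Ω) g hpM hσp hg hσ m
      (t (m + 2)) (l1 (m + 2) (m + 2) le_rfl).2 ?_
    rw [unr_iter ht m]
    exact hg2
  exact (l5 (m + 2) σ g hg).1 hgn x (hME hx)

end Pool.Agent.Lib.MP_869d3b_nt
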