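import Pool.Agent.Lib.MP_869d3b_nt.StmZ

/-!
# MP_869d3b_nt, [Z zp]: `N/k` is a `ℤ_2`-extension
-/

set_option autoImplicit false

open NumberField IsDedekindDomain

namespace Pool.Agent.Lib.MP_869d3b_nt

private theorem zp_uniq {Ω : Type} [Field Ω] [DecidableEq Ω] [CharZero Ω] (hco : S_coord Ω)
    {p : Ω} (hp : p ^ 2 = p - 2) {σ : Ω ≃+* Ω} {g g' : Pt p ≃+ Pt p} (h : IsAct p σ g)
    (h' : IsAct p σ g') (P : Pt p) : g P = g' P := by
  obtain ⟨-, -, c3, -, c5, -, -⟩ := hco p hp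
  rcases c3 P with rfl | ⟨z, y, hP⟩
  · rw [map_zero, map_zero]
  · exact c5 _ _ _ _ (h P z y hP) (h' P z y hP)

theorem p_zp (hlev : S_lev) (hpow : S_pow) (hsqrt : S_sqrt) (hprof : S_prof)
    (hact : ∀ (Ω : Type) [Field Ω] [DecidableEq Ω] [CharZero Ω], S_act Ω)
    (hker : ∀ (Ω : Type) [Field Ω] [DecidableEq Ω] [CharZero Ω], S_ker Ω)
    (hco : ∀ (Ω : Type) [Field Ω] [DecidableEq Ω] [CharZero Ω], S_coord Ω) : S_zp := by
  intro k Ω _ _ _ _ _ hΩ halg p0 p hp0 hp φ hφ t ht hns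
  have hk0 : CharZero k := (algebraMap k Ω).charZero
  have hcl : IsAlgClosure k Ω := ⟨hΩ, halg⟩
  have hnΩ : Normal k Ω := IsAlgClosure.normal k Ω
  have hpk : p ∈ (algebraMap k Ω).fieldRange := ⟨p0, hp0.symm⟩
  obtain ⟨l1, l2, l3, l4, l5, -, l7⟩ := hlev k Ω hΩ halg p hp hpk φ hφ t ht
  obtain ⟨-, -, -, -, c5, c6, -⟩ := hco Ω p hp
  obtain ⟨e1, -, -, -, e5⟩ := hker Ω p hp φ hφ
  have hσp : ∀ σ : Ω ≃ₐ[k] Ω, (σ : Ω ≃+* Ω) p = p := by
    intro σ
    rw [hp0]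
    exact σ.commutes p0
  choose g hg using fun σ : Ω ≃ₐ[k] Ω => (hact Ω p hp (σ : Ω ≃+* Ω) (hσp σ)).1
  have hgφ : ∀ (σ : Ω ≃ₐ[k] Ω) (P : Pt p), g σ (φ P) = φ (g σ P) := fun σ P =>
    (hact Ω p hp (σ : Ω ≃+* Ω) (hσp σ)).2.1 (g σ) (hg σ) φ hφ P
  have hmul : ∀ (σ τ : Ω ≃ₐ[k] Ω) (P : Pt p), g (σ * τ) P = g σ (g τ P) := by
    intro σ τ P
    have h1 : IsAct p ((σ * τ : Ω ≃ₐ[k] Ω) : Ω ≃+* Ω) ((g τ).trans (g σ)) := by
      intro P z y hP
      exact hg σ (g τ P) (τ z) (τ y) (hg τ P z y hP)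
    exact zp_uniq (hco Ω) hp (hg (σ * τ)) h1 P
  have hone : ∀ P : Pt p, g 1 P = P := by
    intro P
    have h1 : IsAct p ((1 : Ω ≃ₐ[k] Ω) : Ω ≃+* Ω) (AddEquiv.refl (Pt p)) := by
      intro P z y hP
      exact hP
    exact zp_uniq (hco Ω) hp (hg 1) h1 P
  have hgpow : ∀ (σ : Ω ≃ₐ[k] Ω) (m : ℕ) (P : Pt p), g (σ ^ m) P = (g σ)^[m] P := by
    intro σ m
    induction m with
    | zero => intro P; rw [pow_zero, hone]; rfl
    | succ m ih => intro P; rw [pow_succ, hmul, ih, Function.iterate_succ_apply]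
  -- the point `t 1`
  have hg1 : ∀ σ : Ω ≃ₐ[k] Ω, g σ (t 1) = t 1 := by
    intro σ
    have h1 := hg σ (t 1) 1 0 ht.one
    have h2 : ((σ : Ω ≃+* Ω)) 1 = 1 := map_one _
    have h3 : ((σ : Ω ≃+* Ω)) 0 = 0 := map_zero _
    rw [h2, h3] at h1
    exact c5 _ _ _ _ h1 ht.one
  have hmove : ∀ (σ : Ω ≃ₐ[k] Ω) (j : ℕ), g σ (t (j + 2)) = t (j + 2) →
      g σ (t (j + 3)) ≠ t (j + 3) → g σ (t (j + 3)) = t (j + 3) + t 1 := by
    intro σ j h1 h2
    have h3 : φ (g σ (t (j + 3)) - t (j + 3)) = 0 := by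
      have h4 : φ (t (j + 3)) = t (j + 2) := ht.step (j + 2)
      rw [map_sub, ← hgφ, h4, h1, sub_self]
    rcases (e1 _).1 h3 with h4 | h4
    · exact absurd (sub_eq_zero.1 h4) h2
    · have h5 := c5 _ _ _ _ h4 ht.one
      rw [← h5]
      abel
  -- the Galois group of `N`
  have hNgal : IsGalois k (Ninf k t) := l4
  have hNn : Normal k (Ninf k t) := hNgal.to_normal
  set res : (Ω ≃ₐ[k] Ω) →* (Ninf k t ≃ₐ[k] Ninf k t) :=
    AlgEquiv.restrictNormalHom (F := k) (K₁ := Ω) (Ninf k t) with hres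
  have hressurj : Function.Surjective res :=
    AlgEquiv.restrictNormalHom_surjective (F := k) (K₁ := Ninf k t) Ω
  have hresap : ∀ (σ : Ω ≃ₐ[k] Ω) (x : Ninf k t), ((res σ x : Ninf k t) : Ω) = σ (x : Ω) :=
    fun σ x => AlgEquiv.restrictNormalHom_apply (Ninf k t) σ x
  have hle : ∀ j : ℕ, Nlev k t (j + 2) ≤ Ninf k t := fun j => (l2 (j + 2)).1
  set H : ℕ → Subgroup (Ninf k t ≃ₐ[k] Ninf k t) :=
    fun j => (IntermediateField.restrict (hle j)).fixingSubgroup with hH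
  have hmem : ∀ (σ : Ω ≃ₐ[k] Ω) (j : ℕ), res σ ∈ H j ↔ g σ (t (j + 2)) = t (j + 2) := by
    intro σ j
    rw [l5 (j + 2) σ (g σ) (hg σ), hH, IntermediateField.mem_fixingSubgroup_iff]
    constructor
    · intro h x hx
      have h1 := h ⟨x, hle j hx⟩ ((IntermediateField.mem_restrict (hle j) _).2 hx)
      have h2 := congrArg (fun y : Ninf k t => (y : Ω)) h1
      simp only [hresap] at h2
      exact h2
    · intro h x hx
      apply Subtype.ext
      rw [hresap]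
      exact h _ ((IntermediateField.mem_restrict (hle j) x).1 hx)
  have hfin : ∀ j, FiniteDimensional k (IntermediateField.restrict (hle j)) := by
    intro j
    have h1 := (l3 (j + 2)).1
    exact (IntermediateField.restrictAlgEquiv (hle j)).toLinearEquiv.finiteDimensional
  have hgal : ∀ j, IsGalois k (IntermediateField.restrict (hle j)) := by
    intro j
    have h1 := (l3 (j + 2)).2
    exact IsGalois.of_algEquiv (IntermediateField.restrictAlgEquiv (hle j))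
  have hg2 : ∀ σ : Ω ≃ₐ[k] Ω, g σ (t 2) = t 2 := by
    intro σ
    rw [l5 2 σ (g σ) (hg σ)]
    intro x hx
    rw [l7, IntermediateField.mem_bot] at hx
    obtain ⟨a, rfl⟩ := hx
    exact σ.commutes a
  refine ⟨hNgal, ?_⟩
  refine hprof (Ninf k t ≃ₐ[k] Ninf k t) H ?_ ?_ ?_ ?_ ?_ ?_ ?_
  · intro j
    have := hfin j
    exact IntermediateField.fixingSubgroup_isOpen _
  · rw [eq_top_iff]
    intro s _
    obtain ⟨σ, rfl⟩ := hressurj s
    rw [hmem]
    exact hg2 σ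
  · intro j s hs
    obtain ⟨σ, rfl⟩ := hressurj s
    rw [hmem, l5 (j + 1 + 2) σ (g σ) (hg σ)] at hs
    rw [hmem, l5 (j + 2) σ (g σ) (hg σ)]
    intro x hx
    exact hs x ((l1 (j + 2) (j + 1 + 2) (by omega)).1 hx)
  · intro j
    exact (InfiniteGalois.normal_iff_isGalois _).2 (hgal j)
  · intro j a ha b hb ha' hb'
    obtain ⟨σ, rfl⟩ := hressurj a
    obtain ⟨τ, rfl⟩ := hressurj b
    rw [hmem] at ha hb ha' hb'
    rw [← map_mul, hmem, hmul]
    have h1 := hmove σ j ha ha'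
    have h2 := hmove τ j hb hb'
    have h3 : t (j + 1 + 2) = t (j + 3) := rfl
    rw [h3, h2, map_add, h1, hg1, add_assoc, (e5 (t 1) ht.one).2, add_zero]
  · intro a ha
    obtain ⟨σ, rfl⟩ := hressurj a
    have hfixlev : ∀ n : ℕ, ∀ x ∈ Nlev k t n, σ x = x := by
      intro n x hx
      have h1 := ha n
      rw [hmem, l5 (n + 2) σ (g σ) (hg σ)] at h1
      exact h1 x ((l1 n (n + 2) (by omega)).1 hx)
    have hfixN : ∀ x ∈ Ninf k t, σ x = x := by
      intro x hx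
      refine IntermediateField.adjoin_induction (F := k) (s := ⋃ n, coo (t n))
        (p := fun x _ => σ x = x) ?_ ?_ ?_ ?_ ?_ hx
      · intro w hw
        obtain ⟨n, hn⟩ := Set.mem_iUnion.1 hw
        exact hfixlev n w (IntermediateField.subset_adjoin k _ hn)
      · intro q; exact σ.commutes q
      · intro a b _ _ ha hb; rw [map_add, ha, hb]
      · intro a _ ha; rw [map_inv₀, ha]
      · intro a b _ _ ha hb; rw [map_mul, ha, hb]
    ext x
    rw [hresap]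
    exact hfixN x x.2
  · obtain ⟨-, h⟩ := hsqrt k Ω hΩ halg p0 p hp0 hp φ hφ t ht
    obtain ⟨σ, g', hg', hne⟩ := h hns
    have h3 : g σ (t 3) ≠ t 3 := by
      rw [zp_uniq (hco Ω) hp (hg σ) hg' (t 3)]
      exact hne
    have h4 := hpow Ω p hp φ hφ t ht (g σ) (hgφ σ) (hg2 σ) h3
    refine ⟨res σ, fun j => ?_⟩
    rw [← map_pow, hmem, hmem, hgpow, hgpow]
    exact h4 j

end Pool.Agent.Lib.MP_869d3b_nt
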