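import Pool.Agent.Lib.MP_869d3b_nt.AllE
import Pool.Agent.Lib.MP_869d3b_nt.P_exB
import Pool.Agent.Lib.MP_869d3b_nt.P_step
import Pool.Agent.Lib.MP_869d3b_nt.P_rec
import Pool.Agent.Lib.MP_869d3b_nt.P_sgn
import Pool.Agent.Lib.MP_869d3b_nt.P_core1
import Pool.Agent.Lib.MP_869d3b_nt.P_core2
import Pool.Agent.Lib.MP_869d3b_nt.P_kumA
import Pool.Agent.Lib.MP_869d3b_nt.P_kumB
import Pool.Agent.Lib.MP_869d3b_nt.P_lift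
import Pool.Agent.Lib.MP_869d3b_nt.P_Xinf
import Pool.Agent.Lib.MP_869d3b_nt.P_sec4
import Pool.Agent.Lib.MP_869d3b_nt.P_below1
import Pool.Agent.Lib.MP_869d3b_nt.P_below2
import Pool.Agent.Lib.MP_869d3b_nt.P_frac
import Pool.Agent.Lib.MP_869d3b_nt.P_inertG
import Pool.Agent.Lib.MP_869d3b_nt.P_inert
import Pool.Agent.Lib.MP_869d3b_nt.P_inertConv
import Pool.Agent.Lib.MP_869d3b_nt.P_chi
import Pool.Agent.Lib.MP_869d3b_nt.P_fin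
import Pool.Agent.Lib.MP_869d3b_nt.P_gen
import Pool.Agent.Lib.MP_869d3b_nt.P_quad
import Pool.Agent.Lib.MP_869d3b_nt.P_prof
import Pool.Agent.Lib.MP_869d3b_nt.P_lev
import Pool.Agent.Lib.MP_869d3b_nt.P_pow
import Pool.Agent.Lib.MP_869d3b_nt.P_sqrt
import Pool.Agent.Lib.MP_869d3b_nt.P_zp
import Pool.Agent.Lib.MP_869d3b_nt.P_unr

/-!
# MP_869d3b_nt: sections 3 and 4 assembled (from the local facts)
-/

set_option autoImplicit false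

namespace Pool.Agent.Lib.MP_869d3b_nt

section

variable (Ω : Type) [Field Ω] [DecidableEq Ω] [CharZero Ω]

theorem a_act : S_act Ω := p_act Ω (a_coord Ω) (a_add Ω)
theorem a_sgn : S_sgn Ω := p_sgn Ω (a_act Ω) (a_rat Ω)
theorem a_step (hloc : S_loc Ω) : S_step Ω :=
  p_step Ω hloc (a_desc Ω) (a_descOne Ω) (a_rat Ω) (a_coord Ω) (a_ker Ω)
theorem a_rec (hloc : S_loc Ω) : S_rec Ω :=
  p_rec Ω (a_step Ω hloc) hloc (a_descOne Ω) (a_rat Ω)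
theorem a_core1 (hR1 : S_R1 Ω) : S_core1 Ω :=
  p_core1 Ω hR1 (a_act Ω) (a_halfConv Ω) (a_rat Ω) (a_coord Ω)
theorem a_core2 (hloc : S_loc Ω) (hL1 : S_L1 Ω) (hL3 : S_L3 Ω) (hL10 : S_L10 Ω) : S_core2 Ω :=
  p_core2 Ω hloc hL1 hL3 hL10 (a_act Ω) (a_kerPow Ω) (a_rat Ω) (a_coord Ω)

end

theorem a_kumA : S_kumA :=
  p_kumA (fun Ω _ _ _ => a_act Ω) (fun Ω _ _ _ => a_kerPow Ω) (fun Ω _ _ _ => a_rat Ω)
    (fun Ω _ _ _ => a_coord Ω)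

theorem a_kumB : S_kumB :=
  p_kumB a_kumA (fun Ω _ _ _ => a_act Ω) (fun Ω _ _ _ => a_kerPow Ω)
    (fun Ω _ _ _ => a_coord Ω)

theorem a_sec4 (hR1 : ∀ (Ω : Type) [Field Ω] [CharZero Ω], S_R1 Ω)
    (hloc : ∀ (Ω : Type) [Field Ω] [CharZero Ω], S_loc Ω)
    (hL1 : ∀ (Ω : Type) [Field Ω] [CharZero Ω], S_L1 Ω)
    (hL3 : ∀ (Ω : Type) [Field Ω] [CharZero Ω], S_L3 Ω)
    (hL10 : ∀ (Ω : Type) [Field Ω] [CharZero Ω], S_L10 Ω) : S_sec4 :=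
  p_sec4 (fun Ω _ _ _ => a_coord Ω) (fun Ω _ _ _ => a_rat Ω) (fun Ω _ _ _ => a_act Ω)
    (fun Ω _ _ _ => a_PQ Ω) (fun Ω _ _ _ => a_surj Ω) (fun Ω _ _ _ => a_halfConv Ω)
    (fun Ω _ _ => hloc Ω) (fun Ω _ _ _ => p_exB Ω) (fun Ω _ _ _ => a_rec Ω (hloc Ω))
    (fun Ω _ _ _ => a_sgn Ω) (fun Ω _ _ _ => a_core1 Ω (hR1 Ω))
    (fun Ω _ _ _ => a_core2 Ω (hloc Ω) (hL1 Ω) (hL3 Ω) (hL10 Ω)) a_kumA a_kumB p_lift p_Xinf

theorem a_inertG : S_inertG := p_inertG p_frac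
theorem a_inert : S_inert := p_inert p_below2 a_inertG
theorem a_inertConv : S_inertConv := p_inertConv a_inertG
theorem a_quad : S_quad := p_quad p_gen
theorem a_lev : S_lev :=
  p_lev (fun Ω _ _ _ => a_coord Ω) (fun Ω _ _ _ => a_act Ω) (fun Ω _ _ _ => a_kerPow Ω)
    (fun Ω _ _ _ => a_rat Ω)
theorem a_pow : S_pow :=
  p_pow (fun Ω _ _ _ => a_coord Ω) (fun Ω _ _ _ => a_ker Ω) (fun Ω _ _ _ => a_kerPow Ω)
theorem a_sqrt : S_sqrt :=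
  p_sqrt (fun Ω _ _ _ => a_act Ω) (fun Ω _ _ _ => a_halfConv Ω) (fun Ω _ _ _ => a_coord Ω)
theorem a_zp : S_zp :=
  p_zp a_lev a_pow a_sqrt p_prof (fun Ω _ _ _ => a_act Ω) (fun Ω _ _ _ => a_ker Ω)
    (fun Ω _ _ _ => a_coord Ω)
theorem a_unr (hR1 : ∀ (Ω : Type) [Field Ω] [CharZero Ω], S_R1 Ω) : S_unr :=
  p_unr a_lev p_below1 a_inert (fun Ω _ _ _ => a_core1 Ω (hR1 Ω)) (fun Ω _ _ _ => a_act Ω)

end Pool.Agent.Lib.MP_869d3b_nt
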