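import Mathlib

/-!
# MP_869d3b_nt : Herbrand quotients for commutative groups (index computations)
-/

set_option autoImplicit false

namespace Pool.Agent.Lib.MP_869d3b_nt.U

section Herb

variable {G : Type*} [CommGroup G]

/-- `[A : B] = [f A : f B] [ker f ∩ A : ker f ∩ B]`. -/
theorem relIndex_eq_map_mul_ker (f : G →* G) (A B : Subgroup G) (h : B ≤ A) :
    B.relIndex A = (B.map f).relIndex (A.map f) * (f.ker ⊓ B).relIndex (f.ker ⊓ A) := by
  have h1 : (B.map f).relIndex (A.map f) = (B ⊔ f.ker).relIndex A := by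
    rw [Subgroup.relIndex_map_map]
    have : A ⊔ f.ker = A ⊔ (B ⊔ f.ker) := by
      rw [← sup_assoc, sup_eq_left.2 h]
    rw [this, Subgroup.relIndex_sup_right]
  have h2 : (B ⊔ f.ker).relIndex A = (A ⊓ (B ⊔ f.ker)).relIndex A := by
    rw [Subgroup.inf_relIndex_left]
  have h3 : A ⊓ (B ⊔ f.ker) = B ⊔ (f.ker ⊓ A) := by
    rw [inf_comm, ← sup_inf_assoc_of_le _ h]
  have h4 : B.relIndex (B ⊔ (f.ker ⊓ A)) = (f.ker ⊓ B).relIndex (f.ker ⊓ A) := by
    rw [Subgroup.relIndex_sup_left]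
    rw [← Subgroup.inf_relIndex_right B (f.ker ⊓ A)]
    congr 1
    rw [inf_left_comm, inf_eq_left.2 h]
  rw [h1, h2, ← h4, mul_comm, h3]
  rw [Subgroup.relIndex_mul_relIndex _ _ _ le_sup_left (sup_le h inf_le_right)]

/-- The Herbrand quotients of `A` and of a subgroup `B` of finite index are equal. -/
theorem herbrand (f g : G →* G) (A B : Subgroup G) (h : B ≤ A) (hfin : B.relIndex A ≠ 0)
    (hgA : A.map g ≤ f.ker ⊓ A) (hgB : B.map g ≤ f.ker ⊓ B)
    (hfA : A.map f ≤ g.ker ⊓ A) (hfB : B.map f ≤ g.ker ⊓ B) :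
    (A.map g).relIndex (f.ker ⊓ A) * (B.map f).relIndex (g.ker ⊓ B) =
      (B.map g).relIndex (f.ker ⊓ B) * (A.map f).relIndex (g.ker ⊓ A) := by
  have e1 := relIndex_eq_map_mul_ker f A B h
  have e2 := relIndex_eq_map_mul_ker g A B h
  have c1 : (B.map g).relIndex (f.ker ⊓ A) = (B.map g).relIndex (A.map g) *
      (A.map g).relIndex (f.ker ⊓ A) :=
    (Subgroup.relIndex_mul_relIndex _ _ _ (Subgroup.map_mono h) hgA).symm
  have c2 : (B.map g).relIndex (f.ker ⊓ A) = (B.map g).relIndex (f.ker ⊓ B) *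
      (f.ker ⊓ B).relIndex (f.ker ⊓ A) :=
    (Subgroup.relIndex_mul_relIndex _ _ _ hgB (inf_le_inf_left _ h)).symm
  have d1 : (B.map f).relIndex (g.ker ⊓ A) = (B.map f).relIndex (A.map f) *
      (A.map f).relIndex (g.ker ⊓ A) :=
    (Subgroup.relIndex_mul_relIndex _ _ _ (Subgroup.map_mono h) hfA).symm
  have d2 : (B.map f).relIndex (g.ker ⊓ A) = (B.map f).relIndex (g.ker ⊓ B) *
      (g.ker ⊓ B).relIndex (g.ker ⊓ A) :=
    (Subgroup.relIndex_mul_relIndex _ _ _ hfB (inf_le_inf_left _ h)).symm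
  rw [c1] at c2
  rw [d1] at d2
  apply Nat.eq_of_mul_eq_mul_right (Nat.pos_of_ne_zero hfin)
  calc (A.map g).relIndex (f.ker ⊓ A) * (B.map f).relIndex (g.ker ⊓ B) * B.relIndex A
      = ((B.map g).relIndex (A.map g) * (A.map g).relIndex (f.ker ⊓ A)) *
        ((B.map f).relIndex (g.ker ⊓ B) * (g.ker ⊓ B).relIndex (g.ker ⊓ A)) := by
        rw [e2]; ring
    _ = ((B.map g).relIndex (f.ker ⊓ B) * (f.ker ⊓ B).relIndex (f.ker ⊓ A)) *
        ((B.map f).relIndex (A.map f) * (A.map f).relIndex (g.ker ⊓ A)) := by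
        rw [c2, ← d2]
    _ = (B.map g).relIndex (f.ker ⊓ B) * (A.map f).relIndex (g.ker ⊓ A) * B.relIndex A := by
        rw [e1]; ring

/-- For finite quotients `A / V`: `[{x ∈ A : f x ∈ V} : g(A) V] = [{x ∈ A : g x ∈ V} : f(A) V]`. -/
theorem herbrand_finite (f g : G →* G) (A V : Subgroup G) (h : V ≤ A) (hfin : V.relIndex A ≠ 0)
    (hfA : A.map f ≤ A) (hgA : A.map g ≤ A) (hfV : V.map f ≤ V) (hgV : V.map g ≤ V)
    (hfg : ∀ x ∈ A, f (g x) ∈ V) (hgf : ∀ x ∈ A, g (f x) ∈ V) :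
    (A.map g ⊔ V).relIndex (V.comap f ⊓ A) = (A.map f ⊔ V).relIndex (V.comap g ⊓ A) := by
  have key : ∀ (u : G →* G), A.map u ≤ A → V.map u ≤ V →
      V.relIndex A = V.relIndex (A.map u ⊔ V) * V.relIndex (V.comap u ⊓ A) := by
    intro u huA huV
    -- `[A : V] = [A : u⁻¹ V ∩ A] [u⁻¹ V ∩ A : V]`, `[A : u⁻¹ V ∩ A] = [u A V : V]`
    have h1 : V.relIndex (V.comap u ⊓ A) * (V.comap u ⊓ A).relIndex A = V.relIndex A :=
      Subgroup.relIndex_mul_relIndex _ _ _
        (le_inf (Subgroup.map_le_iff_le_comap.1 huV) h) inf_le_right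
    have h2 : (V.comap u ⊓ A).relIndex A = V.relIndex (A.map u ⊔ V) := by
      rw [Subgroup.inf_relIndex_right, Subgroup.relIndex_comap, Subgroup.relIndex_sup_right]
    rw [← h1, h2, mul_comm]
  have k1 := key f hfA hfV
  have k2 := key g hgA hgV
  have m1 : V.relIndex (A.map g ⊔ V) * (A.map g ⊔ V).relIndex (V.comap f ⊓ A) =
      V.relIndex (V.comap f ⊓ A) := by
    apply Subgroup.relIndex_mul_relIndex _ _ _ le_sup_right
    apply sup_le
    · apply le_inf _ hgA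
      rintro _ ⟨x, hx, rfl⟩
      exact hfg x hx
    · exact le_inf (Subgroup.map_le_iff_le_comap.1 hfV) h
  have m2 : V.relIndex (A.map f ⊔ V) * (A.map f ⊔ V).relIndex (V.comap g ⊓ A) =
      V.relIndex (V.comap g ⊓ A) := by
    apply Subgroup.relIndex_mul_relIndex _ _ _ le_sup_right
    apply sup_le
    · apply le_inf _ hfA
      rintro _ ⟨x, hx, rfl⟩
      exact hgf x hx
    · exact le_inf (Subgroup.map_le_iff_le_comap.1 hgV) h
  have p1 : V.relIndex (A.map f ⊔ V) ≠ 0 := by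
    intro h0; rw [h0, zero_mul] at k1; exact hfin k1
  have p2 : V.relIndex (A.map g ⊔ V) ≠ 0 := by
    intro h0; rw [h0, zero_mul] at k2; exact hfin k2
  apply Nat.eq_of_mul_eq_mul_left (Nat.pos_of_ne_zero (mul_ne_zero p1 p2))
  calc V.relIndex (A.map f ⊔ V) * V.relIndex (A.map g ⊔ V) *
        (A.map g ⊔ V).relIndex (V.comap f ⊓ A)
      = V.relIndex (A.map f ⊔ V) * (V.relIndex (A.map g ⊔ V) *
        (A.map g ⊔ V).relIndex (V.comap f ⊓ A)) := by ring
    _ = V.relIndex A := by rw [m1, ← k1]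
    _ = V.relIndex (A.map g ⊔ V) * (V.relIndex (A.map f ⊔ V) *
        (A.map f ⊔ V).relIndex (V.comap g ⊓ A)) := by rw [m2, ← k2]
    _ = _ := by ring

end Herb

end Pool.Agent.Lib.MP_869d3b_nt.U
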