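import Mathlib
import Pool.Agent.Lib.MP_869d3b_nt.Herb

/-!
# MP_869d3b_nt : permutation modules of free actions of cyclic groups
-/

set_option autoImplicit false
set_option linter.unusedSectionVars false

open Finset

namespace Pool.Agent.Lib.MP_869d3b_nt.U

section Perm

variable {G X E : Type*} [Group G] [Fintype G] [Fintype X] [MulAction G X] [CommGroup E]

/-- `a ↦ ∏ u_x ^ (a x)`. -/
def th (u : X → E) : Multiplicative (X → ℤ) →* E where
  toFun a := ∏ x, u x ^ (a.toAdd x)
  map_one' := by simp
  map_mul' a b := by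
    simp [zpow_add, prod_mul_distrib]

theorem th_apply (u : X → E) (a : Multiplicative (X → ℤ)) :
    th u a = ∏ x, u x ^ (a.toAdd x) := rfl

/-- The action of `σ` on functions. -/
def sm (σ : G) : Multiplicative (X → ℤ) →* Multiplicative (X → ℤ) where
  toFun a := Multiplicative.ofAdd (fun x => a.toAdd (σ⁻¹ • x))
  map_one' := by
    apply Multiplicative.toAdd.injective
    funext x
    simp
  map_mul' a b := by
    apply Multiplicative.toAdd.injective
    funext x
    simp

@[simp] theorem sm_apply (σ : G) (a : Multiplicative (X → ℤ)) (x : X) :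
    (sm σ a).toAdd x = a.toAdd (σ⁻¹ • x) := rfl

theorem mext {a b : Multiplicative (X → ℤ)} (h : ∀ x, a.toAdd x = b.toAdd x) : a = b :=
  Multiplicative.toAdd.injective (funext h)

theorem sm_mul (σ τ : G) (a : Multiplicative (X → ℤ)) : sm (σ * τ) a = sm σ (sm τ a) := by
  apply mext
  intro x
  simp [mul_smul]

theorem sm_one (a : Multiplicative (X → ℤ)) : sm (1 : G) a = a := by
  apply mext
  intro x
  simp

variable (G X) in
/-- The norm on functions. -/
def nL : Multiplicative (X → ℤ) →* Multiplicative (X → ℤ) := ∏ σ : G, sm σ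

theorem toAdd_prod' {ι : Type*} (s : Finset ι) (f : ι → Multiplicative (X → ℤ)) (x : X) :
    (∏ i ∈ s, f i).toAdd x = ∑ i ∈ s, (f i).toAdd x := by
  classical
  induction s using Finset.induction_on with
  | empty => simp
  | insert i s hi ih => rw [prod_insert hi, sum_insert hi, toAdd_mul, Pi.add_apply, ih]

theorem nL_apply (a : Multiplicative (X → ℤ)) (x : X) :
    (nL G X a).toAdd x = ∑ σ : G, a.toAdd (σ⁻¹ • x) := by
  rw [nL, MonoidHom.finsetProd_apply, toAdd_prod']
  rfl

theorem nL_eq (a : Multiplicative (X → ℤ)) : nL G X a = ∏ σ : G, sm σ a := by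
  rw [nL, MonoidHom.finsetProd_apply]

theorem nL_sm (σ : G) (a : Multiplicative (X → ℤ)) : nL G X (sm σ a) = nL G X a := by
  apply mext
  intro x
  rw [nL_apply, nL_apply]
  apply Fintype.sum_equiv (Equiv.mulRight σ)
  intro τ
  simp [mul_smul]

theorem sm_nL (σ : G) (a : Multiplicative (X → ℤ)) : sm σ (nL G X a) = nL G X a := by
  apply mext
  intro x
  rw [sm_apply, nL_apply, nL_apply]
  apply Fintype.sum_equiv (Equiv.mulLeft σ)
  intro τ
  simp [mul_smul]

/-- There is a set of representatives of the orbits of a free action. -/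
theorem exists_rho (hfree : ∀ (σ : G) (x : X), σ • x = x → σ = 1) :
    ∃ ρ : X → ℤ, ∀ x : X, ∑ σ : G, ρ (σ⁻¹ • x) = 1 := by
  classical
  let r : X → X := fun x => (Quotient.out (Quotient.mk (MulAction.orbitRel G X) x))
  refine ⟨fun x => if x = r x then 1 else 0, fun x => ?_⟩
  have hr : ∀ (σ : G) (x : X), r (σ • x) = r x := by
    intro σ x
    simp only [r]
    congr 1
    exact Quotient.sound (s := MulAction.orbitRel G X) ⟨σ, rfl⟩
  have hex : ∃ τ : G, τ • x = r x := by
    have : (MulAction.orbitRel G X) (r x) x := Quotient.mk_out x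
    obtain ⟨τ, hτ⟩ := this
    exact ⟨τ, hτ⟩
  obtain ⟨τ, hτ⟩ := hex
  rw [Finset.sum_eq_single τ⁻¹]
  · beta_reduce
    rw [if_pos]
    rw [inv_inv, hr, hτ]
  · intro σ _ hσ
    beta_reduce
    rw [if_neg]
    intro h
    rw [hr] at h
    apply hσ
    have : (σ * τ) • x = x := by
      rw [mul_smul, hτ, ← h, smul_inv_smul]
    rw [eq_inv_iff_mul_eq_one]
    exact hfree _ _ this
  · intro h
    exact absurd (mem_univ _) h

/-- Multiplication with a function. -/
def mulF (ρ : X → ℤ) (a : Multiplicative (X → ℤ)) : Multiplicative (X → ℤ) :=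
  Multiplicative.ofAdd (fun x => ρ x * a.toAdd x)

@[simp] theorem mulF_apply (ρ : X → ℤ) (a : Multiplicative (X → ℤ)) (x : X) :
    (mulF ρ a).toAdd x = ρ x * a.toAdd x := rfl

/-- `x ↦ g x / x` on functions. -/
def dL (g : G) : Multiplicative (X → ℤ) →* Multiplicative (X → ℤ) :=
  sm g / MonoidHom.id _

theorem dL_apply (g : G) (a : Multiplicative (X → ℤ)) : dL g a = sm g a / a := rfl

theorem sm_sub_mem (g : G) (hg : ∀ x : G, x ∈ Subgroup.zpowers g) (σ : G)
    (a : Multiplicative (X → ℤ)) : sm σ a / a ∈ (dL (X := X) g).range := by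
  classical
  let S : Subgroup G :=
    { carrier := {σ | ∀ a : Multiplicative (X → ℤ), sm σ a / a ∈ (dL (X := X) g).range}
      mul_mem' := by
        intro σ τ hσ hτ a
        have : sm (σ * τ) a / a = (sm σ (sm τ a) / sm τ a) * (sm τ a / a) := by
          rw [sm_mul]; simp
        rw [this]
        exact mul_mem (hσ _) (hτ _)
      one_mem' := by
        intro a
        rw [sm_one, div_self']
        exact one_mem _
      inv_mem' := by
        intro σ hσ a
        have h := hσ (sm σ⁻¹ a)
        rw [← sm_mul, mul_inv_cancel, sm_one] at h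
        rw [← inv_div]
        exact inv_mem h }
  have hS : Subgroup.zpowers g ≤ S := by
    rw [Subgroup.zpowers_le]
    intro a
    exact ⟨a, rfl⟩
  exact hS (hg σ) a

/-- `ker N = im D`. -/
theorem mem_range_dL (hfree : ∀ (σ : G) (x : X), σ • x = x → σ = 1) (g : G)
    (hg : ∀ x : G, x ∈ Subgroup.zpowers g) (a : Multiplicative (X → ℤ))
    (ha : nL G X a = 1) : a ∈ (dL (X := X) g).range := by
  classical
  obtain ⟨ρ, hρ⟩ := exists_rho hfree
  have h1 : a = ∏ σ : G, (sm σ (mulF ρ (sm σ⁻¹ a)) / mulF ρ (sm σ⁻¹ a)) := by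
    apply mext
    intro x
    rw [toAdd_prod']
    have h2 : ∀ σ : G, (sm σ (mulF ρ (sm σ⁻¹ a)) / mulF ρ (sm σ⁻¹ a)).toAdd x =
        ρ (σ⁻¹ • x) * a.toAdd x - ρ x * a.toAdd (σ • x) := by
      intro σ
      rw [toAdd_div, Pi.sub_apply]
      simp
    rw [Finset.sum_congr rfl (fun σ _ => h2 σ), Finset.sum_sub_distrib, ← Finset.sum_mul, hρ,
      ← Finset.mul_sum]
    have h3 : ∑ σ : G, a.toAdd (σ • x) = 0 := by
      have := congrArg (fun b : Multiplicative (X → ℤ) => b.toAdd x) ha
      simp only [nL_apply] at this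
      rw [← Equiv.sum_comp (Equiv.inv G)]
      simpa using this
    rw [h3]
    ring
  rw [h1]
  exact Subgroup.prod_mem _ (fun σ _ => sm_sub_mem g hg σ _)

/-- `ker D = im N`. -/
theorem mem_range_nL (hfree : ∀ (σ : G) (x : X), σ • x = x → σ = 1) (a : Multiplicative (X → ℤ))
    (ha : ∀ σ : G, sm σ a = a) : a ∈ (nL G X).range := by
  classical
  obtain ⟨ρ, hρ⟩ := exists_rho hfree
  refine ⟨mulF ρ a, ?_⟩
  apply mext
  intro x
  rw [nL_apply]
  have h2 : ∀ σ : G, (mulF ρ a).toAdd (σ⁻¹ • x) = ρ (σ⁻¹ • x) * a.toAdd x := by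
    intro σ
    rw [mulF_apply]
    congr 1
    have := congrArg (fun b : Multiplicative (X → ℤ) => b.toAdd x) (ha σ)
    simpa using this
  rw [Finset.sum_congr rfl (fun σ _ => h2 σ), ← Finset.sum_mul, hρ, one_mul]

theorem sm_eq_of_dL (g : G) (hg : ∀ x : G, x ∈ Subgroup.zpowers g)
    (a : Multiplicative (X → ℤ)) (h : sm g a = a) (σ : G) : sm σ a = a := by
  let S : Subgroup G :=
    { carrier := {σ | sm σ a = a}
      mul_mem' := by
        intro σ τ hσ hτ
        change sm (σ * τ) a = a
        rw [sm_mul, hτ, hσ]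
      one_mem' := sm_one a
      inv_mem' := by
        intro σ hσ
        change sm σ⁻¹ a = a
        conv_lhs => rw [← hσ]
        rw [← sm_mul, inv_mul_cancel, sm_one] }
  have hS : Subgroup.zpowers g ≤ S := by
    rw [Subgroup.zpowers_le]
    exact h
  exact hS (hg σ)

theorem relIndex_zpowers_pow {H : Type*} [Group H] (ξ : H) (h : ∀ n : ℤ, ξ ^ n = 1 → n = 0)
    (n : ℕ) : (Subgroup.zpowers (ξ ^ n)).relIndex (Subgroup.zpowers ξ) = n := by
  have hinj : Function.Injective (zpowersHom H ξ) := by
    rw [injective_iff_map_eq_one]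
    intro a ha
    have := h _ ha
    exact Multiplicative.toAdd.injective this
  have h1 : Subgroup.zpowers ξ = (⊤ : Subgroup (Multiplicative ℤ)).map (zpowersHom H ξ) := by
    rw [← MonoidHom.range_eq_map]
    ext x
    simp [Subgroup.mem_zpowers_iff, MonoidHom.mem_range]
  have h2 : Subgroup.zpowers (ξ ^ n) =
      (Subgroup.zpowers (Multiplicative.ofAdd (n : ℤ))).map (zpowersHom H ξ) := by
    rw [MonoidHom.map_zpowers]
    simp
  rw [h1, h2, Subgroup.relIndex_map_map_of_injective _ _ hinj, Subgroup.relIndex_top_right]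
  have h3 := Int.index_zmultiples (n : ℤ)
  rw [Int.natAbs_natCast] at h3
  rw [← AddSubgroup.index_toSubgroup] at h3
  exact h3

/-- The Herbrand quotient of the image of a free permutation module whose kernel is generated by
an invariant element `ξ` of infinite order. -/
theorem herbrand_perm (hfree : ∀ (σ : G) (x : X), σ • x = x → σ = 1) (g : G)
    (hg : ∀ x : G, x ∈ Subgroup.zpowers g) (act : G →* Monoid.End E) (u : X → E)
    (hu : ∀ σ x, act σ (u x) = u (σ • x)) (ξ : Multiplicative (X → ℤ))
    (hξ : ∀ n : ℤ, ξ ^ n = 1 → n = 0) (hker : (th u).ker = Subgroup.zpowers ξ)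
    (hinv : sm g ξ = ξ) (D N : E →* E) (hD : ∀ x, D x = act g x / x)
    (hN : ∀ x, N x = ∏ σ : G, act σ x) :
    ((th u).range.map N).relIndex (D.ker ⊓ (th u).range) = 1 ∧
    ((th u).range.map D).relIndex (N.ker ⊓ (th u).range) = Fintype.card G := by
  classical
  have hth : ∀ (σ : G) (a : Multiplicative (X → ℤ)), act σ (th u a) = th u (sm σ a) := by
    intro σ a
    rw [th_apply, th_apply]
    rw [map_prod]
    apply Fintype.prod_equiv (MulAction.toPerm σ)
    intro x
    rw [map_zpow, hu]
    simp
  have hNt : ∀ a : Multiplicative (X → ℤ), N (th u a) = th u (nL G X a) := by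
    intro a
    rw [hN, nL_eq, map_prod]
    exact Finset.prod_congr rfl (fun σ _ => hth σ a)
  have hDt : ∀ a : Multiplicative (X → ℤ), D (th u a) = th u (dL g a) := by
    intro a
    rw [hD, dL_apply, map_div, hth]
  have hnξ : nL G X ξ = ξ ^ Fintype.card G := by
    rw [nL_eq, Finset.prod_congr rfl (fun σ _ => sm_eq_of_dL g hg ξ hinv σ), Finset.prod_const,
      Finset.card_univ]
  have hξr : ξ ∈ (nL G X).range :=
    mem_range_nL hfree ξ (sm_eq_of_dL g hg ξ hinv)
  have hndL : ∀ a : Multiplicative (X → ℤ), nL G X (dL g a) = 1 := by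
    intro a
    rw [dL_apply, map_div, nL_sm, div_self']
  constructor
  · rw [Subgroup.relIndex_eq_one]
    rintro x ⟨hx1, a, rfl⟩
    have h1 : th u (dL g a) = 1 := by rw [← hDt]; exact hx1
    have h2 : dL g a ∈ Subgroup.zpowers ξ := by rw [← hker]; exact h1
    obtain ⟨j, hj⟩ := Subgroup.mem_zpowers_iff.1 h2
    have h3 : nL G X (ξ ^ j) = 1 := by rw [hj]; exact hndL a
    rw [map_zpow, hnξ, ← zpow_natCast, ← zpow_mul] at h3
    have h4 := hξ _ h3
    have h5 : j = 0 := by
      rcases mul_eq_zero.1 h4 with h | h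
      · exfalso
        have : Fintype.card G ≠ 0 := Fintype.card_ne_zero
        exact this (by exact_mod_cast h)
      · exact h
    rw [h5, zpow_zero] at hj
    have h6 : sm g a = a := by
      rw [dL_apply] at hj
      exact div_eq_one.1 hj.symm
    obtain ⟨b, hb⟩ := mem_range_nL hfree a (sm_eq_of_dL g hg a h6)
    exact ⟨th u b, ⟨b, rfl⟩, by rw [hNt, hb]⟩
  · have e1 : ((N.ker ⊓ (th u).range).comap (th u)).map (th u) = N.ker ⊓ (th u).range := by
      rw [Subgroup.map_comap_eq]
      exact inf_eq_right.2 inf_le_right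
    have e2 : (N.ker ⊓ (th u).range).comap (th u) = (Subgroup.zpowers ξ).comap (nL G X) := by
      ext a
      rw [Subgroup.mem_comap, Subgroup.mem_comap, Subgroup.mem_inf, ← hker]
      constructor
      · intro h
        have := h.1
        rw [MonoidHom.mem_ker, hNt] at this
        exact this
      · intro h
        refine ⟨?_, a, rfl⟩
        rw [MonoidHom.mem_ker, hNt]
        exact h
    have e3 : ((th u).range.map D).comap (th u) =
        (Subgroup.zpowers (ξ ^ Fintype.card G)).comap (nL G X) := by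
      ext a
      rw [Subgroup.mem_comap, Subgroup.mem_comap]
      constructor
      · rintro ⟨_, ⟨b, rfl⟩, hb⟩
        rw [hDt] at hb
        have h1 : a / dL g b ∈ (th u).ker := by
          rw [MonoidHom.mem_ker, map_div, hb, div_self']
        rw [hker] at h1
        obtain ⟨j, hj⟩ := Subgroup.mem_zpowers_iff.1 h1
        have h2 : nL G X a = nL G X (ξ ^ j) := by
          rw [hj, map_div, hndL, div_one]
        rw [h2, map_zpow, hnξ]
        exact Subgroup.mem_zpowers_iff.2 ⟨j, rfl⟩
      · intro h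
        obtain ⟨j, hj⟩ := Subgroup.mem_zpowers_iff.1 h
        have h1 : nL G X (a / ξ ^ j) = 1 := by
          rw [map_div, map_zpow, hnξ, hj, div_self']
        obtain ⟨b, hb⟩ := mem_range_dL hfree g hg _ h1
        refine ⟨th u b, ⟨b, rfl⟩, ?_⟩
        rw [hDt, hb, map_div]
        have : th u (ξ ^ j) = 1 := by
          have : ξ ^ j ∈ (th u).ker := by
            rw [hker]
            exact Subgroup.mem_zpowers_iff.2 ⟨j, rfl⟩
          exact this
        rw [this, div_one]
    have e4 : ((Subgroup.zpowers ξ).comap (nL G X)).map (nL G X) = Subgroup.zpowers ξ := by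
      rw [Subgroup.map_comap_eq]
      apply inf_eq_right.2
      rw [Subgroup.zpowers_le]
      exact hξr
    calc ((th u).range.map D).relIndex (N.ker ⊓ (th u).range)
        = ((th u).range.map D).relIndex (((N.ker ⊓ (th u).range).comap (th u)).map (th u)) := by
          rw [e1]
      _ = (((th u).range.map D).comap (th u)).relIndex ((N.ker ⊓ (th u).range).comap (th u)) := by
          rw [Subgroup.relIndex_comap]
      _ = ((Subgroup.zpowers (ξ ^ Fintype.card G)).comap (nL G X)).relIndex
          ((Subgroup.zpowers ξ).comap (nL G X)) := by rw [e2, e3]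
      _ = (Subgroup.zpowers (ξ ^ Fintype.card G)).relIndex
          (((Subgroup.zpowers ξ).comap (nL G X)).map (nL G X)) := by
          rw [Subgroup.relIndex_comap]
      _ = Fintype.card G := by rw [e4, relIndex_zpowers_pow ξ hξ]

end Perm

end Pool.Agent.Lib.MP_869d3b_nt.U
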