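import Pool.Agent.Lib.MP_869d3b_nt.DefsU

/-!
# MP_869d3b_nt : statements of (U1) and (U3)/(U4)
-/

set_option autoImplicit false

open NumberField IsDedekindDomain

namespace Pool.Agent.Lib.MP_869d3b_nt.U

/-- (U1): `[ker N ∩ E : D E] = n [ker D ∩ E : N E]`, and this is finite. -/
def S_U1 : Prop :=
  ∀ (k L : Type) [Field k] [NumberField k] [Field L] [NumberField L] [Algebra k L] [IsGalois k L]
    [IsTotallyComplex k] (g : L ≃ₐ[k] L), (∀ x : L ≃ₐ[k] L, x ∈ Subgroup.zpowers g) →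
    ((uE L).map (nMap k L)).relIndex ((dMap g).ker ⊓ uE L) ≠ 0 ∧
    ((uE L).map (dMap g)).relIndex ((nMap k L).ker ⊓ uE L) =
      Module.finrank k L * ((uE L).map (nMap k L)).relIndex ((dMap g).ker ⊓ uE L)

/-- (U3), (U4): if the unit `ε` of `k` is a norm of a unit of `L`, `v` is a prime of `k` with
`O/v = F_2`, `2 ∉ v²` and `ε² - 1 ∉ v^(c+1)`, then the ramification index of `v` in `L` is at
most `2^c`. -/
def S_U34 : Prop :=
  ∀ (k L : Type) [Field k] [NumberField k] [Field L] [NumberField L] [Algebra k L] [IsGalois k L]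
    (g : L ≃ₐ[k] L), (∀ x : L ≃ₐ[k] L, x ∈ Subgroup.zpowers g) →
    ∀ (v : HeightOneSpectrum (𝓞 k)), Ideal.absNorm v.asIdeal = 2 → (2 : 𝓞 k) ∉ v.asIdeal ^ 2 →
    ∀ (ε : (𝓞 k)ˣ) (c : ℕ), (ε : 𝓞 k) ^ 2 - 1 ∉ v.asIdeal ^ (c + 1) →
    (∃ η ∈ uE L, (nMap k L η : L) = algebraMap k L (algebraMap (𝓞 k) k (ε : 𝓞 k))) →
    v.asIdeal.ramificationIdxIn (𝓞 L) ≤ 2 ^ c

end Pool.Agent.Lib.MP_869d3b_nt.U
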