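import Mathlib
import Pool.Agent.Lib.MP_869d3b_nt.StmU13
import Pool.Agent.Lib.MP_869d3b_nt.Herb
import Pool.Agent.Lib.MP_869d3b_nt.Perm

/-!
# MP_869d3b_nt : (U1), the Herbrand quotient of the units of a cyclic extension of a totally
complex field
-/

set_option autoImplicit false
set_option linter.unusedSectionVars false

open Finset NumberField

namespace Pool.Agent.Lib.MP_869d3b_nt.U

section Sign

variable {X : Type*} [Fintype X]

/-- A vector in the left kernel of a matrix with negative off-diagonal entries and row sums `0`,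
which has a positive coordinate, has only positive coordinates. -/
theorem sign_lemma (M : X → X → ℝ) (hoff : ∀ w w', w' ≠ w → M w w' < 0)
    (hrow : ∀ w, ∑ w', M w w' = 0) (a : X → ℝ) (ha : ∀ w', ∑ w, a w * M w w' = 0)
    (w0 : X) (h0 : 0 < a w0) : ∀ w, 0 < a w := by
  classical
  by_contra hcon
  push Not at hcon
  obtain ⟨w1, hw1⟩ := hcon
  let P : Finset X := univ.filter (fun w => 0 < a w)
  let c : X → ℝ := fun w => ∑ w' ∈ P, M w w'
  have hsum : ∑ w, a w * c w = 0 := by
    have : ∑ w' ∈ P, ∑ w, a w * M w w' = 0 := Finset.sum_eq_zero (fun w' _ => ha w')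
    rw [Finset.sum_comm] at this
    rw [← this]
    exact Finset.sum_congr rfl (fun w _ => by rw [Finset.mul_sum])
  have hmem0 : w0 ∈ P := by simp [P, h0]
  have hmem1 : w1 ∉ P := by simp [P, hw1]
  have hcpos : ∀ w ∈ P, 0 < c w := by
    intro w hw
    have h1 : ∑ w' ∈ P, M w w' + ∑ w' ∈ Pᶜ, M w w' = 0 := by
      rw [Finset.sum_add_sum_compl, hrow]
    have h2 : ∑ w' ∈ Pᶜ, M w w' < 0 := by
      apply Finset.sum_neg
      · intro w' hw'
        apply hoff
        rintro rfl
        exact (Finset.mem_compl.1 hw') hw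
      · exact ⟨w1, Finset.mem_compl.2 hmem1⟩
    simp only [c]
    linarith
  have hcneg : ∀ w ∉ P, c w < 0 := by
    intro w hw
    apply Finset.sum_neg
    · intro w' hw'
      apply hoff
      rintro rfl
      exact hw hw'
    · exact ⟨w0, hmem0⟩
  have hterm : ∀ w, 0 ≤ a w * c w := by
    intro w
    by_cases hw : w ∈ P
    · have h1 : 0 < a w := by simpa [P] using hw
      exact (mul_pos h1 (hcpos w hw)).le
    · have h1 : a w ≤ 0 := by simpa [P] using hw
      exact mul_nonneg_of_nonpos_of_nonpos h1 (hcneg w hw).le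
  have hpos : 0 < ∑ w, a w * c w := by
    apply Finset.sum_pos' (fun w _ => hterm w)
    exact ⟨w0, mem_univ _, mul_pos h0 (hcpos w0 hmem0)⟩
  rw [hsum] at hpos
  exact lt_irrefl _ hpos

/-- If one coordinate is zero then all are. -/
theorem sign_lemma_zero (M : X → X → ℝ) (hoff : ∀ w w', w' ≠ w → M w w' < 0)
    (hrow : ∀ w, ∑ w', M w w' = 0) (a : X → ℝ) (ha : ∀ w', ∑ w, a w * M w w' = 0)
    (w0 : X) (h0 : a w0 = 0) : ∀ w, a w = 0 := by
  intro w
  rcases lt_trichotomy (a w) 0 with h | h | h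
  · have h1 := sign_lemma M hoff hrow (fun w => - a w) (fun w' => by
      have := ha w'
      simp only [neg_mul, Finset.sum_neg_distrib, this, neg_zero]) w (by simpa using h) w0
    simp [h0] at h1
  · exact h
  · have h1 := sign_lemma M hoff hrow a ha w h w0
    rw [h0] at h1
    exact absurd h1 (lt_irrefl _)

end Sign

section Units

variable {k L : Type} [Field k] [Field L] [Algebra k L]

theorem mem_uE_iff (x : Lˣ) : x ∈ uE L ↔ IsIntegral ℤ (x : L) ∧ IsIntegral ℤ ((x⁻¹ : Lˣ) : L) := by
  constructor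
  · rintro ⟨η, rfl⟩
    refine ⟨(RingOfIntegers.isIntegral_coe (η : 𝓞 L)), ?_⟩
    rw [← map_inv]
    exact RingOfIntegers.isIntegral_coe ((η⁻¹ : (𝓞 L)ˣ) : 𝓞 L)
  · rintro ⟨h1, h2⟩
    refine ⟨⟨⟨x, h1⟩, ⟨((x⁻¹ : Lˣ) : L), h2⟩, ?_, ?_⟩, ?_⟩
    · apply RingOfIntegers.ext
      change (x : L) * ((x⁻¹ : Lˣ) : L) = 1
      exact Units.mul_inv x
    · apply RingOfIntegers.ext
      change ((x⁻¹ : Lˣ) : L) * (x : L) = 1
      exact Units.inv_mul x
    · ext
      rfl

@[simp] theorem act_coe (σ : L ≃ₐ[k] L) (x : Lˣ) : ((act σ x : Lˣ) : L) = σ (x : L) := rfl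

theorem act_mem_uE (σ : L ≃ₐ[k] L) {x : Lˣ} (hx : x ∈ uE L) : act σ x ∈ uE L := by
  rw [mem_uE_iff] at hx ⊢
  refine ⟨?_, ?_⟩
  · rw [act_coe]
    exact hx.1.map (σ : L →+* L).toIntAlgHom
  · rw [← map_inv, act_coe]
    exact hx.2.map (σ : L →+* L).toIntAlgHom

theorem act_mul (σ τ : L ≃ₐ[k] L) (x : Lˣ) : act (σ * τ) x = act σ (act τ x) := by
  ext
  rfl

theorem act_one (x : Lˣ) : act (1 : L ≃ₐ[k] L) x = x := by
  ext
  rfl

/-- The action as a homomorphism. -/
def actHom (k L : Type) [Field k] [Field L] [Algebra k L] : (L ≃ₐ[k] L) →* Monoid.End Lˣ where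
  toFun σ := act σ
  map_one' := by
    ext x
    rfl
  map_mul' σ τ := by
    ext x
    rfl

theorem dMap_apply (g : L ≃ₐ[k] L) (x : Lˣ) : dMap g x = act g x / x := rfl

theorem nMap_apply [FiniteDimensional k L] (x : Lˣ) : nMap k L x = ∏ σ : L ≃ₐ[k] L, act σ x := by
  rw [nMap, MonoidHom.finsetProd_apply]

theorem act_nMap [FiniteDimensional k L] (σ : L ≃ₐ[k] L) (x : Lˣ) :
    act σ (nMap k L x) = nMap k L x := by
  rw [nMap_apply, map_prod]
  apply Fintype.prod_equiv (Equiv.mulLeft σ)
  intro τ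
  rw [← act_mul]
  rfl

theorem nMap_act [FiniteDimensional k L] (σ : L ≃ₐ[k] L) (x : Lˣ) :
    nMap k L (act σ x) = nMap k L x := by
  rw [nMap_apply, nMap_apply]
  apply Fintype.prod_equiv (Equiv.mulRight σ)
  intro τ
  rw [← act_mul]
  rfl

theorem dMap_nMap [FiniteDimensional k L] (g : L ≃ₐ[k] L) (x : Lˣ) :
    dMap g (nMap k L x) = 1 := by
  rw [dMap_apply, act_nMap, div_self']

theorem nMap_dMap [FiniteDimensional k L] (g : L ≃ₐ[k] L) (x : Lˣ) :
    nMap k L (dMap g x) = 1 := by
  rw [dMap_apply, map_div, nMap_act, div_self']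

theorem dMap_mem_uE (g : L ≃ₐ[k] L) {x : Lˣ} (hx : x ∈ uE L) : dMap g x ∈ uE L :=
  div_mem (act_mem_uE g hx) hx

theorem nMap_mem_uE [FiniteDimensional k L] {x : Lˣ} (hx : x ∈ uE L) : nMap k L x ∈ uE L := by
  rw [nMap_apply]
  exact Subgroup.prod_mem _ (fun σ _ => act_mem_uE σ hx)

/-- There is an equivariant system of units `u w` with `|u w|_w' < 1` for `w' ≠ w`. -/
theorem exists_units [NumberField L] [FiniteDimensional k L] :
    ∃ u : InfinitePlace L → (𝓞 L)ˣ,
      (∀ (σ : L ≃ₐ[k] L) w, act σ (Units.map (algebraMap (𝓞 L) L : 𝓞 L →* L) (u w)) =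
        Units.map (algebraMap (𝓞 L) L : 𝓞 L →* L) (u (σ • w))) ∧
      (∀ w w' : InfinitePlace L, w' ≠ w → Real.log (w' (u w)) < 0) := by
  classical
  choose u0 hu0 using (Units.dirichletUnitTheorem.exists_unit L)
  let c : (𝓞 L)ˣ →* Lˣ := Units.map (algebraMap (𝓞 L) L : 𝓞 L →* L)
  have hex : ∀ w : InfinitePlace L, ∃ v : (𝓞 L)ˣ, c v = ∏ σ : L ≃ₐ[k] L, act σ (c (u0 (σ⁻¹ • w))) := by
    intro w
    have : (∏ σ : L ≃ₐ[k] L, act σ (c (u0 (σ⁻¹ • w)))) ∈ uE L :=
      Subgroup.prod_mem _ (fun σ _ => act_mem_uE σ ⟨_, rfl⟩)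
    obtain ⟨v, hv⟩ := this
    exact ⟨v, hv⟩
  choose u hu using hex
  refine ⟨u, ?_, ?_⟩
  · intro σ w
    change act σ (c (u w)) = c (u (σ • w))
    rw [hu, hu, map_prod]
    apply Fintype.prod_equiv (Equiv.mulLeft σ)
    intro τ
    rw [← act_mul]
    simp [mul_smul]
  · intro w w' hw
    have h1 : ((u w : 𝓞 L) : L) = ((c (u w) : Lˣ) : L) := rfl
    have h2 : w' (u w) = ∏ σ : L ≃ₐ[k] L, (σ⁻¹ • w') ((u0 (σ⁻¹ • w) : 𝓞 L) : L) := by
      change w' ((u w : 𝓞 L) : L) = _
      rw [h1, hu, Units.coe_prod, map_prod]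
      rfl
    rw [h2, Real.log_prod]
    · apply Finset.sum_neg
      · intro σ _
        apply hu0
        intro h
        exact hw (MulAction.injective σ⁻¹ h)
      · exact ⟨1, mem_univ _⟩
    · intro σ _
      exact (Units.pos_at_place _ _).ne'

theorem free_infinitePlace [NumberField k] [NumberField L] [IsTotallyComplex k]
    (σ : L ≃ₐ[k] L) (w : InfinitePlace L) (h : σ • w = w) : σ = 1 := by
  have hw : InfinitePlace.IsUnramified k w := by
    have : IsTotallyComplex L := isTotallyComplex_of_algebra k L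
    rw [InfinitePlace.IsUnramified, IsTotallyComplex.mult_eq, IsTotallyComplex.mult_eq]
  have h2 := hw.stabilizer_eq_bot
  have h3 : σ ∈ MulAction.stabilizer (L ≃ₐ[k] L) w := h
  rw [h2] at h3
  exact h3

end Units

theorem U1 : S_U1 := by
  intro k L _ _ _ _ _ _ _ g hg
  classical
  obtain ⟨v, hv1, hv2⟩ := exists_units (k := k) (L := L)
  let c : (𝓞 L)ˣ →* Lˣ := Units.map (algebraMap (𝓞 L) L : 𝓞 L →* L)
  let u : InfinitePlace L → Lˣ := fun w => c (v w)
  have hc : Function.Injective c := by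
    intro x y hxy
    have := congrArg (fun z : Lˣ => (z : L)) hxy
    apply Units.ext
    exact RingOfIntegers.coe_injective this
  -- the matrix of logarithms
  let M : InfinitePlace L → InfinitePlace L → ℝ := fun w w' => w'.mult * Real.log (w' (v w))
  have hoff : ∀ w w', w' ≠ w → M w w' < 0 := by
    intro w w' h
    apply mul_neg_of_pos_of_neg _ (hv2 w w' h)
    exact_mod_cast InfinitePlace.mult_pos
  have hrow : ∀ w, ∑ w', M w w' = 0 := fun w => Units.sum_mult_mul_log (v w)
  have hker : ∀ a : Multiplicative (InfinitePlace L → ℤ), th u a = 1 →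
      ∀ w', ∑ w, ((a.toAdd w : ℤ) : ℝ) * M w w' = 0 := by
    intro a ha w'
    have h1 : w' ((th u a : Lˣ) : L) = 1 := by rw [ha]; simp
    rw [th_apply, Units.coe_prod, map_prod] at h1
    have h2 := congrArg Real.log h1
    rw [Real.log_one, Real.log_prod] at h2
    · have h3 : ∀ w, Real.log (w' ((u w ^ (a.toAdd w) : Lˣ) : L)) =
          (a.toAdd w : ℝ) * Real.log (w' (v w)) := by
        intro w
        rw [Units.val_zpow_eq_zpow_val, map_zpow₀, Real.log_zpow]
        rfl
      rw [Finset.sum_congr rfl (fun w _ => h3 w)] at h2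
      calc ∑ w, ((a.toAdd w : ℤ) : ℝ) * M w w'
          = w'.mult * ∑ w, (a.toAdd w : ℝ) * Real.log (w' (v w)) := by
            rw [Finset.mul_sum]
            apply Finset.sum_congr rfl
            intro w _
            simp only [M]
            ring
        _ = 0 := by rw [h2, mul_zero]
    · intro w _
      rw [ne_eq, map_eq_zero]
      exact Units.ne_zero _
  have hpos : ∀ a : Multiplicative (InfinitePlace L → ℤ), th u a = 1 → ∀ w0, 0 < a.toAdd w0 →
      ∀ w, 0 < a.toAdd w := by
    intro a ha w0 h0 w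
    have := sign_lemma M hoff hrow (fun w => ((a.toAdd w : ℤ) : ℝ)) (hker a ha) w0
      (by exact_mod_cast h0) w
    exact_mod_cast this
  have hzero : ∀ a : Multiplicative (InfinitePlace L → ℤ), th u a = 1 → ∀ w0, a.toAdd w0 = 0 →
      a = 1 := by
    intro a ha w0 h0
    apply mext
    intro w
    have := sign_lemma_zero M hoff hrow (fun w => ((a.toAdd w : ℤ) : ℝ)) (hker a ha) w0
      (by exact_mod_cast h0) w
    simpa using this
  -- the subgroup generated by the units `u w`, `w ≠ w₀`, has finite index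
  let w0 : InfinitePlace L := Units.dirichletUnitTheorem.w₀
  let e := Units.equivFinRank L
  let v' : Fin (Units.rank L) → (𝓞 L)ˣ := fun i => v (e i).1
  have hmax : Units.IsMaxRank v' := by
    rw [Units.IsMaxRank, Fintype.linearIndependent_iff]
    intro b hb
    let a : InfinitePlace L → ℝ := fun w => if h : w ≠ w0 then b (e.symm ⟨w, h⟩) else 0
    have ha0 : a w0 = 0 := by simp [a]
    have hsum : ∀ f : InfinitePlace L → ℝ, ∑ w, a w * f w = ∑ i, b i * f (e i).1 := by
      intro f
      rw [← Finset.sum_subset (Finset.subset_univ (univ.filter (fun w => w ≠ w0)))]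
      · rw [← Finset.sum_subtype_eq_sum_filter]
        symm
        apply Finset.sum_bij (fun i _ => e i)
        · intro i _
          simp
        · intro i _ j _ h
          exact e.injective h
        · intro w _
          exact ⟨e.symm w, mem_univ _, by simp⟩
        · intro i _
          have h1 : ((e i).1 : InfinitePlace L) ≠ w0 := (e i).2
          simp [a, h1]
      · intro w _ hw
        have : w = w0 := by simpa using hw
        rw [this, ha0, zero_mul]
    have h1 : ∀ w' : InfinitePlace L, w' ≠ w0 → ∑ w, a w * M w w' = 0 := by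
      intro w' hw'
      rw [hsum (fun w => M w w')]
      have := congrFun hb ⟨w', hw'⟩
      simpa [Finset.sum_apply, Units.dirichletUnitTheorem.logEmbedding_component] using this
    have h2 : ∀ w' : InfinitePlace L, ∑ w, a w * M w w' = 0 := by
      intro w'
      by_cases hw' : w' = w0
      · have h3 : ∑ w', ∑ w, a w * M w w' = 0 := by
          rw [Finset.sum_comm]
          apply Finset.sum_eq_zero
          intro w _
          rw [← Finset.mul_sum, hrow, mul_zero]
        rw [Finset.sum_eq_single w'] at h3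
        · exact h3
        · intro w'' _ hw''
          exact h1 w'' (by rw [← hw']; exact hw'')
        · intro h
          exact absurd (mem_univ _) h
      · exact h1 w' hw'
    have h3 := sign_lemma_zero M hoff hrow a h2 w0 ha0
    intro i
    have h4 := h3 (e i).1
    have h5 : ((e i).1 : InfinitePlace L) ≠ w0 := (e i).2
    simpa [a, h5] using h4
  have hfin := (Units.isMaxRank_iff_closure_finiteIndex).1 hmax
  -- a nontrivial relation
  have hclos : ∀ x ∈ Subgroup.closure (Set.range v'), ∃ a : Multiplicative (InfinitePlace L → ℤ),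
      a.toAdd w0 = 0 ∧ th u a = c x := by
    let S : Subgroup (Multiplicative (InfinitePlace L → ℤ)) :=
      { carrier := {a | a.toAdd w0 = 0}
        mul_mem' := by
          intro a b ha hb
          change (a * b).toAdd w0 = 0
          have ha' : a.toAdd w0 = 0 := ha
          have hb' : b.toAdd w0 = 0 := hb
          rw [toAdd_mul, Pi.add_apply, ha', hb', add_zero]
        one_mem' := by
          change (1 : Multiplicative (InfinitePlace L → ℤ)).toAdd w0 = 0
          simp
        inv_mem' := by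
          intro a ha
          change (a⁻¹).toAdd w0 = 0
          have ha' : a.toAdd w0 = 0 := ha
          rw [toAdd_inv, Pi.neg_apply, ha', neg_zero] }
    have h1 : Subgroup.closure (Set.range v') ≤ (S.map (th u)).comap c := by
      rw [Subgroup.closure_le]
      rintro _ ⟨i, rfl⟩
      refine ⟨Multiplicative.ofAdd (Pi.single (e i).1 1), ?_, ?_⟩
      · change (Pi.single (e i).1 1 : InfinitePlace L → ℤ) w0 = 0
        rw [Pi.single_eq_of_ne]
        exact (e i).2.symm
      · rw [th_apply, Finset.prod_eq_single (e i).1]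
        · simp [u, v']
        · intro w _ hw
          simp [Pi.single_eq_of_ne hw]
        · intro h
          exact absurd (mem_univ _) h
    intro x hx
    obtain ⟨a, ha, hax⟩ := h1 hx
    exact ⟨a, ha, hax⟩
  have hrel : ∃ a : Multiplicative (InfinitePlace L → ℤ), th u a = 1 ∧ a.toAdd w0 ≠ 0 := by
    obtain ⟨m, hm0, _, hm⟩ := Subgroup.exists_pow_mem_of_index_ne_zero hfin.index_ne_zero (v w0)
    obtain ⟨a, ha0, ha⟩ := hclos _ hm
    refine ⟨a / Multiplicative.ofAdd (Pi.single w0 (m : ℤ)), ?_, ?_⟩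
    · have h1 : th u (Multiplicative.ofAdd (Pi.single w0 (m : ℤ))) = c (v w0 ^ m) := by
        rw [th_apply, Finset.prod_eq_single w0]
        · simp [u]
        · intro w _ hw
          simp [Pi.single_eq_of_ne hw]
        · intro h
          exact absurd (mem_univ _) h
      rw [map_div, ha, h1, div_self']
    · rw [toAdd_div, Pi.sub_apply, ha0]
      simp
      omega
  -- the kernel is cyclic
  let H : Subgroup (Multiplicative (InfinitePlace L → ℤ)) := (th u).ker
  let ev : H →* Multiplicative ℤ :=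
    { toFun := fun a => Multiplicative.ofAdd ((a : Multiplicative (InfinitePlace L → ℤ)).toAdd w0)
      map_one' := rfl
      map_mul' := fun a b => rfl }
  have hev : Function.Injective ev := by
    rw [injective_iff_map_eq_one]
    intro a ha
    apply Subtype.ext
    apply hzero a.1 a.2 w0
    exact Multiplicative.ofAdd.injective ha
  have hcyc : IsCyclic H := isCyclic_of_injective ev hev
  obtain ⟨ξ0, hξ0⟩ := hcyc.exists_generator
  obtain ⟨a1, ha1, ha1w⟩ := hrel
  have hξ0w : ξ0.1.toAdd w0 ≠ 0 := by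
    intro h
    have h1 : ξ0.1 = 1 := hzero ξ0.1 ξ0.2 w0 h
    obtain ⟨j, hj⟩ := Subgroup.mem_zpowers_iff.1 (hξ0 ⟨a1, ha1⟩)
    have h2 : a1 = 1 := by
      have := congrArg Subtype.val hj
      rw [Subgroup.coe_zpow, h1, one_zpow] at this
      exact this.symm
    rw [h2] at ha1w
    exact ha1w rfl
  -- a generator with positive coordinates
  have hξ : ∃ ξ : Multiplicative (InfinitePlace L → ℤ), th u ξ = 1 ∧ 0 < ξ.toAdd w0 ∧
      (th u).ker = Subgroup.zpowers ξ := by
    have hz : (th u).ker = Subgroup.zpowers ξ0.1 := by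
      ext a
      constructor
      · intro ha
        obtain ⟨j, hj⟩ := Subgroup.mem_zpowers_iff.1 (hξ0 ⟨a, ha⟩)
        exact Subgroup.mem_zpowers_iff.2 ⟨j, by simpa using congrArg Subtype.val hj⟩
      · intro ha
        have : Subgroup.zpowers ξ0.1 ≤ (th u).ker := by
          rw [Subgroup.zpowers_le]
          exact ξ0.2
        exact this ha
    rcases lt_or_gt_of_ne hξ0w with h | h
    · refine ⟨ξ0.1⁻¹, ?_, ?_, ?_⟩
      · rw [map_inv]
        have : th u ξ0.1 = 1 := ξ0.2
        rw [this, inv_one]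
      · rw [toAdd_inv, Pi.neg_apply]
        omega
      · rw [Subgroup.zpowers_inv]
        exact hz
    · exact ⟨ξ0.1, ξ0.2, h, hz⟩
  obtain ⟨ξ, hξ1, hξpos, hξker⟩ := hξ
  have hξall := hpos ξ hξ1 w0 hξpos
  have hξord : ∀ n : ℤ, ξ ^ n = 1 → n = 0 := by
    intro n hn
    have := congrArg (fun b : Multiplicative (InfinitePlace L → ℤ) => b.toAdd w0) hn
    simp only [toAdd_zpow, Pi.smul_apply, toAdd_one, Pi.zero_apply, smul_eq_mul] at this
    rcases mul_eq_zero.1 this with h | h
    · exact h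
    · omega
  have hth : ∀ (σ : L ≃ₐ[k] L) (a : Multiplicative (InfinitePlace L → ℤ)),
      act σ (th u a) = th u (sm σ a) := by
    intro σ a
    rw [th_apply, th_apply, map_prod]
    apply Fintype.prod_equiv (MulAction.toPerm σ)
    intro x
    rw [map_zpow]
    have : act σ (u x) = u (σ • x) := hv1 σ x
    rw [this]
    simp
  have hinv : sm g ξ = ξ := by
    have h1 : sm g ξ ∈ (th u).ker := by
      rw [MonoidHom.mem_ker, ← hth, hξ1, map_one]
    rw [hξker] at h1
    obtain ⟨j, hj⟩ := Subgroup.mem_zpowers_iff.1 h1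
    have h2 : ∀ a : Multiplicative (InfinitePlace L → ℤ), ∑ w, (sm g a).toAdd w = ∑ w, a.toAdd w := by
      intro a
      apply Fintype.sum_equiv (MulAction.toPerm g⁻¹)
      intro w
      simp
    have h3 := h2 ξ
    rw [← hj] at h3
    have h4 : ∑ w, (ξ ^ j).toAdd w = j * ∑ w, ξ.toAdd w := by
      rw [Finset.mul_sum]
      rfl
    rw [h4] at h3
    have h5 : 0 < ∑ w, ξ.toAdd w := Finset.sum_pos (fun w _ => hξall w) ⟨w0, mem_univ _⟩
    have h6 : j = 1 := by
      have : (j - 1) * ∑ w, ξ.toAdd w = 0 := by linarith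
      rcases mul_eq_zero.1 this with h | h
      · omega
      · omega
    rw [h6, zpow_one] at hj
    exact hj.symm
  -- the Herbrand quotient of the range
  have hperm := herbrand_perm (G := L ≃ₐ[k] L) (X := InfinitePlace L) (E := Lˣ)
    (fun σ w h => free_infinitePlace σ w h) g hg (actHom k L) u (fun σ w => hv1 σ w) ξ hξord hξker
    hinv (dMap g) (nMap k L) (fun x => rfl) (fun x => nMap_apply x)
  have hcard : Fintype.card (L ≃ₐ[k] L) = Module.finrank k L := by
    rw [← Nat.card_eq_fintype_card]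
    exact IsGalois.card_aut_eq_finrank k L
  rw [hcard] at hperm
  have hBle : (th u).range ≤ uE L := by
    rintro _ ⟨a, rfl⟩
    rw [th_apply]
    exact Subgroup.prod_mem _ (fun w _ => Subgroup.zpow_mem _ (show c (v w) ∈ uE L from ⟨v w, rfl⟩) _)
  have hBfin : (th u).range.relIndex (uE L) ≠ 0 := by
    have h1 : (Subgroup.closure (Set.range v')).map c ≤ (th u).range := by
      rintro _ ⟨x, hx, rfl⟩
      obtain ⟨a, _, ha⟩ := hclos x hx
      exact ⟨a, ha⟩
    have h2 : ((Subgroup.closure (Set.range v')).map c).relIndex (uE L) ≠ 0 := by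
      have h3 : uE L = (⊤ : Subgroup (𝓞 L)ˣ).map c := by
        rw [← MonoidHom.range_eq_map]
        rfl
      rw [h3, Subgroup.relIndex_map_map_of_injective _ _ hc, Subgroup.relIndex_top_right]
      exact hfin.index_ne_zero
    intro h0
    exact h2 (Subgroup.relIndex_eq_zero_of_le_left h1 h0)
  have hactr : ∀ (σ : L ≃ₐ[k] L) {x : Lˣ}, x ∈ (th u).range → act σ x ∈ (th u).range := by
    rintro σ _ ⟨a, rfl⟩
    exact ⟨sm σ a, (hth σ a).symm⟩
  have hDB : (th u).range.map (dMap g) ≤ (nMap k L).ker ⊓ (th u).range := by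
    rintro _ ⟨x, hx, rfl⟩
    exact Subgroup.mem_inf.2 ⟨nMap_dMap g x, Subgroup.div_mem _ (hactr g hx) hx⟩
  have hNB : (th u).range.map (nMap k L) ≤ (dMap g).ker ⊓ (th u).range := by
    rintro _ ⟨x, hx, rfl⟩
    refine ⟨dMap_nMap g x, ?_⟩
    change nMap k L x ∈ (th u).range
    rw [nMap_apply]
    exact Subgroup.prod_mem _ (fun σ _ => hactr σ hx)
  have hDE : (uE L).map (dMap g) ≤ (nMap k L).ker ⊓ uE L := by
    rintro _ ⟨x, hx, rfl⟩
    exact ⟨nMap_dMap g x, dMap_mem_uE g hx⟩
  have hNE : (uE L).map (nMap k L) ≤ (dMap g).ker ⊓ uE L := by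
    rintro _ ⟨x, hx, rfl⟩
    exact ⟨dMap_nMap g x, nMap_mem_uE hx⟩
  have hH := herbrand (dMap g) (nMap k L) (uE L) (th u).range hBle hBfin hNE hNB hDE hDB
  rw [hperm.1, hperm.2, one_mul] at hH
  refine ⟨?_, by rw [← hH, mul_comm]⟩
  intro h0
  have h1 : ((th u).range.map (nMap k L)).relIndex ((dMap g).ker ⊓ uE L) = 0 :=
    Subgroup.relIndex_eq_zero_of_le_left (Subgroup.map_mono hBle) h0
  rw [← Subgroup.relIndex_mul_relIndex _ _ _ hNB (inf_le_inf_left _ hBle), hperm.1, one_mul] at h1
  have h2 := Subgroup.relIndex_inter_ne_zero hBfin (dMap g).ker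
  rw [inf_comm (dMap g).ker, inf_comm (dMap g).ker] at h1
  exact h2 h1

end Pool.Agent.Lib.MP_869d3b_nt.U
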