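import Mathlib
import Pool.Agent.Lib.MP_869d3b_nt.U1

/-!
# MP_869d3b_nt : the semilocal ring, lattices and congruence subgroups

`Loc k L`: a subring `R` of `k` and a `Gal(L/k)`-stable subring `S` of `L` above it, with a
uniformiser `w` of `R` (`R / w = F_2`).
-/

set_option autoImplicit false
set_option linter.unusedSectionVars false
set_option linter.dupNamespace false

open Finset

namespace Pool.Agent.Lib.MP_869d3b_nt.U

/-- A discrete valuation ring `R` of `k` and a stable subring `S` of `L` above it. -/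
structure Loc (k L : Type) [Field k] [Field L] [Algebra k L] where
  /-- the ring below -/
  R : Subring k
  /-- the ring above -/
  S : Subring L
  /-- the uniformiser -/
  w : k
  w_ne : w ≠ 0
  w_mem : w ∈ R
  w_inv : w⁻¹ ∉ R
  repr : ∀ x : k, x ≠ 0 → ∃ (j : ℤ) (u : k), u ∈ R ∧ u⁻¹ ∈ R ∧ x = w ^ j * u
  two : ∀ r ∈ R, r / w ∈ R ∨ (r - 1) / w ∈ R
  two_w : ∃ u : k, u ∈ R ∧ u⁻¹ ∈ R ∧ u ≠ 0 ∧ 2 = w * u
  comap : ∀ r : k, algebraMap k L r ∈ S ↔ r ∈ R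
  stab : ∀ (σ : L ≃ₐ[k] L) (x : L), x ∈ S → σ x ∈ S
  absorb : ∀ x : L, ∃ N : ℕ, algebraMap k L w ^ N * x ∈ S
  unit : ∀ s ∈ S, (1 + algebraMap k L w * s)⁻¹ ∈ S ∧ 1 + algebraMap k L w * s ≠ 0

section

variable {k L : Type} [Field k] [Field L] [Algebra k L]

/-- The uniformiser in `L`. -/
def Loc.t (Lo : Loc k L) : L := algebraMap k L Lo.w

theorem Loc.t_mem (Lo : Loc k L) : Lo.t ∈ Lo.S := (Lo.comap _).2 Lo.w_mem

theorem Loc.t_ne (Lo : Loc k L) : Lo.t ≠ 0 := by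
  rw [Loc.t, ne_eq, map_eq_zero]
  exact Lo.w_ne

theorem Loc.act_t (Lo : Loc k L) (σ : L ≃ₐ[k] L) : σ Lo.t = Lo.t := σ.commutes _

/-- The units of `S`. -/
def Loc.U (Lo : Loc k L) : Subgroup Lˣ where
  carrier := {x | (x : L) ∈ Lo.S ∧ ((x⁻¹ : Lˣ) : L) ∈ Lo.S}
  mul_mem' := by
    rintro x y ⟨hx1, hx2⟩ ⟨hy1, hy2⟩
    refine ⟨?_, ?_⟩
    · rw [Units.val_mul]; exact Lo.S.mul_mem hx1 hy1
    · rw [mul_inv, Units.val_mul]; exact Lo.S.mul_mem hx2 hy2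
  one_mem' := by
    refine ⟨?_, ?_⟩
    · rw [Units.val_one]; exact Lo.S.one_mem
    · rw [inv_one, Units.val_one]; exact Lo.S.one_mem
  inv_mem' := by
    rintro x ⟨hx1, hx2⟩
    refine ⟨hx2, ?_⟩
    rw [inv_inv]
    exact hx1

theorem Loc.mem_U (Lo : Loc k L) (x : Lˣ) :
    x ∈ Lo.U ↔ (x : L) ∈ Lo.S ∧ ((x⁻¹ : Lˣ) : L) ∈ Lo.S := Iff.rfl

theorem Loc.act_U (Lo : Loc k L) (σ : L ≃ₐ[k] L) {x : Lˣ} (hx : x ∈ Lo.U) : act σ x ∈ Lo.U := by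
  rw [Loc.mem_U] at hx ⊢
  refine ⟨Lo.stab σ _ hx.1, ?_⟩
  rw [← map_inv]
  exact Lo.stab σ _ hx.2

/-- A stable lattice with a normal basis. -/
structure Lat (Lo : Loc k L) [FiniteDimensional k L] (g : L ≃ₐ[k] L) where
  /-- the lattice -/
  M : AddSubgroup L
  le : ∀ m ∈ M, m ∈ Lo.S
  act : ∀ (σ : L ≃ₐ[k] L), ∀ m ∈ M, σ m ∈ M
  smul : ∀ r ∈ Lo.R, ∀ m ∈ M, algebraMap k L r * m ∈ M
  /-- the conductor exponent -/
  c0 : ℕ
  abs : ∀ s ∈ Lo.S, Lo.t ^ c0 * s ∈ M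
  aug : ∀ m ∈ M, (∃ m1 ∈ M, ∑ σ : L ≃ₐ[k] L, σ m = Lo.t * m1) →
    ∃ m' ∈ M, ∃ m'' ∈ M, m = g m' - m' + Lo.t * m''
  tr : ∃ α ∈ M, ∑ σ : L ≃ₐ[k] L, σ α ≠ 0
  fin : ∀ j : ℕ, ∃ (n : ℕ) (F : L → Fin n), ∀ x ∈ M, ∀ y ∈ M, F x = F y →
    ∃ m ∈ M, x - y = Lo.t ^ j * m

section Lattice

variable [FiniteDimensional k L] {Lo : Loc k L} {g : L ≃ₐ[k] L} (La : Lat Lo g)

include La

theorem Lat.abs' (j : ℕ) (hj : La.c0 ≤ j) (s : L) (hs : s ∈ Lo.S) : Lo.t ^ j * s ∈ La.M := by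
  obtain ⟨i, rfl⟩ := Nat.exists_eq_add_of_le hj
  rw [pow_add, mul_assoc]
  exact La.abs _ (Lo.S.mul_mem (Lo.S.pow_mem Lo.t_mem _) hs)

/-- the product of an element of `M` and of the inverse of `1 + t^j m`. -/
theorem Lat.mul_inv_mem (j : ℕ) (hj : La.c0 + 1 ≤ j) (p m : L) (hp : p ∈ La.M) (hm : m ∈ La.M) :
    p * (1 + Lo.t ^ j * m)⁻¹ ∈ La.M ∧ 1 + Lo.t ^ j * m ≠ 0 ∧ (1 + Lo.t ^ j * m)⁻¹ ∈ Lo.S := by
  obtain ⟨i, rfl⟩ := Nat.exists_eq_add_of_le hj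
  have h1 := Lo.unit (Lo.t ^ (La.c0 + i) * m)
    (Lo.S.mul_mem (Lo.S.pow_mem Lo.t_mem _) (La.le _ hm))
  have h2 : 1 + algebraMap k L Lo.w * (Lo.t ^ (La.c0 + i) * m) = 1 + Lo.t ^ (La.c0 + 1 + i) * m := by
    change 1 + Lo.t * (Lo.t ^ (La.c0 + i) * m) = _
    ring
  rw [h2] at h1
  obtain ⟨h3, h4⟩ := h1
  refine ⟨?_, h4, h3⟩
  have h5 : p * (1 + Lo.t ^ (La.c0 + 1 + i) * m)⁻¹ =
      p - Lo.t ^ (La.c0 + 1 + i) * (m * p * (1 + Lo.t ^ (La.c0 + 1 + i) * m)⁻¹) := by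
    field_simp
    ring
  rw [h5]
  apply La.M.sub_mem hp
  apply La.abs' _ (by omega)
  exact Lo.S.mul_mem (Lo.S.mul_mem (La.le _ hm) (La.le _ hp)) h3

/-- The congruence subgroup `1 + t^(c0 + 1 + i) M`. -/
def Lat.V (i : ℕ) : Subgroup Lˣ where
  carrier := {x | ∃ m ∈ La.M, (x : L) = 1 + Lo.t ^ (La.c0 + 1 + i) * m}
  mul_mem' := by
    rintro x y ⟨m, hm, hx⟩ ⟨n, hn, hy⟩
    refine ⟨m + n + Lo.t ^ (La.c0 + 1 + i) * (m * n), ?_, ?_⟩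
    · apply La.M.add_mem (La.M.add_mem hm hn)
      exact La.abs' _ (by omega) _ (Lo.S.mul_mem (La.le _ hm) (La.le _ hn))
    · rw [Units.val_mul, hx, hy]
      ring
  one_mem' := ⟨0, La.M.zero_mem, by simp⟩
  inv_mem' := by
    rintro x ⟨m, hm, hx⟩
    obtain ⟨h1, h2, h3⟩ := La.mul_inv_mem (La.c0 + 1 + i) (by omega) m m hm hm
    refine ⟨- (m * (1 + Lo.t ^ (La.c0 + 1 + i) * m)⁻¹), La.M.neg_mem h1, ?_⟩
    rw [Units.val_inv_eq_inv_val, hx]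
    field_simp
    ring

theorem Lat.mem_V (i : ℕ) (x : Lˣ) :
    x ∈ La.V i ↔ ∃ m ∈ La.M, (x : L) = 1 + Lo.t ^ (La.c0 + 1 + i) * m := Iff.rfl

theorem Lat.V_le_U (i : ℕ) : La.V i ≤ Lo.U := by
  rintro x ⟨m, hm, hx⟩
  obtain ⟨h1, h2, h3⟩ := La.mul_inv_mem (La.c0 + 1 + i) (by omega) m m hm hm
  refine ⟨?_, ?_⟩
  · rw [hx]
    exact Lo.S.add_mem Lo.S.one_mem (Lo.S.mul_mem (Lo.S.pow_mem Lo.t_mem _) (La.le _ hm))
  · rw [Units.val_inv_eq_inv_val, hx]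
    exact h3

theorem Lat.act_V (i : ℕ) (σ : L ≃ₐ[k] L) {x : Lˣ} (hx : x ∈ La.V i) : Pool.Agent.Lib.MP_869d3b_nt.U.act σ x ∈ La.V i := by
  obtain ⟨m, hm, hx⟩ := hx
  refine ⟨σ m, La.act σ m hm, ?_⟩
  rw [act_coe, hx]
  simp [Lo.act_t]

theorem Lat.prod_expand {ι : Type*} (s : Finset ι) (f : ι → L) (hf : ∀ i ∈ s, f i ∈ Lo.S) (j : ℕ) :
    ∃ r ∈ Lo.S, ∏ i ∈ s, (1 + Lo.t ^ j * f i) =
      1 + Lo.t ^ j * ∑ i ∈ s, f i + Lo.t ^ (2 * j) * r := by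
  classical
  induction s using Finset.induction_on with
  | empty => exact ⟨0, Lo.S.zero_mem, by simp⟩
  | insert a s ha ih =>
    obtain ⟨r, hr, h⟩ := ih (fun i hi => hf i (Finset.mem_insert_of_mem hi))
    refine ⟨r + f a * ∑ i ∈ s, f i + Lo.t ^ j * (f a * r), ?_, ?_⟩
    · have h1 := hf a (Finset.mem_insert_self _ _)
      have h2 : ∑ i ∈ s, f i ∈ Lo.S :=
        Lo.S.sum_mem (fun i hi => hf i (Finset.mem_insert_of_mem hi))
      exact Lo.S.add_mem (Lo.S.add_mem hr (Lo.S.mul_mem h1 h2))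
        (Lo.S.mul_mem (Lo.S.pow_mem Lo.t_mem _) (Lo.S.mul_mem h1 hr))
    · rw [Finset.prod_insert ha, Finset.sum_insert ha, h]
      ring

/-- One step of the approximation. -/
theorem Lat.star_step (i : ℕ) (y : Lˣ) (hy : dMap g y ∈ La.V i) :
    ∃ u ∈ La.V i, dMap g (y / u) ∈ La.V (i + 1) := by
  obtain ⟨m, hm, hx⟩ := hy
  -- the trace of `m`
  have hnorm : ((nMap k L (dMap g y) : Lˣ) : L) = 1 := by rw [nMap_dMap, Units.val_one]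
  rw [nMap_apply, Units.coe_prod] at hnorm
  have h1 : ∀ σ : L ≃ₐ[k] L, ((Pool.Agent.Lib.MP_869d3b_nt.U.act σ (dMap g y) : Lˣ) : L) =
      1 + Lo.t ^ (La.c0 + 1 + i) * σ m := by
    intro σ
    rw [act_coe, hx]
    simp [Lo.act_t]
  rw [Finset.prod_congr rfl (fun σ _ => h1 σ)] at hnorm
  obtain ⟨r, hr, hexp⟩ := La.prod_expand (Finset.univ : Finset (L ≃ₐ[k] L)) (fun σ => σ m)
    (fun σ _ => Lo.stab σ m (La.le m hm)) (La.c0 + 1 + i)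
  rw [hexp] at hnorm
  have htr : ∑ σ : L ≃ₐ[k] L, σ m = Lo.t * (Lo.t ^ (La.c0 + i) * (-r)) := by
    have h2 : Lo.t ^ (La.c0 + 1 + i) * (∑ σ : L ≃ₐ[k] L, σ m -
        Lo.t * (Lo.t ^ (La.c0 + i) * (-r))) = 0 := by
      have h3 : Lo.t ^ (2 * (La.c0 + 1 + i)) =
          Lo.t ^ (La.c0 + 1 + i) * (Lo.t * Lo.t ^ (La.c0 + i)) := by ring
      rw [h3] at hnorm
      linear_combination hnorm
    rcases mul_eq_zero.1 h2 with h | h
    · exact absurd h (pow_ne_zero _ Lo.t_ne)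
    · exact sub_eq_zero.1 h
  obtain ⟨m', hm', m'', hm'', hmm⟩ := La.aug m hm
    ⟨_, La.abs' _ (by omega) _ (Lo.S.neg_mem hr), htr⟩
  obtain ⟨-, hne, -⟩ := La.mul_inv_mem (La.c0 + 1 + i) (by omega) m' m' hm' hm'
  refine ⟨Units.mk0 _ hne, ⟨m', hm', rfl⟩, ?_⟩
  have hgm : g m' ∈ La.M := La.act g m' hm'
  obtain ⟨-, hne2, hinv2⟩ := La.mul_inv_mem (La.c0 + 1 + i) (by omega) (g m') (g m') hgm hgm
  let s : L := (g m' - m' + Lo.t * m'') * m'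
  have hs : s ∈ Lo.S := by
    apply Lo.S.mul_mem _ (La.le _ hm')
    exact Lo.S.add_mem (Lo.S.sub_mem (La.le _ hgm) (La.le _ hm'))
      (Lo.S.mul_mem Lo.t_mem (La.le _ hm''))
  have hp : m'' + Lo.t ^ (La.c0 + i) * s ∈ La.M :=
    La.M.add_mem hm'' (La.abs' _ (by omega) _ hs)
  obtain ⟨hq, -, -⟩ := La.mul_inv_mem (La.c0 + 1 + i) (by omega) _ (g m') hp hgm
  refine ⟨_, hq, ?_⟩
  have h4 : ((dMap g (y / Units.mk0 _ hne) : Lˣ) : L) =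
      ((dMap g y : Lˣ) : L) / ((dMap g (Units.mk0 _ hne) : Lˣ) : L) := by
    rw [map_div, Units.val_div_eq_div_val]
  have h5 : ((dMap g (Units.mk0 _ hne) : Lˣ) : L) =
      (1 + Lo.t ^ (La.c0 + 1 + i) * g m') / (1 + Lo.t ^ (La.c0 + 1 + i) * m') := by
    rw [dMap_apply, Units.val_div_eq_div_val, act_coe, Units.val_mk0]
    simp [Lo.act_t]
  rw [h4, h5, hx, hmm]
  have h6 : Lo.t ^ (La.c0 + 1 + (i + 1)) = Lo.t * Lo.t ^ (La.c0 + 1 + i) := by ring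
  have h7 : Lo.t * Lo.t ^ (La.c0 + 1 + i) * (Lo.t ^ (La.c0 + i) * s) =
      Lo.t ^ (La.c0 + 1 + i) * (Lo.t ^ (La.c0 + 1 + i)) * s := by ring
  rw [h6]
  field_simp
  simp only [s] at h7 ⊢
  ring

theorem Lat.pow_mul_mem (I : ℕ) (m : L) (hm : m ∈ La.M) : Lo.t ^ I * m ∈ La.M := by
  have := La.smul (Lo.w ^ I) (Lo.R.pow_mem Lo.w_mem _) m hm
  rwa [map_pow] at this

theorem Lat.V_anti (I : ℕ) : La.V I ≤ La.V 0 := by
  rintro x ⟨m, hm, hx⟩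
  refine ⟨Lo.t ^ I * m, La.pow_mul_mem I m hm, ?_⟩
  rw [hx]
  ring

theorem Lat.star_iter (I : ℕ) (y : Lˣ) (hy : dMap g y ∈ La.V 0) :
    ∃ u ∈ La.V 0, dMap g (y / u) ∈ La.V I := by
  induction I with
  | zero => exact ⟨1, one_mem _, by simpa using hy⟩
  | succ I ih =>
    obtain ⟨u, hu, h⟩ := ih
    obtain ⟨u', hu', h'⟩ := La.star_step I _ h
    refine ⟨u * u', mul_mem hu (La.V_anti I hu'), ?_⟩
    rw [← div_div]
    exact h'

theorem Lat.cocycle (hg : ∀ x : L ≃ₐ[k] L, x ∈ Subgroup.zpowers g) (I : ℕ) (y : Lˣ)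
    (hy : dMap g y ∈ La.V I) (σ : L ≃ₐ[k] L) :
    Pool.Agent.Lib.MP_869d3b_nt.U.act σ y / y ∈ La.V I := by
  let S : Subgroup (L ≃ₐ[k] L) :=
    { carrier := {σ | Pool.Agent.Lib.MP_869d3b_nt.U.act σ y / y ∈ La.V I}
      mul_mem' := by
        intro σ τ hσ hτ
        change Pool.Agent.Lib.MP_869d3b_nt.U.act (σ * τ) y / y ∈ La.V I
        have h1 : Pool.Agent.Lib.MP_869d3b_nt.U.act (σ * τ) y / y =
            Pool.Agent.Lib.MP_869d3b_nt.U.act σ (Pool.Agent.Lib.MP_869d3b_nt.U.act τ y / y) *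
              (Pool.Agent.Lib.MP_869d3b_nt.U.act σ y / y) := by
          rw [act_mul, map_div]
          simp
        rw [h1]
        exact mul_mem (La.act_V I σ hτ) hσ
      one_mem' := by
        change Pool.Agent.Lib.MP_869d3b_nt.U.act 1 y / y ∈ La.V I
        rw [act_one, div_self']
        exact one_mem _
      inv_mem' := by
        intro σ hσ
        change Pool.Agent.Lib.MP_869d3b_nt.U.act σ⁻¹ y / y ∈ La.V I
        have h1 : Pool.Agent.Lib.MP_869d3b_nt.U.act σ⁻¹ y / y =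
            (Pool.Agent.Lib.MP_869d3b_nt.U.act σ⁻¹
              (Pool.Agent.Lib.MP_869d3b_nt.U.act σ y / y))⁻¹ := by
          rw [map_div, ← act_mul, inv_mul_cancel, act_one, inv_div]
        rw [h1]
        exact inv_mem (La.act_V I σ⁻¹ hσ) }
  have hS : Subgroup.zpowers g ≤ S := by
    rw [Subgroup.zpowers_le]
    exact hy
  exact hS (hg σ)

/-- `(*)`: if `g y / y ∈ V` then `y ∈ kˣ V`. -/
theorem Lat.star (hg : ∀ x : L ≃ₐ[k] L, x ∈ Subgroup.zpowers g) [IsGalois k L] (y : Lˣ)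
    (hy : dMap g y ∈ La.V 0) :
    ∃ (c : kˣ), ∃ u ∈ La.V 0, y = Units.map (algebraMap k L : k →* L) c * u := by
  obtain ⟨α, hα, hτ⟩ := La.tr
  set τ : L := ∑ σ : L ≃ₐ[k] L, σ α with hτdef
  obtain ⟨N, hN⟩ := Lo.absorb τ⁻¹
  obtain ⟨u, hu, hD⟩ := La.star_iter (N + La.c0) y hy
  set y' : Lˣ := y / u with hy'
  -- the trace of `y' α`
  have hc := La.cocycle hg _ y' hD
  choose m hm hmx using fun σ => hc σ
  have h1 : ∀ σ : L ≃ₐ[k] L, σ ((y' : L) * α) =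
      (y' : L) * (σ α + Lo.t ^ (La.c0 + 1 + (N + La.c0)) * (m σ * σ α)) := by
    intro σ
    have h2 := hmx σ
    rw [Units.val_div_eq_div_val, act_coe, div_eq_iff (Units.ne_zero y')] at h2
    rw [map_mul, h2]
    ring
  have h2 : ∑ σ : L ≃ₐ[k] L, σ ((y' : L) * α) =
      (y' : L) * (τ + Lo.t ^ (La.c0 + 1 + (N + La.c0)) * ∑ σ : L ≃ₐ[k] L, (m σ * σ α)) := by
    rw [Finset.sum_congr rfl (fun σ _ => h1 σ), ← Finset.mul_sum, Finset.sum_add_distrib,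
      ← Finset.mul_sum]
  set s : L := ∑ σ : L ≃ₐ[k] L, (m σ * σ α) with hs
  have hsS : s ∈ Lo.S := Lo.S.sum_mem (fun σ _ => Lo.S.mul_mem (La.le _ (hm σ))
    (Lo.stab σ _ (La.le _ hα)))
  -- `c' / y'`
  have h3 : Lo.t ^ N * τ⁻¹ ∈ Lo.S := hN
  have h4 : Lo.t ^ La.c0 * ((Lo.t ^ N * τ⁻¹) * s) ∈ La.M := La.abs _ (Lo.S.mul_mem h3 hsS)
  obtain ⟨-, hne, -⟩ := La.mul_inv_mem (La.c0 + 1 + 0) (by omega) _ _ h4 h4
  let u2 : Lˣ := Units.mk0 _ hne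
  have hu2 : u2 ∈ La.V 0 := ⟨_, h4, rfl⟩
  have h5 : (Algebra.trace k L ((y' : L) * α) : k) ≠ 0 ∧ (Algebra.trace k L α : k) ≠ 0 := by
    constructor
    · intro h0
      have h6 := trace_eq_sum_automorphisms (K := k) ((y' : L) * α)
      rw [h0, map_zero, h2] at h6
      have h7 : (τ + Lo.t ^ (La.c0 + 1 + (N + La.c0)) * s) = τ * (u2 : L) := by
        change _ = τ * (1 + Lo.t ^ (La.c0 + 1 + 0) * (Lo.t ^ La.c0 * ((Lo.t ^ N * τ⁻¹) * s)))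
        field_simp
        ring
      rw [h7] at h6
      exact mul_ne_zero (Units.ne_zero y') (mul_ne_zero hτ (Units.ne_zero u2)) h6.symm
    · intro h0
      have h6 := trace_eq_sum_automorphisms (K := k) α
      rw [h0, map_zero] at h6
      exact hτ h6.symm
  have h8 : algebraMap k L (Algebra.trace k L ((y' : L) * α) / Algebra.trace k L α) =
      (y' : L) * (u2 : L) := by
    rw [map_div₀, trace_eq_sum_automorphisms, trace_eq_sum_automorphisms, h2]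
    change _ = (y' : L) * (1 + Lo.t ^ (La.c0 + 1 + 0) * (Lo.t ^ La.c0 * ((Lo.t ^ N * τ⁻¹) * s)))
    rw [← hτdef]
    field_simp
    ring
  refine ⟨Units.mk0 _ (div_ne_zero h5.1 h5.2), u2⁻¹ * u, mul_mem (inv_mem hu2) hu, ?_⟩
  apply Units.ext
  rw [Units.val_mul, Units.val_mul, Units.coe_map, Units.val_mk0]
  change (y : L) = algebraMap k L _ * _
  rw [h8, hy', Units.val_div_eq_div_val, Units.val_inv_eq_inv_val]
  have e1 := Units.ne_zero u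
  have e2 := Units.ne_zero u2
  field_simp

end Lattice

end

end Pool.Agent.Lib.MP_869d3b_nt.U
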