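import Mathlib
import Pool.Agent.Lib.MP_869d3b_nt.Loc

/-!
# MP_869d3b_nt : the ramification index is at most `2^c`
-/

set_option autoImplicit false
set_option linter.unusedSectionVars false
set_option linter.dupNamespace false

open Finset

namespace Pool.Agent.Lib.MP_869d3b_nt.U

theorem relIndex_le_of_map {G : Type*} [CommGroup G] (H K : Subgroup G) (n : ℕ) (F : G → Fin n)
    (h : ∀ x ∈ K, ∀ y ∈ K, F x = F y → x / y ∈ H) : H.relIndex K ≤ n ∧ H.relIndex K ≠ 0 := by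
  have hinj : Function.Injective (fun q : K ⧸ H.subgroupOf K => F (q.out : K)) := by
    intro p q hpq
    have h1 := h _ p.out.2 _ q.out.2 hpq
    rw [← Quotient.out_eq p, ← Quotient.out_eq q]
    have h2 : (q.out : K)⁻¹ * p.out ∈ H.subgroupOf K := by
      rw [Subgroup.mem_subgroupOf, Subgroup.coe_mul, Subgroup.coe_inv, mul_comm, ← div_eq_mul_inv]
      exact h1
    exact (QuotientGroup.eq.2 h2).symm
  have hfin : Finite (K ⧸ H.subgroupOf K) := Finite.of_injective _ hinj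
  refine ⟨?_, ?_⟩
  · have := Nat.card_le_card_of_injective _ hinj
    rwa [Nat.card_fin] at this
  · exact Subgroup.index_ne_zero_of_finite

section

variable {k L : Type} [Field k] [Field L] [Algebra k L]

/-- Digits. -/
theorem Loc.digits (Lo : Loc k L) (c : ℕ) : ∃ F : k → Fin (2 ^ c), ∀ r ∈ Lo.R, ∀ s ∈ Lo.R,
    F r = F s → (r - s) / Lo.w ^ c ∈ Lo.R := by
  classical
  induction c with
  | zero =>
    exact ⟨fun _ => 0, fun r hr s hs _ => by simpa using Lo.R.sub_mem hr hs⟩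
  | succ c ih =>
    obtain ⟨F, hF⟩ := ih
    have hw := Lo.w_ne
    refine ⟨fun r => (finProdFinEquiv (if r / Lo.w ∈ Lo.R then (F (r / Lo.w), (0 : Fin 2))
      else (F ((r - 1) / Lo.w), 1))).cast (by rw [pow_succ]), ?_⟩
    intro r hr s hs h
    have h1 := finProdFinEquiv.injective (Fin.cast_injective _ h)
    have e1 : (r - s) / Lo.w ^ (c + 1) = ((r / Lo.w) - (s / Lo.w)) / Lo.w ^ c := by
      rw [pow_succ]
      field_simp
    have e2 : (r - s) / Lo.w ^ (c + 1) = ((r - 1) / Lo.w - (s - 1) / Lo.w) / Lo.w ^ c := by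
      field_simp
      ring
    by_cases h2 : r / Lo.w ∈ Lo.R <;> by_cases h3 : s / Lo.w ∈ Lo.R
    · rw [if_pos h2, if_pos h3] at h1
      rw [e1]
      exact hF _ h2 _ h3 (Prod.ext_iff.1 h1).1
    · rw [if_pos h2, if_neg h3] at h1
      exact absurd (Prod.ext_iff.1 h1).2 (show (0 : Fin 2) ≠ 1 by decide)
    · rw [if_neg h2, if_pos h3] at h1
      exact absurd (Prod.ext_iff.1 h1).2 (show (1 : Fin 2) ≠ 0 by decide)
    · rw [if_neg h2, if_neg h3] at h1
      rw [e2]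
      exact hF _ ((Lo.two r hr).resolve_left h2) _ ((Lo.two s hs).resolve_left h3)
        (Prod.ext_iff.1 h1).1

variable [FiniteDimensional k L] {Lo : Loc k L} {g : L ≃ₐ[k] L} (La : Lat Lo g)

include La

theorem Lat.index_ne_zero : (La.V 0).relIndex Lo.U ≠ 0 := by
  obtain ⟨n, F, hF⟩ := La.fin (3 * La.c0 + 1)
  refine (relIndex_le_of_map _ _ n (fun x : Lˣ => F (Lo.t ^ La.c0 * (x : L))) ?_).2
  intro x hx y hy h
  obtain ⟨m, hm, hxy⟩ := hF _ (La.abs _ hx.1) _ (La.abs _ hy.1) h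
  refine ⟨Lo.t ^ La.c0 * (m * ((y⁻¹ : Lˣ) : L)), La.abs _ (Lo.S.mul_mem (La.le _ hm) hy.2), ?_⟩
  have h1 : (x : L) - y = Lo.t ^ (2 * La.c0 + 1) * m := by
    have h2 : Lo.t ^ La.c0 * ((x : L) - y - Lo.t ^ (2 * La.c0 + 1) * m) = 0 := by
      have h3 : Lo.t ^ (3 * La.c0 + 1) = Lo.t ^ La.c0 * Lo.t ^ (2 * La.c0 + 1) := by ring
      rw [h3] at hxy
      linear_combination hxy
    rcases mul_eq_zero.1 h2 with h | h
    · exact absurd h (pow_ne_zero _ Lo.t_ne)
    · exact sub_eq_zero.1 h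
  rw [Units.val_div_eq_div_val, Units.val_inv_eq_inv_val]
  have h4 := Units.ne_zero y
  have h5 : (x : L) = y + Lo.t ^ (2 * La.c0 + 1) * m := by rw [← h1]; ring
  rw [h5]
  field_simp
  ring

/-- The main inequality. -/
theorem Lat.main (hg : ∀ x : L ≃ₐ[k] L, x ∈ Subgroup.zpowers g) [IsGalois k L]
    (P : Lˣ) (e : ℕ) (hP : dMap g P ∈ Lo.U)
    (he : ∀ (j : ℕ) (c : kˣ) (u : Lˣ), u ∈ Lo.U →
      P ^ j = Units.map (algebraMap k L : k →* L) c * u → e ∣ j)
    (ε : kˣ) (hε1 : (ε : k) ∈ Lo.R) (hε2 : ((ε⁻¹ : kˣ) : k) ∈ Lo.R)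
    (hn : ∃ η ∈ Lo.U, nMap k L η = Units.map (algebraMap k L : k →* L) ε)
    (c : ℕ) (hc : ((ε : k) ^ 2 - 1) / Lo.w ^ (c + 1) ∉ Lo.R) : e ≤ 2 ^ c := by
  classical
  set V := La.V 0 with hV
  set A := Lo.U with hA
  have hfin : V.relIndex A ≠ 0 := La.index_ne_zero
  have hVA : V ≤ A := La.V_le_U 0
  have hDA : A.map (dMap g) ≤ A := by
    rintro _ ⟨x, hx, rfl⟩
    exact Subgroup.div_mem _ (Lo.act_U g hx) hx
  have hNA : A.map (nMap k L) ≤ A := by
    rintro _ ⟨x, hx, rfl⟩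
    rw [nMap_apply]
    exact Subgroup.prod_mem _ (fun σ _ => Lo.act_U σ hx)
  have hDV : V.map (dMap g) ≤ V := by
    rintro _ ⟨x, hx, rfl⟩
    exact Subgroup.div_mem _ (La.act_V 0 g hx) hx
  have hNV : V.map (nMap k L) ≤ V := by
    rintro _ ⟨x, hx, rfl⟩
    rw [nMap_apply]
    exact Subgroup.prod_mem _ (fun σ _ => La.act_V 0 σ hx)
  have hH := herbrand_finite (dMap g) (nMap k L) A V hVA hfin hDA hNA hDV hNV
    (fun x _ => by rw [dMap_nMap]; exact one_mem _) (fun x _ => by rw [nMap_dMap]; exact one_mem _)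
  -- lower bound
  have hlow : e ≤ (A.map (dMap g) ⊔ V).relIndex (V.comap (nMap k L) ⊓ A) := by
    have hne : (A.map (dMap g) ⊔ V).relIndex (V.comap (nMap k L) ⊓ A) ≠ 0 := by
      intro h0
      have h1 : (A.map (dMap g) ⊔ V).relIndex A = 0 :=
        Subgroup.relIndex_eq_zero_of_le_right inf_le_right h0
      exact hfin (Subgroup.relIndex_eq_zero_of_le_left le_sup_right h1)
    have hmem : dMap g P ∈ V.comap (nMap k L) ⊓ A := by
      refine ⟨?_, hP⟩
      change nMap k L (dMap g P) ∈ V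
      rw [nMap_dMap]
      exact one_mem _
    obtain ⟨j, hj0, hj1, hj⟩ := Subgroup.exists_pow_mem_of_relIndex_ne_zero hne hmem
    have hj := (Subgroup.mem_inf.1 hj).1
    obtain ⟨_, ⟨x, hx, rfl⟩, v, hv, hxv⟩ := Subgroup.mem_sup.1 hj
    have h2 : dMap g (P ^ j / x) ∈ V := by
      rw [map_div, map_pow, ← hxv, mul_div_cancel_left]
      exact hv
    obtain ⟨b, u, hu, hbu⟩ := La.star hg _ h2
    have h3 : P ^ j = Units.map (algebraMap k L : k →* L) b * (u * x) := by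
      rw [← mul_assoc, ← hbu, div_mul_cancel]
    have h4 := he j b (u * x) (mul_mem (hVA hu) hx) h3
    exact (Nat.le_of_dvd hj0 h4).trans hj1
  rw [← hH] at hlow
  refine hlow.trans ?_
  -- upper bound
  set H := A.map (nMap k L) ⊔ V with hHdef
  have hHA : H ≤ A := sup_le hNA hVA
  set φ : kˣ →* Lˣ := Units.map (algebraMap k L : k →* L) with hφ
  have hφA : ∀ r : kˣ, φ r ∈ A ↔ (r : k) ∈ Lo.R ∧ ((r⁻¹ : kˣ) : k) ∈ Lo.R := by
    intro r
    rw [hA, Loc.mem_U, ← map_inv]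
    exact and_congr (Lo.comap _) (Lo.comap _)
  have hεH : φ ε ∈ H := by
    obtain ⟨η, hη, h⟩ := hn
    rw [← h]
    exact Subgroup.mem_sup_left ⟨η, hη, rfl⟩
  have hw := Lo.w_ne
  have hunit : ∀ u : k, u⁻¹ ∈ Lo.R → u ≠ 0 → u / Lo.w ∉ Lo.R := by
    intro u hu hu0 h
    apply Lo.w_inv
    have := Lo.R.mul_mem h hu
    have e1 : u / Lo.w * u⁻¹ = Lo.w⁻¹ := by field_simp
    rwa [e1] at this
  -- the exponent of `ε² - 1`
  obtain ⟨c', hc'2, hc'c, u0, hu0, hu0i, hu0e⟩ : ∃ c' : ℕ, 2 ≤ c' ∧ c' ≤ c ∧ ∃ u : k, u ∈ Lo.R ∧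
      (u⁻¹ ∈ Lo.R ∧ u ≠ 0) ∧ (ε : k) ^ 2 - 1 = Lo.w ^ c' * u := by
    have h0 : (ε : k) ^ 2 - 1 ≠ 0 := by
      intro h
      rw [h, zero_div] at hc
      exact hc Lo.R.zero_mem
    obtain ⟨j, u, hu, hui, hju⟩ := Lo.repr _ h0
    have hu0 : u ≠ 0 := by
      rintro rfl
      rw [mul_zero] at hju
      exact h0 hju
    have hx : ((ε : k) - 1) / Lo.w ∈ Lo.R := by
      rcases Lo.two _ hε1 with h | h
      · exfalso
        rw [Units.val_inv_eq_inv_val] at hε2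
        exact hunit _ hε2 (Units.ne_zero ε) h
      · exact h
    obtain ⟨u2, hu2, hu2i, hu20, h2⟩ := Lo.two_w
    have h3 : ((ε : k) ^ 2 - 1) / Lo.w ^ 2 ∈ Lo.R := by
      have e1 : ((ε : k) ^ 2 - 1) / Lo.w ^ 2 =
          (((ε : k) - 1) / Lo.w) * ((((ε : k) - 1) / Lo.w) + u2) := by
        have e2 : u2 = 2 / Lo.w := by rw [h2]; field_simp
        rw [e2]
        field_simp
        ring
      rw [e1]
      exact Lo.R.mul_mem hx (Lo.R.add_mem hx hu2)
    have hj2 : 2 ≤ j := by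
      by_contra hlt
      push Not at hlt
      apply Lo.w_inv
      obtain ⟨i, hi⟩ := Int.eq_ofNat_of_zero_le (show 0 ≤ 1 - j by omega)
      have e1 : Lo.w⁻¹ = (((ε : k) ^ 2 - 1) / Lo.w ^ 2) * u⁻¹ * Lo.w ^ i := by
        rw [hju]
        have e2 : Lo.w ^ i = Lo.w ^ (1 - j) := by rw [hi, zpow_natCast]
        rw [e2, zpow_sub₀ hw]
        field_simp
      rw [e1]
      exact Lo.R.mul_mem (Lo.R.mul_mem h3 hui) (Lo.R.pow_mem Lo.w_mem _)
    have hjc : j ≤ c := by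
      by_contra hlt
      push Not at hlt
      apply hc
      obtain ⟨i, hi⟩ := Int.eq_ofNat_of_zero_le (show 0 ≤ j - (c + 1) by omega)
      have e1 : ((ε : k) ^ 2 - 1) / Lo.w ^ (c + 1) = Lo.w ^ i * u := by
        rw [hju]
        have e2 : Lo.w ^ i = Lo.w ^ (j - (c + 1)) := by rw [hi, zpow_natCast]
        rw [e2, zpow_sub₀ hw]
        have e3 : Lo.w ^ ((c : ℤ) + 1) = Lo.w ^ (c + 1) := by
          rw [← zpow_natCast]; norm_cast
        rw [e3]
        field_simp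
      rw [e1]
      exact Lo.R.mul_mem (Lo.R.pow_mem Lo.w_mem _) hu
    obtain ⟨c', hc'⟩ := Int.eq_ofNat_of_zero_le (show 0 ≤ j by omega)
    refine ⟨c', by omega, by omega, u, hu, ⟨hui, hu0⟩, ?_⟩
    rw [hju, hc', zpow_natCast]
  -- (A) top
  have hTop : ∀ r : kˣ, ((r : k) - 1) / Lo.w ^ (2 * La.c0 + 1) ∈ Lo.R → φ r ∈ H := by
    intro r hr
    apply Subgroup.mem_sup_right
    refine ⟨Lo.t ^ La.c0 * algebraMap k L (((r : k) - 1) / Lo.w ^ (2 * La.c0 + 1)),
      La.abs _ ((Lo.comap _).2 hr), ?_⟩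
    rw [map_div₀, map_pow]
    change algebraMap k L (r : k) = 1 + Lo.t ^ (La.c0 + 1 + 0) *
      (Lo.t ^ La.c0 * (algebraMap k L ((r : k) - 1) / Lo.t ^ (2 * La.c0 + 1)))
    have := Lo.t_ne
    rw [map_sub, map_one]
    field_simp
    ring
  -- (B) powers of `ε`
  have hPow : ∀ i : ℕ, ∃ η : kˣ, φ η ∈ H ∧ ∃ u : k, u ∈ Lo.R ∧ (u⁻¹ ∈ Lo.R ∧ u ≠ 0) ∧
      (η : k) - 1 = Lo.w ^ (c' + i) * u := by
    intro i
    induction i with
    | zero =>
      refine ⟨ε ^ 2, ?_, u0, hu0, hu0i, ?_⟩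
      · rw [map_pow]; exact pow_mem hεH 2
      · rw [Units.val_pow_eq_pow_val, hu0e, add_zero]
    | succ i ih =>
      obtain ⟨η, hη, u, hu, ⟨hui, hune⟩, h⟩ := ih
      obtain ⟨u2, hu2, hu2i, hu20, h2⟩ := Lo.two_w
      -- `η² - 1 = w^(c'+i+1) (u₂ u + w^(c'+i-1) u²)`
      obtain ⟨d, hd⟩ : ∃ d, c' + i = d + 2 := ⟨c' + i - 2, by omega⟩
      -- `1 / (1 + w s) ∈ R`
      have hinv : ∀ s ∈ Lo.R, (1 + Lo.w * s)⁻¹ ∈ Lo.R ∧ 1 + Lo.w * s ≠ 0 := by
        intro s hs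
        have h1 := Lo.unit _ ((Lo.comap s).2 hs)
        have h2 : 1 + algebraMap k L Lo.w * algebraMap k L s = algebraMap k L (1 + Lo.w * s) := by
          simp
        rw [h2, ← map_inv₀] at h1
        refine ⟨(Lo.comap _).1 h1.1, ?_⟩
        intro h0
        rw [h0, map_zero] at h1
        exact h1.2 rfl
      have hq := hinv (Lo.w ^ d * u * u2⁻¹)
        (Lo.R.mul_mem (Lo.R.mul_mem (Lo.R.pow_mem Lo.w_mem _) hu) hu2i)
      have e1 : u2 * u + Lo.w ^ (d + 1) * u ^ 2 = u2 * u * (1 + Lo.w * (Lo.w ^ d * u * u2⁻¹)) := by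
        field_simp
        ring
      refine ⟨η ^ 2, by rw [map_pow]; exact pow_mem hη 2, u2 * u + Lo.w ^ (d + 1) * u ^ 2,
        ?_, ⟨?_, ?_⟩, ?_⟩
      · exact Lo.R.add_mem (Lo.R.mul_mem hu2 hu) (Lo.R.mul_mem (Lo.R.pow_mem Lo.w_mem _)
          (Lo.R.pow_mem hu 2))
      · rw [e1, mul_inv, mul_inv]
        exact Lo.R.mul_mem (Lo.R.mul_mem hu2i hui) hq.1
      · rw [e1]
        exact mul_ne_zero (mul_ne_zero hu20 hune) hq.2
      · have h3 : (η : k) = 1 + Lo.w ^ (d + 2) * u := by rw [← hd, ← h]; ring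
        rw [Units.val_pow_eq_pow_val, h3, ← add_assoc, hd]
        linear_combination (Lo.w ^ (d + 2) * u) * h2
  -- (C) descending induction
  set J := max (2 * La.c0 + 1) c' with hJ
  have hpowdiv : ∀ (r : k) (i j : ℕ), i ≤ j → r / Lo.w ^ j ∈ Lo.R → r / Lo.w ^ i ∈ Lo.R := by
    intro r i j hij h
    obtain ⟨d, rfl⟩ := Nat.exists_eq_add_of_le hij
    have e1 : r / Lo.w ^ i = (r / Lo.w ^ (i + d)) * Lo.w ^ d := by
      rw [pow_add]
      field_simp
    rw [e1]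
    exact Lo.R.mul_mem h (Lo.R.pow_mem Lo.w_mem _)
  have hdesc : ∀ n j : ℕ, c' ≤ j → j + n = J → ∀ r : kˣ, ((r : k) - 1) / Lo.w ^ j ∈ Lo.R →
      φ r ∈ H := by
    intro n
    induction n with
    | zero =>
      intro j _ hj r hr
      apply hTop
      apply hpowdiv _ _ j _ hr
      omega
    | succ n ih =>
      intro j hj hjn r hr
      rcases Lo.two _ hr with h | h
      · apply ih (j + 1) (by omega) (by omega) r
        have e1 : ((r : k) - 1) / Lo.w ^ (j + 1) = ((r : k) - 1) / Lo.w ^ j / Lo.w := by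
          rw [pow_succ]
          field_simp
        rw [e1]
        exact h
      · obtain ⟨i, rfl⟩ := Nat.exists_eq_add_of_le hj
        obtain ⟨η, hη, u, hu, ⟨hui, hune⟩, hηu⟩ := hPow i
        have hu1 : (u - 1) / Lo.w ∈ Lo.R := (Lo.two u hu).resolve_left (hunit u hui hune)
        have hηA := (hφA η).1 (hHA hη)
        have h1 : φ (r / η) ∈ H := by
          apply ih (c' + i + 1) (by omega) (by omega)
          have e1 : (((r / η : kˣ) : k) - 1) / Lo.w ^ (c' + i + 1) =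
              ((((r : k) - 1) / Lo.w ^ (c' + i) - 1) / Lo.w - (u - 1) / Lo.w) *
                ((η⁻¹ : kˣ) : k) := by
            rw [Units.val_div_eq_div_val, Units.val_inv_eq_inv_val]
            have h2 : u = ((η : k) - 1) / Lo.w ^ (c' + i) := by rw [hηu]; field_simp
            rw [h2]
            have h3 := Units.ne_zero η
            rw [pow_succ]
            field_simp
            ring
          rw [e1]
          exact Lo.R.mul_mem (Lo.R.sub_mem h hu1) hηA.2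
        have h2 : r = (r / η) * η := by rw [div_mul_cancel]
        rw [h2, map_mul]
        exact mul_mem h1 hη
  have hcong : ∀ r : kˣ, ((r : k) - 1) / Lo.w ^ c ∈ Lo.R → φ r ∈ H := by
    intro r hr
    exact hdesc (J - c') c' le_rfl (by omega) r (hpowdiv _ _ _ hc'c hr)
  -- the count
  obtain ⟨F, hF⟩ := Lo.digits c
  have hex : ∀ y : Lˣ, ∃ b : kˣ, y ∈ V.comap (dMap g) ⊓ A → ∃ u ∈ V, y = φ b * u := by
    intro y
    by_cases hy : y ∈ V.comap (dMap g) ⊓ A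
    · obtain ⟨b, u, hu, h⟩ := La.star hg y (Subgroup.mem_inf.1 hy).1
      exact ⟨b, fun _ => ⟨u, hu, h⟩⟩
    · exact ⟨1, fun h => absurd h hy⟩
  choose b hb using hex
  refine (relIndex_le_of_map H (V.comap (dMap g) ⊓ A) (2 ^ c) (fun y => F (b y : k)) ?_).1
  intro x hx y hy hxy
  obtain ⟨u, hu, hxu⟩ := hb x hx
  obtain ⟨u', hu', hyu⟩ := hb y hy
  have hbA : ∀ (z : Lˣ) (u : Lˣ), z ∈ A → u ∈ V → z = φ (b z) * u → φ (b z) ∈ A := by
    intro z u hz hu h
    have : φ (b z) = z / u := eq_div_iff_mul_eq'.2 h.symm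
    rw [this]
    exact div_mem hz (hVA hu)
  have hbx := (hφA _).1 (hbA x u (Subgroup.mem_inf.1 hx).2 hu hxu)
  have hby := (hφA _).1 (hbA y u' (Subgroup.mem_inf.1 hy).2 hu' hyu)
  have h1 := hF _ hbx.1 _ hby.1 hxy
  have h2 : φ (b x / b y) ∈ H := by
    apply hcong
    have e1 : (((b x / b y : kˣ) : k) - 1) / Lo.w ^ c =
        (((b x : kˣ) : k) - ((b y : kˣ) : k)) / Lo.w ^ c * (((b y)⁻¹ : kˣ) : k) := by
      rw [Units.val_div_eq_div_val, Units.val_inv_eq_inv_val]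
      have := Units.ne_zero (b y)
      field_simp
    rw [e1]
    exact Lo.R.mul_mem h1 hby.2
  have h3 : x / y = φ (b x / b y) * (u / u') := by
    conv_lhs => rw [hxu, hyu]
    rw [map_div, mul_div_mul_comm]
  rw [h3]
  exact mul_mem h2 (Subgroup.mem_sup_right (div_mem hu hu'))

end

end Pool.Agent.Lib.MP_869d3b_nt.U
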