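import Mathlib
import Pool.Agent.Lib.MP_869d3b_nt.Count

/-!
# MP_869d3b_nt : existence of a stable lattice with a normal basis
-/

set_option autoImplicit false
set_option linter.unusedSectionVars false
set_option linter.dupNamespace false

open Finset

namespace Pool.Agent.Lib.MP_869d3b_nt.U

section

variable {k L : Type} [Field k] [Field L] [Algebra k L]

theorem exists_lat [FiniteDimensional k L] [IsGalois k L] (Lo : Loc k L) (g : L ≃ₐ[k] L)
    (hg : ∀ x : L ≃ₐ[k] L, x ∈ Subgroup.zpowers g) : Nonempty (Lat Lo g) := by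
  classical
  let b₀ := IsGalois.normalBasis k L
  obtain ⟨N, hN⟩ := Lo.absorb (b₀ 1)
  have hwN : Lo.w ^ N ≠ 0 := pow_ne_zero _ Lo.w_ne
  let b : Module.Basis (L ≃ₐ[k] L) k L := b₀.unitsSMul (fun _ => Units.mk0 _ hwN)
  have hbb : ∀ σ, b σ = Lo.t ^ N * b₀ σ := by
    intro σ
    change (b₀.unitsSMul (fun _ => Units.mk0 _ hwN)) σ = _
    rw [Module.Basis.unitsSMul_apply, Units.smul_def, Units.val_mk0, Algebra.smul_def, map_pow]
    rfl
  have hb : ∀ σ : L ≃ₐ[k] L, b σ = σ (b 1) := by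
    intro σ
    rw [hbb, hbb, map_mul, map_pow, Lo.act_t]
    congr 1
    exact IsGalois.normalBasis_apply σ
  have hα : b 1 ∈ Lo.S := by
    rw [hbb]
    exact hN
  have hbS : ∀ σ, b σ ∈ Lo.S := by
    intro σ
    rw [hb]
    exact Lo.stab σ _ hα
  have hact : ∀ (τ σ : L ≃ₐ[k] L) (x : L), b.repr (τ x) σ = b.repr x (τ⁻¹ * σ) := by
    intro τ σ x
    have h1 : (b.coord σ).comp τ.toLinearMap = b.coord (τ⁻¹ * σ) := by
      apply b.ext
      intro ρ
      rw [LinearMap.comp_apply, Module.Basis.coord_apply, Module.Basis.coord_apply]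
      have h2 : τ.toLinearMap (b ρ) = b (τ * ρ) := by
        rw [hb ρ, hb (τ * ρ)]
        rfl
      rw [h2, Module.Basis.repr_self, Module.Basis.repr_self]
      by_cases h : τ * ρ = σ
      · have h3 : ρ = τ⁻¹ * σ := by rw [← h]; simp
        rw [h, h3]
        simp
      · have h3 : ρ ≠ τ⁻¹ * σ := by
          rintro rfl
          exact h (by simp)
        rw [Finsupp.single_eq_of_ne (Ne.symm h), Finsupp.single_eq_of_ne (Ne.symm h3)]
    have h2 := LinearMap.congr_fun h1 x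
    exact h2
  have hmul : ∀ (r : k) (x : L) (σ : L ≃ₐ[k] L), b.repr (algebraMap k L r * x) σ =
      r * b.repr x σ := by
    intro r x σ
    rw [← Algebra.smul_def]
    simp
  have htj : ∀ (j : ℕ) (x : L) (σ : L ≃ₐ[k] L), b.repr (Lo.t ^ j * x) σ =
      Lo.w ^ j * b.repr x σ := by
    intro j x σ
    have : Lo.t ^ j = algebraMap k L (Lo.w ^ j) := by rw [map_pow]; rfl
    rw [this]
    exact hmul _ _ _
  let M : AddSubgroup L :=
    { carrier := {x | ∀ σ, b.repr x σ ∈ Lo.R}
      add_mem' := by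
        intro x y hx hy σ
        rw [map_add, Finsupp.add_apply]
        exact Lo.R.add_mem (hx σ) (hy σ)
      zero_mem' := by
        intro σ
        simp
      neg_mem' := by
        intro x hx σ
        rw [map_neg, Finsupp.neg_apply]
        exact Lo.R.neg_mem (hx σ) }
  have hM : ∀ x, x ∈ M ↔ ∀ σ, b.repr x σ ∈ Lo.R := fun x => Iff.rfl
  have hMact : ∀ (σ : L ≃ₐ[k] L), ∀ m ∈ M, σ m ∈ M := by
    intro τ m hm σ
    rw [hact]
    exact hm _
  have hMsmul : ∀ r ∈ Lo.R, ∀ m ∈ M, algebraMap k L r * m ∈ M := by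
    intro r hr m hm σ
    rw [hmul]
    exact Lo.R.mul_mem hr (hm σ)
  have hb1 : b 1 ∈ M := by
    intro σ
    rw [Module.Basis.repr_self]
    by_cases h : σ = 1
    · rw [h, Finsupp.single_eq_same]
      exact Lo.R.one_mem
    · rw [Finsupp.single_eq_of_ne h]
      exact Lo.R.zero_mem
  have hsum : ∀ x : L, x = ∑ σ, algebraMap k L (b.repr x σ) * σ (b 1) := by
    intro x
    conv_lhs => rw [← b.sum_repr x]
    apply Finset.sum_congr rfl
    intro σ _
    rw [Algebra.smul_def, hb σ]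
  have hle : ∀ m ∈ M, m ∈ Lo.S := by
    intro m hm
    rw [hsum m]
    apply Lo.S.sum_mem
    intro σ _
    exact Lo.S.mul_mem ((Lo.comap _).2 (hm σ)) (Lo.stab σ _ hα)
  -- bounded coordinates
  have hbd : ∀ σ : L ≃ₐ[k] L, ∃ c : ℕ, ∀ s ∈ Lo.S, Lo.w ^ c * b.repr s σ ∈ Lo.R := by
    intro σ
    let y : L := ((Algebra.traceForm k L).toDual (traceForm_nondegenerate k L)).symm (b.coord σ)
    have hy : ∀ x : L, Algebra.trace k L (y * x) = b.repr x σ := by
      intro x
      have h1 := LinearMap.BilinForm.toDual_def (B := Algebra.traceForm k L)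
        (traceForm_nondegenerate k L) (m := y) (n := x)
      rw [Algebra.traceForm_apply] at h1
      rw [← h1]
      have h2 : ((Algebra.traceForm k L).toDual (traceForm_nondegenerate k L)) y = b.coord σ :=
        LinearEquiv.apply_symm_apply _ _
      rw [h2]
      rfl
    obtain ⟨c, hc⟩ := Lo.absorb y
    refine ⟨c, fun s hs => ?_⟩
    rw [← Lo.comap, map_mul, ← hy, trace_eq_sum_automorphisms, map_pow, Finset.mul_sum]
    apply Lo.S.sum_mem
    intro τ _
    have h1 : algebraMap k L Lo.w ^ c * τ (y * s) = τ ((algebraMap k L Lo.w ^ c * y) * s) := by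
      rw [mul_assoc, map_mul τ (algebraMap k L Lo.w ^ c), map_pow, AlgEquiv.commutes]
    rw [h1]
    exact Lo.stab τ _ (Lo.S.mul_mem hc hs)
  choose cc hcc using hbd
  let c0 : ℕ := ∑ σ, cc σ
  have hc0 : ∀ σ, cc σ ≤ c0 := fun σ =>
    Finset.single_le_sum (f := cc) (fun _ _ => Nat.zero_le _) (mem_univ σ)
  have habs : ∀ s ∈ Lo.S, Lo.t ^ c0 * s ∈ M := by
    intro s hs σ
    rw [htj]
    obtain ⟨i, hi⟩ := Nat.exists_eq_add_of_le (hc0 σ)
    rw [hi, pow_add]
    have h1 : Lo.w ^ cc σ * Lo.w ^ i * b.repr s σ = Lo.w ^ i * (Lo.w ^ cc σ * b.repr s σ) := by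
      ring
    rw [h1]
    exact Lo.R.mul_mem (Lo.R.pow_mem Lo.w_mem _) (hcc σ s hs)
  -- augmentation
  have haug1 : ∀ (σ : L ≃ₐ[k] L), ∀ x ∈ M, ∃ m' ∈ M, σ x - x = g m' - m' := by
    let T : Subgroup (L ≃ₐ[k] L) :=
      { carrier := {σ | ∀ x ∈ M, ∃ m' ∈ M, σ x - x = g m' - m'}
        mul_mem' := by
          intro σ τ hσ hτ x hx
          obtain ⟨m1, hm1, h1⟩ := hσ (τ x) (hMact τ x hx)
          obtain ⟨m2, hm2, h2⟩ := hτ x hx
          refine ⟨m1 + m2, M.add_mem hm1 hm2, ?_⟩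
          rw [AlgEquiv.mul_apply, map_add]
          linear_combination h1 + h2
        one_mem' := by
          intro x hx
          exact ⟨0, M.zero_mem, by simp⟩
        inv_mem' := by
          intro σ hσ x hx
          obtain ⟨m1, hm1, h1⟩ := hσ (σ⁻¹ x) (hMact _ x hx)
          refine ⟨-m1, M.neg_mem hm1, ?_⟩
          have h2 : σ (σ⁻¹ x) = x := by
            rw [← AlgEquiv.mul_apply, mul_inv_cancel, AlgEquiv.one_apply]
          rw [h2] at h1
          rw [map_neg]
          linear_combination -h1 }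
    have hT : Subgroup.zpowers g ≤ T := by
      rw [Subgroup.zpowers_le]
      intro x hx
      exact ⟨x, hx, rfl⟩
    intro σ
    exact hT (hg σ)
  have haug : ∀ m ∈ M, (∃ m1 ∈ M, ∑ σ : L ≃ₐ[k] L, σ m = Lo.t * m1) →
      ∃ m' ∈ M, ∃ m'' ∈ M, m = g m' - m' + Lo.t * m'' := by
    rintro m hm ⟨m1, hm1, hm1e⟩
    have hq : ∑ σ : L ≃ₐ[k] L, b.repr m σ = Lo.w * b.repr m1 1 := by
      have h1 := congrArg (fun x => b.repr x 1) hm1e
      have h2 : b.repr (Lo.t * m1) 1 = Lo.w * b.repr m1 1 := by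
        have := htj 1 m1 1
        rwa [pow_one, pow_one] at this
      rw [h2, map_sum, Finsupp.finsetSum_apply] at h1
      rw [← h1]
      apply Fintype.sum_equiv (Equiv.inv _)
      intro σ
      rw [hact]
      simp
    choose m' hm' hmm' using fun σ : L ≃ₐ[k] L => haug1 σ (algebraMap k L (b.repr m σ) * b 1)
      (hMsmul _ (hm σ) _ hb1)
    refine ⟨∑ σ, m' σ, M.sum_mem (fun σ _ => hm' σ), algebraMap k L (b.repr m1 1) * b 1,
      hMsmul _ (hm1 1) _ hb1, ?_⟩
    have h3 : g (∑ σ, m' σ) - ∑ σ, m' σ = ∑ σ : L ≃ₐ[k] L,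
        (algebraMap k L (b.repr m σ) * σ (b 1) - algebraMap k L (b.repr m σ) * b 1) := by
      rw [map_sum, ← Finset.sum_sub_distrib]
      apply Finset.sum_congr rfl
      intro σ _
      rw [← hmm' σ, map_mul, AlgEquiv.commutes]
    rw [h3, Finset.sum_sub_distrib, ← hsum m, ← Finset.sum_mul, ← map_sum, hq, map_mul]
    change m = m - Lo.t * algebraMap k L (b.repr m1 1) * b 1 + _
    ring
  refine ⟨{ M := M, le := hle, act := hMact, smul := hMsmul, c0 := c0, abs := habs, aug := haug,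
            tr := ?_, fin := ?_ }⟩
  · refine ⟨b 1, hb1, ?_⟩
    intro h
    have h1 := congrArg (fun x => b.repr x 1) h
    simp only [map_sum, Finsupp.finsetSum_apply, map_zero, Finsupp.zero_apply] at h1
    rw [Finset.sum_eq_single 1] at h1
    · rw [AlgEquiv.one_apply, Module.Basis.repr_self, Finsupp.single_eq_same] at h1
      exact one_ne_zero h1
    · intro σ _ hσ
      rw [← hb, Module.Basis.repr_self, Finsupp.single_eq_of_ne (Ne.symm hσ)]
    · intro h
      exact absurd (mem_univ _) h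
  · intro j
    obtain ⟨F, hF⟩ := Lo.digits j
    let e := Fintype.equivFin ((L ≃ₐ[k] L) → Fin (2 ^ j))
    refine ⟨_, fun x => e (fun σ => F (b.repr x σ)), ?_⟩
    intro x hx y hy hxy
    have h1 := e.injective hxy
    have hwj : Lo.w ^ j ≠ 0 := pow_ne_zero _ Lo.w_ne
    refine ⟨algebraMap k L (Lo.w ^ j)⁻¹ * (x - y), ?_, ?_⟩
    · intro σ
      rw [hmul, map_sub, Finsupp.sub_apply]
      have h2 := hF _ (hx σ) _ (hy σ) (congrFun h1 σ)
      have h3 : (Lo.w ^ j)⁻¹ * (b.repr x σ - b.repr y σ) =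
          (b.repr x σ - b.repr y σ) / Lo.w ^ j := by
        rw [div_eq_inv_mul]
      rw [h3]
      exact h2
    · have h4 : Lo.t ^ j = algebraMap k L (Lo.w ^ j) := by rw [map_pow]; rfl
      rw [h4, ← mul_assoc, ← map_mul, mul_inv_cancel₀ hwj, map_one, one_mul]

end

end Pool.Agent.Lib.MP_869d3b_nt.U
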