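import Mathlib
import Pool.Agent.Lib.MP_869d3b_nt.Lattice
import Pool.Agent.Lib.MP_869d3b_nt.U2.C1
import Pool.Agent.Lib.MP_869d3b_nt.U2.C5

/-!
# MP_869d3b_nt : (U3), (U4), the ramification index of a prime of degree one is bounded if a unit
is a norm of a unit
-/

set_option autoImplicit false
set_option linter.unusedSectionVars false
set_option linter.dupNamespace false

open Finset NumberField IsDedekindDomain WithZero

open scoped Pointwise

namespace Pool.Agent.Lib.MP_869d3b_nt.U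

section

variable {k L : Type} [Field k] [NumberField k] [Field L] [NumberField L] [Algebra k L]

theorem cmul (a b : 𝓞 L) : ((a * b : 𝓞 L) : L) = (a : L) * (b : L) :=
  map_mul (algebraMap (𝓞 L) L) a b

theorem cadd (a b : 𝓞 L) : ((a + b : 𝓞 L) : L) = (a : L) + (b : L) :=
  map_add (algebraMap (𝓞 L) L) a b

theorem cneg (a : 𝓞 L) : ((-a : 𝓞 L) : L) = -(a : L) :=
  map_neg (algebraMap (𝓞 L) L) a

theorem coe_algebraMap_int (z : 𝓞 k) :
    ((algebraMap (𝓞 k) (𝓞 L) z : 𝓞 L) : L) = algebraMap k L (z : k) := rfl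

/-- An ideal of `𝓞 L` which is prime to `v` contains an element of `𝓞 k` outside `v`. -/
theorem exists_mem_notMem (v : HeightOneSpectrum (𝓞 k)) (I : Ideal (𝓞 L))
    (h : ∀ Q : Ideal (𝓞 L), Q.IsPrime → Q.comap (algebraMap (𝓞 k) (𝓞 L)) = v.asIdeal → ¬ I ≤ Q) :
    ∃ s : 𝓞 k, s ∉ v.asIdeal ∧ algebraMap (𝓞 k) (𝓞 L) s ∈ I := by
  by_contra hcon
  push Not at hcon
  have hle : I.comap (algebraMap (𝓞 k) (𝓞 L)) ≤ v.asIdeal := by
    intro s hs
    by_contra hsv
    exact hcon s hsv hs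
  have := v.isPrime
  obtain ⟨Q, hQI, hQ, hQv⟩ := Ideal.exists_ideal_over_prime_of_isIntegral v.asIdeal I hle
  exact h Q hQ hQv hQI

/-- The localisation of `𝓞 L` at `v`. -/
def locS (L : Type) [Field L] [NumberField L] [Algebra k L] (v : HeightOneSpectrum (𝓞 k)) :
    Subring L where
  carrier := {x | ∃ s : 𝓞 k, s ∉ v.asIdeal ∧ ∃ a : 𝓞 L,
    algebraMap k L (s : k) * x = (a : L)}
  mul_mem' := by
    rintro x y ⟨s, hs, a, ha⟩ ⟨t, ht, b, hb⟩
    refine ⟨s * t, fun h => ?_, a * b, ?_⟩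
    · rcases v.isPrime.mem_or_mem h with h | h
      · exact hs h
      · exact ht h
    · rw [cmul, cmul, ← ha, ← hb, map_mul]
      ring
  one_mem' := ⟨1, fun h => v.isPrime.ne_top ((Ideal.eq_top_iff_one _).2 h), 1, by simp⟩
  add_mem' := by
    rintro x y ⟨s, hs, a, ha⟩ ⟨t, ht, b, hb⟩
    refine ⟨s * t, fun h => ?_, algebraMap (𝓞 k) (𝓞 L) t * a + algebraMap (𝓞 k) (𝓞 L) s * b, ?_⟩
    · rcases v.isPrime.mem_or_mem h with h | h
      · exact hs h
      · exact ht h
    · rw [cmul, cadd, cmul, cmul, ← ha, ← hb, map_mul, coe_algebraMap_int, coe_algebraMap_int]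
      ring
  zero_mem' := ⟨1, fun h => v.isPrime.ne_top ((Ideal.eq_top_iff_one _).2 h), 0, by simp⟩
  neg_mem' := by
    rintro x ⟨s, hs, a, ha⟩
    refine ⟨s, hs, -a, ?_⟩
    rw [cneg, ← ha]
    ring

theorem mem_locS (v : HeightOneSpectrum (𝓞 k)) (x : L) :
    x ∈ locS L v ↔ ∃ s : 𝓞 k, s ∉ v.asIdeal ∧ ∃ a : 𝓞 L,
      algebraMap k L (s : k) * x = (a : L) := Iff.rfl

theorem int_mem_locS (v : HeightOneSpectrum (𝓞 k)) (a : 𝓞 L) : (a : L) ∈ locS L v :=
  ⟨1, fun h => v.isPrime.ne_top ((Ideal.eq_top_iff_one _).2 h), a, by simp⟩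

theorem lt_one_iff' {x : ℤᵐ⁰} : x < 1 ↔ x ≤ exp (-1 : ℤ) := by
  have h : (1 : ℤᵐ⁰) = exp (-1 : ℤ) * exp 1 := by
    rw [← exp_add]
    rfl
  rw [h]
  exact lt_mul_exp_iff_le (by simp)

/-- The data for the valuation ring of `v` and its integral closure. -/
theorem exists_loc (v : HeightOneSpectrum (𝓞 k)) (h2 : Ideal.absNorm v.asIdeal = 2)
    (h4 : (2 : 𝓞 k) ∉ v.asIdeal ^ 2) : ∃ Lo : Loc k L, Lo.S = locS L v ∧
      (∀ x : k, x ∈ Lo.R ↔ v.valuation k x ≤ 1) ∧ v.valuation k Lo.w = exp (-1 : ℤ) := by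
  classical
  obtain ⟨w, hw⟩ := v.intValuation_exists_uniformizer
  have hwv : v.valuation k (w : k) = exp (-1 : ℤ) := by
    rw [← hw]
    exact HeightOneSpectrum.valuation_of_algebraMap v w
  have hw0 : (w : k) ≠ 0 := by
    intro h
    rw [h, map_zero] at hwv
    exact absurd hwv.symm (by simp)
  have hwmem : w ∈ v.asIdeal := by
    rw [← v.intValuation_lt_one_iff_mem, hw, lt_one_iff']
  -- two elements outside `v` are congruent modulo `v`
  have hres : ∀ a b : 𝓞 k, a ∉ v.asIdeal → b ∉ v.asIdeal → a - b ∈ v.asIdeal := by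
    intro a b ha hb
    have hcard : Nat.card (𝓞 k ⧸ v.asIdeal) = 2 := by
      rw [Ideal.absNorm_apply] at h2
      exact h2
    obtain ⟨y, hy, huniq⟩ := (Nat.card_eq_two_iff' (0 : 𝓞 k ⧸ v.asIdeal)).1 hcard
    have h1 := huniq (Ideal.Quotient.mk _ a) (by
      intro h
      exact ha (Ideal.Quotient.eq_zero_iff_mem.1 h))
    have h3 := huniq (Ideal.Quotient.mk _ b) (by
      intro h
      exact hb (Ideal.Quotient.eq_zero_iff_mem.1 h))
    rw [← Ideal.Quotient.eq_zero_iff_mem, map_sub, h1, h3, sub_self]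
  let R : Subring k := (v.valuation k).integer
  have hR : ∀ x : k, x ∈ R ↔ v.valuation k x ≤ 1 := fun x => Iff.rfl
  have hpow : ∀ j : ℤ, v.valuation k ((w : k) ^ j) = exp (-j) := by
    intro j
    rw [map_zpow₀, hwv, ← exp_zsmul]
    simp
  have hrepr : ∀ x : k, x ≠ 0 → ∃ (j : ℤ) (u : k), v.valuation k u = 1 ∧ x = (w : k) ^ j * u := by
    intro x hx
    have hvx : v.valuation k x ≠ 0 := by
      rw [ne_eq, map_eq_zero]
      exact hx
    refine ⟨-(log (v.valuation k x)), x / (w : k) ^ (-(log (v.valuation k x))), ?_, ?_⟩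
    · rw [map_div₀, hpow, neg_neg, exp_log hvx, div_self hvx]
    · rw [mul_div_cancel₀]
      exact zpow_ne_zero _ hw0
  have hcomap : ∀ r : k, algebraMap k L r ∈ locS L v ↔ r ∈ R := by
    intro r
    constructor
    · rintro ⟨s, hs, a, ha⟩
      have hint : IsIntegral ℤ ((s : k) * r) := by
        have h1 : IsIntegral ℤ (algebraMap k L ((s : k) * r)) := by
          rw [map_mul, ha]
          exact RingOfIntegers.isIntegral_coe a
        exact (isIntegral_algebraMap_iff (algebraMap k L).injective).1 h1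
      have hs1 : v.valuation k (s : k) = 1 := by
        have := v.intValuation_eq_one_iff_mem_primeCompl s
        rw [← this.2 hs]
        exact HeightOneSpectrum.valuation_of_algebraMap v s
      have h3 : v.valuation k ((s : k) * r) ≤ 1 := by
        have : ((s : k) * r) = algebraMap (𝓞 k) k ⟨(s : k) * r, hint⟩ := rfl
        rw [this]
        exact v.valuation_le_one _
      rw [map_mul, hs1, one_mul] at h3
      exact h3
    · intro hr
      obtain ⟨n, d, hnd⟩ := v.exists_primeCompl_mul_eq_of_integer r hr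
      refine ⟨d, d.2, algebraMap (𝓞 k) (𝓞 L) n, ?_⟩
      rw [coe_algebraMap_int, ← map_mul]
      congr 1
      rw [mul_comm]
      exact hnd
  refine ⟨{ R := R, S := locS L v, w := (w : k), w_ne := hw0, w_mem := ?_, w_inv := ?_,
            repr := ?_, two := ?_, two_w := ?_, comap := hcomap, stab := ?_, absorb := ?_,
            unit := ?_ }, rfl, hR, hwv⟩
  · rw [hR, hwv, ← exp_zero, exp_le_exp]
    omega
  · rw [hR, map_inv₀, hwv, ← exp_neg, ← exp_zero, exp_le_exp]
    omega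
  · intro x hx
    obtain ⟨j, u, hu, hxu⟩ := hrepr x hx
    refine ⟨j, u, ?_, ?_, hxu⟩
    · rw [hR, hu]
    · rw [hR, map_inv₀, hu, inv_one]
  · intro r hr
    obtain ⟨n, d, hnd⟩ := v.exists_primeCompl_mul_eq_of_integer r hr
    have hd1 : v.valuation k (algebraMap (𝓞 k) k d) = 1 := by
      rw [HeightOneSpectrum.valuation_of_algebraMap]
      exact (v.intValuation_eq_one_iff_mem_primeCompl _).2 d.2
    have hdiv : ∀ x : k, v.valuation k x < 1 → x / (w : k) ∈ R := by
      intro x hx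
      rw [hR, map_div₀, hwv]
      rw [lt_one_iff'] at hx
      exact div_le_one_of_le₀ hx (by simp)
    by_cases hn : n ∈ v.asIdeal
    · left
      apply hdiv
      have h1 : v.valuation k r = v.valuation k (algebraMap (𝓞 k) k n) := by
        rw [← hnd, map_mul, hd1, mul_one]
      rw [h1, HeightOneSpectrum.valuation_lt_one_iff_mem]
      exact hn
    · right
      apply hdiv
      have h1 : (r - 1) * algebraMap (𝓞 k) k d = algebraMap (𝓞 k) k (n - d) := by
        rw [sub_mul, one_mul, hnd, map_sub]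
      have h3 : v.valuation k (r - 1) = v.valuation k (algebraMap (𝓞 k) k (n - d)) := by
        rw [← h1, map_mul, hd1, mul_one]
      rw [h3, HeightOneSpectrum.valuation_lt_one_iff_mem]
      exact hres _ _ hn d.2
  · have h2v : v.valuation k (2 : k) = exp (-1 : ℤ) := by
      have e1 : v.valuation k (2 : k) = v.intValuation (2 : 𝓞 k) := by
        rw [← HeightOneSpectrum.valuation_of_algebraMap (K := k) v (2 : 𝓞 k)]
        congr 1
      rw [e1]
      apply le_antisymm
      · have h5 : (2 : 𝓞 k) ∈ v.asIdeal ^ 1 := by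
          rw [pow_one]
          have := Ideal.absNorm_mem v.asIdeal
          rw [h2] at this
          exact_mod_cast this
        have := (v.intValuation_le_pow_iff_mem (2 : 𝓞 k) 1).2 h5
        simpa using this
      · by_contra hlt
        push Not at hlt
        apply h4
        rw [← v.intValuation_le_pow_iff_mem]
        have e2 : exp (-1 : ℤ) = exp (-((2 : ℕ) : ℤ)) * exp 1 := by
          rw [← exp_add]
          rfl
        rw [e2] at hlt
        exact (lt_mul_exp_iff_le (by simp)).1 hlt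
    have h20 : (2 : k) ≠ 0 := two_ne_zero
    refine ⟨2 / (w : k), ?_, ?_, div_ne_zero h20 hw0, ?_⟩
    · rw [hR, map_div₀, h2v, hwv, div_self (by simp)]
    · rw [hR, map_inv₀, map_div₀, h2v, hwv, div_self (by simp), inv_one]
    · rw [mul_div_cancel₀ _ hw0]
  · rintro σ x ⟨s, hs, a, ha⟩
    have hint : IsIntegral ℤ (σ (a : L)) := by
      exact (RingOfIntegers.isIntegral_coe a).map (σ : L →+* L).toIntAlgHom
    refine ⟨s, hs, ⟨σ (a : L), hint⟩, ?_⟩
    change _ = σ (a : L)
    rw [← ha, map_mul, AlgEquiv.commutes]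
  · intro x
    obtain ⟨a, b, hb, hab⟩ := IsFractionRing.div_surjective (A := 𝓞 L) x
    have hb0 : b ≠ 0 := nonZeroDivisors.ne_zero hb
    -- a nonzero element of `𝓞 k` divisible by `b`
    obtain ⟨n, hn0, hn⟩ : ∃ n : 𝓞 k, n ≠ 0 ∧ algebraMap (𝓞 k) (𝓞 L) n ∈ Ideal.span {b} := by
      have h1 : (Ideal.span {b}).comap (algebraMap (𝓞 k) (𝓞 L)) ≠ ⊥ := by
        apply Ideal.IsIntegral.comap_ne_bot
        rw [ne_eq, Ideal.span_singleton_eq_bot]
        exact hb0
      obtain ⟨n, hn, hn0⟩ := Submodule.exists_mem_ne_zero_of_ne_bot h1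
      exact ⟨n, hn0, hn⟩
    obtain ⟨c, hc⟩ := Ideal.mem_span_singleton'.1 hn
    have hn0' : (n : k) ≠ 0 := by
      intro h
      exact hn0 (RingOfIntegers.coe_injective (by simpa using h))
    obtain ⟨j, u, hu, hju⟩ := hrepr (n : k) hn0'
    have hu0 : u ≠ 0 := by
      rintro rfl
      rw [map_zero] at hu
      exact zero_ne_one hu
    refine ⟨j.toNat, ?_⟩
    have e1 : algebraMap k L (w : k) ^ j.toNat * x =
        algebraMap k L ((w : k) ^ (j.toNat - j : ℤ)) * (algebraMap k L u⁻¹ * ((c * a : 𝓞 L) : L)) := by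
      have hbL : (b : L) ≠ 0 := by
        intro h
        exact hb0 (RingOfIntegers.coe_injective (by simpa using h))
      have hc' : (c : L) * (b : L) = algebraMap k L (n : k) := by
        have := congrArg (fun z : 𝓞 L => (z : L)) hc
        simpa [coe_algebraMap_int] using this
      have hx : x = (a : L) / (b : L) := hab.symm
      have hwL : algebraMap k L (w : k) ≠ 0 := by
        rw [ne_eq, map_eq_zero]
        exact hw0
      have huL : algebraMap k L u ≠ 0 := by
        rw [ne_eq, map_eq_zero]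
        exact hu0
      have hc'' : (c : L) = algebraMap k L (w : k) ^ j * algebraMap k L u / (b : L) := by
        rw [eq_div_iff hbL, hc', hju, map_mul, map_zpow₀]
      rw [cmul, hx, hc'', map_zpow₀, map_inv₀, zpow_sub₀ hwL, zpow_natCast]
      field_simp
    rw [e1]
    apply Subring.mul_mem
    · rw [hcomap, hR, hpow, ← exp_zero, exp_le_exp]
      have := Int.self_le_toNat j
      omega
    · apply Subring.mul_mem
      · rw [hcomap, hR, map_inv₀, hu, inv_one]
      · exact int_mem_locS v _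
  · rintro s ⟨b, hb, a, ha⟩
    -- `y = b + w a`
    let y : 𝓞 L := algebraMap (𝓞 k) (𝓞 L) b + algebraMap (𝓞 k) (𝓞 L) w * a
    have hbk : (b : k) ≠ 0 := by
      intro h
      apply hb
      have : b = 0 := RingOfIntegers.coe_injective (by simpa using h)
      rw [this]
      exact v.asIdeal.zero_mem
    have hbL : algebraMap k L (b : k) ≠ 0 := by
      rw [ne_eq, map_eq_zero]
      exact hbk
    have hy : (y : L) = algebraMap k L (b : k) * (1 + algebraMap k L (w : k) * s) := by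
      change ((algebraMap (𝓞 k) (𝓞 L) b + algebraMap (𝓞 k) (𝓞 L) w * a : 𝓞 L) : L) = _
      rw [cadd, cmul, coe_algebraMap_int, coe_algebraMap_int, ← ha]
      ring
    obtain ⟨t, ht, htm⟩ := exists_mem_notMem v (Ideal.span {y}) (by
      intro Q hQ hQv hle
      apply hb
      have h1 : y ∈ Q := hle (Ideal.mem_span_singleton_self y)
      have h3 : algebraMap (𝓞 k) (𝓞 L) w ∈ Q := by
        rw [← Ideal.mem_comap, hQv]
        exact hwmem
      have h5 : algebraMap (𝓞 k) (𝓞 L) b ∈ Q := by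
        have h6 : algebraMap (𝓞 k) (𝓞 L) b = y - algebraMap (𝓞 k) (𝓞 L) w * a := by
          simp only [y]
          ring
        rw [h6]
        exact Q.sub_mem h1 (Q.mul_mem_right _ h3)
      rw [← Ideal.mem_comap, hQv] at h5
      exact h5)
    obtain ⟨z, hz⟩ := Ideal.mem_span_singleton'.1 htm
    have hz' : (z : L) * (y : L) = algebraMap k L (t : k) := by
      have := congrArg (fun z : 𝓞 L => (z : L)) hz
      simpa [coe_algebraMap_int] using this
    have htk : algebraMap k L (t : k) ≠ 0 := by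
      rw [ne_eq, map_eq_zero]
      intro h
      apply ht
      have : t = 0 := RingOfIntegers.coe_injective (by simpa using h)
      rw [this]
      exact v.asIdeal.zero_mem
    have hne : 1 + algebraMap k L (w : k) * s ≠ 0 := by
      intro h
      rw [h, mul_zero] at hy
      rw [hy, mul_zero] at hz'
      exact htk hz'.symm
    refine ⟨⟨t, ht, algebraMap (𝓞 k) (𝓞 L) b * z, ?_⟩, hne⟩
    rw [cmul, coe_algebraMap_int, ← hz', hy]
    field_simp

/-- A stable prime element at `v`. -/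
theorem exists_prime_elt [IsGalois k L] (v : HeightOneSpectrum (𝓞 k)) :
    ∃ P : 𝓞 L, P ≠ 0 ∧ (∀ σ : L ≃ₐ[k] L, ∃ s : 𝓞 k, s ∉ v.asIdeal ∧ ∃ a : 𝓞 L,
      algebraMap k L (s : k) * σ (P : L) = (P : L) * a) ∧
      ∃ Q : HeightOneSpectrum (𝓞 L), Q.asIdeal.LiesOver v.asIdeal ∧ P ∈ Q.asIdeal ∧
        P ∉ Q.asIdeal ^ 2 := by
  classical
  have hv := v.isPrime
  obtain ⟨J, hJ0, hJ1, hJσ, hJe, -⟩ := p_C1 k L v.asIdeal v.isPrime v.ne_bot
  obtain ⟨he0, -⟩ := p_C5 k L v
  set e := v.asIdeal.ramificationIdxIn (𝓞 L) with he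
  have hJ2 : J ^ 2 ≤ J := Ideal.pow_le_self two_ne_zero
  have hJ20 : J ^ 2 ≠ 0 := pow_ne_zero 2 hJ0
  obtain ⟨P, hP⟩ := IsDedekindDomain.exists_sup_span_eq hJ2 hJ20
  have hPJ : P ∈ J := by
    rw [← hP]
    exact Ideal.mem_sup_right (Ideal.mem_span_singleton_self P)
  obtain ⟨C, hC⟩ : J ∣ Ideal.span {P} := by
    rw [Ideal.dvd_span_singleton]
    exact hPJ
  have hJC : J ⊔ C = ⊤ := by
    have h1 : J * (J ⊔ C) = J * ⊤ := by
      rw [Ideal.mul_sup, ← sq, ← hC, hP, Ideal.mul_top]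
    exact mul_left_cancel₀ hJ0 h1
  have hQJ : ∀ Q : Ideal (𝓞 L), Q.IsPrime → Q.comap (algebraMap (𝓞 k) (𝓞 L)) = v.asIdeal →
      J ≤ Q := by
    intro Q hQ hQv
    have h1 : J ^ e ≤ Q := by
      rw [← hJe, Ideal.map_le_iff_le_comap, hQv]
    exact hQ.le_of_pow_le h1
  have hCQ : ∀ Q : Ideal (𝓞 L), Q.IsPrime → Q.comap (algebraMap (𝓞 k) (𝓞 L)) = v.asIdeal →
      ¬ C ≤ Q := by
    intro Q hQ hQv hle
    apply hQ.ne_top
    rw [eq_top_iff, ← hJC]
    exact sup_le (hQJ Q hQ hQv) hle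
  have hP0 : P ≠ 0 := by
    rintro rfl
    rw [Ideal.span_singleton_zero, sup_bot_eq] at hP
    -- `J² = J` is impossible
    have h1 : J * J = J * ⊤ := by rw [← sq, hP, Ideal.mul_top]
    exact hJ1 (mul_left_cancel₀ hJ0 h1)
  refine ⟨P, hP0, ?_, ?_⟩
  · intro σ
    obtain ⟨s, hs, hsC⟩ := exists_mem_notMem v C hCQ
    refine ⟨s, hs, ?_⟩
    -- `s (σ P) ∈ J C = (P)`
    have h1 : σ • P ∈ J := by
      rw [← hJσ σ]
      exact Ideal.smul_mem_pointwise_smul σ P J hPJ
    have h2 : algebraMap (𝓞 k) (𝓞 L) s * σ • P ∈ Ideal.span {P} := by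
      rw [hC, mul_comm J C]
      exact Ideal.mul_mem_mul hsC h1
    obtain ⟨a, ha⟩ := Ideal.mem_span_singleton'.1 h2
    refine ⟨a, ?_⟩
    have h3 := congrArg (fun z : 𝓞 L => (z : L)) ha
    simp only [cmul] at h3
    rw [mul_comm (P : L), h3]
    rfl
  · obtain ⟨⟨Q, hQp, hQo⟩⟩ : Nonempty (v.asIdeal.primesOver (𝓞 L)) := inferInstance
    have hQv : Q.comap (algebraMap (𝓞 k) (𝓞 L)) = v.asIdeal := by
      rw [hQo.over]
    have hQ0 : Q ≠ ⊥ := Ideal.ne_bot_of_liesOver_of_ne_bot v.ne_bot Q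
    refine ⟨⟨Q, hQp, hQ0⟩, hQo, hQJ Q hQp hQv hPJ, ?_⟩
    intro hmem
    change P ∈ Q ^ 2 at hmem
    have hJQ : J ≤ Q ^ 2 := by
      have h1 : J = J * (J ⊔ C) := by rw [hJC, Ideal.mul_top]
      rw [h1, Ideal.mul_sup, ← hC]
      apply sup_le
      · rw [sq]
        exact Ideal.mul_mono (hQJ Q hQp hQv) (hQJ Q hQp hQv)
      · rw [Ideal.span_singleton_le_iff_mem]
        exact hmem
    have h1 : v.asIdeal.map (algebraMap (𝓞 k) (𝓞 L)) ≤ Q ^ (2 * e) := by
      rw [hJe, pow_mul]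
      exact Ideal.pow_right_mono hJQ e
    have h2 : v.asIdeal.ramificationIdx' Q = e := by
      rw [Ideal.ramificationIdx'_eq_ramificationIdx v.asIdeal Q v.ne_bot, he]
      exact (Ideal.ramificationIdxIn_eq_ramificationIdx v.asIdeal Q (L ≃ₐ[k] L)).symm
    have hmap : v.asIdeal.map (algebraMap (𝓞 k) (𝓞 L)) ≠ ⊥ := Ideal.map_ne_bot_of_ne_bot v.ne_bot
    have h4 : 2 * e ≤ v.asIdeal.ramificationIdx' Q := by
      rw [Ideal.IsDedekindDomain.ramificationIdx'_eq_multiplicity hmap hQp]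
      have hfin : FiniteMultiplicity Q (v.asIdeal.map (algebraMap (𝓞 k) (𝓞 L))) :=
        FiniteMultiplicity.of_prime_left (Ideal.prime_of_isPrime hQ0 hQp) hmap
      exact hfin.le_multiplicity_of_pow_dvd (Ideal.dvd_iff_le.2 h1)
    omega

theorem U34 : S_U34 := by
  intro k L _ _ _ _ _ _ g hg v hv2 hv4 ε c hc hn
  classical
  obtain ⟨Lo, hS, hR, hw⟩ := exists_loc (L := L) v hv2 hv4
  obtain ⟨La⟩ := exists_lat Lo g hg
  obtain ⟨P, hP0, hPσ, Q, hQv, hPQ, hPQ2⟩ := exists_prime_elt (k := k) (L := L) v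
  have hPL : (P : L) ≠ 0 := by
    intro h
    exact hP0 (RingOfIntegers.coe_injective (by simpa using h))
  have hvp := v.isPrime
  -- the quotients `σ P / P` are in `S`
  have hPS : ∀ σ : L ≃ₐ[k] L, σ (P : L) / (P : L) ∈ Lo.S := by
    intro σ
    obtain ⟨s, hs, a, ha⟩ := hPσ σ
    rw [hS]
    refine ⟨s, hs, a, ?_⟩
    rw [← mul_div_assoc, ha]
    field_simp
  let Pu : Lˣ := Units.mk0 (P : L) hPL
  have hPU : dMap g Pu ∈ Lo.U := by
    rw [Loc.mem_U]
    have e1 : ((dMap g Pu : Lˣ) : L) = g (P : L) / (P : L) := by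
      rw [dMap_apply, Units.val_div_eq_div_val, act_coe]
      rfl
    refine ⟨?_, ?_⟩
    · rw [e1]
      exact hPS g
    · rw [Units.val_inv_eq_inv_val, e1, inv_div]
      have h1 := Lo.stab g _ (hPS g⁻¹)
      have h2 : g ((g⁻¹) (P : L) / (P : L)) = (P : L) / g (P : L) := by
        rw [map_div₀, ← AlgEquiv.mul_apply, mul_inv_cancel, AlgEquiv.one_apply]
      rwa [h2] at h1
  -- valuations at `Q`
  have hQs : ∀ s : 𝓞 k, s ∉ v.asIdeal → Q.valuation L (algebraMap k L (s : k)) = 1 := by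
    intro s hs
    rw [← coe_algebraMap_int (L := L)]
    have h1 : algebraMap (𝓞 k) (𝓞 L) s ∉ Q.asIdeal := by
      intro h
      apply hs
      rw [hQv.over]
      exact h
    exact (HeightOneSpectrum.valuation_eq_one_iff_notMem (K := L) Q).2 h1
  have hQle : ∀ x ∈ Lo.S, Q.valuation L x ≤ 1 := by
    intro x hx
    rw [hS] at hx
    obtain ⟨s, hs, a, ha⟩ := hx
    have h1 : Q.valuation L (algebraMap k L (s : k) * x) ≤ 1 := by
      rw [ha]
      exact Q.valuation_le_one a
    rwa [map_mul, hQs s hs, one_mul] at h1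
  have hQU : ∀ u ∈ Lo.U, Q.valuation L (u : L) = 1 := by
    intro u hu
    apply le_antisymm (hQle _ hu.1)
    have h1 := hQle _ hu.2
    rw [Units.val_inv_eq_inv_val, map_inv₀] at h1
    have h2 : Q.valuation L (u : L) ≠ 0 := by
      rw [ne_eq, map_eq_zero]
      exact Units.ne_zero u
    exact (inv_le_one₀ (zero_lt_iff.2 h2)).1 h1
  have hQP : Q.valuation L (P : L) = exp (-1 : ℤ) := by
    have e1 : Q.valuation L (P : L) = Q.intValuation P :=
      HeightOneSpectrum.valuation_of_algebraMap Q P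
    rw [e1]
    apply le_antisymm
    · rw [← lt_one_iff', Q.intValuation_lt_one_iff_mem]
      exact hPQ
    · by_contra hlt
      push Not at hlt
      apply hPQ2
      rw [← Q.intValuation_le_pow_iff_mem]
      have e2 : exp (-1 : ℤ) = exp (-((2 : ℕ) : ℤ)) * exp 1 := by
        rw [← exp_add]
        rfl
      rw [e2] at hlt
      exact (lt_mul_exp_iff_le (by simp)).1 hlt
  set e := v.asIdeal.ramificationIdxIn (𝓞 L) with he
  have hQe : v.asIdeal.ramificationIdx' Q.asIdeal = e := by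
    have hQp := Q.isPrime
    rw [Ideal.ramificationIdx'_eq_ramificationIdx v.asIdeal Q.asIdeal v.ne_bot, he]
    exact (Ideal.ramificationIdxIn_eq_ramificationIdx v.asIdeal Q.asIdeal (L ≃ₐ[k] L)).symm
  have hdiv : ∀ (j : ℕ) (b : kˣ) (u : Lˣ), u ∈ Lo.U →
      Pu ^ j = Units.map (algebraMap k L : k →* L) b * u → e ∣ j := by
    intro j b u hu h
    have h1 := congrArg (fun x : Lˣ => Q.valuation L (x : L)) h
    simp only [Units.val_pow_eq_pow_val, Units.val_mul, map_pow, map_mul, hQU u hu, mul_one] at h1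
    have h2 : Q.valuation L ((Units.map (algebraMap k L : k →* L) b : Lˣ) : L) =
        v.valuation k (b : k) ^ e := by
      rw [← hQe]
      exact (HeightOneSpectrum.valuation_liesOver L v Q (b : k)).symm
    rw [h2] at h1
    have h3 : Q.valuation L ((Pu : Lˣ) : L) = exp (-1 : ℤ) := hQP
    have hb : v.valuation k (b : k) ≠ 0 := by
      rw [ne_eq, map_eq_zero]
      exact Units.ne_zero b
    rw [h3, ← exp_log hb, ← exp_nsmul, ← exp_nsmul, exp_inj] at h1
    simp only [nsmul_eq_mul] at h1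
    have h4 : (e : ℤ) ∣ (j : ℤ) := ⟨- log (v.valuation k (b : k)), by linarith⟩
    exact_mod_cast h4
  -- the unit
  have hεk : ((ε : 𝓞 k) : k) ≠ 0 := Units.coe_ne_zero ε
  let εk : kˣ := Units.map (algebraMap (𝓞 k) k : 𝓞 k →* k) ε
  have hεR : ∀ x : 𝓞 k, (x : k) ∈ Lo.R := by
    intro x
    rw [hR]
    exact v.valuation_le_one x
  obtain ⟨η, hη, hηε⟩ := hn
  refine La.main hg Pu e hPU hdiv εk (hεR _) ?_ ⟨η, ?_, ?_⟩ c ?_
  · have : ((εk⁻¹ : kˣ) : k) = (((ε⁻¹ : (𝓞 k)ˣ) : 𝓞 k) : k) := by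
      rw [← map_inv]
      rfl
    rw [this]
    exact hεR _
  · obtain ⟨η0, rfl⟩ := hη
    rw [Loc.mem_U, hS]
    refine ⟨int_mem_locS v _, ?_⟩
    rw [← map_inv]
    exact int_mem_locS v _
  · apply Units.ext
    rw [hηε]
    rfl
  · intro hmem
    apply hc
    rw [hR, map_div₀, map_pow, hw, ← exp_nsmul] at hmem
    have h1 : ((εk : kˣ) : k) ^ 2 - 1 = algebraMap (𝓞 k) k ((ε : 𝓞 k) ^ 2 - 1) := by
      rw [map_sub, map_pow, map_one]
      rfl
    rw [h1, HeightOneSpectrum.valuation_of_algebraMap] at hmem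
    rw [← v.intValuation_le_pow_iff_mem]
    have h2 := (div_le_one₀ (by simp)).1 hmem
    simpa using h2

end

end Pool.Agent.Lib.MP_869d3b_nt.U
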