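import Pool.Agent.Lib.MP_869d3b_nt.U2.All
import Pool.Agent.Lib.MP_869d3b_nt.U34

set_option autoImplicit false

namespace Pool.Agent.Lib.MP_869d3b_nt

/-- Theorem U. -/
theorem p_U : S_U := p_U_34 U.U34

end Pool.Agent.Lib.MP_869d3b_nt
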