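import Pool.Agent.Lib.MP_869d3b_nt.StmV2

/-!
# MP_869d3b_nt, uniqueness part: piece UNIQ
-/

set_option autoImplicit false

open NumberField IsDedekindDomain

namespace Pool.Agent.Lib.MP_869d3b_nt

private lemma uniq_ne_one {G : Type} [Group G] (χ : G →* Multiplicative ℤ_[2])
    (h : Function.Surjective χ) : ∃ σ, χ σ ≠ 1 := by
  obtain ⟨σ, hσ⟩ := h (Multiplicative.ofAdd 1)
  refine ⟨σ, ?_⟩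
  rw [hσ]
  intro h2
  have h3 := congrArg Multiplicative.toAdd h2
  rw [toAdd_ofAdd, toAdd_one] at h3
  exact one_ne_zero h3

private lemma uniq_dv_one (m : ℕ) : Dv m (1 : Multiplicative ℤ_[2]) := by
  unfold Dv
  rw [toAdd_one]
  exact dvd_zero _

theorem piece_UNIQ (h1 : S_below1) (hchi : S_chi)
    (hV2 : ∀ (Ω : Type) [Field Ω] [CharZero Ω], S_V2 Ω) (hV3 : S_V3) (hV4 : S_V4)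
    (hlay : S_Vlay) (hcyc : S_Vcyc) (hle : S_Vle) (hmov : S_Vmov) (hV5 : S_V5) (hU : S_U) :
    S_UNIQ := by
  intro k Ω _ _ _ _ _ _ hΩ halg v v' hcard h4 ε hε hB0 S₃ N₃ hvS hz3 hr3 hx3 N₁ N₂ hz1 hz2 hr1 hr2
  by_contra hne
  obtain ⟨B₀, hB₀⟩ := h1 k Ω v.asIdeal v.isPrime
  obtain ⟨h2B, hkF⟩ := hB0 B₀ hB₀
  obtain ⟨x, hxN, hxF⟩ := hx3 B₀ hB₀
  obtain ⟨χ₁, c1, s1, e1⟩ := hchi 2 k Ω hΩ halg N₁ hz1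
  obtain ⟨χ₂, c2, s2, e2⟩ := hchi 2 k Ω hΩ halg N₂ hz2
  obtain ⟨χ₃, c3, s3, e3⟩ := hchi 2 k Ω hΩ halg N₃ hz3
  have hne' : ¬ ∀ σ, χ₁ σ = 1 ↔ χ₂ σ = 1 := by
    intro h
    apply hne
    apply le_antisymm
    · exact hle k Ω hΩ halg N₁ N₂ fun σ hσ => (e1 σ).1 ((h σ).2 ((e2 σ).2 hσ))
    · exact hle k Ω hΩ halg N₂ N₁ fun σ hσ => (e2 σ).1 ((h σ).1 ((e1 σ).2 hσ))
  have halgQ : Algebra.IsAlgebraic ℚ Ω := Algebra.IsAlgebraic.trans ℚ k Ω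
  obtain ⟨a, b, c, habc, hlin⟩ := hV3 k Ω (FB B₀) hkF (hV2 Ω hΩ halgQ B₀ h2B) χ₁ χ₂ χ₃ c1 c2 c3
  obtain ⟨σ₀, hσF, hσx⟩ := hmov k Ω hΩ halg (FB B₀) hkF x hxF
  obtain ⟨ψ, cψ, uψ, hψ⟩ := hV4 (Ω ≃ₐ[k] Ω) {σ | ∀ x ∈ FB B₀, σ x = x} χ₁ χ₂ χ₃ a b c c1 c2 c3
    (uniq_ne_one χ₁ s1) (uniq_ne_one χ₂ s2) hne'
    ⟨σ₀, hσF, fun h => hσx ((e3 σ₀).1 h x hxN)⟩ habc hlin
  obtain ⟨C, hC⟩ := hU k v' hcard h4 ε hε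
  obtain ⟨m, hm12, hm3⟩ := hψ C
  obtain ⟨M₁, hf1, hg1, hM1⟩ := hlay k Ω χ₁ c1 m
  obtain ⟨M₂, hf2, hg2, hM2⟩ := hlay k Ω χ₂ c2 m
  obtain ⟨M₃, hf3, hg3, hM3⟩ := hlay k Ω χ₃ c3 m
  obtain ⟨L, hfL, hgL, hL⟩ := hlay k Ω ψ cψ C
  obtain ⟨hLc, hLr⟩ := hcyc k Ω ψ C L cψ uψ hfL hgL hL
  have hl1 : M₁ ≤ N₁ := hle k Ω hΩ halg M₁ N₁ fun σ hσ =>
    (hM1 σ).2 (by rw [(e1 σ).2 hσ]; exact uniq_dv_one m)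
  have hl2 : M₂ ≤ N₂ := hle k Ω hΩ halg M₂ N₂ fun σ hσ =>
    (hM2 σ).2 (by rw [(e2 σ).2 hσ]; exact uniq_dv_one m)
  have hl3 : M₃ ≤ N₃ := hle k Ω hΩ halg M₃ N₃ fun σ hσ =>
    (hM3 σ).2 (by rw [(e3 σ).2 hσ]; exact uniq_dv_one m)
  have hL12 : ∀ σ : Ω ≃ₐ[k] Ω, (∀ x ∈ M₁, σ x = x) → (∀ x ∈ M₂, σ x = x) → ∀ x ∈ L, σ x = x :=
    fun σ k1 k2 => (hL σ).2 (hm12 σ ((hM1 σ).1 k1) ((hM2 σ).1 k2))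
  have hL3 : ∀ σ : Ω ≃ₐ[k] Ω, (∀ x ∈ FB B₀, σ x = x) → (∀ x ∈ M₃, σ x = x) →
      ∀ x ∈ L, σ x = x :=
    fun σ k1 k2 => (hL σ).2 (hm3 σ k1 ((hM3 σ).1 k2))
  have : NumberField L := NumberField.of_module_finite k L
  have hfin : Module.finrank k L ≤ C := by
    refine hC L hgL hLc ⟨C, hLr⟩ ?_
    exact hV5 k Ω hΩ halg v v' B₀ h2B hB₀ S₃ N₁ N₂ N₃ M₁ M₂ M₃ L hvS hr1 hr2 hr3 hl1 hl2 hl3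
      hf1 hf2 hf3 hg1 hg2 hg3 hfL hgL hL12 hL3
  rw [hLr] at hfin
  exact absurd hfin (not_le.2 Nat.lt_two_pow_self)

end Pool.Agent.Lib.MP_869d3b_nt
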