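import Pool.Agent.Lib.MP_869d3b_nt.StmV1

/-!
# MP_869d3b_nt, uniqueness part: piece V3
-/

set_option autoImplicit false

open NumberField IsDedekindDomain

namespace Pool.Agent.Lib.MP_869d3b_nt

theorem piece_V3 (hVlin : S_Vlin) (hVdep : S_Vdep) (hVres : S_Vres) : S_V3 := by
  intro k Ω _ _ _ _ F hF hg χ₁ χ₂ χ₃ h1 h2 h3
  obtain ⟨g₁, g₂, hg⟩ := hg
  obtain ⟨ρ, hρ, -, hρs⟩ := hVres k Ω F hF
  obtain ⟨a, b, c, habc, e1, e2⟩ := hVdep (Multiplicative.toAdd (χ₁ (ρ g₁)))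
    (Multiplicative.toAdd (χ₂ (ρ g₁))) (Multiplicative.toAdd (χ₃ (ρ g₁)))
    (Multiplicative.toAdd (χ₁ (ρ g₂))) (Multiplicative.toAdd (χ₂ (ρ g₂)))
    (Multiplicative.toAdd (χ₃ (ρ g₂)))
  obtain ⟨ψ, hψ, hψe⟩ := hVlin (Ω ≃ₐ[k] Ω) χ₁ χ₂ χ₃ h1 h2 h3 a b c
  have h4 : ψ.comp ρ = 1 := by
    refine hg (ψ.comp ρ) (hψ.comp hρ) ?_ ?_
    · show ψ (ρ g₁) = 1
      rw [← toAdd_eq_zero, hψe]
      exact e1
    · show ψ (ρ g₂) = 1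
      rw [← toAdd_eq_zero, hψe]
      exact e2
  refine ⟨a, b, c, habc, fun σ hσ => ?_⟩
  obtain ⟨τ, rfl⟩ := hρs σ hσ
  rw [← hψe, toAdd_eq_zero]
  exact DFunLike.congr_fun h4 τ

end Pool.Agent.Lib.MP_869d3b_nt
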