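import Pool.Agent.Lib.MP_869d3b_nt.StmV1

set_option autoImplicit false

namespace Pool.Agent.Lib.MP_869d3b_nt

private lemma v4_one {u : Multiplicative ℤ_[2]} : u = 1 ↔ Multiplicative.toAdd u = 0 := by
  constructor
  · rintro rfl; rfl
  · intro h
    apply Multiplicative.toAdd.injective
    rw [h]; rfl

theorem piece_V4 (hVlin : S_Vlin) (hVdiv : S_Vdiv) : S_V4 := by
  intro G _ _ H χ₁ χ₂ χ₃ a b c hc1 hc2 hc3 h1 h2 hne h3 habc hrel
  obtain ⟨ψ₀, hψ₀c, hψ₀⟩ := hVlin G χ₁ χ₂ χ₃ hc1 hc2 hc3 a b 0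
  have hψ₀' : ∀ σ, Multiplicative.toAdd (ψ₀ σ) =
      a * Multiplicative.toAdd (χ₁ σ) + b * Multiplicative.toAdd (χ₂ σ) := by
    intro σ; rw [hψ₀ σ]; ring
  have hab : ¬ (a = 0 ∧ b = 0) := by
    rintro ⟨ha, hb⟩
    have hc : c ≠ 0 := fun hc => habc ⟨ha, hb, hc⟩
    obtain ⟨σ, hσ, hσ3⟩ := h3
    have := hrel σ hσ
    rw [ha, hb, zero_mul, zero_mul, zero_add, zero_add] at this
    rcases mul_eq_zero.1 this with h | h
    · exact hc h
    · exact hσ3 (v4_one.2 h)
  have hne0 : ∃ σ, ψ₀ σ ≠ 1 := by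
    by_contra hall
    push Not at hall
    have hz : ∀ σ, a * Multiplicative.toAdd (χ₁ σ) + b * Multiplicative.toAdd (χ₂ σ) = 0 := by
      intro σ; rw [← hψ₀' σ]; exact v4_one.1 (hall σ)
    by_cases ha : a = 0
    · have hb : b ≠ 0 := fun hb => hab ⟨ha, hb⟩
      obtain ⟨σ, hσ⟩ := h2
      have := hz σ
      rw [ha, zero_mul, zero_add] at this
      rcases mul_eq_zero.1 this with h | h
      · exact hb h
      · exact hσ (v4_one.2 h)
    · by_cases hb : b = 0
      · obtain ⟨σ, hσ⟩ := h1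
        have := hz σ
        rw [hb, zero_mul, add_zero] at this
        rcases mul_eq_zero.1 this with h | h
        · exact ha h
        · exact hσ (v4_one.2 h)
      · apply hne
        intro σ
        have := hz σ
        constructor
        · intro h
          rw [v4_one.1 h, mul_zero, zero_add] at this
          exact v4_one.2 ((mul_eq_zero.1 this).resolve_left hb)
        · intro h
          rw [v4_one.1 h, mul_zero, add_zero] at this
          exact v4_one.2 ((mul_eq_zero.1 this).resolve_left ha)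
  obtain ⟨j, ψ, hψc, hψ, hu⟩ := hVdiv G ψ₀ hψ₀c hne0
  refine ⟨ψ, hψc, hu, fun n => ⟨n + j, ?_, ?_⟩⟩
  · intro σ hd1 hd2
    have h2j : (2 : ℤ_[2]) ^ j ≠ 0 := pow_ne_zero _ two_ne_zero
    have : (2 : ℤ_[2]) ^ (n + j) ∣ 2 ^ j * Multiplicative.toAdd (ψ σ) := by
      rw [← hψ σ, hψ₀' σ]
      exact dvd_add (Dvd.dvd.mul_left hd1 a) (Dvd.dvd.mul_left hd2 b)
    rw [add_comm, pow_add] at this
    exact (mul_dvd_mul_iff_left h2j).1 this
  · intro σ hσ hd3
    have h2j : (2 : ℤ_[2]) ^ j ≠ 0 := pow_ne_zero _ two_ne_zero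
    have : (2 : ℤ_[2]) ^ (n + j) ∣ 2 ^ j * Multiplicative.toAdd (ψ σ) := by
      have hr := hrel σ hσ
      have e : 2 ^ j * Multiplicative.toAdd (ψ σ) = -(c * Multiplicative.toAdd (χ₃ σ)) := by
        rw [← hψ σ, hψ₀' σ]
        exact eq_neg_of_add_eq_zero_left hr
      rw [e]
      exact (dvd_neg).2 (Dvd.dvd.mul_left hd3 c)
    rw [add_comm, pow_add] at this
    exact (mul_dvd_mul_iff_left h2j).1 this

end Pool.Agent.Lib.MP_869d3b_nt
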