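import Pool.Agent.Lib.MP_869d3b_nt.StmV2

/-!
# MP_869d3b_nt, uniqueness part: piece V5
-/

set_option autoImplicit false

open NumberField IsDedekindDomain

namespace Pool.Agent.Lib.MP_869d3b_nt

theorem piece_V5 (ha : S_V5a) (hb : S_V5b) (h2 : S_below2) (ht : S_Vtre) : S_V5 := by
  intro k Ω _ _ _ _ _ hΩ halg v v' B₀ h2B hv S₃ N₁ N₂ N₃ M₁ M₂ M₃ L hvS hN1 hN2 hN3 hM1 hM2 hM3
    hf1 hf2 hf3 hg1 hg2 hg3 hfL hgL h12 hF3 P _ hP
  by_cases hPv : P.comap (algebraMap (𝓞 k) (𝓞 L)) = v.asIdeal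
  · obtain ⟨P₀, hP₀, hB⟩ := h2 L Ω B₀
    have := hP₀
    have : NumberField L := NumberField.of_module_finite k L
    have hP₀v : P₀.comap (algebraMap (𝓞 k) (𝓞 L)) = v.asIdeal := by
      ext x
      rw [Ideal.mem_comap, hB, hv]
      have h3 : algebraMap L Ω ((algebraMap (𝓞 k) (𝓞 L) x : 𝓞 L) : L) =
          algebraMap k Ω (x : k) := rfl
      rw [h3]
    have h4 : Algebra.IsUnramifiedAt (𝓞 k) P₀ := by
      refine hb k Ω hΩ halg B₀ h2B S₃ N₃ M₃ L ?_ hN3 hM3 hf3 hg3 hfL hF3 P₀ hB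
      intro w hw hwB
      have h5 : w = v := by
        ext x
        rw [hwB, hv]
      exact hvS (h5 ▸ hw)
    exact ht k L P₀ P (hP₀v.trans hPv.symm) h4
  · refine ha k Ω hΩ halg {v, v'} N₁ N₂ M₁ M₂ L hN1 hN2 hM1 hM2 hf1 hf2 hg1 hg2 hfL h12 P ?_
    intro u hu
    rcases hu with rfl | hu
    · exact hPv
    · rw [Set.mem_singleton_iff] at hu
      subst hu
      exact hP

end Pool.Agent.Lib.MP_869d3b_nt
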