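import Pool.Agent.Lib.MP_869d3b_nt.StmV2

/-!
# MP_869d3b_nt, [V5a] unramifiedness outside `S` inside a compositum
-/

set_option autoImplicit false

open NumberField IsDedekindDomain

namespace Pool.Agent.Lib.MP_869d3b_nt

private theorem V5a_comap {k Ω : Type} [Field k] [Field Ω] [Algebra k Ω]
    {B : ValuationSubring Ω} {M : IntermediateField k Ω} {P : Ideal (𝓞 M)} (h : Below B M P)
    (x : 𝓞 k) : x ∈ P.comap (algebraMap (𝓞 k) (𝓞 M)) ↔ algebraMap k Ω (x : k) ∈ B.nonunits := by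
  rw [Ideal.mem_comap, h]
  exact Iff.rfl

theorem piece_V5a (h1 : S_below1) (h2 : S_below2) (hi : S_inert) (hc : S_inertConv)
    (hle : S_Vle) : S_V5a := by
  intro k Ω _ _ _ _ _ hac halg S N₁ N₂ M₁ M₂ L hN₁ hN₂ hM₁ hM₂ hf₁ hf₂ hg₁ hg₂ hfL hfix P hP hPS
  have hLnf : NumberField L := NumberField.of_module_finite k L
  obtain ⟨B, hB⟩ := h1 L Ω P hP
  have hEf : FiniteDimensional k ↥(M₁ ⊔ M₂) := IntermediateField.finiteDimensional_sup M₁ M₂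
  have hEg : IsGalois k ↥(M₁ ⊔ M₂) := inferInstance
  have key : ∀ (N M : IntermediateField k Ω), UnramifiedOutside S N → M ≤ N →
      FiniteDimensional k M → IsGalois k M → M ≤ M₁ ⊔ M₂ →
      ∀ σ : Ω ≃ₐ[k] Ω, Inert B ((M₁ ⊔ M₂ : IntermediateField k Ω) : Set Ω) σ →
        ∀ x ∈ M, σ x = x := by
    intro N M hN hMN hf hg hME σ hσ
    obtain ⟨P₁, hP₁, hB₁⟩ := h2 M Ω B
    have hun := hN M hMN hf P₁ (by
      intro v hv he
      apply hPS v hv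
      rw [← he]
      ext x
      rw [V5a_comap hB, V5a_comap hB₁])
    exact hc k Ω hac halg M (M₁ ⊔ M₂) hME hEf hg B P₁ hB₁ hun σ hσ
  have hLE : L ≤ M₁ ⊔ M₂ := by
    apply hle k Ω hac halg L (M₁ ⊔ M₂)
    intro σ hσ
    exact hfix σ (fun x hx => hσ x ((le_sup_left : M₁ ≤ M₁ ⊔ M₂) hx))
      (fun x hx => hσ x ((le_sup_right : M₂ ≤ M₁ ⊔ M₂) hx))
  refine hi k Ω hac halg L (M₁ ⊔ M₂) hLE hEf hEg B P hB ?_
  intro σ hσ
  exact hfix σ (key N₁ M₁ hN₁ hM₁ hf₁ hg₁ le_sup_left σ hσ)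
    (key N₂ M₂ hN₂ hM₂ hf₂ hg₂ le_sup_right σ hσ)

end Pool.Agent.Lib.MP_869d3b_nt
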