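import Pool.Agent.Lib.MP_869d3b_nt.StmV2

/-!
# MP_869d3b_nt, [V5b] unramifiedness at the prime below `B₀` of a field inside `FB B₀ · M₃`
-/

set_option autoImplicit false

open NumberField IsDedekindDomain

namespace Pool.Agent.Lib.MP_869d3b_nt

private theorem V5b_comap {k Ω : Type} [Field k] [Field Ω] [Algebra k Ω]
    {B : ValuationSubring Ω} {M : IntermediateField k Ω} {P : Ideal (𝓞 M)} (h : Below B M P)
    (x : 𝓞 k) : x ∈ P.comap (algebraMap (𝓞 k) (𝓞 M)) ↔ algebraMap k Ω (x : k) ∈ B.nonunits := by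
  rw [Ideal.mem_comap, h]
  exact Iff.rfl

theorem piece_V5b (h2 : S_below2) (hi : S_inert) (hc : S_inertConv) (hf : S_fin)
    (hL3 : ∀ (Ω : Type) [Field Ω] [CharZero Ω], S_L3 Ω) : S_V5b := by
  intro k Ω _ _ _ _ _ hac halg B₀ hB₀ S₃ N₃ M₃ L hS₃ hN₃ hM₃ hf₃ hg₃ hfL hfix P hP hBP
  have hQ : Algebra.IsAlgebraic ℚ Ω := by
    have : Algebra.IsAlgebraic ℚ k := inferInstance
    exact Algebra.IsAlgebraic.trans ℚ k Ω
  obtain ⟨E, hEf, hEg, hLE, hE⟩ := hf k Ω hac halg ((FB B₀ : Set Ω) ∪ (M₃ : Set Ω)) L hfL (by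
    intro σ hσ
    exact hfix σ (fun x hx => hσ x (Or.inl hx)) (fun x hx => hσ x (Or.inr hx)))
  have hE'f : FiniteDimensional k ↥(E ⊔ M₃) := IntermediateField.finiteDimensional_sup E M₃
  have hE'g : IsGalois k ↥(E ⊔ M₃) := inferInstance
  refine hi k Ω hac halg L (E ⊔ M₃) (hLE.trans le_sup_left) hE'f hE'g B₀ P hBP ?_
  intro σ hσ
  obtain ⟨P₃, hP₃, hB₃⟩ := h2 M₃ Ω B₀
  have hun := hN₃ M₃ hM₃ hf₃ P₃ (by
    intro w hw he
    apply hS₃ w hw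
    intro x
    rw [← he]
    exact V5b_comap hB₃ x)
  have hσ3 := hc k Ω hac halg M₃ (E ⊔ M₃) le_sup_right hE'f hg₃ B₀ P₃ hB₃ hun σ hσ
  apply hE σ
  rintro x (hx | hx) hxE
  · exact hL3 Ω hQ B₀ hB₀ (E ⊔ M₃).toSubfield (σ : Ω ≃+* Ω) hσ x
      ((le_sup_left : E ≤ E ⊔ M₃) hxE) hx
  · exact hσ3 x hx

end Pool.Agent.Lib.MP_869d3b_nt
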