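import Pool.Agent.Lib.MP_869d3b_nt.StmV1

/-!
# MP_869d3b_nt, piece `Vcyc`

The layer of level `m` of a character with a unit value is cyclic of degree `2 ^ m`.
-/

set_option autoImplicit false

open NumberField IsDedekindDomain

namespace Pool.Agent.Lib.MP_869d3b_nt

private noncomputable def Vcyc_phi {k Ω : Type} [Field k] [Field Ω] [Algebra k Ω]
    (ψ : (Ω ≃ₐ[k] Ω) →* Multiplicative ℤ_[2]) (m : ℕ) :
    (Ω ≃ₐ[k] Ω) →* Multiplicative (ZMod (2 ^ m)) :=
  (AddMonoidHom.toMultiplicative (PadicInt.toZModPow (p := 2) m).toAddMonoidHom).comp ψ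

private lemma Vcyc_phi_apply {k Ω : Type} [Field k] [Field Ω] [Algebra k Ω]
    (ψ : (Ω ≃ₐ[k] Ω) →* Multiplicative ℤ_[2]) (m : ℕ) (σ : Ω ≃ₐ[k] Ω) :
    Multiplicative.toAdd (Vcyc_phi ψ m σ) =
      PadicInt.toZModPow (p := 2) m (Multiplicative.toAdd (ψ σ)) := rfl

private lemma Vcyc_mem_ker {k Ω : Type} [Field k] [Field Ω] [Algebra k Ω]
    (ψ : (Ω ≃ₐ[k] Ω) →* Multiplicative ℤ_[2]) (m : ℕ) (σ : Ω ≃ₐ[k] Ω) :
    σ ∈ (Vcyc_phi ψ m).ker ↔ Dv m (ψ σ) := by
  rw [MonoidHom.mem_ker]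
  have h1 : Vcyc_phi ψ m σ = 1 ↔ Multiplicative.toAdd (Vcyc_phi ψ m σ) = 0 := by
    constructor
    · intro h
      rw [h]
      rfl
    · intro h
      exact Multiplicative.toAdd.injective h
  rw [h1, Vcyc_phi_apply, ← RingHom.mem_ker, PadicInt.ker_toZModPow, Ideal.mem_span_singleton]
  rfl

private lemma Vcyc_phi_surj {k Ω : Type} [Field k] [Field Ω] [Algebra k Ω]
    (ψ : (Ω ≃ₐ[k] Ω) →* Multiplicative ℤ_[2]) (m : ℕ)
    (h : ∃ σ₀, IsUnit (Multiplicative.toAdd (ψ σ₀))) :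
    Function.Surjective (Vcyc_phi ψ m) := by
  obtain ⟨σ₀, hu⟩ := h
  have hu' : IsUnit (PadicInt.toZModPow (p := 2) m (Multiplicative.toAdd (ψ σ₀))) :=
    hu.map (PadicInt.toZModPow (p := 2) m)
  obtain ⟨u, hu''⟩ := hu'
  intro z
  have hne : NeZero (2 ^ m) := ⟨by positivity⟩
  refine ⟨σ₀ ^ ((Multiplicative.toAdd z * ((u⁻¹ : (ZMod (2 ^ m))ˣ) : ZMod (2 ^ m))).val), ?_⟩
  apply Multiplicative.toAdd.injective
  rw [map_pow, toAdd_pow, Vcyc_phi_apply, ← hu'', nsmul_eq_mul, ZMod.natCast_zmod_val, mul_assoc,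
    Units.inv_mul, mul_one]

theorem piece_Vcyc : S_Vcyc := by
  intro k Ω _ _ _ _ _ _ ψ m M hψ hu hfd hgal hM
  haveI : IsAlgClosure k Ω := ⟨inferInstance, inferInstance⟩
  haveI : Normal k Ω := IsAlgClosure.normal k Ω
  haveI : Normal k M := IsGalois.to_normal
  have hr : Function.Surjective
      (AlgEquiv.restrictNormalHom M : (Ω ≃ₐ[k] Ω) →* (M ≃ₐ[k] M)) :=
    AlgEquiv.restrictNormalHom_surjective Ω
  have hker : (AlgEquiv.restrictNormalHom M : (Ω ≃ₐ[k] Ω) →* (M ≃ₐ[k] M)).ker =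
      (Vcyc_phi ψ m).ker := by
    ext σ
    rw [Vcyc_mem_ker, ← hM σ, MonoidHom.mem_ker]
    constructor
    · intro h x hx
      have h2 := AlgEquiv.restrictNormal_commutes σ M ⟨x, hx⟩
      have h3 : (AlgEquiv.restrictNormalHom M σ) ⟨x, hx⟩ = (⟨x, hx⟩ : M) := by
        rw [h]
        rfl
      have h4 : σ.restrictNormal M ⟨x, hx⟩ = (⟨x, hx⟩ : M) := h3
      rw [h4] at h2
      exact h2.symm
    · intro h
      apply AlgEquiv.ext
      intro x
      apply Subtype.ext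
      have h2 := AlgEquiv.restrictNormal_commutes σ M x
      have h5 := h (x : Ω) x.2
      exact h2.trans h5
  have e : (M ≃ₐ[k] M) ≃* Multiplicative (ZMod (2 ^ m)) :=
    ((QuotientGroup.quotientKerEquivOfSurjective _ hr).symm.trans
      (QuotientGroup.quotientMulEquivOfEq hker)).trans
      (QuotientGroup.quotientKerEquivOfSurjective _ (Vcyc_phi_surj ψ m hu))
  constructor
  · exact isCyclic_of_surjective e.symm.toMonoidHom e.symm.surjective
  · haveI := hfd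
    haveI := hgal
    rw [← IsGalois.card_aut_eq_finrank k M, Nat.card_congr e.toEquiv]
    have : Nat.card (Multiplicative (ZMod (2 ^ m))) = Nat.card (ZMod (2 ^ m)) :=
      Nat.card_congr Multiplicative.toAdd
    rw [this, Nat.card_zmod]

end Pool.Agent.Lib.MP_869d3b_nt
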