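import Pool.Agent.Lib.MP_869d3b_nt.StmV1

set_option autoImplicit false

namespace Pool.Agent.Lib.MP_869d3b_nt

theorem piece_Vdep : S_Vdep := by
  intro x₁ x₂ x₃ y₁ y₂ y₃
  have hdet : (!![x₁, x₂, x₃; y₁, y₂, y₃; 0, 0, 0] : Matrix (Fin 3) (Fin 3) ℤ_[2]).det = 0 := by
    rw [Matrix.det_fin_three]
    simp
  obtain ⟨v, hv, h⟩ := Matrix.exists_mulVec_eq_zero_iff.mpr hdet
  have h0 := congrFun h 0
  have h1 := congrFun h 1
  simp [Matrix.mulVec, dotProduct, Fin.sum_univ_three] at h0 h1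
  refine ⟨v 0, v 1, v 2, ?_, ?_, ?_⟩
  · rintro ⟨a0, a1, a2⟩
    apply hv
    funext i
    fin_cases i
    · exact a0
    · exact a1
    · exact a2
  · linear_combination h0
  · linear_combination h1

end Pool.Agent.Lib.MP_869d3b_nt
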