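import Pool.Agent.Lib.MP_869d3b_nt.StmV1

/-!
# MP_869d3b_nt, uniqueness part: piece Vdiv
-/

set_option autoImplicit false

open NumberField IsDedekindDomain

namespace Pool.Agent.Lib.MP_869d3b_nt

theorem piece_Vdiv : S_Vdiv := by
  classical
  intro G _ _ ψ hψ hne
  have hex : ∃ j : ℕ, ∃ σ, Multiplicative.toAdd (ψ σ) ≠ 0 ∧
      (Multiplicative.toAdd (ψ σ)).valuation = j := by
    obtain ⟨σ, hσ⟩ := hne
    exact ⟨_, σ, fun h => hσ (toAdd_eq_zero.1 h), rfl⟩
  obtain ⟨σ₀, h0, hv0⟩ := Nat.find_spec hex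
  have hmin := fun m hm => Nat.find_min hex (m := m) hm
  obtain ⟨j, hj⟩ : ∃ j, j = Nat.find hex := ⟨_, rfl⟩
  rw [← hj] at hv0 hmin
  have hdvd : ∀ σ, (2 : ℤ_[2]) ^ j ∣ Multiplicative.toAdd (ψ σ) := by
    intro σ
    by_cases h : Multiplicative.toAdd (ψ σ) = 0
    · rw [h]
      exact dvd_zero _
    · have h1 : j ≤ (Multiplicative.toAdd (ψ σ)).valuation := by
        by_contra hlt
        exact hmin _ (not_le.1 hlt) ⟨σ, h, rfl⟩
      exact Ideal.mem_span_singleton.1
        ((PadicInt.mem_span_pow_iff_le_valuation _ h j).2 h1)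
  choose q hq using hdvd
  have h2 : (2 : ℤ_[2]) ^ j ≠ 0 := pow_ne_zero _ two_ne_zero
  have hmul : ∀ σ τ, q (σ * τ) = q σ + q τ := by
    intro σ τ
    apply mul_left_cancel₀ h2
    rw [mul_add, ← hq, ← hq, ← hq, map_mul, toAdd_mul]
  let ψ' : G →* Multiplicative ℤ_[2] :=
    MonoidHom.mk' (fun σ => Multiplicative.ofAdd (q σ)) fun σ τ => by
      rw [hmul, ofAdd_add]
  have hq' : ∀ σ, Multiplicative.toAdd (ψ' σ) = q σ := fun σ => rfl
  refine ⟨j, ψ', ?_, fun σ => by rw [hq', hq σ], σ₀, ?_⟩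
  · have hemb : Topology.IsClosedEmbedding fun x : ℤ_[2] => (2 : ℤ_[2]) ^ j * x :=
      Continuous.isClosedEmbedding (continuous_const.mul continuous_id) (mul_right_injective₀ h2)
    have hc : Continuous q := by
      rw [hemb.isInducing.continuous_iff]
      have h3 : (fun x : ℤ_[2] => (2 : ℤ_[2]) ^ j * x) ∘ q =
          fun σ => Multiplicative.toAdd (ψ σ) := funext fun σ => (hq σ).symm
      rw [h3]
      exact continuous_toAdd.comp hψ
    exact continuous_ofAdd.comp hc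
  · rw [hq']
    have h3 := PadicInt.unitCoeff_spec h0
    rw [hv0] at h3
    have h4 : q σ₀ = (PadicInt.unitCoeff h0 : ℤ_[2]) := by
      apply mul_left_cancel₀ h2
      rw [← hq, mul_comm]
      exact_mod_cast h3
    rw [h4]
    exact Units.isUnit _

end Pool.Agent.Lib.MP_869d3b_nt
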