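import Pool.Agent.Lib.MP_869d3b_nt.StmV1

/-!
# MP_869d3b_nt, piece Vlay: the layer of level `m` of a character
-/

set_option autoImplicit false

namespace Pool.Agent.Lib.MP_869d3b_nt

private theorem vlay_open (m : ℕ) : IsOpen {u : Multiplicative ℤ_[2] | Dv m u} := by
  have h1 : IsOpen {x : ℤ_[2] | (2 : ℤ_[2]) ^ m ∣ x} := by
    have h2 : {x : ℤ_[2] | (2 : ℤ_[2]) ^ m ∣ x} = {x : ℤ_[2] | ‖x‖ ≤ (2 : ℝ) ^ (-(m : ℤ))} := by
      ext x
      have h3 := PadicInt.norm_le_pow_iff_mem_span_pow (p := 2) x m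
      rw [Ideal.mem_span_singleton] at h3
      exact_mod_cast h3.symm
    rw [h2]
    have h4 : {x : ℤ_[2] | ‖x‖ ≤ (2 : ℝ) ^ (-(m : ℤ))} =
        Metric.closedBall (0 : ℤ_[2]) ((2 : ℝ) ^ (-(m : ℤ))) := by
      ext x
      simp
    rw [h4]
    exact IsUltrametricDist.isOpen_closedBall _ (by positivity)
  exact h1

theorem piece_Vlay : S_Vlay := by
  intro k Ω _ _ _ _ _ _ ψ hψ m
  have : IsGalois k Ω := by
    have : IsAlgClosure k Ω := ⟨inferInstance, inferInstance⟩
    exact IsAlgClosure.isGalois k Ω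
  set H : Subgroup (Ω ≃ₐ[k] Ω) :=
    { carrier := {σ | Dv m (ψ σ)}
      mul_mem' := by
        intro a b ha hb
        show Dv m (ψ (a * b))
        rw [map_mul]
        exact dvd_add ha hb
      one_mem' := by
        show Dv m (ψ 1)
        rw [map_one]
        exact dvd_zero _
      inv_mem' := by
        intro a ha
        show Dv m (ψ a⁻¹)
        rw [map_inv]
        exact (dvd_neg).mpr ha } with hH
  have hmem : ∀ σ, σ ∈ H ↔ Dv m (ψ σ) := fun σ => Iff.rfl
  have hopen : IsOpen (H : Set (Ω ≃ₐ[k] Ω)) := (vlay_open m).preimage hψ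
  have hclosed : IsClosed (H : Set (Ω ≃ₐ[k] Ω)) := Subgroup.isClosed_of_isOpen H hopen
  have hnormal : H.Normal := by
    refine ⟨fun σ hσ τ => ?_⟩
    rw [hmem, map_mul, map_mul, map_inv, mul_comm (ψ τ), mul_assoc, mul_inv_cancel, mul_one]
    exact hσ
  have hfix := InfiniteGalois.fixingSubgroup_fixedField (k := k) (K := Ω) ⟨H, hclosed⟩
  refine ⟨IntermediateField.fixedField H, ?_, ?_, ?_⟩
  · rw [← InfiniteGalois.isOpen_iff_finite]
    have : (IntermediateField.fixedField H).fixingSubgroup = H := hfix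
    rw [this]
    exact hopen
  · rw [← InfiniteGalois.normal_iff_isGalois]
    have : (IntermediateField.fixedField H).fixingSubgroup = H := hfix
    rw [this]
    exact hnormal
  · intro σ
    rw [← hmem]
    have h1 : (IntermediateField.fixedField H).fixingSubgroup = H := hfix
    constructor
    · intro h
      have h2 : σ ∈ (IntermediateField.fixedField H).fixingSubgroup :=
        (IntermediateField.mem_fixingSubgroup_iff _ _).mpr h
      rwa [h1] at h2
    · intro h
      have h2 : σ ∈ (IntermediateField.fixedField H).fixingSubgroup := by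
        rw [h1]
        exact h
      exact (IntermediateField.mem_fixingSubgroup_iff _ _).mp h2

end Pool.Agent.Lib.MP_869d3b_nt
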