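import Pool.Agent.Lib.MP_869d3b_nt.StmV1

/-!
# [V lin] Linear combinations of characters are characters
-/

set_option autoImplicit false

namespace Pool.Agent.Lib.MP_869d3b_nt

theorem piece_Vlin : S_Vlin := by
  intro G _ _ χ₁ χ₂ χ₃ h1 h2 h3 a b c
  have t1 : Continuous fun σ => Multiplicative.toAdd (χ₁ σ) := continuous_toAdd.comp h1
  have t2 : Continuous fun σ => Multiplicative.toAdd (χ₂ σ) := continuous_toAdd.comp h2
  have t3 : Continuous fun σ => Multiplicative.toAdd (χ₃ σ) := continuous_toAdd.comp h3
  refine ⟨{ toFun := fun σ => Multiplicative.ofAdd (a * Multiplicative.toAdd (χ₁ σ) +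
              b * Multiplicative.toAdd (χ₂ σ) + c * Multiplicative.toAdd (χ₃ σ))
            map_one' := by simp
            map_mul' := fun σ τ => by
              rw [← ofAdd_add]
              congr 1
              rw [MonoidHom.map_mul, MonoidHom.map_mul, MonoidHom.map_mul, toAdd_mul, toAdd_mul,
                toAdd_mul]
              ring }, ?_, fun σ => rfl⟩
  exact continuous_ofAdd.comp
    (((continuous_const.mul t1).add (continuous_const.mul t2)).add (continuous_const.mul t3))

end Pool.Agent.Lib.MP_869d3b_nt
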