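import Pool.Agent.Lib.MP_869d3b_nt.StmV2

/-!
# MP_869d3b_nt, [V mov] an element not in the subfield `F ⊇ k` is moved over `F`
-/

set_option autoImplicit false

open NumberField IsDedekindDomain

namespace Pool.Agent.Lib.MP_869d3b_nt

theorem piece_Vmov : S_Vmov := by
  intro k Ω _ _ _ _ hac halg F hF x hx
  have hFalg : Algebra.IsAlgebraic F Ω := by
    let : Algebra k F := ((algebraMap k Ω).codRestrict F.toSubring (fun y => hF y)).toAlgebra
    have : IsScalarTower k F Ω := IsScalarTower.of_algebraMap_eq (fun y => rfl)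
    exact Algebra.IsAlgebraic.tower_top (K := k) F
  have : IsAlgClosure F Ω := ⟨hac, hFalg⟩
  have : IsGalois F Ω := {}
  have hex : ∃ τ : Ω ≃ₐ[F] Ω, τ x ≠ x := by
    by_contra hcon
    push Not at hcon
    apply hx
    have h := (InfiniteGalois.mem_bot_iff_fixed (k := F) (K := Ω) x).2 hcon
    rw [IntermediateField.mem_bot] at h
    obtain ⟨y, hy⟩ := h
    rw [← hy]
    exact y.2
  obtain ⟨τ, hτ⟩ := hex
  refine ⟨AlgEquiv.ofRingEquiv (f := τ.toRingEquiv) (fun y => ?_), ?_, ?_⟩
  · exact τ.commutes ⟨algebraMap k Ω y, hF y⟩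
  · intro y hy
    exact τ.commutes ⟨y, hy⟩
  · exact hτ

end Pool.Agent.Lib.MP_869d3b_nt
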