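import Pool.Agent.Lib.MP_869d3b_nt.StmV1

/-!
# MP_869d3b_nt, uniqueness part: piece Vres
-/

set_option autoImplicit false

open NumberField IsDedekindDomain

namespace Pool.Agent.Lib.MP_869d3b_nt

/-- restriction of scalars -/
private def Vres_map {k Ω : Type} [Field k] [Field Ω] [Algebra k Ω] (F : Subfield Ω)
    (hF : ∀ x : k, algebraMap k Ω x ∈ F) : (Ω ≃ₐ[F] Ω) →* (Ω ≃ₐ[k] Ω) where
  toFun σ := AlgEquiv.ofRingEquiv (f := (σ : Ω ≃+* Ω)) fun x => σ.commutes ⟨algebraMap k Ω x, hF x⟩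
  map_one' := AlgEquiv.ext fun _ => rfl
  map_mul' _ _ := AlgEquiv.ext fun _ => rfl

private theorem Vres_apply {k Ω : Type} [Field k] [Field Ω] [Algebra k Ω] (F : Subfield Ω)
    (hF : ∀ x : k, algebraMap k Ω x ∈ F) (σ : Ω ≃ₐ[F] Ω) (x : Ω) : Vres_map F hF σ x = σ x := rfl

private theorem Vres_cont {k Ω : Type} [Field k] [Field Ω] [Algebra k Ω]
    [Algebra.IsAlgebraic k Ω] (F : Subfield Ω) (hF : ∀ x : k, algebraMap k Ω x ∈ F) :
    Continuous (Vres_map (k := k) F hF) := by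
  refine continuous_of_continuousAt_one _ ?_
  intro s hs
  rw [map_one, krullTopology_mem_nhds_one_iff] at hs
  obtain ⟨E, hE, hEs⟩ := hs
  rw [Filter.mem_map, krullTopology_mem_nhds_one_iff]
  let b := Module.finBasis k E
  let S : Set Ω := Set.range fun i => (b i : Ω)
  have hfin : FiniteDimensional F (IntermediateField.adjoin F S) := by
    have : Finite S := Set.finite_range _
    refine IntermediateField.finiteDimensional_adjoin fun x _ => ?_
    obtain ⟨P, hP, hPx⟩ := (Algebra.IsAlgebraic.isAlgebraic (R := k) x).isIntegral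
    let f : k →+* F := (algebraMap k Ω).codRestrict F hF
    refine ⟨P.map f, hP.map f, ?_⟩
    rw [Polynomial.eval₂_map]
    exact hPx
  refine ⟨IntermediateField.adjoin F S, hfin, ?_⟩
  intro σ hσ
  apply hEs
  have hfix : ∀ x ∈ IntermediateField.adjoin F S, σ x = x := fun x hx =>
    (IntermediateField.mem_fixingSubgroup_iff _ σ).1 hσ x hx
  show Vres_map F hF σ ∈ E.fixingSubgroup
  rw [IntermediateField.mem_fixingSubgroup_iff]
  intro x hx
  rw [Vres_apply]
  apply hfix
  have h1 := b.sum_repr ⟨x, hx⟩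
  have h2 : x = ∑ i, algebraMap k Ω (b.repr ⟨x, hx⟩ i) * (b i : Ω) := by
    have h3 := congrArg (fun z : E => (z : Ω)) h1
    simp only [AddSubmonoidClass.coe_finsetSum] at h3
    refine h3.symm.trans (Finset.sum_congr rfl fun i _ => ?_)
    rw [IntermediateField.coe_smul, Algebra.smul_def]
  rw [h2]
  refine sum_mem fun i _ => mul_mem ?_ (IntermediateField.subset_adjoin F S ⟨i, rfl⟩)
  exact IntermediateField.algebraMap_mem _ (⟨algebraMap k Ω (b.repr ⟨x, hx⟩ i), hF _⟩ : F)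

theorem piece_Vres : S_Vres := by
  intro k Ω _ _ _ _ F hF
  refine ⟨Vres_map F hF, Vres_cont F hF, Vres_apply F hF, fun σ hσ => ?_⟩
  exact ⟨AlgEquiv.ofRingEquiv (f := (σ : Ω ≃+* Ω)) fun x => hσ x x.2, AlgEquiv.ext fun _ => rfl⟩

end Pool.Agent.Lib.MP_869d3b_nt
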