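import Pool.Agent.Lib.MP_869d3b_nt.StmV1

/-!
[CM Vtre] In a Galois extension the primes above a given prime are all unramified or all ramified
(MP_869d3b_nt).
-/

set_option autoImplicit false

open NumberField IsDedekindDomain

namespace Pool.Agent.Lib.MP_869d3b_nt

theorem piece_Vtre : S_Vtre := by
  intro k L _ _ _ _ _ _ P Q _ _ h hP
  have hPQ : P.under (𝓞 k) = Q.under (𝓞 k) := h
  have := IsGaloisGroup.of_isFractionRing Gal(L/k) (𝓞 k) (𝓞 L) k L
  rwa [← Ideal.ramificationIdx_eq_one_iff,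
    ← Ideal.ramificationIdxIn_eq_ramificationIdx (Q.under (𝓞 k)) _ Gal(L/k), ← hPQ,
    Ideal.ramificationIdxIn_eq_ramificationIdx _ P Gal(L/k), Ideal.ramificationIdx_eq_one_iff]

end Pool.Agent.Lib.MP_869d3b_nt
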