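import Pool.Agent.Lib.MP_869d3b_nt.AllM
import Pool.Agent.Lib.MP_869d3b_nt.P_Vlin
import Pool.Agent.Lib.MP_869d3b_nt.P_Vdep
import Pool.Agent.Lib.MP_869d3b_nt.P_Vdiv
import Pool.Agent.Lib.MP_869d3b_nt.P_Vres
import Pool.Agent.Lib.MP_869d3b_nt.P_V3
import Pool.Agent.Lib.MP_869d3b_nt.P_V4
import Pool.Agent.Lib.MP_869d3b_nt.P_Vlay
import Pool.Agent.Lib.MP_869d3b_nt.P_Vcyc
import Pool.Agent.Lib.MP_869d3b_nt.P_Vtre
import Pool.Agent.Lib.MP_869d3b_nt.P_Vle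
import Pool.Agent.Lib.MP_869d3b_nt.P_Vmov
import Pool.Agent.Lib.MP_869d3b_nt.P_V5a
import Pool.Agent.Lib.MP_869d3b_nt.P_V5b
import Pool.Agent.Lib.MP_869d3b_nt.P_V5
import Pool.Agent.Lib.MP_869d3b_nt.P_UNIQ
import Pool.Agent.Lib.MP_869d3b_nt.PU

/-!
# MP_869d3b_nt: section 5 assembled (from the local facts)
-/

set_option autoImplicit false

namespace Pool.Agent.Lib.MP_869d3b_nt

theorem a_V3 : S_V3 := piece_V3 piece_Vlin piece_Vdep piece_Vres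
theorem a_V4 : S_V4 := piece_V4 piece_Vlin piece_Vdiv
theorem a_V5a : S_V5a := piece_V5a p_below1 p_below2 a_inert a_inertConv piece_Vle
theorem a_V5b (hL3 : ∀ (Ω : Type) [Field Ω] [CharZero Ω], S_L3 Ω) : S_V5b :=
  piece_V5b p_below2 a_inert a_inertConv p_fin hL3
theorem a_V5 (hL3 : ∀ (Ω : Type) [Field Ω] [CharZero Ω], S_L3 Ω) : S_V5 :=
  piece_V5 a_V5a (a_V5b hL3) p_below2 piece_Vtre
theorem a_UNIQ (hL3 : ∀ (Ω : Type) [Field Ω] [CharZero Ω], S_L3 Ω)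
    (hV2 : ∀ (Ω : Type) [Field Ω] [CharZero Ω], S_V2 Ω) : S_UNIQ :=
  piece_UNIQ p_below1 p_chi hV2 a_V3 a_V4 piece_Vlay piece_Vcyc piece_Vle piece_Vmov (a_V5 hL3) p_U

end Pool.Agent.Lib.MP_869d3b_nt
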