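import Mathlib

/-!
# MP_869d3b_nt : finiteness of Iwasawa modules for p-adic CM-types, definitions

Part A: the public definitions of the problem (number fields, primes, `ℤ_p`-extensions, `X(F)`).
Part B: the elliptic curve `y² = z (z - 1) (z - p⁴)`, `p² = p - 2`.
Part C: limits of rational numbers with respect to a valuation ring.
-/

set_option autoImplicit false

open NumberField IsDedekindDomain

namespace Pool.Agent.Lib.MP_869d3b_nt

/-! ## A. The definitions of the problem -/

section Public

/-- The image of the prime `v` of the CM field `k` under complex conjugation. -/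
noncomputable def conjPrime (k : Type) [Field k] [NumberField k] [IsCMField k]
    (v : HeightOneSpectrum (𝓞 k)) : HeightOneSpectrum (𝓞 k) where
  asIdeal := v.asIdeal.comap (IsCMField.ringOfIntegersComplexConj k)
  isPrime := by
    have := v.isPrime
    exact Ideal.comap_isPrime _ _
  ne_bot := by
    intro h
    obtain ⟨x, hx, hx0⟩ := Submodule.exists_mem_ne_zero_of_ne_bot v.ne_bot
    have h1 : (IsCMField.ringOfIntegersComplexConj k).symm x ∈
        v.asIdeal.comap (IsCMField.ringOfIntegersComplexConj k) := by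
      rw [Ideal.mem_comap, AlgEquiv.apply_symm_apply]
      exact hx
    rw [h, Ideal.mem_bot] at h1
    exact hx0 ((map_eq_zero_iff _ (AlgEquiv.injective _)).1 h1)

/-- `S` is a `p`-adic CM-type of the CM field `k`: `S ∪ S̄` is the set of all primes of `k`
above `p` and `S ∩ S̄ = ∅`. -/
structure IsCMType (p : ℕ) (k : Type) [Field k] [NumberField k] [IsCMField k]
    (S : Set (HeightOneSpectrum (𝓞 k))) : Prop where
  union : S ∪ conjPrime k '' S = {v | (p : 𝓞 k) ∈ v.asIdeal}
  inter : S ∩ conjPrime k '' S = ∅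

/-- Every prime of the maximal real subfield `k⁺` above `p` splits in `k` (there are two different
primes of `k` above it; `[k : k⁺] = 2`). -/
def RealPrimesSplit (p : ℕ) (k : Type) [Field k] [NumberField k] [IsCMField k] : Prop :=
  ∀ q : Ideal (𝓞 (maximalRealSubfield k)), q.IsPrime → (p : 𝓞 (maximalRealSubfield k)) ∈ q →
    ∃ v w : HeightOneSpectrum (𝓞 k), v ≠ w ∧
      v.asIdeal.comap (algebraMap (𝓞 (maximalRealSubfield k)) (𝓞 k)) = q ∧
      w.asIdeal.comap (algebraMap (𝓞 (maximalRealSubfield k)) (𝓞 k)) = q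

/-- `N/k` is a `ℤ_p`-extension: Galois with Galois group topologically isomorphic to `ℤ_p`. -/
structure IsZpExtension (p : ℕ) [Fact p.Prime] {k Ω : Type} [Field k] [Field Ω] [Algebra k Ω]
    (N : IntermediateField k Ω) : Prop where
  isGalois : IsGalois k N
  iso : Nonempty ((N ≃ₐ[k] N) ≃ₜ* Multiplicative ℤ_[p])

/-- `N/k` is unramified outside `S`: every finite subextension `M/k` of `N/k` is unramified at
every prime of `M` which does not lie above a prime in `S`. -/
def UnramifiedOutside {k Ω : Type} [Field k] [NumberField k] [Field Ω] [Algebra k Ω]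
    (S : Set (HeightOneSpectrum (𝓞 k))) (N : IntermediateField k Ω) : Prop :=
  ∀ M : IntermediateField k Ω, M ≤ N → FiniteDimensional k M →
    ∀ (P : Ideal (𝓞 M)) [P.IsPrime], (∀ v ∈ S, P.comap (algebraMap (𝓞 k) (𝓞 M)) ≠ v.asIdeal) →
      Algebra.IsUnramifiedAt (𝓞 k) P

/-- `M/F` is a finite abelian extension of `p`-power degree which is unramified everywhere (for
every valuation ring of `M` the inertia group in `Gal(M/F)` is trivial). -/
structure IsUnramifiedAbelianP (p : ℕ) {F Ω : Type} [Field F] [Field Ω] [Algebra F Ω]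
    (M : IntermediateField F Ω) : Prop where
  finite : FiniteDimensional F M
  galois : IsGalois F M
  comm : ∀ σ τ : M ≃ₐ[F] M, σ * τ = τ * σ
  degree : ∃ n : ℕ, Module.finrank F M = p ^ n
  unramified : ∀ B : ValuationSubring M, B.inertiaSubgroup F = ⊥

/-- `L(F)`: the maximal unramified abelian pro-`p` extension of `F` (in `Ω`), the compositum of all
finite unramified abelian extensions of `p`-power degree. -/
noncomputable def maxUnramified (p : ℕ) (F Ω : Type) [Field F] [Field Ω] [Algebra F Ω] :
    IntermediateField F Ω :=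
  sSup {M : IntermediateField F Ω | IsUnramifiedAbelianP p M}

/-- `X(F) = Gal(L(F)/F)`. -/
abbrev X (p : ℕ) (F Ω : Type) [Field F] [Field Ω] [Algebra F Ω] : Type :=
  maxUnramified p F Ω ≃ₐ[F] maxUnramified p F Ω

end Public

/-! ## B. The curve -/

section Curve

variable {Ω : Type} [Field Ω]

/-- The curve `y² = z (z - 1) (z - p⁴)`. -/
def cv (p : Ω) : WeierstrassCurve.Affine Ω :=
  { a₁ := 0, a₂ := -(1 + p ^ 4), a₃ := 0, a₄ := p ^ 4, a₆ := 0 }

/-- The equation of the curve. -/
def OnC (p z y : Ω) : Prop := y ^ 2 = z * (z - 1) * (z - p ^ 4)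

variable [DecidableEq Ω]

/-- The group of points. -/
abbrev Pt (p : Ω) : Type := (cv p).Point

/-- `P` is the affine point with coordinates `z`, `y`. -/
def HasC {p : Ω} (P : Pt p) (z y : Ω) : Prop :=
  ∃ h : (cv p).Nonsingular z y, P = WeierstrassCurve.Affine.Point.some z y h

/-- `φ` is the endomorphism with kernel `{0, (1,0)}`. -/
structure IsPhi (p : Ω) (φ : Pt p →+ Pt p) : Prop where
  one : ∀ P : Pt p, HasC P 1 0 → φ P = 0
  aff : ∀ (P : Pt p) (z y : Ω), HasC P z y → z ≠ 1 →
    HasC (φ P) (z * (z - p ^ 4) / (p ^ 2 * (z - 1)))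
      (y * ((1 - p) ^ 4 - (z - 1) ^ 2) / (p ^ 3 * (z - 1) ^ 2))

/-- `g` is the action of the automorphism `σ` on the points. -/
def IsAct (p : Ω) (σ : Ω ≃+* Ω) (g : Pt p ≃+ Pt p) : Prop :=
  ∀ (P : Pt p) (z y : Ω), HasC P z y → HasC (g P) (σ z) (σ y)

/-- The coordinates of `P` are in `F`. -/
def Rat {p : Ω} (F : Subfield Ω) (P : Pt p) : Prop := ∀ z y : Ω, HasC P z y → z ∈ F ∧ y ∈ F

/-- `t 1, t 2, ...` is a compatible system of generators of the kernels of the powers of `φ`. -/
structure IsTower (p : Ω) (φ : Pt p →+ Pt p) (t : ℕ → Pt p) : Prop where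
  zero : t 0 = 0
  one : HasC (t 1) 1 0
  two : HasC (t 2) (-p) (p * (1 + p))
  step : ∀ n, φ (t (n + 1)) = t n

end Curve

/-! ## C. Limits of rational numbers -/

section Limits

variable {Ω : Type} [Field Ω]

/-- `x` is a limit of rational numbers for the `2`-adic topology given by `B`. -/
def Lim (B : ValuationSubring Ω) (x : Ω) : Prop := ∀ N : ℕ, ∃ q : ℚ, (x - (q : Ω)) / 2 ^ N ∈ B

/-- The field of the limits of rational numbers. -/
def FB (B : ValuationSubring Ω) : Subfield Ω := Subfield.closure {x | Lim B x}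

/-- `x = 2^j w` with `w ≡ 1` modulo `4`. -/
def O4 (B : ValuationSubring Ω) (x : Ω) : Prop :=
  ∃ (j : ℤ) (w : Ω), x = 2 ^ j * w ∧ (w - 1) / 4 ∈ B

end Limits

end Pool.Agent.Lib.MP_869d3b_nt
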