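import Mathlib

/-!
# MP_869d3b_nt : definitions for Theorem U

Everything takes place in the group `Lˣ`, `L/k` a finite cyclic extension of number fields with
generator `g` of the Galois group.
-/

set_option autoImplicit false

open NumberField IsDedekindDomain

namespace Pool.Agent.Lib.MP_869d3b_nt.U

section Defs

variable {k L : Type} [Field k] [Field L] [Algebra k L]

/-- The action of an automorphism on `Lˣ`. -/
def act (g : L ≃ₐ[k] L) : Lˣ →* Lˣ := Units.map (g : L →* L)

/-- `x ↦ g x / x`. -/
def dMap (g : L ≃ₐ[k] L) : Lˣ →* Lˣ := act g / MonoidHom.id Lˣ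

/-- The norm `x ↦ ∏ σ, σ x`. -/
noncomputable def nMap (k L : Type) [Field k] [Field L] [Algebra k L] [FiniteDimensional k L] :
    Lˣ →* Lˣ := ∏ σ : L ≃ₐ[k] L, act σ

/-- The units of the ring of integers of `L`, as a subgroup of `Lˣ`. -/
def uE (L : Type) [Field L] : Subgroup Lˣ :=
  (Units.map (algebraMap (𝓞 L) L : (𝓞 L) →* L)).range

end Defs

end Pool.Agent.Lib.MP_869d3b_nt.U
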