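import Pool.Agent.Lib.MP_869d3b_nt.Defs

/-!
# MP_869d3b_nt : the concrete CM field `k = ℚ(s, r)`, `s² = -7`, `r² = 2145` (statements)

Every `def S_xx : Prop` is one independent piece; its docstring contains the complete proof.
`p₀ : 𝓞 k` is the element `(1 + s) / 2` (`p₀² = p₀ - 2`), `ρ = (1 + r) / 2` (`ρ² = ρ + 536`).
-/

set_option autoImplicit false

open NumberField IsDedekindDomain

namespace Pool.Agent.Lib.MP_869d3b_nt

/-- `k = ℚ(s, r)` with `s² = -7`, `r² = 2145`. -/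
structure IsK (k : Type) [Field k] [NumberField k] (s r : k) : Prop where
  hs : s ^ 2 = -7
  hr : r ^ 2 = 2145
  top : IntermediateField.adjoin ℚ {s, r} = ⊤

/-- [K ind] (about 70 lines) `1, s, r, sr` are linearly independent over `ℚ`.

Proof. (1) `s` is not rational (`q² ≥ 0 > -7`). (2) `e + f s = 0` implies `e = f = 0`. (3) `r ≠ e + f s` for `e, f ∈ ℚ`: squaring, `2145 = e² - 7 f² + 2 e f s`, so `e f = 0` and `e² - 7 f² = 2145` by (2);
`e = 0`: `-7 f² = 2145` is impossible (sign); `f = 0`: `e² = 2145` is impossible (`2145` is not a square: `46² = 2116 < 2145 < 47² = 2209`; e.g. `IsSquare` on `ℚ` reduces to `ℤ` by `Rat.isSquare_iff` or `Rat.sqrt`, or `irrational_sqrt`-like). (4) `(a + b s) + (c + d s) r = 0`: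
if `c + d s ≠ 0`, multiply by the conjugate `c - d s`: `(c² + 7 d²) r = - (a + b s)(c - d s)`, `c² + 7 d² ≠ 0`, so `r = e + f s` with rational `e, f`: contradiction to (3). So `c = d = 0`, then `a = b = 0` by (2). -/
def S_Kind : Prop :=
  ∀ (k : Type) [Field k] [NumberField k] (s r : k), IsK k s r → ∀ a b c d : ℚ,
    (a : k) + b * s + c * r + d * (s * r) = 0 → a = 0 ∧ b = 0 ∧ c = 0 ∧ d = 0

/-- [K rep] (about 60 lines) `1, s, r, sr` generate `k` over `ℚ`.

Proof. `s`, `r` are algebraic over `ℚ`, so `⊤ = adjoin ℚ {s, r}` is `Algebra.adjoin ℚ {s, r}` (`IntermediateField.adjoin_algebraic_toSubalgebra`). The set of the `a + b s + c r + d s r` is a subalgebra (closed under multiplication: `s² = -7`, `r² = 2145`)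
containing `s`, `r`; so it is everything (`Algebra.adjoin_induction` or `Algebra.adjoin_le`). -/
def S_Krep : Prop :=
  ∀ (k : Type) [Field k] [NumberField k] (s r : k), IsK k s r → ∀ x : k, ∃ a b c d : ℚ,
    x = (a : k) + b * s + c * r + d * (s * r)

/-- [K gal] (about 60 lines) Uses ind, rep. `k/ℚ` is Galois of degree four.

Proof. Degree: `1, s, r, sr` is a basis (`Basis.mk`, or `finrank_eq_of_..`/`Module.finrank_eq_card_basis`) by ind, rep. Galois: characteristic `0`, so separable; normal: `k` is the splitting field of `(X² + 7)(X² - 2145)` (`IsGalois.of_separable_splitting_field`, `IsSplittingField`), or: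
`k = adjoin ℚ {s, r}` and the minimal polynomials of `s`, `r` split (they divide `X² + 7 = (X - s)(X + s)`, `X² - 2145 = (X - r)(X + r)`): `IntermediateField.normal_iff_..`/`Normal.of_..adjoin` (`normal_iff_forall...`); any proof is fine. -/
def S_Kgal : Prop :=
  ∀ (k : Type) [Field k] [NumberField k] (s r : k), IsK k s r →
    IsGalois ℚ k ∧ Module.finrank ℚ k = 4

/-- [K aut] (about 70 lines) Uses rep, gal. The Galois group of `k/ℚ`.

Proof. `(σ s)² = -7 = s²` so `σ s = ± s`; the same for `r`. If `σ s = s` and `σ r = r` then `σ = 1` by rep. So `σ ↦ (σ s = s, σ r = r)` is injective into `Bool × Bool` (if `σ`, `τ` have the same signs then `σ⁻¹ τ` fixes `s`, `r`); the group has `4` elements (`IsGalois.card_aut_eq_finrank`), so it is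
bijective: all signs occur. -/
def S_Kaut : Prop :=
  ∀ (k : Type) [Field k] [NumberField k] (s r : k), IsK k s r →
    (∀ σ : k ≃ₐ[ℚ] k, (σ s = s ∨ σ s = -s) ∧ (σ r = r ∨ σ r = -r)) ∧
    (∀ σ : k ≃ₐ[ℚ] k, σ s = s → σ r = r → σ = 1) ∧
    (∃ σ : k ≃ₐ[ℚ] k, σ s = s ∧ σ r = -r) ∧ (∃ σ : k ≃ₐ[ℚ] k, σ s = -s ∧ σ r = r) ∧
    ∃ σ : k ≃ₐ[ℚ] k, σ s = -s ∧ σ r = -r

/-- [K tc] (about 20 lines) `k` is totally complex.

Proof. Let `w` be an infinite place; if it is real there is a real embedding `φ : k →+* ℝ` (`InfinitePlace.embedding_of_isReal`) and `φ(s)² = -7 < 0`: contradiction. So all places are complex (`InfinitePlace.not_isReal_iff_isComplex`). -/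
def S_Ktc : Prop :=
  ∀ (k : Type) [Field k] [NumberField k] (s r : k), IsK k s r → IsTotallyComplex k

/-- [K ex] (about 90 lines) Uses gal, aut, tc. Existence of `k`, a CM field.

Proof. In `ℂ` let `s = √7 I`, `r = √2145`, `k = IntermediateField.adjoin ℚ {s, r}` (as a type; a subfield of `ℂ`; finite dimensional over `ℚ` because `s`, `r` are integral: `IntermediateField.finiteDimensional_adjoin`; so a number field). `IsK` for the elements `⟨s, _⟩`, `⟨r, _⟩` of `k` (`top`: `IntermediateField.lift_injective`, `lift_adjoin`, `lift_top`, or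
`adjoin_induction`-like; alternatively take for `k` the splitting field of `(X² + 7)(X² - 2145)` over `ℚ`). CM: `k` is totally complex (tc) and `k/ℚ` is Galois (gal) with abelian Galois group (all `σ² = 1` by aut, so commutative: `mul_comm_of_exponent_two` or by hand), `IsAbelianGalois ℚ k`, and Mathlib has
the instance `NumberField.IsCMField.of_isAbelianGalois`. -/
def S_Kex : Prop :=
  ∃ (k : Type) (_ : Field k) (_ : NumberField k) (_ : IsCMField k) (s r : k), IsK k s r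

/-- [K conj] (about 40 lines) Complex conjugation.

Proof. Choose an embedding `φ : k →+* ℂ`. `φ (complexConj k x) = conj (φ x)` (`IsCMField.complexEmbedding_complexConj`). `φ(s)² = -7`: with `φ s = a + b I`: `a² - b² = -7`, `2 a b = 0`, so `a = 0` (`b = 0` gives `a² = -7`), so `conj (φ s) = - φ s = φ (-s)`. `φ(r)² = 2145`:
`2 a b = 0`, `a² - b² = 2145`, so `b = 0`, `conj (φ r) = φ r`. Injectivity of `φ`. -/
def S_Kconj : Prop :=
  ∀ (k : Type) [Field k] [NumberField k] [IsCMField k] (s r : k), IsK k s r →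
    IsCMField.complexConj k s = -s ∧ IsCMField.complexConj k r = r

/-- [K int] (about 25 lines) The integers `p₀` and `ρ`.

Proof. `x = (1 + s) / 2` is a root of `X² - X + 2`, `(1 + r) / 2` of `X² - X - 536` (`(2145 - 1) / 4 = 536`); so they are integral over `ℤ`. -/
def S_Kint : Prop :=
  ∀ (k : Type) [Field k] [NumberField k] (s r : k), IsK k s r →
    (∃ p₀ : 𝓞 k, 2 * (p₀ : k) = 1 + s) ∧ ∃ ρ : 𝓞 k, 2 * (ρ : k) = 1 + r

/-- [K sq] (about 100 lines) Uses ind, rep. Non-squares.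

Proof. Let `z = e₀ + f₀ s` with `e₀, f₀ ∈ ℚ` and suppose `z = y²`, `y = u + t r`, `u = a + b s`, `t = c + d s` (rep). `y² = u² + 2145 t² + 2 u t r`, so by ind `u t = 0` (the coefficients of `r` and `s r` of `2 u t r` vanish) and `z = u² + 2145 t²`; so `z = u²` or `z = 2145 t²`. Let
`N(e + f s) = e² + 7 f² ∈ ℚ` (multiplicative; `N` is well defined by ind). `N(z) = N(u)²` or `N(z) = (2145 N(t))²`, so `N(z)` is a square in `ℚ`.
`z = -p₀ = -1/2 - s/2`: `N = 1/4 + 7/4 = 2`. `z = -(1 - p₀) = -1/2 + s/2`: `N = 2`. `z = 39 p₀`: `N = 39² * 2`. All three are not squares in `ℚ` (`2` is not a square: `irrational_sqrt_two`, or `Rat`-`IsSquare`).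
`z = -39`: `-39 = u² = a² - 7 b² + 2 a b s`: `a b = 0`; `b = 0`: `a² = -39 < 0`; `a = 0`: `7 b² = 39`, `(7 b)² = 273`, and `273` is not a square in `ℚ` (`16² < 273 < 17²`). `-39 = 2145 t²`: `c d = 0`; `d = 0`: `2145 c² = -39 < 0`; `c = 0`: `2145 * 7 d² = 39`, `(385 d)² = 385`
(`2145 * 7 / 39 = 385`), and `385` is not a square (`19² < 385 < 20²`). -/
def S_Ksq : Prop :=
  ∀ (k : Type) [Field k] [NumberField k] (s r : k), IsK k s r → ∀ p : k, 2 * p = 1 + s →
    ¬ IsSquare (-p) ∧ ¬ IsSquare (-(1 - p)) ∧ ¬ IsSquare (-39 : k) ∧ ¬ IsSquare (39 * p)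

/-- [K unit] (about 60 lines) Uses ind. A unit of infinite order.

Proof. `r` is integral, so `ε = 28159 + 608 r` and `ε' = 28159 - 608 r` are in `𝓞 k`, `ε ε' = 28159² - 608² * 2145 = 1`. For `n ≥ 1` there are natural numbers `A ≥ 1`, `B ≥ 1` with `ε ^ n = A + B r` (induction: `A' = 28159 A + 608 * 2145 B`, `B' = 28159 B + 608 A`). If `ε ^ n = 1` then
`(A - 1) + B r = 0`, so `B = 0` by ind: contradiction. -/
def S_Kunit : Prop :=
  ∀ (k : Type) [Field k] [NumberField k] (s r : k), IsK k s r →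
    ∃ ε : (𝓞 k)ˣ, ((ε : 𝓞 k) : k) = 28159 + 608 * r ∧ ∀ n : ℕ, 0 < n → ε ^ n ≠ 1

/-- [K pr] (about 60 lines) Uses int, aut. The primes of `k` above `2` are determined by `p₀` and `ρ`.

Proof. `p₀ (1 - p₀) = 2`, `ρ (1 - ρ) = -536 = 2 * (-268)` (compute in `k`, `RingOfIntegers.ext`). So `2 ∈ w` implies `p₀ ∈ w` or `1 - p₀ ∈ w` (prime ideal), not both (`1 = p₀ + (1 - p₀)`), and the same for `ρ`. Uniqueness: let `w`, `w'` contain `2` and agree on `p₀` and on `ρ`. `w ∩ ℤ = w' ∩ ℤ = (2)`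
(maximal ideal containing `2`), so there is `σ : k ≃ₐ[ℚ] k` with `σ • w = w'` (`Ideal.exists_smul_eq_of_isGaloisGroup`, `IsGaloisGroup (k ≃ₐ[ℚ] k) ℤ (𝓞 k)`; `IsGalois` from gal). If `σ s = - s` then `σ p₀ = 1 - p₀`, and `p₀ ∈ w` would give `1 - p₀ ∈ w'`, `1 - p₀ ∈ w` would give `p₀ ∈ w'`: contradiction to the agreement. So
`σ s = s`, similarly `σ r = r`, `σ = 1`, `w = w'`. -/
def S_Kpr : Prop :=
  ∀ (k : Type) [Field k] [NumberField k] (s r : k), IsK k s r → ∀ p₀ ρ : 𝓞 k,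
    2 * (p₀ : k) = 1 + s → 2 * (ρ : k) = 1 + r →
    (∀ w : HeightOneSpectrum (𝓞 k), (2 : 𝓞 k) ∈ w.asIdeal →
      ((p₀ ∈ w.asIdeal ∧ 1 - p₀ ∉ w.asIdeal) ∨ (p₀ ∉ w.asIdeal ∧ 1 - p₀ ∈ w.asIdeal)) ∧
      ((ρ ∈ w.asIdeal ∧ 1 - ρ ∉ w.asIdeal) ∨ (ρ ∉ w.asIdeal ∧ 1 - ρ ∈ w.asIdeal))) ∧
    (∀ w : HeightOneSpectrum (𝓞 k), p₀ ∈ w.asIdeal → (2 : 𝓞 k) ∈ w.asIdeal) ∧
    (∀ w : HeightOneSpectrum (𝓞 k), 1 - p₀ ∈ w.asIdeal → (2 : 𝓞 k) ∈ w.asIdeal) ∧
    ∀ w w' : HeightOneSpectrum (𝓞 k), (2 : 𝓞 k) ∈ w.asIdeal → (2 : 𝓞 k) ∈ w'.asIdeal →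
      (p₀ ∈ w.asIdeal ↔ p₀ ∈ w'.asIdeal) → (ρ ∈ w.asIdeal ↔ ρ ∈ w'.asIdeal) → w = w'

/-- [K four] (about 60 lines) Uses aut, pr. All four combinations occur.

Proof. There is a prime `w` containing `2` (a maximal ideal containing the proper ideal `(2)`: `2` is not a unit of `𝓞 k` as `1/2` is not integral; it is not `⊥`). Its images under the four automorphisms of `k` (`σ • w`, or the comap under the induced automorphism of `𝓞 k`) contain `2`, and `σ s = - s` exchanges the two possibilities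
for `p₀` (`σ p₀ = 1 - p₀`), `σ s = s` keeps them; the same for `r`, `ρ`. So all four combinations occur. -/
def S_Kfour : Prop :=
  ∀ (k : Type) [Field k] [NumberField k] (s r : k), IsK k s r → ∀ p₀ ρ : 𝓞 k,
    2 * (p₀ : k) = 1 + s → 2 * (ρ : k) = 1 + r →
    (∃ w : HeightOneSpectrum (𝓞 k), p₀ ∈ w.asIdeal ∧ ρ ∈ w.asIdeal) ∧
    (∃ w : HeightOneSpectrum (𝓞 k), p₀ ∈ w.asIdeal ∧ 1 - ρ ∈ w.asIdeal) ∧
    (∃ w : HeightOneSpectrum (𝓞 k), 1 - p₀ ∈ w.asIdeal ∧ ρ ∈ w.asIdeal) ∧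
    ∃ w : HeightOneSpectrum (𝓞 k), 1 - p₀ ∈ w.asIdeal ∧ 1 - ρ ∈ w.asIdeal

/-- [K deg] (about 100 lines) Uses gal, int, pr, four. The primes above `2` have degree one and are unramified.

Proof. `p = (2) ⊆ ℤ`. By four (and `1 ∉ w`) there are at least four different primes of `𝓞 k` over `p`: `4 ≤ (p.primesOver (𝓞 k)).ncard`. `Ideal.ncard_primesOver_mul_ramificationIdxIn_mul_inertiaDegIn` with `G = (k ≃ₐ[ℚ] k)` (`IsGaloisGroup G ℤ (𝓞 k)`): `ncard * (e f) = Nat.card G = 4` (gal), so `e = f = 1`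
for `w` (`ramificationIdxIn_eq_ramificationIdx`, `inertiaDegIn_eq_inertiaDeg`). `f = 1`: `Nat.card (𝓞 k ⧸ w) = 2 ^ f = 2` (`Ideal.absNorm_eq_pow_inertiaDeg`-like, or: the residue field is a one-dimensional vector space over `ℤ ⧸ (2)`). `e = 1`: if `2 ∈ w²` then the ramification index would be at least `2`
(`Ideal.ramificationIdx'`-lemmas, `Ideal.ramificationIdx'_ne_one_iff`). -/
def S_Kdeg : Prop :=
  ∀ (k : Type) [Field k] [NumberField k] (s r : k), IsK k s r →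
    ∀ w : HeightOneSpectrum (𝓞 k), (2 : 𝓞 k) ∈ w.asIdeal →
      Nat.card (𝓞 k ⧸ w.asIdeal) = 2 ∧ (2 : 𝓞 k) ∉ w.asIdeal ^ 2

/-- [K sig] (about 40 lines) Uses int, pr, four. The set `Σ` of the primes containing `p₀`.

Proof. `ρ` from int. `v`: contains `p₀`, `ρ`; `v'`: contains `p₀`, `1 - ρ` (four); different because `1 ∉ v`. If `p₀ ∈ w` then `2 ∈ w` and `w` contains `ρ` or `1 - ρ` (pr), so `w = v` or `w = v'` (uniqueness in pr: `p₀ ∈` both; for `v'`: `ρ ∉ v'`, `ρ ∉ w`). -/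
def S_Ksig : Prop :=
  ∀ (k : Type) [Field k] [NumberField k] (s r : k), IsK k s r → ∀ p₀ : 𝓞 k,
    2 * (p₀ : k) = 1 + s → ∃ v v' : HeightOneSpectrum (𝓞 k), v ≠ v' ∧
      {w : HeightOneSpectrum (𝓞 k) | p₀ ∈ w.asIdeal} = {v, v'}

/-- [K cj] (about 40 lines) Uses conj. The complex conjugate of a prime.

Proof. `x ∈ conjPrime k w ↔ ringOfIntegersComplexConj x ∈ w` (definition, `Ideal.mem_comap`). The conjugate of `p₀` is `1 - p₀` (conj: `s ↦ - s`; `IsCMField.coe_ringOfIntegersComplexConj`), and conversely. Involution: `complexConj_apply_apply`. -/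
def S_Kcj : Prop :=
  ∀ (k : Type) [Field k] [NumberField k] [IsCMField k] (s r : k), IsK k s r → ∀ p₀ : 𝓞 k,
    2 * (p₀ : k) = 1 + s → ∀ w : HeightOneSpectrum (𝓞 k),
      (p₀ ∈ (conjPrime k w).asIdeal ↔ 1 - p₀ ∈ w.asIdeal) ∧
      (1 - p₀ ∈ (conjPrime k w).asIdeal ↔ p₀ ∈ w.asIdeal) ∧
      ((2 : 𝓞 k) ∈ (conjPrime k w).asIdeal ↔ (2 : 𝓞 k) ∈ w.asIdeal) ∧
      conjPrime k (conjPrime k w) = w

/-- [K cm] (about 40 lines) Uses int, pr, cj. `Σ` is a `2`-adic CM-type.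

Proof. `ρ` from int. `w ∈ conjPrime '' Σ ↔ 1 - p₀ ∈ w` (cj). Union: `2 ∈ w ↔ p₀ ∈ w ∨ 1 - p₀ ∈ w` (pr; note that `((2 : ℕ) : 𝓞 k) = 2`). Intersection: pr. -/
def S_Kcm : Prop :=
  ∀ (k : Type) [Field k] [NumberField k] [IsCMField k] (s r : k), IsK k s r → ∀ p₀ : 𝓞 k,
    2 * (p₀ : k) = 1 + s → IsCMType 2 k {w : HeightOneSpectrum (𝓞 k) | p₀ ∈ w.asIdeal}

/-- [K split] (about 60 lines) Uses int, pr, cj. Every prime of `k⁺` above `2` splits in `k`.

Proof. Let `q` be a prime ideal of `𝓞 k⁺` containing `2`. There is a prime ideal `P` of `𝓞 k` with `P ∩ 𝓞 k⁺ = q` (`Ideal.exists_ideal_over_prime_of_isIntegral`-like, `Ideal.nonempty_primesOver`, integral and injective), `P ≠ ⊥` as `2 ∈ P`. `v = P`, `w = conjPrime k v`. `w ∩ 𝓞 k⁺ = v ∩ 𝓞 k⁺` because the complex conjugation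
fixes `k⁺` (`IsCMField.complexConj_apply_eq_self`). `v ≠ w`: `p₀ ∈ w ↔ 1 - p₀ ∈ v`, and `v` contains exactly one of `p₀`, `1 - p₀` (pr, cj; `p₀`, `ρ` from int). -/
def S_Ksplit : Prop :=
  ∀ (k : Type) [Field k] [NumberField k] [IsCMField k] (s r : k), IsK k s r → RealPrimesSplit 2 k

end Pool.Agent.Lib.MP_869d3b_nt
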