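import Pool.Agent.Lib.MP_869d3b_nt.FinN
import Pool.Agent.Lib.MP_869d3b_nt.StmK

/-!
# MP_869d3b_nt: final assembly
-/

set_option autoImplicit false

open NumberField IsDedekindDomain

namespace Pool.Agent.Lib.MP_869d3b_nt

/-- The extension of `k` generated by the tower, existence form. -/
theorem fin_Z (hphi : ∀ (Ω : Type) [Field Ω] [DecidableEq Ω] [CharZero Ω], S_phi Ω)
    (htow : ∀ (Ω : Type) [Field Ω] [DecidableEq Ω] [CharZero Ω], S_tower Ω)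
    (hlev : S_lev) (hzp : S_zp) (hunr : S_unr) (hsqrt : S_sqrt)
    (k Ω : Type) [Field k] [NumberField k] [Field Ω] [DecidableEq Ω] [CharZero Ω] [Algebra k Ω]
    (hac : IsAlgClosed Ω) (hal : Algebra.IsAlgebraic k Ω) (p0 : 𝓞 k)
    (hpp : (p0 : k) ^ 2 = (p0 : k) - 2) (h1 : ¬ ∃ x : k, x ^ 2 = -(p0 : k)) :
    ∃ N : IntermediateField k Ω, IsZpExtension 2 N ∧
      UnramifiedOutside {v : HeightOneSpectrum (𝓞 k) | p0 ∈ v.asIdeal} N ∧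
      ∃ x ∈ N, x ^ 2 = -algebraMap k Ω (p0 : k) := by
  obtain ⟨p, hp⟩ : ∃ p : Ω, p = algebraMap k Ω (p0 : k) := ⟨_, rfl⟩
  have hpp' : p ^ 2 = p - 2 := by
    rw [hp, ← map_pow, hpp, map_sub, map_ofNat]
  have hpm : p ∈ (algebraMap k Ω).fieldRange := ⟨(p0 : k), hp.symm⟩
  obtain ⟨φ, hφ⟩ := hphi Ω p hpp'
  obtain ⟨t, ht⟩ := htow Ω hac p hpp' φ hφ
  obtain ⟨-, hL2, -, -, -, -, -⟩ := hlev k Ω hac hal p hpp' hpm φ hφ t ht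
  have hz : IsZpExtension 2 (Ninf k t) := hzp k Ω hac hal (p0 : k) p hp hpp' φ hφ t ht h1
  obtain ⟨⟨x, hx, hx2⟩, -⟩ := hsqrt k Ω hac hal (p0 : k) p hp hpp' φ hφ t ht
  exact ⟨Ninf k t, hz, hunr k Ω hac hal p0 p hp hpp' φ hφ t ht, x, (hL2 3).1 hx, by rw [hx2, hp]⟩

/-- The extension `N` with infinite `X(N)`. -/
theorem fin_X (hphi : ∀ (Ω : Type) [Field Ω] [DecidableEq Ω] [CharZero Ω], S_phi Ω)
    (htow : ∀ (Ω : Type) [Field Ω] [DecidableEq Ω] [CharZero Ω], S_tower Ω)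
    (hlev : S_lev) (hzp : S_zp) (hunr : S_unr) (hquad : S_quad) (hsqrt : S_sqrt)
    (hsec4 : S_sec4)
    (k Ω : Type) [Field k] [NumberField k] [Field Ω] [DecidableEq Ω] [CharZero Ω] [Algebra k Ω]
    (hac : IsAlgClosed Ω) (hal : Algebra.IsAlgebraic k Ω) (p0 : 𝓞 k) (r0 : k)
    (hpp : (p0 : k) ^ 2 = (p0 : k) - 2) (hr : r0 ^ 2 = 2145)
    (h1 : ¬ ∃ x : k, x ^ 2 = -(p0 : k)) (h2 : ¬ ∃ x : k, x ^ 2 = -39)
    (h3 : ¬ ∃ x : k, x ^ 2 = 39 * (p0 : k)) :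
    ∃ N : IntermediateField k Ω, IsZpExtension 2 N ∧
      UnramifiedOutside {v : HeightOneSpectrum (𝓞 k) | p0 ∈ v.asIdeal} N ∧
      Infinite (X 2 N Ω) := by
  obtain ⟨p, hp⟩ : ∃ p : Ω, p = algebraMap k Ω (p0 : k) := ⟨_, rfl⟩
  have hpp' : p ^ 2 = p - 2 := by
    rw [hp, ← map_pow, hpp, map_sub, map_ofNat]
  obtain ⟨φ, hφ⟩ := hphi Ω p hpp'
  obtain ⟨t, ht⟩ := htow Ω hac p hpp' φ hφ
  obtain ⟨a, b, -, c⟩ := fin_N hlev hzp hunr hquad hsqrt hsec4 k Ω hac hal p0 r0 p hp hpp' hr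
    h1 h2 h3 φ hφ t ht
  exact ⟨Ninf k t, a, b, c⟩

end Pool.Agent.Lib.MP_869d3b_nt
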