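import Pool.Agent.Lib.MP_869d3b_nt.StmM

/-!
# MP_869d3b_nt, section 3: the `ℤ_2`-extension `N = k(t_n)`, and general tools on inertia
(statements)
-/

set_option autoImplicit false

open NumberField IsDedekindDomain

namespace Pool.Agent.Lib.MP_869d3b_nt

/-! ## Tools: valuation rings of `Ω` and primes of number fields in `Ω` -/

/-- `P` is the prime of `𝓞 M` below `B`. -/
def Below {Ω : Type} [Field Ω] (B : ValuationSubring Ω) (M : Type) [Field M] [Algebra M Ω]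
    (P : Ideal (𝓞 M)) : Prop :=
  ∀ x : 𝓞 M, x ∈ P ↔ algebraMap M Ω (x : M) ∈ B.nonunits

/-- [Z below1] Every prime has a valuation ring of `Ω` above it.
PROOF. Let `A ⊆ Ω` be the image of the localisation of `𝓞 M` at `P` (fractions `a/b`, `b ∉ P`): a local subring with maximal
ideal the fractions with `a ∈ P`. Take a valuation ring `B` dominating it (`LocalSubring.exists_le_valuationSubring`).
`x ∈ P`: `x` is in the maximal ideal of `A`, so in that of `B`. `x ∉ P`: `x` is a unit of `A`, so of `B`. -/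
def S_below1 : Prop :=
  ∀ (M Ω : Type) [Field M] [NumberField M] [Field Ω] [Algebra M Ω] (P : Ideal (𝓞 M)), P.IsPrime →
    ∃ B : ValuationSubring Ω, Below B M P

/-- [Z below2] Every valuation ring has a prime below it.
PROOF. `𝓞 M` maps into `B` (integral elements; `B` is integrally closed), `P` = preimage of the maximal ideal of `B`. -/
def S_below2 : Prop :=
  ∀ (M Ω : Type) [Field M] [Field Ω] [Algebra M Ω] (B : ValuationSubring Ω),
    ∃ P : Ideal (𝓞 M), P.IsPrime ∧ Below B M P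

/-- [Z frac] Elements of `E ∩ B` are fractions with denominator not in `Q`.
PROOF. `Q = ⊥`: every element of `E` is `a/b` with `b ≠ 0`. `Q ≠ ⊥`: `(𝓞 E)_Q` is a discrete valuation ring with field of
fractions `E`, so `x` or `x⁻¹` is in it (or use: `x = a/b`; the `Q`-adic valuation of `x`; there is `c ∈ 𝓞 E` with
`c ∉ Q` and `c a/b ∈ 𝓞 E` if the valuation is `≥ 0`). If `x` is not, then `x⁻¹ = a/b`, `b ∉ Q`, `a ∈ Q` (otherwise
`x = b/a` is fine), so `x⁻¹` is in the maximal ideal of `B` (`b` is a unit of `B`, `a` is in the maximal ideal) and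
`x ∈ B`: contradiction. -/
def S_frac : Prop :=
  ∀ (E Ω : Type) [Field E] [NumberField E] [Field Ω] [Algebra E Ω] (B : ValuationSubring Ω)
    (Q : Ideal (𝓞 E)), Q.IsPrime → Below B E Q → ∀ x : E, algebraMap E Ω x ∈ B →
    ∃ a b : 𝓞 E, b ∉ Q ∧ x * (b : E) = (a : E)

/-- [Z inertG] Comparison of the two forms of the inertia condition, `E/k` normal.
PROOF. (1) Let `σ0` satisfy the condition on `𝓞 E` and let `σ` extend `σ0`. `x ∈ E ∩ B`: `x = a/b`, `b ∉ Q` (`S_frac`);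
`σ x - x = ((σ a - a) b - a (σ b - b))/(b σ b)`, the numerator is in `Q`, `σ b ∉ Q` (`σ b - b ∈ Q`), `b`, `σ b` are units
of `B`, so `σ x - x ∈ B.nonunits`. (2) Conversely, `x ∈ 𝓞 E` is in `B` (integral) and `σ x - x ∈ 𝓞 E` is in
`B.nonunits`, so in `Q`. -/
def S_inertG : Prop :=
  ∀ (k Ω : Type) [Field k] [NumberField k] [Field Ω] [CharZero Ω] [Algebra k Ω],
    ∀ E : IntermediateField k Ω, FiniteDimensional k E → ∀ (B : ValuationSubring Ω)
    (Q : Ideal (𝓞 E)), Q.IsPrime → Below B E Q → ∀ (σ : Ω ≃ₐ[k] Ω) (σ0 : E ≃ₐ[k] E),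
    (∀ x : E, σ (x : Ω) = (σ0 x : E)) →
    (Inert B (E : Set Ω) σ ↔
      ∀ x y : 𝓞 E, σ0 (x : E) = (y : E) → y - x ∈ Q)

/-- [Z inert] If inertia acts trivially on `M` then `M/k` is unramified at the prime below `B`.
PROOF. `M` and `E` are number fields. If `P = ⊥`: `Algebra.isUnramifiedAt_bot`. Let `P ≠ ⊥`, `Q` the prime of `𝓞 E` below `B`
(`S_below2`), it lies over `P`; `q = P ∩ 𝓞 k`. `G = Gal(E/k)`, `I` the inertia group of `Q` in `G`
(`σ0 x - x ∈ Q` for `x ∈ 𝓞 E`). Every `σ0 ∈ I` extends to `σ : Ω ≃ₐ[k] Ω` (`AlgEquiv.liftNormal`), `Inert B E σ` by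
`S_inertG`, so `σ0` is trivial on `M` by hypothesis: `I ⊆ Gal(E/M)`, so `I` is also the inertia group of `Q` in
`Gal(E/M)`. By `card_inertia_eq_ramificationIdxIn` (Mathlib, NumberTheory/RamificationInertia/Galois) for `E/k` and
`E/M`: `e(Q|q) = card I = e(Q|P)`, and `e(Q|q) = e(P|q) e(Q|P)` (`Ideal.ramificationIdx` in towers), so `e(P|q) = 1`, i.e.
`Ideal.ramificationIdx P (𝓞 k) = 1`, which is `IsUnramifiedAt` by `Ideal.ramificationIdx_eq_one_iff`. (View `E` as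
an extension of `M` by `IntermediateField.extendScalars`, or by the algebra structure of `IntermediateField.inclusion`.) -/
def S_inert : Prop :=
  ∀ (k Ω : Type) [Field k] [NumberField k] [Field Ω] [CharZero Ω] [Algebra k Ω],
    IsAlgClosed Ω → Algebra.IsAlgebraic k Ω → ∀ M E : IntermediateField k Ω, M ≤ E →
    FiniteDimensional k E → IsGalois k E → ∀ (B : ValuationSubring Ω) (P : Ideal (𝓞 M))
    [P.IsPrime], Below B M P →
    (∀ σ : Ω ≃ₐ[k] Ω, Inert B (E : Set Ω) σ → ∀ x ∈ M, σ x = x) →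
    Algebra.IsUnramifiedAt (𝓞 k) P

/-- [Z inertConv] Conversely, if `M/k` is Galois and unramified at the prime below `B`, inertia of `E` acts trivially
on `M ≤ E`.
PROOF. `Inert B E σ` implies `Inert B M σ`; `M/k` is Galois, so `σ` restricts to `σ0 ∈ Gal(M/k)`. `P = ⊥`: all nonzero
elements of `M` are units of `B` (fractions of `𝓞 M`), and `σ x - x ∈ M` is in `B.nonunits`, so it is `0`. `P ≠ ⊥`: by
`S_inertG` for `M` (instead of `E`) `σ0` is in the inertia group of `P` in `Gal(M/k)`, which has `e(P|q) = 1`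
elements (`card_inertia_eq_ramificationIdxIn`, `Ideal.ramificationIdx_eq_one_iff`), so `σ0 = 1`. -/
def S_inertConv : Prop :=
  ∀ (k Ω : Type) [Field k] [NumberField k] [Field Ω] [CharZero Ω] [Algebra k Ω],
    IsAlgClosed Ω → Algebra.IsAlgebraic k Ω → ∀ M E : IntermediateField k Ω, M ≤ E →
    FiniteDimensional k E → IsGalois k M → ∀ (B : ValuationSubring Ω) (P : Ideal (𝓞 M))
    [P.IsPrime], Below B M P → Algebra.IsUnramifiedAt (𝓞 k) P →
    ∀ σ : Ω ≃ₐ[k] Ω, Inert B (E : Set Ω) σ → ∀ x ∈ M, σ x = x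

/-- [Z chi] The character of a `ℤ_p`-extension.
PROOF. `χ` is the composition of the restriction `Gal(Ω/k) → Gal(N/k)` (`AlgEquiv.restrictNormalHom`, surjective and
continuous: `InfiniteGalois.restrictNormalHom_continuous`, `AlgEquiv.restrictNormalHom_surjective`) and the given
topological isomorphism. -/
def S_chi : Prop :=
  ∀ (p : ℕ) [Fact p.Prime] (k Ω : Type) [Field k] [Field Ω] [CharZero Ω] [Algebra k Ω],
    IsAlgClosed Ω → Algebra.IsAlgebraic k Ω → ∀ N : IntermediateField k Ω, IsZpExtension p N →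
    ∃ χ : (Ω ≃ₐ[k] Ω) →* Multiplicative ℤ_[p], Continuous χ ∧ Function.Surjective χ ∧
      ∀ σ : Ω ≃ₐ[k] Ω, χ σ = 1 ↔ ∀ x ∈ N, σ x = x

/-- [Z fin] Descent to a finite level.
PROOF. `Ω/k` is Galois (characteristic 0, `Ω` algebraically closed). Let `K = adjoin k A`. Every `σ` fixing `K` fixes `L`, so
`L ≤ K` (`InfiniteGalois.fixedField_fixingSubgroup`, or: `Ω/K` is Galois and the elements of `L` are fixed by
`Gal(Ω/K)`). `L = adjoin k {x_1..x_m}` is finitely generated and each `x_i ∈ adjoin k T_i` with `T_i ⊆ A` finite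
(`IntermediateField.exists_finset_of_mem_adjoin`). `E` = the normal closure in `Ω` of the finite extension
`adjoin k (T ∪ L)`, `T` the union of the `T_i` (`IntermediateField.normalClosure`). `σ` fixing `A ∩ E ⊇ T` fixes
`adjoin k T ⊇ L`. -/
def S_fin : Prop :=
  ∀ (k Ω : Type) [Field k] [Field Ω] [CharZero Ω] [Algebra k Ω],
    IsAlgClosed Ω → Algebra.IsAlgebraic k Ω → ∀ (A : Set Ω) (L : IntermediateField k Ω),
    FiniteDimensional k L →
    (∀ σ : Ω ≃ₐ[k] Ω, (∀ x ∈ A, σ x = x) → ∀ x ∈ L, σ x = x) →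
    ∃ E : IntermediateField k Ω, FiniteDimensional k E ∧ IsGalois k E ∧ L ≤ E ∧
      ∀ σ : Ω ≃ₐ[k] Ω, (∀ x ∈ A, x ∈ E → σ x = x) → ∀ x ∈ L, σ x = x

/-- [Z gen] A topological generator of a `ℤ_2`-extension.
PROOF. Let `e : Gal(N/k) ≃ₜ* Multiplicative ℤ_[2]`, `s0 = e⁻¹ (ofAdd 1)`, `σ0` an extension of `s0` to `Ω`
(`AlgEquiv.liftNormal`). Let `x ∈ N`, `σ0 x = x`. The stabiliser of `x` in `Gal(N/k)` is closed (it is the fixing
subgroup of `k(x)`, open, hence closed) and contains the powers of `s0`; `ℤ` is dense in `ℤ_[2]`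
(`PadicInt.denseRange_intCast`), so it is `Gal(N/k)`, and `x ∈ k` (`N/k` Galois). -/
def S_gen : Prop :=
  ∀ (k Ω : Type) [Field k] [Field Ω] [CharZero Ω] [Algebra k Ω],
    IsAlgClosed Ω → Algebra.IsAlgebraic k Ω → ∀ N : IntermediateField k Ω, IsZpExtension 2 N →
    ∃ σ : Ω ≃ₐ[k] Ω, ∀ x ∈ N, σ x = x → x ∈ (algebraMap k Ω).fieldRange

/-- [Z quad] The quadratic subextension of a `ℤ_2`-extension is unique.
PROOF. `σ` from `S_gen`. `σ y = ± y` as `y² ∈ k`; `y ∉ k` so `σ y = -y`. `σ x = ± x`. If `σ x = x` then `x ∈ k`: first case.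
If `σ x = -x` then `σ (xy) = xy`, `xy ∈ k`, `(xy)² = ab`. -/
def S_quad : Prop :=
  ∀ (k Ω : Type) [Field k] [Field Ω] [CharZero Ω] [Algebra k Ω],
    IsAlgClosed Ω → Algebra.IsAlgebraic k Ω → ∀ N : IntermediateField k Ω, IsZpExtension 2 N →
    ∀ (a b : k) (x y : Ω), x ∈ N → y ∈ N → x ^ 2 = algebraMap k Ω a → y ^ 2 = algebraMap k Ω b →
    y ∉ (algebraMap k Ω).fieldRange → (∃ c : k, c ^ 2 = a) ∨ (∃ c : k, c ^ 2 = a * b)

/-- [Z prof] A criterion for `G ≅ ℤ_2`.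
PROOF. (a) Every `g` is `s^i h`, `0 ≤ i < 2^n`, `h ∈ H n`: induction on `n`; if `g = s^i h`, `h ∈ H n ∖ H (n+1)`, then
`(s^(2^n))⁻¹ h ∈ H (n+1)` by the hypothesis on products (`(s^(2^n))⁻¹ ∈ H n ∖ H (n+1)`), `g = s^(i+2^n) ((s^(2^n))⁻¹ h)`.
(b) `s^i ∈ H n ↔ 2^n ∣ i` (`i ∈ ℤ`): `i = 2^m u`, `u` odd, `m < n`: `s^(2^m) ∈ H m ∖ H (m+1)`, its square is in `H (m+1)`, so
its odd powers are not in `H (m+1) ⊇ H n`. (c) So for `g ∈ G` and `n` there is `i_n`, unique modulo `2^n`, with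
`(s^(i_n))⁻¹ g ∈ H n`; `i_(n+1) ≡ i_n` mod `2^n`, let `a g ∈ ℤ_2` be the limit (`a g ≡ i_n` mod `2^n` for all `n`; e.g. a
Cauchy sequence, or `PadicInt.lift`-like, or the intersection of closed balls in the compact `ℤ_[2]`). `a` is a
homomorphism (`H n` normal), `a g = 0` implies `g ∈ ⋂ H n = 1`: injective; `a⁻¹(2^n ℤ_2) = H n` is open: continuous. The
image is compact, closed and contains `a (s^i) = i`, so it is everything (density of `ℤ`). A continuous bijective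
homomorphism from a compact to a Hausdorff group is a homeomorphism
(`Continuous.homeoOfEquivCompactToT2`). -/
def S_prof : Prop :=
  ∀ (G : Type) [Group G] [TopologicalSpace G] [IsTopologicalGroup G] [CompactSpace G]
    (H : ℕ → Subgroup G), (∀ j, IsOpen (H j : Set G)) → H 0 = ⊤ → (∀ j, H (j + 1) ≤ H j) →
    (∀ j, (H j).Normal) →
    (∀ j, ∀ a ∈ H j, ∀ b ∈ H j, a ∉ H (j + 1) → b ∉ H (j + 1) → a * b ∈ H (j + 1)) →
    (∀ a : G, (∀ j, a ∈ H j) → a = 1) →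
    (∃ s : G, ∀ j, s ^ (2 ^ j) ∈ H j ∧ s ^ (2 ^ j) ∉ H (j + 1)) →
    Nonempty (G ≃ₜ* Multiplicative ℤ_[2])

/-! ## The extension `N` -/

/-- `k(t n)`. -/
def Nlev (k : Type) {Ω : Type} [Field k] [Field Ω] [DecidableEq Ω] [Algebra k Ω] {p : Ω}
    (t : ℕ → Pt p) (n : ℕ) : IntermediateField k Ω :=
  IntermediateField.adjoin k (coo (t n))

/-- `N = k(t n : n)`. -/
def Ninf (k : Type) {Ω : Type} [Field k] [Field Ω] [DecidableEq Ω] [Algebra k Ω] {p : Ω}
    (t : ℕ → Pt p) : IntermediateField k Ω :=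
  IntermediateField.adjoin k (⋃ n, coo (t n))

/-- [Z lev] The levels of `N`.
PROOF. (Every `σ : Ω ≃ₐ[k] Ω` has `σ p = p`, action `g`.) `t m = φ^(n-m) (t n)` for `m ≤ n`, so `t m` is rational over
`Nlev n` (`S_rat`, `p ∈ k`) and `Nlev m ≤ Nlev n`. `Nlev n ≤ Ninf` clear. `Nlev n` is finite over `k` (at most two
algebraic generators). `φ^n (g (t n)) = 0`, so `g (t n) = j • t n` (`S_kerPow`) is rational over `Nlev n`: `σ` maps the
generators of `Nlev n` into `Nlev n`, so `Nlev n` is normal, Galois (characteristic 0); the same for `Ninf`.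
`g (t n) = t n` iff `σ` fixes the coordinates of `t n` (`S_act`; if `t n = 0` both are true) iff `σ` fixes `Nlev n`.
`M ≤ Ninf` finite: `M = adjoin k {x_1..x_m}`, `x_i ∈ adjoin k T_i`, `T_i ⊆ ⋃ coo (t n)` finite, so all are in some
`Nlev n`, `n ≥ 2` (the levels increase). `t 2` has coordinates `-p`, `p(1+p)` in `k`, so `Nlev 2 = ⊥`. -/
def S_lev : Prop :=
  ∀ (k Ω : Type) [Field k] [Field Ω] [DecidableEq Ω] [CharZero Ω] [Algebra k Ω],
    IsAlgClosed Ω → Algebra.IsAlgebraic k Ω → ∀ p : Ω, p ^ 2 = p - 2 →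
    p ∈ (algebraMap k Ω).fieldRange → ∀ φ : Pt p →+ Pt p, IsPhi p φ →
    ∀ t : ℕ → Pt p, IsTower p φ t →
    (∀ m n : ℕ, m ≤ n → Nlev k t m ≤ Nlev k t n ∧ Rat (Nlev k t n).toSubfield (t m)) ∧
    (∀ n : ℕ, Nlev k t n ≤ Ninf k t ∧ Rat (Ninf k t).toSubfield (t n)) ∧
    (∀ n : ℕ, FiniteDimensional k (Nlev k t n) ∧ IsGalois k (Nlev k t n)) ∧
    IsGalois k (Ninf k t) ∧
    (∀ (n : ℕ) (σ : Ω ≃ₐ[k] Ω) (g : Pt p ≃+ Pt p), IsAct p (σ : Ω ≃+* Ω) g →
      (g (t n) = t n ↔ ∀ x ∈ Nlev k t n, σ x = x)) ∧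
    (∀ M : IntermediateField k Ω, FiniteDimensional k M → M ≤ Ninf k t →
      ∃ n : ℕ, 2 ≤ n ∧ M ≤ Nlev k t n) ∧
    Nlev k t 2 = ⊥

/-- [Z pow] The action of the powers of an automorphism moving `t 3`.
PROOF. `T = t 1`. Let `h = g^[2^j]`, it is additive, commutes with `φ`, fixes `t 2` and `T = φ (t 2)`. Induction on `j`;
`j = 0` is the hypothesis. Step: `V = h (t (j+3)) - t (j+3) ≠ 0`, `φ V = h (t (j+2)) - t (j+2) = 0`, so `V = T`
(`S_ker`). `h² (t (j+3)) = t (j+3) + T + h T = t (j+3) + 2T = t (j+3)`. `W = h (t (j+4)) - t (j+4)` has `φ W = V = T`, so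
`φ (W - t 2) = 0`, `W - t 2 ∈ {0, T}`, `h W = W`, `2 • W = 2 • t 2 + 2 • (0 or T) = 2 • t 2 = T` (`S_kerPow`, fourth fact
with `n = 1`), `h² (t (j+4)) = t (j+4) + 2 • W = t (j+4) + T ≠ t (j+4)`. And `g^[2^(j+1)] = h ∘ h`. -/
def S_pow : Prop :=
  ∀ (Ω : Type) [Field Ω] [DecidableEq Ω] [CharZero Ω],
    ∀ p : Ω, p ^ 2 = p - 2 → ∀ φ : Pt p →+ Pt p, IsPhi p φ → ∀ t : ℕ → Pt p, IsTower p φ t →
    ∀ g : Pt p ≃+ Pt p, (∀ P : Pt p, g (φ P) = φ (g P)) → g (t 2) = t 2 → g (t 3) ≠ t 3 →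
    ∀ j : ℕ, g^[2 ^ j] (t (j + 2)) = t (j + 2) ∧ g^[2 ^ j] (t (j + 3)) ≠ t (j + 3)

/-- [Z sqrt] `√(-p)` is in `Nlev 3`, and if `-p` is not a square in `k` some automorphism moves `t 3`.
PROOF. `t 3 = (z,y)` is affine (`φ (t 3) = t 2 ≠ 0`), `x = y/(p(z-1))` satisfies `x² = -p` (`S_halfConv`, `t 2` has abscissa
`-p`). If all `σ ∈ Gal(Ω/k)` fix `t 3`, they fix `x`, so `x ∈ k` (`Ω/k` is Galois) and `-p` is a square in `k`. -/
def S_sqrt : Prop :=
  ∀ (k Ω : Type) [Field k] [Field Ω] [DecidableEq Ω] [CharZero Ω] [Algebra k Ω],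
    IsAlgClosed Ω → Algebra.IsAlgebraic k Ω → ∀ (p0 : k) (p : Ω), p = algebraMap k Ω p0 →
    p ^ 2 = p - 2 → ∀ φ : Pt p →+ Pt p, IsPhi p φ → ∀ t : ℕ → Pt p, IsTower p φ t →
    (∃ x ∈ Nlev k t 3, x ^ 2 = -p) ∧
    ((¬ ∃ x : k, x ^ 2 = -p0) → ∃ (σ : Ω ≃ₐ[k] Ω) (g : Pt p ≃+ Pt p),
      IsAct p (σ : Ω ≃+* Ω) g ∧ g (t 3) ≠ t 3)

/-- [Z zp] `N/k` is a `ℤ_2`-extension.
PROOF. `N = Ninf` is Galois over `k` (`S_lev`). `G = Gal(N/k)` is compact (profinite, Mathlib: `krullTopology` instances).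
Let `H j` be the subgroup of `G` of the elements fixing `Nlev (j+2)` (as a subfield of `N`). Open (finite extension),
decreasing, `H 0 = ⊤` (`Nlev 2 = ⊥`), normal (`Nlev/k` is Galois; or: `σ τ σ⁻¹` fixes `Nlev` because `σ⁻¹` maps `Nlev` to
itself), intersection trivial (`Ninf` is generated by the `coo (t n)`). Let `σ` and `τ` in `H j` not in `H (j+1)`, extended
to `Ω` with actions `g`, `h` (`S_act`): `g (t (j+3)) - t (j+3)` is nonzero and killed by `φ` (`φ (g (t (j+3))) =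
g (t (j+2)) = t (j+2)`), so it is `T = t 1`, the same for `h`, and `g (h (t (j+3))) = g (t (j+3) + T) = t (j+3) + T + T =
t (j+3)` (`g T = T` as `T` has coordinates `1, 0`): `σ τ ∈ H (j+1)`. The element `s`: the restriction of the `σ` of
`S_sqrt`, `S_pow` (the action of `σ^(2^j)` is `g^[2^j]`; `g (t 2) = t 2`). Apply `S_prof`. (The relation between
fixing `Nlev n` and fixing `t n` is in `S_lev`.) -/
def S_zp : Prop :=
  ∀ (k Ω : Type) [Field k] [Field Ω] [DecidableEq Ω] [CharZero Ω] [Algebra k Ω],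
    IsAlgClosed Ω → Algebra.IsAlgebraic k Ω → ∀ (p0 : k) (p : Ω), p = algebraMap k Ω p0 →
    p ^ 2 = p - 2 → ∀ φ : Pt p →+ Pt p, IsPhi p φ → ∀ t : ℕ → Pt p, IsTower p φ t →
    (¬ ∃ x : k, x ^ 2 = -p0) → IsZpExtension 2 (Ninf k t)

/-- [Z unr] `N/k` is unramified outside the primes containing `p0`.
PROOF. Let `M ≤ Ninf` be finite over `k`, `P` a prime of `𝓞 M` not above any `v` containing `p0`. `M ≤ Nlev n =: E`, `n ≥ 2`
(`S_lev`). `B` a valuation ring of `Ω` with `Below B M P` (`S_below1`). `p ∉ B.nonunits`: otherwise `p0 ∈ P ∩ 𝓞 k`, which is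
then a nonzero prime `v` containing `p0` (`p0 ≠ 0`), excluded. Let `σ : Ω ≃ₐ[k] Ω` with `Inert B E σ`, `g` its action.
`φ^[n-2] (t n) = t 2`, `g (t 2) = t 2` (`S_lev`: `Nlev 2 = ⊥`), so by `S_core1` (`L = E.toSubfield`, `S = t n`)
`g (t n) = t n`, so `σ` fixes `E ≥ M`. By `S_inert`, `Algebra.IsUnramifiedAt (𝓞 k) P`. -/
def S_unr : Prop :=
  ∀ (k Ω : Type) [Field k] [NumberField k] [Field Ω] [DecidableEq Ω] [CharZero Ω] [Algebra k Ω],
    IsAlgClosed Ω → Algebra.IsAlgebraic k Ω → ∀ (p0 : 𝓞 k) (p : Ω),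
    p = algebraMap k Ω (p0 : k) → p ^ 2 = p - 2 → ∀ φ : Pt p →+ Pt p, IsPhi p φ →
    ∀ t : ℕ → Pt p, IsTower p φ t →
    UnramifiedOutside {v : HeightOneSpectrum (𝓞 k) | p0 ∈ v.asIdeal} (Ninf k t)

end Pool.Agent.Lib.MP_869d3b_nt
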