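import Pool.Agent.Lib.MP_869d3b_nt.StmV1
import Pool.Agent.Lib.MP_869d3b_nt.StmZ

/-!
# MP_869d3b_nt, uniqueness of the `Σ`-ramified `ℤ₂`-extension: ramification (V5) and the theorem
(statements)
-/

set_option autoImplicit false

open NumberField IsDedekindDomain

namespace Pool.Agent.Lib.MP_869d3b_nt

/-- **[V le]** Galois correspondence: if every automorphism fixing `N` fixes `M` then `M ≤ N`.
No dependency.

Proof. `Ω/k` is Galois (characteristic zero, algebraically closed, algebraic), `M.fixingSubgroup ≥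
N.fixingSubgroup`, take fixed fields (`InfiniteGalois.fixedField_fixingSubgroup`). -/
def S_Vle : Prop :=
  ∀ (k Ω : Type) [Field k] [Field Ω] [CharZero Ω] [Algebra k Ω],
    IsAlgClosed Ω → Algebra.IsAlgebraic k Ω → ∀ M N : IntermediateField k Ω,
    (∀ σ : Ω ≃ₐ[k] Ω, (∀ x ∈ N, σ x = x) → ∀ x ∈ M, σ x = x) → M ≤ N

/-- **[V mov]** An element which is not in the subfield `F ⊇ k` is moved by an automorphism over `k`
fixing `F`. No dependency.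

Proof. `Ω` is algebraic over `F` (it is algebraic over `k` and `k ⊆ F`), `Ω/F` is Galois (characteristic
zero, algebraically closed), so the elements fixed by `Ω ≃ₐ[F] Ω` are those of `F`
(`IsGalois`, `InfiniteGalois.fixedField_bot`, or `IsGalois.tfae`...). Regard an `F`-automorphism as a
`k`-automorphism. -/
def S_Vmov : Prop :=
  ∀ (k Ω : Type) [Field k] [Field Ω] [CharZero Ω] [Algebra k Ω],
    IsAlgClosed Ω → Algebra.IsAlgebraic k Ω → ∀ F : Subfield Ω, (∀ x : k, algebraMap k Ω x ∈ F) →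
    ∀ x : Ω, x ∉ F → ∃ σ : Ω ≃ₐ[k] Ω, (∀ y ∈ F, σ y = y) ∧ σ x ≠ x

/-- **[V5a]** Unramifiedness outside `S` of a field inside the compositum of `M₁ ≤ N₁`, `M₂ ≤ N₂`. Uses
`S_below1`, `S_below2`, `S_inert`, `S_inertConv`, `S_Vle`.

Proof. `E = M₁ ⊔ M₂` is finite and Galois over `k`. An automorphism fixing `E` fixes `M₁`, `M₂`, hence `L`:
`L ≤ E` (`S_Vle`). Let `P` be the prime of `𝓞 L`, `B` with `Below B L P` (`S_below1`). Let `σ` satisfy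
`Inert B E σ`. Let `P₁` be the prime of `𝓞 M₁` below `B` (`S_below2`). `P₁ ∩ 𝓞 k = P ∩ 𝓞 k` (both are
`{x | algebraMap k Ω x ∈ B.nonunits}`), which is not in `S`, so `Algebra.IsUnramifiedAt (𝓞 k) P₁`
(`UnramifiedOutside S N₁`), and by `S_inertConv` `σ` fixes `M₁`. The same for `M₂`. So `σ` fixes `L`, and
`S_inert` (with `M = L`) gives the claim. -/
def S_V5a : Prop :=
  ∀ (k Ω : Type) [Field k] [NumberField k] [Field Ω] [CharZero Ω] [Algebra k Ω],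
    IsAlgClosed Ω → Algebra.IsAlgebraic k Ω → ∀ (S : Set (HeightOneSpectrum (𝓞 k)))
    (N₁ N₂ M₁ M₂ L : IntermediateField k Ω), UnramifiedOutside S N₁ → UnramifiedOutside S N₂ →
    M₁ ≤ N₁ → M₂ ≤ N₂ → FiniteDimensional k M₁ → FiniteDimensional k M₂ →
    IsGalois k M₁ → IsGalois k M₂ → FiniteDimensional k L →
    (∀ σ : Ω ≃ₐ[k] Ω, (∀ x ∈ M₁, σ x = x) → (∀ x ∈ M₂, σ x = x) → ∀ x ∈ L, σ x = x) →
    ∀ (P : Ideal (𝓞 L)) [P.IsPrime],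
      (∀ v ∈ S, P.comap (algebraMap (𝓞 k) (𝓞 L)) ≠ v.asIdeal) → Algebra.IsUnramifiedAt (𝓞 k) P

/-- **[V5b]** Unramifiedness at the prime below `B₀` of a field inside `FB B₀ · M₃`, `M₃ ≤ N₃`, `N₃`
unramified at `B₀`. Uses `S_below2`, `S_inert`, `S_inertConv`, `S_fin`, `S_L3 Ω` (for all `Ω`).

Proof. `Ω` is algebraic over `ℚ`. Let `A = FB B₀ ∪ M₃` (subset of `Ω`). By `S_fin` there is a finite Galois
extension `E/k` with `L ≤ E` such that every `σ` which fixes `A ∩ E` fixes `L`. Let `E' = E ⊔ M₃`, finite and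
Galois over `k`. Let `Inert B₀ E' σ`. `σ` fixes `E' ∩ FB B₀` by `S_L3`. Let `P₃` be the prime of `𝓞 M₃` below
`B₀` (`S_below2`); `P₃ ∩ 𝓞 k = {x | algebraMap k Ω x ∈ B₀.nonunits}` is not in `S₃`, so
`Algebra.IsUnramifiedAt (𝓞 k) P₃` and `σ` fixes `M₃` (`S_inertConv` for `M₃ ≤ E'`). So `σ` fixes `A ∩ E`,
hence `L`. `S_inert` (for `L ≤ E'`). -/
def S_V5b : Prop :=
  ∀ (k Ω : Type) [Field k] [NumberField k] [Field Ω] [CharZero Ω] [Algebra k Ω],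
    IsAlgClosed Ω → Algebra.IsAlgebraic k Ω → ∀ (B₀ : ValuationSubring Ω), (2 : Ω) ∈ B₀.nonunits →
    ∀ (S₃ : Set (HeightOneSpectrum (𝓞 k))) (N₃ M₃ L : IntermediateField k Ω),
    (∀ w ∈ S₃, ¬ ∀ x : 𝓞 k, x ∈ w.asIdeal ↔ algebraMap k Ω (x : k) ∈ B₀.nonunits) →
    UnramifiedOutside S₃ N₃ → M₃ ≤ N₃ → FiniteDimensional k M₃ → IsGalois k M₃ →
    FiniteDimensional k L →
    (∀ σ : Ω ≃ₐ[k] Ω, (∀ x ∈ FB B₀, σ x = x) → (∀ x ∈ M₃, σ x = x) → ∀ x ∈ L, σ x = x) →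
    ∀ (P : Ideal (𝓞 L)) [P.IsPrime], Below B₀ L P → Algebra.IsUnramifiedAt (𝓞 k) P

/-- **[V5]** Unramifiedness outside `v'`. Uses `S_V5a`, `S_V5b`, `S_below2`, `S_Vtre`.

Proof. Let `P` be a prime of `𝓞 L`, `P ∩ 𝓞 k ≠ v'`. If `P ∩ 𝓞 k ≠ v`: `S_V5a` with `S = {v, v'}`. If
`P ∩ 𝓞 k = v`: let `P₀` be the prime of `𝓞 L` below `B₀` (`S_below2`), `P₀ ∩ 𝓞 k = v` by the hypothesis on `B₀`;
`L/k` is unramified at `P₀` by `S_V5b` (`w ∈ S₃` is not the prime of `B₀`, since that is `v ∉ S₃`), so at `P`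
by `S_Vtre`. -/
def S_V5 : Prop :=
  ∀ (k Ω : Type) [Field k] [NumberField k] [Field Ω] [CharZero Ω] [Algebra k Ω],
    IsAlgClosed Ω → Algebra.IsAlgebraic k Ω → ∀ (v v' : HeightOneSpectrum (𝓞 k))
    (B₀ : ValuationSubring Ω), (2 : Ω) ∈ B₀.nonunits →
    (∀ x : 𝓞 k, x ∈ v.asIdeal ↔ algebraMap k Ω (x : k) ∈ B₀.nonunits) →
    ∀ (S₃ : Set (HeightOneSpectrum (𝓞 k))) (N₁ N₂ N₃ M₁ M₂ M₃ L : IntermediateField k Ω), v ∉ S₃ →
    UnramifiedOutside {v, v'} N₁ → UnramifiedOutside {v, v'} N₂ → UnramifiedOutside S₃ N₃ →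
    M₁ ≤ N₁ → M₂ ≤ N₂ → M₃ ≤ N₃ →
    FiniteDimensional k M₁ → FiniteDimensional k M₂ → FiniteDimensional k M₃ →
    IsGalois k M₁ → IsGalois k M₂ → IsGalois k M₃ → FiniteDimensional k L → IsGalois k L →
    (∀ σ : Ω ≃ₐ[k] Ω, (∀ x ∈ M₁, σ x = x) → (∀ x ∈ M₂, σ x = x) → ∀ x ∈ L, σ x = x) →
    (∀ σ : Ω ≃ₐ[k] Ω, (∀ x ∈ FB B₀, σ x = x) → (∀ x ∈ M₃, σ x = x) → ∀ x ∈ L, σ x = x) →
    ∀ (P : Ideal (𝓞 L)) [P.IsPrime], P.comap (algebraMap (𝓞 k) (𝓞 L)) ≠ v'.asIdeal →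
      Algebra.IsUnramifiedAt (𝓞 k) P

/-- **[UNIQ]** Uniqueness of the `ℤ₂`-extension unramified outside `{v, v'}`. Uses `S_below1`, `S_chi`,
`S_V2`, `S_V3`, `S_V4`, `S_Vlay`, `S_Vcyc`, `S_Vle`, `S_Vmov`, `S_V5`, `S_U`.

Proof. Suppose `N₁ ≠ N₂`. Let `B₀` be a valuation ring of `Ω` above `v` (`S_below1` for `M = k`),
`F = FB B₀ ⊇ k`, `χ₁, χ₂, χ₃` the characters of `N₁, N₂, N₃` (`S_chi`). `χ₁ ≠ 1`, `χ₂ ≠ 1` (surjective). If
`χ₁ σ = 1 ↔ χ₂ σ = 1` for all `σ` then the same automorphisms fix `N₁` and `N₂`, `N₁ = N₂` (`S_Vle` twice).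
`S_V2 Ω` and `S_V3` give `a, b, c`. Let `H = {σ | σ fixes F}`. There is `x ∈ N₃`, `x ∉ F`; `S_Vmov`: some
`σ ∈ H` moves `x`, `χ₃ σ ≠ 1`. `S_V4` gives `ψ`. `S_U` for `v'` and `ε` gives `C`. Let `n` with `2 ^ n > C`
(`Nat.lt_two_pow_self`), `m` from `S_V4`. `M_i` = layer of level `m` of `χ_i`, `L` = layer of level `n` of `ψ`
(`S_Vlay`), cyclic of degree `2 ^ n` (`S_Vcyc`). `M_i ≤ N_i`: `σ` fixing `N_i` has `χ_i σ = 1`, `Dv m`, so it fixes `M_i`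
(`S_Vle`). The hypotheses of `S_V5` on `L` follow from the two properties of `m`. So `L/k` is unramified at all
primes not above `v'` and `S_U` gives `2 ^ n = finrank k L ≤ C`, contradiction. (`NumberField L` from
`FiniteDimensional k L`.) -/
def S_UNIQ : Prop :=
  ∀ (k Ω : Type) [Field k] [NumberField k] [IsTotallyComplex k] [Field Ω] [CharZero Ω]
    [Algebra k Ω], IsAlgClosed Ω → Algebra.IsAlgebraic k Ω → ∀ (v v' : HeightOneSpectrum (𝓞 k)),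
    Nat.card (𝓞 k ⧸ v'.asIdeal) = 2 → (2 : 𝓞 k) ∉ v'.asIdeal ^ 2 →
    ∀ ε : (𝓞 k)ˣ, (∀ n : ℕ, 0 < n → ε ^ n ≠ 1) →
    (∀ B : ValuationSubring Ω,
      (∀ x : 𝓞 k, x ∈ v.asIdeal ↔ algebraMap k Ω (x : k) ∈ B.nonunits) →
      (2 : Ω) ∈ B.nonunits ∧ ∀ x : k, algebraMap k Ω x ∈ FB B) →
    ∀ (S₃ : Set (HeightOneSpectrum (𝓞 k))) (N₃ : IntermediateField k Ω), v ∉ S₃ →
    IsZpExtension 2 N₃ → UnramifiedOutside S₃ N₃ →
    (∀ B : ValuationSubring Ω,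
      (∀ x : 𝓞 k, x ∈ v.asIdeal ↔ algebraMap k Ω (x : k) ∈ B.nonunits) → ∃ x ∈ N₃, x ∉ FB B) →
    ∀ N₁ N₂ : IntermediateField k Ω, IsZpExtension 2 N₁ → IsZpExtension 2 N₂ →
    UnramifiedOutside {v, v'} N₁ → UnramifiedOutside {v, v'} N₂ → N₁ = N₂

end Pool.Agent.Lib.MP_869d3b_nt
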