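import Pool.Agent.Lib.MP_869d3b_nt.Fin
import Pool.Agent.Lib.MP_869d3b_nt.StmV2

/-!
# MP_869d3b_nt: uniqueness for the concrete field
-/

set_option autoImplicit false

open NumberField IsDedekindDomain

namespace Pool.Agent.Lib.MP_869d3b_nt

/-- The facts about the field `k` needed below. -/
theorem fin_uniq
    (hphi : ∀ (Ω : Type) [Field Ω] [DecidableEq Ω] [CharZero Ω], S_phi Ω)
    (htow : ∀ (Ω : Type) [Field Ω] [DecidableEq Ω] [CharZero Ω], S_tower Ω)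
    (hlev : S_lev) (hzp : S_zp) (hunr : S_unr) (hsqrt : S_sqrt)
    (hloc : ∀ (Ω : Type) [Field Ω] [CharZero Ω], S_loc Ω) (hUNIQ : S_UNIQ)
    (hrep : S_Krep) (htc : S_Ktc) (hint : S_Kint) (hsq : S_Ksq) (hunit : S_Kunit)
    (hpr : S_Kpr) (hdeg : S_Kdeg) (hsig : S_Ksig)
    (k Ω : Type) [Field k] [NumberField k] [Field Ω] [DecidableEq Ω] [CharZero Ω] [Algebra k Ω]
    (hac : IsAlgClosed Ω) (hal : Algebra.IsAlgebraic k Ω) (s r : k) (hK : IsK k s r) (p0 : 𝓞 k)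
    (hp0 : 2 * (p0 : k) = 1 + s) :
    ∀ N₁ N₂ : IntermediateField k Ω, IsZpExtension 2 N₁ → IsZpExtension 2 N₂ →
    UnramifiedOutside {w : HeightOneSpectrum (𝓞 k) | p0 ∈ w.asIdeal} N₁ →
    UnramifiedOutside {w : HeightOneSpectrum (𝓞 k) | p0 ∈ w.asIdeal} N₂ → N₁ = N₂ := by
  intro N₁ N₂ hz1 hz2 hu1 hu2
  obtain ⟨v, v', -, hvv⟩ := hsig k s r hK p0 hp0
  rw [hvv] at hu1 hu2
  have : IsTotallyComplex k := htc k s r hK
  obtain ⟨-, ρ, hρ⟩ := hint k s r hK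
  obtain ⟨hpr1, hpr2, hpr3, -⟩ := hpr k s r hK p0 ρ hp0 hρ
  have hpv : p0 ∈ v.asIdeal := by
    have : v ∈ ({w : HeightOneSpectrum (𝓞 k) | p0 ∈ w.asIdeal}) := by rw [hvv]; simp
    exact this
  have hpv' : p0 ∈ v'.asIdeal := by
    have : v' ∈ ({w : HeightOneSpectrum (𝓞 k) | p0 ∈ w.asIdeal}) := by rw [hvv]; simp
    exact this
  have h2v' := hpr2 v' hpv'
  have h2v := hpr2 v hpv
  obtain ⟨hc, hns⟩ := hdeg k s r hK v' h2v'
  obtain ⟨ε, -, hε⟩ := hunit k s r hK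
  have hp0s : (p0 : k) = (1 + s) / 2 := by
    rw [← hp0]; ring
  have hs' : s = 2 * (p0 : k) - 1 := by rw [hp0]; ring
  have hpp : (p0 : k) ^ 2 = (p0 : k) - 2 := by
    have h7 := hK.hs
    rw [hp0s]
    field_simp
    linear_combination h7
  have hpp1 : ((1 - p0 : 𝓞 k) : k) ^ 2 = ((1 - p0 : 𝓞 k) : k) - 2 := by
    have e : ((1 - p0 : 𝓞 k) : k) = 1 - (p0 : k) := by simp
    rw [e]
    linear_combination hpp
  obtain ⟨q1, q2, -, -⟩ := hsq k s r hK (p0 : k) hp0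
  have h1' : ¬ ∃ x : k, x ^ 2 = -((1 - p0 : 𝓞 k) : k) := by
    rintro ⟨x, hx⟩
    have e : ((1 - p0 : 𝓞 k) : k) = 1 - (p0 : k) := by simp
    rw [e] at hx
    exact q2 ⟨x, by rw [← hx]; ring⟩
  obtain ⟨N₃, hz3, hu3, x, hx3, hx2⟩ := fin_Z hphi htow hlev hzp hunr hsqrt k Ω hac hal (1 - p0)
    hpp1 h1'
  obtain ⟨p, hp⟩ : ∃ p : Ω, p = algebraMap k Ω (p0 : k) := ⟨_, rfl⟩
  have hpp' : p ^ 2 = p - 2 := by
    rw [hp, ← map_pow, hpp, map_sub, map_ofNat]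
  have hkQ : Algebra.IsAlgebraic ℚ Ω := by
    have := hal
    exact Algebra.IsAlgebraic.trans ℚ k Ω
  have hpB : ∀ B : ValuationSubring Ω,
      (∀ x : 𝓞 k, x ∈ v.asIdeal ↔ algebraMap k Ω (x : k) ∈ B.nonunits) → p ∈ B.nonunits := by
    intro B hB
    rw [hp]
    exact (hB p0).1 hpv
  refine hUNIQ k Ω hac hal v v' hc hns ε hε ?_ {w : HeightOneSpectrum (𝓞 k) | 1 - p0 ∈ w.asIdeal}
    N₃ ?_ hz3 hu3 ?_ N₁ N₂ hz1 hz2 hu1 hu2
  · intro B hB
    obtain ⟨l1, l2, -, -, -, -, l7, -⟩ := hloc Ω hac hkQ p hpp' B (hpB B hB)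
    refine ⟨l1, ?_⟩
    have hr : algebraMap k Ω r ∈ FB B := l7 _ (by rw [← map_pow, hK.hr, map_ofNat])
    have hs : algebraMap k Ω s ∈ FB B := by
      have e : algebraMap k Ω s = 2 * p - 1 := by
        rw [hs', hp, map_sub, map_mul, map_ofNat, map_one]
      rw [e]
      exact sub_mem (mul_mem (ofNat_mem (FB B) 2) l2) (one_mem _)
    intro x
    obtain ⟨a, b, c, d, rfl⟩ := hrep k s r hK x
    have hq : ∀ q : ℚ, algebraMap k Ω (q : k) ∈ FB B := by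
      intro q
      rw [map_ratCast]
      exact SubfieldClass.ratCast_mem (FB B) q
    rw [map_add, map_add, map_add, map_mul, map_mul, map_mul, map_mul]
    exact add_mem (add_mem (add_mem (hq a) (mul_mem (hq b) hs)) (mul_mem (hq c) hr))
      (mul_mem (hq d) (mul_mem hs hr))
  · intro h
    rcases (hpr1 v h2v).1 with h' | h'
    · exact h'.2 h
    · exact h'.1 hpv
  · intro B hB
    obtain ⟨-, -, -, -, -, l6, -, -⟩ := hloc Ω hac hkQ p hpp' B (hpB B hB)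
    refine ⟨x, hx3, fun hxF => l6 ⟨x, hxF, ?_⟩⟩
    rw [hx2, hp]
    simp

end Pool.Agent.Lib.MP_869d3b_nt
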