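import Pool.Agent.Lib.MP_869d3b_nt.StmZ

/-!
# MP_869d3b_nt: the extension `N`, assembled
-/

set_option autoImplicit false

open NumberField IsDedekindDomain

namespace Pool.Agent.Lib.MP_869d3b_nt

/-- `N` is a `ℤ_2`-extension, unramified outside the primes containing `p0`, contains `√(-p)`, and
`X(N)` is infinite if `-39` and `39 p0` are not squares in `k`. -/
theorem fin_N (hlev : S_lev) (hzp : S_zp) (hunr : S_unr) (hquad : S_quad) (hsqrt : S_sqrt)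
    (hsec4 : S_sec4)
    (k Ω : Type) [Field k] [NumberField k] [Field Ω] [DecidableEq Ω] [CharZero Ω] [Algebra k Ω]
    (hac : IsAlgClosed Ω) (hal : Algebra.IsAlgebraic k Ω) (p0 : 𝓞 k) (r0 : k) (p : Ω)
    (hp : p = algebraMap k Ω (p0 : k)) (hpp : p ^ 2 = p - 2) (hr : r0 ^ 2 = 2145)
    (h1 : ¬ ∃ x : k, x ^ 2 = -(p0 : k)) (h2 : ¬ ∃ x : k, x ^ 2 = -39)
    (h3 : ¬ ∃ x : k, x ^ 2 = 39 * (p0 : k)) (φ : Pt p →+ Pt p) (hφ : IsPhi p φ)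
    (t : ℕ → Pt p) (ht : IsTower p φ t) :
    IsZpExtension 2 (Ninf k t) ∧
    UnramifiedOutside {v : HeightOneSpectrum (𝓞 k) | p0 ∈ v.asIdeal} (Ninf k t) ∧
    (∃ x ∈ Ninf k t, x ^ 2 = -p) ∧ Infinite (X 2 (Ninf k t) Ω) := by
  have hpm : p ∈ (algebraMap k Ω).fieldRange := ⟨(p0 : k), hp.symm⟩
  obtain ⟨-, hL2, -, -, -, -, -⟩ := hlev k Ω hac hal p hpp hpm φ hφ t ht
  have hz : IsZpExtension 2 (Ninf k t) := hzp k Ω hac hal (p0 : k) p hp hpp φ hφ t ht h1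
  obtain ⟨⟨x, hx, hx2⟩, -⟩ := hsqrt k Ω hac hal (p0 : k) p hp hpp φ hφ t ht
  have hxN : x ∈ Ninf k t := (hL2 3).1 hx
  have hxk : x ∉ (algebraMap k Ω).fieldRange := by
    rintro ⟨c, hc⟩
    refine h1 ⟨c, (algebraMap k Ω).injective ?_⟩
    rw [map_pow, hc, hx2, hp, map_neg]
  refine ⟨hz, hunr k Ω hac hal p0 p hp hpp φ hφ t ht, ⟨x, hxN, hx2⟩, ?_⟩
  have hkQ : Algebra.IsAlgebraic ℚ Ω := by
    have := hal
    exact Algebra.IsAlgebraic.trans ℚ k Ω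
  have hN39 : ¬ ∃ y : Ninf k t, y ^ 2 = -39 := by
    rintro ⟨y, hy⟩
    have hy' : (y : Ω) ^ 2 = algebraMap k Ω (-39) := by
      have := congrArg (algebraMap (Ninf k t) Ω) hy
      rw [map_pow, map_neg, map_ofNat] at this
      rw [map_neg, map_ofNat]
      exact this
    have hx' : x ^ 2 = algebraMap k Ω (-(p0 : k)) := by rw [hx2, hp, map_neg]
    rcases hquad k Ω hac hal (Ninf k t) hz (-39) (-(p0 : k)) (y : Ω) x y.2 hxN hy' hx' hxk with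
      ⟨c, hc⟩ | ⟨c, hc⟩
    · exact h2 ⟨c, hc⟩
    · exact h3 ⟨c, by rw [hc]; ring⟩
  refine hsec4 (Ninf k t) Ω hac hkQ p (algebraMap k Ω r0) hpp ?_ φ hφ t ht ?_ ?_ ?_ hN39
  · rw [← map_pow, hr, map_ofNat]
  · have hm : algebraMap k Ω (p0 : k) ∈ Ninf k t := (Ninf k t).algebraMap_mem _
    exact ⟨⟨algebraMap k Ω (p0 : k), hm⟩, hp.symm⟩
  · exact ⟨⟨algebraMap k Ω r0, (Ninf k t).algebraMap_mem _⟩, rfl⟩
  · intro n z y hzy
    obtain ⟨h, h'⟩ := (hL2 n).2 z y hzy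
    exact ⟨⟨⟨z, h⟩, rfl⟩, ⟨⟨y, h'⟩, rfl⟩⟩

end Pool.Agent.Lib.MP_869d3b_nt
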