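import Pool.Agent.Lib.MP_869d3b_nt.Fin2
import Pool.Agent.Lib.MP_869d3b_nt.AllV
import Pool.Agent.Lib.MP_869d3b_nt.K.Kcj
import Pool.Agent.Lib.MP_869d3b_nt.K.Kcm
import Pool.Agent.Lib.MP_869d3b_nt.K.Kconj
import Pool.Agent.Lib.MP_869d3b_nt.K.Kdeg
import Pool.Agent.Lib.MP_869d3b_nt.K.Kex
import Pool.Agent.Lib.MP_869d3b_nt.K.Kfour
import Pool.Agent.Lib.MP_869d3b_nt.K.Kgal
import Pool.Agent.Lib.MP_869d3b_nt.K.Kind
import Pool.Agent.Lib.MP_869d3b_nt.K.Kint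
import Pool.Agent.Lib.MP_869d3b_nt.K.Kpr
import Pool.Agent.Lib.MP_869d3b_nt.K.Krep
import Pool.Agent.Lib.MP_869d3b_nt.K.Ksig
import Pool.Agent.Lib.MP_869d3b_nt.K.Ksplit
import Pool.Agent.Lib.MP_869d3b_nt.K.Ksq
import Pool.Agent.Lib.MP_869d3b_nt.K.Ktc
import Pool.Agent.Lib.MP_869d3b_nt.K.Kunit

/-!
# MP_869d3b_nt: the theorem
-/

set_option autoImplicit false

open NumberField IsDedekindDomain

namespace Pool.Agent.Lib.MP_869d3b_nt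

/-- The theorem, from the local facts and `S_Kaut`. -/
theorem final_of (hR1 : ∀ (Ω : Type) [Field Ω] [CharZero Ω], S_R1 Ω)
    (hloc : ∀ (Ω : Type) [Field Ω] [CharZero Ω], S_loc Ω)
    (hL1 : ∀ (Ω : Type) [Field Ω] [CharZero Ω], S_L1 Ω)
    (hL3 : ∀ (Ω : Type) [Field Ω] [CharZero Ω], S_L3 Ω)
    (hL10 : ∀ (Ω : Type) [Field Ω] [CharZero Ω], S_L10 Ω)
    (hV2 : ∀ (Ω : Type) [Field Ω] [CharZero Ω], S_V2 Ω) (haut : S_Kaut) :
    ∃ (k : Type) (_ : Field k) (_ : NumberField k) (_ : IsCMField k) (s r : k) (p0 : 𝓞 k),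
      s ^ 2 = -7 ∧ r ^ 2 = 2145 ∧ IntermediateField.adjoin ℚ {s, r} = ⊤ ∧
      2 * (p0 : k) = 1 + s ∧
      RealPrimesSplit 2 k ∧
      IsCMType 2 k {v : HeightOneSpectrum (𝓞 k) | p0 ∈ v.asIdeal} ∧
      ∃ N : IntermediateField k (AlgebraicClosure k),
        (∀ N' : IntermediateField k (AlgebraicClosure k),
          (IsZpExtension 2 N' ∧
            UnramifiedOutside {v : HeightOneSpectrum (𝓞 k) | p0 ∈ v.asIdeal} N') ↔ N' = N) ∧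
        Infinite (X 2 N (AlgebraicClosure k)) := by
  classical
  have hphi : ∀ (Ω : Type) [Field Ω] [DecidableEq Ω] [CharZero Ω], S_phi Ω :=
    fun Ω _ _ _ => a_phi Ω
  have htow : ∀ (Ω : Type) [Field Ω] [DecidableEq Ω] [CharZero Ω], S_tower Ω :=
    fun Ω _ _ _ => a_tower Ω
  have hgal : S_Kgal := p_Kgal p_Kind p_Krep
  have hpr : S_Kpr := p_Kpr hgal haut
  have hfour : S_Kfour := p_Kfour hgal haut hpr
  have hcj : S_Kcj := p_Kcj p_Kconj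
  have hsq : S_Ksq := p_Ksq p_Kind p_Krep
  have hunit : S_Kunit := p_Kunit p_Kind
  have hdeg : S_Kdeg := p_Kdeg hgal p_Kint hpr hfour
  have hsig : S_Ksig := p_Ksig p_Kint hpr hfour
  obtain ⟨k, i1, i2, i3, s, r, hK⟩ := p_Kex hgal haut p_Ktc
  obtain ⟨⟨p0, hp0⟩, -⟩ := p_Kint k s r hK
  refine ⟨k, i1, i2, i3, s, r, p0, hK.hs, hK.hr, hK.top, hp0, p_Ksplit p_Kint hpr hcj k s r hK,
    p_Kcm p_Kint hpr hcj k s r hK p0 hp0, ?_⟩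
  have hac : IsAlgClosed (AlgebraicClosure k) := inferInstance
  have hal : Algebra.IsAlgebraic k (AlgebraicClosure k) := inferInstance
  have hp0s : (p0 : k) = (1 + s) / 2 := by
    rw [← hp0]; ring
  have hpp : (p0 : k) ^ 2 = (p0 : k) - 2 := by
    have h7 := hK.hs
    rw [hp0s]
    field_simp
    linear_combination h7
  obtain ⟨q1, -, q3, q4⟩ := hsq k s r hK (p0 : k) hp0
  have h1 : ¬ ∃ x : k, x ^ 2 = -(p0 : k) := fun ⟨x, hx⟩ => q1 ⟨x, by rw [← hx]; ring⟩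
  have h2 : ¬ ∃ x : k, x ^ 2 = -39 := fun ⟨x, hx⟩ => q3 ⟨x, by rw [← hx]; ring⟩
  have h3 : ¬ ∃ x : k, x ^ 2 = 39 * (p0 : k) := fun ⟨x, hx⟩ => q4 ⟨x, by rw [← hx]; ring⟩
  obtain ⟨N, hz, hu, hX⟩ := fin_X hphi htow a_lev a_zp (a_unr hR1) a_quad a_sqrt
    (a_sec4 hR1 hloc hL1 hL3 hL10) k (AlgebraicClosure k) hac hal p0 r hpp hK.hr h1 h2 h3
  refine ⟨N, fun N' => ⟨fun h => ?_, fun h => ?_⟩, hX⟩
  · exact fin_uniq hphi htow a_lev a_zp (a_unr hR1) a_sqrt hloc (a_UNIQ hL3 hV2) p_Krep p_Ktc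
      p_Kint hsq hunit hpr hdeg hsig k (AlgebraicClosure k) hac hal s r hK p0 hp0 N' N h.1 hz h.2 hu
  · subst h
    exact ⟨hz, hu⟩

end Pool.Agent.Lib.MP_869d3b_nt
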