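import Pool.Agent.Lib.MP_869d3b_nt.StmV2

/-!
# MP_869d3b_nt, [V le]: Galois correspondence
-/

set_option autoImplicit false

namespace Pool.Agent.Lib.MP_869d3b_nt

theorem piece_Vle : S_Vle := by
  intro k Ω _ _ _ _ hac halg M N hfix
  haveI : CharZero k := (algebraMap k Ω).charZero
  haveI : IsAlgClosure k Ω := ⟨hac, halg⟩
  haveI : IsGalois k Ω := {}
  rw [← InfiniteGalois.fixedField_fixingSubgroup N, IntermediateField.le_iff_le]
  intro σ hσ
  rw [IntermediateField.mem_fixingSubgroup_iff] at hσ ⊢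
  exact hfix σ fun x hx => hσ x hx

end Pool.Agent.Lib.MP_869d3b_nt
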