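import Pool.Agent.Lib.MP_869d3b_nt.StmZ

/-!
# MP_869d3b_nt, [Z fin]: descent to a finite level
-/

set_option autoImplicit false

namespace Pool.Agent.Lib.MP_869d3b_nt

theorem p_fin : S_fin := by
  intro k Ω _ _ _ _ hac halg A L hL hfix
  haveI : CharZero k := (algebraMap k Ω).charZero
  haveI : IsAlgClosure k Ω := ⟨hac, halg⟩
  haveI : IsGalois k Ω := {}
  -- `L ≤ adjoin k A`
  have hLA : L ≤ IntermediateField.adjoin k A := by
    rw [← InfiniteGalois.fixedField_fixingSubgroup (IntermediateField.adjoin k A),
      IntermediateField.le_iff_le]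
    intro σ hσ
    rw [IntermediateField.mem_fixingSubgroup_iff] at hσ ⊢
    exact hfix σ fun x hx => hσ x (IntermediateField.subset_adjoin k A hx)
  -- a finite set of generators
  let b := Module.finBasis k L
  have hT : ∀ i, ∃ T : Finset Ω, (T : Set Ω) ⊆ A ∧
      (b i : Ω) ∈ IntermediateField.adjoin k (T : Set Ω) := fun i =>
    IntermediateField.exists_finset_of_mem_adjoin (hLA (b i).2)
  choose T hTA hTm using hT
  classical
  let U : Finset Ω := Finset.univ.biUnion T
  have hUA : ∀ x ∈ U, x ∈ A := by
    intro x hx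
    obtain ⟨i, _, hi⟩ := Finset.mem_biUnion.1 hx
    exact hTA i hi
  have hLU : L ≤ IntermediateField.adjoin k (U : Set Ω) := by
    intro x hx
    have e : x = ((∑ i, b.repr ⟨x, hx⟩ i • b i : L) : Ω) := by
      rw [b.sum_repr]
    rw [e, IntermediateField.coe_sum]
    refine sum_mem fun i _ => ?_
    rw [IntermediateField.coe_smul]
    refine IntermediateField.smul_mem _ ?_
    refine IntermediateField.adjoin.mono k _ _ ?_ (hTm i)
    intro z hz
    exact Finset.mem_coe.2 (Finset.mem_biUnion.2 ⟨i, Finset.mem_univ _, hz⟩)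
  haveI : FiniteDimensional k (IntermediateField.adjoin k (U : Set Ω)) :=
    IntermediateField.finiteDimensional_adjoin fun x _ => Algebra.IsIntegral.isIntegral x
  have hle : IntermediateField.adjoin k (U : Set Ω) ≤
      IntermediateField.normalClosure k (IntermediateField.adjoin k (U : Set Ω)) Ω :=
    IntermediateField.le_normalClosure _
  refine ⟨IntermediateField.normalClosure k (IntermediateField.adjoin k (U : Set Ω)) Ω,
    inferInstance, {}, hLU.trans hle, ?_⟩
  intro σ hσ x hx
  have h := (IntermediateField.forall_mem_adjoin_smul_eq_self_iff k (S := (U : Set Ω)) σ).2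
    fun z hz => hσ z (hUA z hz) (hle (IntermediateField.subset_adjoin k _ hz))
  exact h x (hLU hx)

end Pool.Agent.Lib.MP_869d3b_nt
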