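import Pool.Agent.Lib.MP_869d3b_nt.StmE

/-!
# MP_869d3b_nt, section 0: halving with respect to `φ`
-/

set_option autoImplicit false

namespace Pool.Agent.Lib.MP_869d3b_nt

section

variable {Ω : Type} [Field Ω] [CharZero Ω]

private theorem half_p0 (p : Ω) (hp : p ^ 2 = p - 2) : p ≠ 0 := by
  rintro rfl
  have : (2 : Ω) = 0 := by linear_combination hp
  exact two_ne_zero this

private theorem half_p4 (p : Ω) (hp : p ^ 2 = p - 2) : p ^ 4 ≠ 1 := by
  intro h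
  have h1 : p ^ 4 = 2 - 3 * p := by linear_combination (p ^ 2 + p - 1) * hp
  have h2 : 3 * p = 1 := by linear_combination h1 - h
  have h3 : (16 : Ω) = 0 := by linear_combination 9 * hp - (3 * p - 2) * h2
  exact (by norm_num : (16 : Ω) ≠ 0) h3

omit [CharZero Ω] in
private theorem half_mu (p : Ω) (hp : p ^ 2 = p - 2) : (1 - p) ^ 4 + p ^ 4 = 1 := by
  linear_combination (2 * p ^ 2 - 2 * p) * hp

end

theorem p_half (Ω : Type) [Field Ω] [DecidableEq Ω] [CharZero Ω] (hcoord : S_coord Ω) :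
    S_half Ω := by
  intro p hp φ hφ R a b r hR hra hr
  obtain ⟨c1, c2, -, -, c5, -, -⟩ := hcoord p hp
  have hp0 := half_p0 p hp
  have hab : b ^ 2 = a * (a - 1) * (a - p ^ 4) := c2 R a b hR
  obtain ⟨t, ht⟩ : ∃ t, t = b / r := ⟨_, rfl⟩
  have hb : b = t * r := by rw [ht, div_mul_cancel₀ _ hr]
  have ht2 : t ^ 2 = (r ^ 2 - 1) * (r ^ 2 - p ^ 4) := by
    have hr2 : r ^ 2 ≠ 0 := pow_ne_zero 2 hr
    apply mul_left_cancel₀ hr2
    rw [← hra, hb] at hab
    linear_combination hab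
  rw [← ht]
  obtain ⟨z, hz⟩ : ∃ z, z = p ^ 2 / 2 * (p ^ 2 + r ^ 2 - t) := ⟨_, rfl⟩
  rw [← hz]
  have hq : z * (z - p ^ 4) = p ^ 2 * r ^ 2 * (z - 1) := by
    rw [hz]
    linear_combination (p ^ 4 / 4) * ht2 +
      (r ^ 2 * p ^ 2 * (2 - p * (1 + p ^ 2)) * (p + 1) / 4) * hp
  have hz1 : z - 1 ≠ 0 := by
    intro h
    have h1 : z = 1 := by linear_combination h
    rw [h1] at hq
    exact half_p4 p hp (by linear_combination -hq)
  have hon : OnC p z (p * r * (z - 1)) := by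
    change (p * r * (z - 1)) ^ 2 = z * (z - 1) * (z - p ^ 4)
    linear_combination -(z - 1) * hq
  obtain ⟨S, hS⟩ := c1 z _ hon
  refine ⟨S, ?_, hS⟩
  have hφS := hφ.aff S z _ hS (fun h => hz1 (by rw [h, sub_self]))
  have e1 : z * (z - p ^ 4) / (p ^ 2 * (z - 1)) = a := by
    rw [hq, ← hra]
    field_simp
  have htp : t * p ^ 2 = p ^ 4 + p ^ 2 * r ^ 2 - 2 * z := by
    rw [hz]
    ring
  have hX : (1 - p) ^ 4 - (z - 1) ^ 2 = t * p ^ 2 * (z - 1) := by
    rw [htp]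
    linear_combination hq + half_mu p hp
  have e2 : p * r * (z - 1) * ((1 - p) ^ 4 - (z - 1) ^ 2) / (p ^ 3 * (z - 1) ^ 2) = b := by
    rw [hX, hb]
    field_simp
  rw [e1, e2] at hφS
  exact c5 _ _ _ _ hφS hR

end Pool.Agent.Lib.MP_869d3b_nt
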