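import Pool.Agent.Lib.MP_869d3b_nt.StmM

/-!
# MP_869d3b_nt: proof of `S_lift`
-/

set_option autoImplicit false

namespace Pool.Agent.Lib.MP_869d3b_nt

/-- A valuation ring of `Ω` above a valuation ring `B` of the subfield `M`. -/
private lemma lift_above {F Ω : Type} [Field F] [Field Ω] [Algebra F Ω] (M : IntermediateField F Ω)
    (B : ValuationSubring M) :
    ∃ A : ValuationSubring Ω, (∀ x : M, (x : Ω) ∈ A → x ∈ B) ∧
      (∀ x : M, x ∈ B.nonunits → (x : Ω) ∈ A.nonunits) := by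
  obtain ⟨A, h, hloc⟩ := IsLocalRing.exists_factor_valuationRing (K := Ω)
    ((algebraMap M Ω).comp B.subtype)
  refine ⟨A, ?_, ?_⟩
  · intro x hx
    rcases B.mem_or_inv_mem x with hB | hB
    · exact hB
    · rcases eq_or_ne x 0 with h0 | h0
      · rw [h0]; exact B.zero_mem
      · -- the image of `x⁻¹` is a unit
        have hu : IsUnit ((((algebraMap M Ω).comp B.subtype).codRestrict A.toSubring h)
            ⟨x⁻¹, hB⟩) := by
          refine isUnit_iff_exists_inv.2 ⟨⟨(x : Ω), hx⟩, ?_⟩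
          apply Subtype.ext
          change ((x⁻¹ : M) : Ω) * (x : Ω) = 1
          rw [← IntermediateField.coe_mul, inv_mul_cancel₀ h0]
          rfl
        have hu2 := hloc.map_nonunit _ hu
        obtain ⟨⟨y, hy⟩, hxy⟩ := isUnit_iff_exists_inv.1 hu2
        have hxy' : x⁻¹ * y = 1 := congrArg Subtype.val hxy
        have : y = x := by
          have := congrArg (fun z => x * z) hxy'
          simpa [h0] using this
        rw [← this]; exact hy
  · intro x hx
    have hxB : x ∈ B := B.nonunits_subset hx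
    have hxA : (x : Ω) ∈ A := h ⟨x, hxB⟩
    rw [ValuationSubring.mem_nonunits_iff_exists_mem_maximalIdeal] at hx ⊢
    obtain ⟨h1, h2⟩ := hx
    refine ⟨hxA, ?_⟩
    rw [IsLocalRing.mem_maximalIdeal, mem_nonunits_iff] at h2 ⊢
    intro hu
    exact h2 (hloc.map_nonunit ⟨x, h1⟩ hu)

theorem p_lift : S_lift := by
  intro F Ω _ _ _ hcl halg M H B
  obtain ⟨A, hA1, hA2⟩ := lift_above M B
  have : IsAlgClosure F Ω := ⟨hcl, halg⟩
  have : Normal F Ω := IsAlgClosure.normal F Ω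
  rw [eq_bot_iff]
  intro g hg
  rw [Subgroup.mem_bot]
  have hext : ∀ x : M, (AlgEquiv.liftNormal (g : M ≃ₐ[F] M) Ω) (x : Ω)
      = (((g : M ≃ₐ[F] M) x : M) : Ω) := fun x =>
    AlgEquiv.liftNormal_commutes (g : M ≃ₐ[F] M) Ω x
  have key := H A (AlgEquiv.liftNormal (g : M ≃ₐ[F] M) Ω) (by
    intro x hx hxA
    have hxB : (⟨x, hx⟩ : M) ∈ B := hA1 ⟨x, hx⟩ hxA
    have h1 := hext ⟨x, hx⟩
    change (AlgEquiv.liftNormal (g : M ≃ₐ[F] M) Ω) x - x ∈ A.nonunits
    change (AlgEquiv.liftNormal (g : M ≃ₐ[F] M) Ω) x = _ at h1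
    rw [h1]
    have h2 : ((((g : M ≃ₐ[F] M) ⟨x, hx⟩ - ⟨x, hx⟩ : M)) : Ω) ∈ A.nonunits := by
      apply hA2
      rw [ValuationSubring.mem_nonunits_iff_exists_mem_maximalIdeal]
      have h3 : g • (⟨⟨x, hx⟩, hxB⟩ : B) - (⟨⟨x, hx⟩, hxB⟩ : B) ∈ IsLocalRing.maximalIdeal B := by
        rw [← Ideal.Quotient.eq]
        have h4 : MulSemiringAction.toRingAut (B.decompositionSubgroup F)
            (IsLocalRing.ResidueField B) g = 1 := hg
        have h5 := congrArg (fun f : RingAut (IsLocalRing.ResidueField B) =>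
          f (IsLocalRing.residue B (⟨⟨x, hx⟩, hxB⟩ : B))) h4
        exact h5
      exact ⟨(g • (⟨⟨x, hx⟩, hxB⟩ : B) - (⟨⟨x, hx⟩, hxB⟩ : B)).2, h3⟩
    exact h2)
  apply Subtype.ext
  apply AlgEquiv.ext
  intro x
  have h6 := key x x.2
  rw [hext x] at h6
  exact Subtype.ext h6

end Pool.Agent.Lib.MP_869d3b_nt
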