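import Pool.Agent.Lib.MP_869d3b_nt.Defs

/-!
# MP_869d3b_nt, section 0: the curve `y² = z (z - 1) (z - p⁴)`, `p² = p - 2` (statements)

Notation of the proofs: `lam = p⁴ = -3p + 2`, `mu = (1-p)⁴ = 3p - 1 = 1 - lam`, `p (1-p) = 2`,
`p⁶ = 5p + 2`, `p⁸ = -14 - 3p`, `1 + p⁴ = 3(1-p) = 6/p`.
-/

set_option autoImplicit false

namespace Pool.Agent.Lib.MP_869d3b_nt

section E

variable (Ω : Type) [Field Ω] [DecidableEq Ω] [CharZero Ω]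

/-- [E coord] Basic facts on coordinates.
PROOF. `p ≠ 0` and `p⁴ ≠ 1` (`p = 0` gives `0 = -2`; `p⁴ = 1` gives `(1-p)⁴ = 3p - 1 = 1 - p⁴ = 0`, so
`p = 1`, `1 = -1`). The equation of `cv p` is `y² = z³ - (1+p⁴) z² + p⁴ z = z (z-1) (z-p⁴)`
(`WeierstrassCurve.Affine.equation_iff`). Every point of it is nonsingular
(`WeierstrassCurve.Affine.nonsingular_iff`): if `2y = 0` then `y = 0`, `z ∈ {0, 1, p⁴}` and the derivative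
`3z² - 2(1+p⁴)z + p⁴` is `p⁴`, `1 - p⁴`, `p⁴ (p⁴ - 1)`, not `0`. (Or: the discriminant is not zero.)
The other facts are immediate: points are `0` (`zero`) or `some z y h` (cases), and `-(some z y h) =
some z (negY z y) _` with `negY z y = -y` (`WeierstrassCurve.Affine.Point.neg_some`). -/
def S_coord : Prop :=
  ∀ p : Ω, p ^ 2 = p - 2 →
    (∀ z y : Ω, OnC p z y → ∃ P : Pt p, HasC P z y) ∧
    (∀ (P : Pt p) (z y : Ω), HasC P z y → OnC p z y) ∧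
    (∀ P : Pt p, P = 0 ∨ ∃ z y : Ω, HasC P z y) ∧
    (∀ (P : Pt p) (z y z' y' : Ω), HasC P z y → HasC P z' y' → z = z' ∧ y = y') ∧
    (∀ (P Q : Pt p) (z y : Ω), HasC P z y → HasC Q z y → P = Q) ∧
    (∀ z y : Ω, ¬ HasC (0 : Pt p) z y) ∧
    (∀ (P : Pt p) (z y : Ω), HasC P z y → HasC (-P) z (-y))

/-- [E add] The addition formulas.
PROOF. `WeierstrassCurve.Affine.Point.add_some`, `add_of_Y_eq`, `add_self_of_Y_ne` (names in Mathlib),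
`WeierstrassCurve.Affine.slope_of_X_ne`, `slope_of_Y_ne`, `addX = l² + a₁ l - a₂ - z1 - z2 =
l² + 1 + p⁴ - z1 - z2`, `negAddY = l (addX - z1) + y1`, `addY = - negAddY`. Uses `S_coord` (nonsingularity
of the sum is given by Mathlib). -/
def S_add : Prop :=
  ∀ p : Ω, p ^ 2 = p - 2 → ∀ (P Q : Pt p) (z1 y1 z2 y2 : Ω), HasC P z1 y1 → HasC Q z2 y2 →
    (z1 ≠ z2 → ∀ l : Ω, l = (y1 - y2) / (z1 - z2) →
      HasC (P + Q) (l ^ 2 + 1 + p ^ 4 - z1 - z2) (-(l * ((l ^ 2 + 1 + p ^ 4 - z1 - z2) - z1) + y1))) ∧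
    (z1 = z2 → y1 = -y2 → P + Q = 0) ∧
    (z1 = z2 → y1 = y2 → y1 ≠ 0 → ∀ l : Ω,
      l = (3 * z1 ^ 2 - 2 * (1 + p ^ 4) * z1 + p ^ 4) / (2 * y1) →
      HasC (P + Q) (l ^ 2 + 1 + p ^ 4 - z1 - z2) (-(l * ((l ^ 2 + 1 + p ^ 4 - z1 - z2) - z1) + y1)))

/-- `z1, z2, z3` are the abscissas of the three intersection points of the curve with the line
`y = l z + c`, i.e. `z (z-1) (z-p⁴) - (l z + c)² = (z - z1) (z - z2) (z - z3)`. -/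
def Coll (p l c z1 z2 z3 : Ω) : Prop :=
  z1 + z2 + z3 = l ^ 2 + 1 + p ^ 4 ∧ z1 * z2 + z1 * z3 + z2 * z3 = p ^ 4 - 2 * l * c ∧
    z1 * z2 * z3 = c ^ 2

/-- [E coll1] The points `P`, `Q`, `-(P+Q)` are on a line.
PROOF. Let `q(z) = z (z-1) (z-p⁴) - (l z + c)² = z³ - (l²+1+p⁴) z² + (p⁴ - 2lc) z - c²`.
Case `z1 ≠ z2`: `l = (y1-y2)/(z1-z2)`, `c = y1 - l z1`, so `y2 = l z2 + c`; by `S_add`, `z3 = l²+1+p⁴-z1-z2` and
`-y3 = l (z3 - z1) + y1 = l z3 + c`. `q` vanishes at `z1`, `z2`; `q(z) - (z-z1)(z-z2)(z-z3)` has degree `≤ 1`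
(coefficients `A = (p⁴-2lc) - e2`, `B = e3 - c²`, `A z1 + B = 0 = A z2 + B`), so `A = B = 0`.
Case `z1 = z2`: `y1² = y2²`. If `y1 = -y2` then `P + Q = 0` has no coordinates, impossible. So `y1 = y2`, and
`y1 ≠ 0` (else `y1 = -y2`). `l` = the slope of the tangent, `2 y1 l = 3z1² - 2(1+p⁴)z1 + p⁴`, `c = y1 - l z1`.
Again `A z1 + B = 0` (as `q(z1) = 0`) and `A = 0`: `q'(z1) = 3z1² - 2(l²+1+p⁴) z1 + p⁴ - 2lc
= 2 l y1 - 2 l² z1 - 2 l c = 0`, and the derivative of `(z-z1)²(z-z3)` at `z1` is `0`.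
(In formulas: `A = p⁴ - 2lc - z1² - 2z1z3` with `z3 = l²+1+p⁴-2z1`.) -/
def S_coll1 : Prop :=
  ∀ p : Ω, p ^ 2 = p - 2 → ∀ (P Q : Pt p) (z1 y1 z2 y2 z3 y3 : Ω),
    HasC P z1 y1 → HasC Q z2 y2 → HasC (P + Q) z3 y3 →
    ∃ l c : Ω, Coll Ω p l c z1 z2 z3 ∧ y1 = l * z1 + c ∧ y2 = l * z2 + c ∧ -y3 = l * z3 + c

/-- [E coll2] Conversely.
PROOF. Case `z1 ≠ z2`: `l = (y1-y2)/(z1-z2)`, `S_add`: `P + Q` has abscissa `l²+1+p⁴-z1-z2 = z3` and ordinate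
`-(l (z3-z1) + y1) = -(l z3 + c) = y3`; `S_coord` (5th fact): `P + Q = R`.
Case `z1 = z2`: then `y1 = y2`. From the three relations
`3z1² - 2(1+p⁴) z1 + p⁴ - 2 l y1 = 3z1² - 2(e1 - l²) z1 + (e2 + 2lc) - 2l(l z1 + c) = 3 z1² - 2 e1 z1 + e2 = 0`
(`e1 = 2z1 + z3`, `e2 = z1² + 2z1z3`). If `y1 ≠ 0`, `l` is the slope of the tangent and `S_add` gives the claim as
before. If `y1 = 0` then `3z1² - 2(1+p⁴)z1 + p⁴ = 0` and `z1 ∈ {0,1,p⁴}` (as `z1(z1-1)(z1-p⁴) = 0`), the values are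
`p⁴`, `1 - p⁴`, `p⁴(p⁴-1)`, all nonzero (see `S_coord`): contradiction. -/
def S_coll2 : Prop :=
  ∀ p : Ω, p ^ 2 = p - 2 → ∀ (P Q R : Pt p) (l c z1 z2 z3 : Ω),
    Coll Ω p l c z1 z2 z3 → HasC P z1 (l * z1 + c) → HasC Q z2 (l * z2 + c) →
    HasC R z3 (-(l * z3 + c)) → P + Q = R

/-- The abscissa of `φ(z, y)`. -/
def fZ (p z : Ω) : Ω := z * (z - p ^ 4) / (p ^ 2 * (z - 1))

/-- The ordinate of `φ(z, y)`. -/
def fY (p z y : Ω) : Ω := y * ((1 - p) ^ 4 - (z - 1) ^ 2) / (p ^ 3 * (z - 1) ^ 2)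

/-- `f` is the function `φ`. -/
structure IsPhiFun (p : Ω) (f : Pt p → Pt p) : Prop where
  zero : f 0 = 0
  one : ∀ P : Pt p, HasC P 1 0 → f P = 0
  aff : ∀ (P : Pt p) (z y : Ω), HasC P z y → z ≠ 1 → HasC (f P) (fZ Ω p z) (fY Ω p z y)

/-- [E fun] The function exists.
PROOF. `f 0 = 0`, `f P = 0` if the abscissa is `1`, otherwise the point with coordinates `fZ`, `fY`, which exists
by `S_coord` (first fact) because it is on the curve: with `X = z - 1`, `Z = (X+1)(X+mu)/(p² X)` (as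
`z - p⁴ = X + 1 - lam = X + mu`), `Y² = z (z-1) (z-p⁴) (mu - X²)²/(p⁶ X⁴) = (X+1)(X+mu)(mu-X²)²/(p⁶X³)` and
`Z (Z-1) (Z-p⁴) = (X+1)(X+mu) [(X+1)(X+mu) - p²X] [(X+1)(X+mu) - p⁶X]/(p⁶X³)`; and
`(X+1)(X+mu) - p²X = X² + (1+mu-p²)X + mu`, `(X+1)(X+mu) - p⁶X = X² + (1+mu-p⁶)X + mu`, where
`1 + mu - p² = 2p + 2`, `1 + mu - p⁶ = -2p - 2`, product `(X²+mu)² - 4(p+1)²X² = (X² + mu)² - 4 mu X²
= (X²-mu)²` because `(p+1)² = 3p - 1 = mu`. (A choice function: use `Classical.choose`, or recursion on the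
point with `S_coord`.) -/
def S_fun : Prop :=
  ∀ p : Ω, p ^ 2 = p - 2 → ∃ f : Pt p → Pt p, IsPhiFun Ω p f

/-- [E negT] `f (-P) = - f P` and `f (P + T) = f P` for `T = (1, 0)`.
PROOF. First: clear by the formulas (`fY` is odd in `y`; `-0 = 0`; if `P = (1,y)` then `y = 0`, both sides are `0`).
Second: `P = 0`: `f T = 0`. `P = T` (abscissa `1`): `T + T = 0` (`S_add`, second formula), `f 0 = 0 = f T`.
`P = (z,y)`, `z ≠ 1`, `X = z - 1`: `P + T` is the point with `z* - 1 = mu/X`, `y* = - mu y/X²`. (By `S_add`,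
`l = y/X`, `z* = l² + 1 + p⁴ - z - 1 = (z (z-p⁴) + ...)`: `l² = z(z-p⁴)/X = (X+1)(X+mu)/X = X + 1 + mu + mu/X`, so
`z* = X + 1 + mu + mu/X + p⁴ - X - 1 = 1 + mu/X` as `mu + p⁴ = 1`; `y* = -(l (z* - z) + y)
= -(y/X)(mu/X - X) - y = -y mu/X²`.) `z* ≠ 1`. `fZ = (X + mu/X + 1 + mu)/p²` is invariant under `X ↦ mu/X`, and
`fY = y (mu - X²)/(p³X²) ↦ (-mu y/X²)(mu - mu²/X²) X²/(p³ mu²) = y (mu - X²)/(p³ X²)`. -/
def S_negT : Prop :=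
  ∀ p : Ω, p ^ 2 = p - 2 → ∀ f : Pt p → Pt p, IsPhiFun Ω p f →
    (∀ P : Pt p, f (-P) = - f P) ∧ (∀ P T : Pt p, HasC T 1 0 → f (P + T) = f P)

/-- [E collImg] The image of three collinear points is collinear (pure algebra).
PROOF. Put `X_i = z_i - 1`, `k = c + l` (`y = l X + k`). Then `X1+X2+X3 = l² - (1+mu)`,
`X1X2+X1X3+X2X3 = mu - 2 l k`, `X1X2X3 = k²` (`e1 - 3`, `e2 - 2e1 + 3`, `e3 - e2 + e1 - 1`, `mu = 1 - p⁴`), so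
`k ≠ 0`. Put `L = mu/k - l`, `M = -(l - k)(l mu - k)/k`, `l' = L/p`, `c' = M/p³`. With `X' = X + mu/X + 1 + mu = p² fZ`
and `Y' = y (mu - X²)/X² = p³ fY`:
(1) `Y' = L X' + M`: multiply by `k X²`: `k (lX+k)(mu - X²) - (mu - lk)(X³ + (1+mu)X² + mu X) + (l-k)(l mu - k)X²
 = - mu [X³ + (1+mu-l²)X² + (mu - 2lk)X - k²]`, and the bracket is `(X-X1)(X-X2)(X-X3) = 0` at `X = X_i`.
(2) `X'_1+X'_2+X'_3 = e1(X) + mu e2(X)/e3(X) + 3(1+mu) = l² + 2(1+mu) + mu(mu-2lk)/k² = L² + 2(1+mu) = L² + 6p`,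
(3) `e2(X') = p⁸ - 2LM`: with `s1 = e1(X)`, `s2 = e2(X)`, `s3 = e3(X) = k²`, `a = 1 + mu`:
`sum_{i<j} X_iX_j = s2`, `sum_{i≠j} X_i mu/X_j = mu (s1 s2/s3 - 3)`, `sum_{i<j} mu²/(X_iX_j) = mu² s1/s3`,
`2 a (s1 + mu s2/s3)`, `3a²`; the sum is `p⁸ - 2LM`, `p⁸ = (1-mu)²`.
(4) `e3(X') = M²`: `X' = (X+1)(X+mu)/X`; the identity `X(X+1)(X+mu) - (lX+k)² = (X-X1)(X-X2)(X-X3)` at `X = -1` and
`X = -mu` gives `prod (X_i+1) = (k-l)²`, `prod (X_i+mu) = (k - l mu)²`, and `prod X_i = k²`.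
Then divide: `6p/p² = 6/p = 3(1-p) = 1 + p⁴`, `e1(fZ) = l'² + 1 + p⁴`, `e2(fZ) = p⁴ - 2l'c'`, `e3(fZ) = c'²`. -/
def S_collImg : Prop :=
  ∀ p l c z1 z2 z3 : Ω, p ^ 2 = p - 2 → Coll Ω p l c z1 z2 z3 → z1 ≠ 1 → z2 ≠ 1 → z3 ≠ 1 →
    ∃ l' c' : Ω, Coll Ω p l' c' (fZ Ω p z1) (fZ Ω p z2) (fZ Ω p z3) ∧
      fY Ω p z1 (l * z1 + c) = l' * fZ Ω p z1 + c' ∧
      fY Ω p z2 (l * z2 + c) = l' * fZ Ω p z2 + c' ∧
      fY Ω p z3 (l * z3 + c) = l' * fZ Ω p z3 + c'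

/-- [E phi] `φ` exists as an endomorphism.
PROOF. Let `f` be as in `S_fun`. It is additive, `f (P + Q) = f P + f Q`: let `T` be the point `(1,0)`. The points
with abscissa `1` are `T` only (`y² = 0`). If `P = 0` or `Q = 0`: clear. If `P = T` or `Q = T`: `S_negT` and `f T = 0`. If
`P + Q = 0`: `S_negT`. If `P + Q = T`: `Q = -P + T`, `f Q = f (-P) = - f P` and `f T = 0`. Otherwise `P = (z1,y1)`,
`Q = (z2,y2)`, `P + Q = (z3,y3)` with `z_i ≠ 1`; by `S_coll1` and `S_collImg` the points `f P`, `f Q` and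
`f (P+Q)` satisfy the hypotheses of `S_coll2` (`fY` is odd: `fY z3 y3 = - fY z3 (-y3) = -(l' fZ z3 + c')`), so
`f P + f Q = f (P+Q)`. `AddMonoidHom.mk'`. -/
def S_phi : Prop :=
  ∀ p : Ω, p ^ 2 = p - 2 → ∃ φ : Pt p →+ Pt p, IsPhi p φ

/-- [E ker] The kernel of `φ`, and the points of order `2`.
PROOF. If `P = (z,y)` with `z ≠ 1` then `φ P` is an affine point, not `0`. A point with abscissa `1` is `(1,0)`.
`(0,0)` and `(p⁴,0)`: the formulas give `(0,0)`. If `P + P = 0`, `P = (z,y)`, then `P = -P`, `y = -y`, `y = 0`,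
`z (z-1) (z-p⁴) = 0`. `T + T = 0` by `S_add`. -/
def S_ker : Prop :=
  ∀ p : Ω, p ^ 2 = p - 2 → ∀ φ : Pt p →+ Pt p, IsPhi p φ →
    (∀ P : Pt p, φ P = 0 ↔ P = 0 ∨ HasC P 1 0) ∧
    (∀ P : Pt p, HasC P 0 0 ∨ HasC P (p ^ 4) 0 → HasC (φ P) 0 0) ∧
    (∀ P : Pt p, HasC P 0 0 → φ P = P) ∧
    (∀ P : Pt p, P + P = 0 → P = 0 ∨ HasC P 1 0 ∨ HasC P 0 0 ∨ HasC P (p ^ 4) 0) ∧
    (∀ T : Pt p, HasC T 1 0 → T ≠ 0 ∧ T + T = 0)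

/-- [E half] Halving with respect to `φ`.
PROOF. Put `z = (p²/2)(p² + r² - b/r)`, `y = p r (z - 1)`. From `b² = r² (r²-1)(r²-p⁴)`:
`z² - (p⁴ + p²r²) z + p²r² = 0` [`(2z - p⁴ - p²r²)² = p⁴b²/r² = p⁴ (r²-1)(r²-p⁴)` and
`(p⁴+p²r²)² - 4p²r² = p⁴ [(p²+r²)² - 4r²/p²]`, `4/p² = (1-p)²`, `(p²+r²)² - (1-p)²r² = r⁴ + (2p²-(1-p)²) r² + p⁴
= r⁴ - (1+p⁴)r² + p⁴`, as `2p² - (1-p)² = p² + 2p - 1 = 3p - 3 = -(1+p⁴)`]. So `z (z - p⁴) = p² r² (z-1)`,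
hence `z ≠ 1` (else `1 - p⁴ = 0`), `y² = p²r²(z-1)² = z (z-p⁴)(z-1)`: the point `S = (z,y)` exists, and
`fZ p z = r² = a`; `fY p z y = r (mu - (z-1)²)/(p²(z-1))`. From `z² - (p⁴+p²r²)z + p²r² = 0`, with `X = z - 1`:
`X² + (2 - p⁴ - p²r²) X + mu = 0` (`1 - p⁴ - p²r² + p²r² = mu`), so `mu - X² = mu + ... `:
`(mu - X²)/X = -(2 - p⁴ - p²r²) - 2X` (since `mu = -X² - (2-p⁴-p²r²)X`) `= p⁴ + p²r² - 2z = p² b/r`. So
`fY = r p² (b/r)/p² = b`. -/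
def S_half : Prop :=
  ∀ p : Ω, p ^ 2 = p - 2 → ∀ φ : Pt p →+ Pt p, IsPhi p φ → ∀ (R : Pt p) (a b r : Ω),
    HasC R a b → r ^ 2 = a → r ≠ 0 → ∃ S : Pt p, φ S = R ∧
      HasC S (p ^ 2 / 2 * (p ^ 2 + r ^ 2 - b / r)) (p * r * (p ^ 2 / 2 * (p ^ 2 + r ^ 2 - b / r) - 1))

/-- [E halfConv] The preimages of a point.
PROOF. `z ≠ 1` (else `φ S = 0`), `a = z(z-p⁴)/(p²(z-1)) = y²/(p²(z-1)²) = r²`. If `a = 0` then `b² = 0`, and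
`z (z-p⁴) = 0`, `y² = 0`. If `r ≠ 0`: `y = p r (z-1)`, `b = r (mu - X²)/(p² X)` with `X = z - 1`, and
`z(z-p⁴) = p²r²(z-1)` gives `(mu - X²)/X = p⁴ + p²r² - 2z` as in `S_half`, so `b/r = (p⁴+p²r²-2z)/p²`, i.e.
`z = (p²/2)(p² + r² - b/r)`. -/
def S_halfConv : Prop :=
  ∀ p : Ω, p ^ 2 = p - 2 → ∀ φ : Pt p →+ Pt p, IsPhi p φ → ∀ (R S : Pt p) (a b z y r : Ω),
    HasC R a b → HasC S z y → φ S = R → r = y / (p * (z - 1)) →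
    z ≠ 1 ∧ r ^ 2 = a ∧
    (r ≠ 0 → z = p ^ 2 / 2 * (p ^ 2 + r ^ 2 - b / r) ∧ y = p * r * (z - 1)) ∧
    (r = 0 → b = 0 ∧ y = 0 ∧ (z = 0 ∨ z = p ^ 4))

/-- [E rat] Points with coordinates in a subfield `F` containing `p`.
PROOF. The formulas of `S_add`, `S_coord`, `IsPhi` are rational functions with coefficients in `F`
(`0` has no coordinates, so `Rat F 0`; if `P` or `Q` is `0` clear). -/
def S_rat : Prop :=
  ∀ p : Ω, p ^ 2 = p - 2 → ∀ F : Subfield Ω, p ∈ F →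
    (∀ P Q : Pt p, Rat F P → Rat F Q → Rat F (P + Q)) ∧
    (∀ P : Pt p, Rat F P → Rat F (-P)) ∧ Rat F (0 : Pt p) ∧
    (∀ (n : ℤ) (P : Pt p), Rat F P → Rat F (n • P)) ∧
    (∀ (φ : Pt p →+ Pt p), IsPhi p φ → ∀ P : Pt p, Rat F P → Rat F (φ P)) ∧
    (∀ (φ : Pt p →+ Pt p), IsPhi p φ → ∀ (n : ℕ) (P : Pt p), Rat F P → Rat F (φ^[n] P))

/-- [E descOne] A point whose abscissa is a square in `F` is in `φ(E(F))`.
PROOF. `w ≠ 0`: `S_half` with `r = w`, all coordinates are in `F` (`2 ∈ F`). `w = 0`: `R = (0,b)`, `b² = 0`,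
`R = (0,0)`, `φ R = R` (`S_ker`). -/
def S_descOne : Prop :=
  ∀ p : Ω, p ^ 2 = p - 2 → ∀ φ : Pt p →+ Pt p, IsPhi p φ → ∀ F : Subfield Ω, p ∈ F →
    ∀ (R : Pt p) (a b w : Ω), Rat F R → HasC R a b → w ∈ F → a = w ^ 2 →
    ∃ U : Pt p, Rat F U ∧ φ U = R

/-- [E desc] If `z(P) z(Q)` is a nonzero square in `F` then `P + Q ∈ φ(E(F))`; and
`z(P) z(Q) z(P+Q)` is a square.
PROOF. `P + Q = 0`: `U = 0`. Otherwise `P + Q = (z3, y3)` and by `S_coll1` there is `c` with `z1 z2 z3 = c²`, where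
`c = y1 - l z1 ∈ F`: (in the proof of `S_coll1` `l = (y1-y2)/(z1-z2)` or the slope of the tangent is in `F`. To get
`c ∈ F` from the statement of `S_coll1`: if `z1 ≠ z2` then `l = (y1-y2)/(z1-z2) ∈ F`, `c = y1 - l z1`; if `z1 = z2`
then `y1 = y2 ≠ 0` [else `P + Q = 0`] and `2 l y1 = 3z1² - 2(1+p⁴)z1 + p⁴` as in `S_coll2`, so `l ∈ F`.)
This is the first part. If moreover `z1 z2 = w²`, `w ≠ 0`, then `z3 = (c/w)²`: `S_descOne`. -/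
def S_desc : Prop :=
  ∀ p : Ω, p ^ 2 = p - 2 → ∀ φ : Pt p →+ Pt p, IsPhi p φ → ∀ F : Subfield Ω, p ∈ F →
    ∀ (P Q : Pt p) (z1 y1 z2 y2 : Ω), Rat F P → Rat F Q → HasC P z1 y1 → HasC Q z2 y2 →
    (∀ z3 y3 : Ω, HasC (P + Q) z3 y3 → ∃ c ∈ F, z1 * z2 * z3 = c ^ 2) ∧
    (∀ w ∈ F, w ≠ 0 → z1 * z2 = w ^ 2 → ∃ U : Pt p, Rat F U ∧ φ U = P + Q)

/-- [E act] The action of an automorphism `σ` with `σ p = p` on the points; it commutes with `φ`.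
PROOF. `g 0 = 0`, `g (z,y) = (σ z, σ y)` (`σ` maps the curve to itself as `σ p = p`). Additive: by the formulas of
`S_add` (cases: `0`; `z1 ≠ z2`, then `σ z1 ≠ σ z2`; `z1 = z2` and `y1 = -y2`; `z1 = z2`, `y1 = y2 ≠ 0`; if `z1 = z2`
then `y1² = y2²`). The inverse is the same construction for `σ.symm`. `g (φ P) = φ (g P)`: by the formulas
(`P = 0`; `P = (1,y)`, `y = 0`; `z ≠ 1`). Uniqueness: the values are determined by `IsAct` and `g 0 = 0`. -/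
def S_act : Prop :=
  ∀ p : Ω, p ^ 2 = p - 2 → ∀ σ : Ω ≃+* Ω, σ p = p →
    (∃ g : Pt p ≃+ Pt p, IsAct p σ g) ∧
    (∀ g : Pt p ≃+ Pt p, IsAct p σ g → ∀ φ : Pt p →+ Pt p, IsPhi p φ → ∀ P : Pt p, g (φ P) = φ (g P)) ∧
    (∀ g : Pt p ≃+ Pt p, IsAct p σ g → ∀ (P : Pt p) (z y : Ω), HasC P z y →
      (g P = P ↔ σ z = z ∧ σ y = y) ∧ (g P = -P ↔ σ z = z ∧ σ y = -y))

/-- [E surj] `φ` is surjective, if `Ω` is algebraically closed.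
PROOF. `R = 0`: `φ 0 = 0`. `R = (a,b)` with `a ≠ 0`: `r` with `r² = a` (`IsAlgClosed.exists_pow_nat_eq` or
`exists_eq_mul_self`), `S_half`. `a = 0`: `b² = 0`, `R = (0,0) = φ R` (`S_ker`). -/
def S_surj : Prop :=
  IsAlgClosed Ω → ∀ p : Ω, p ^ 2 = p - 2 → ∀ φ : Pt p →+ Pt p, IsPhi p φ → Function.Surjective φ

/-- [E tower] A compatible system exists.
PROOF. `t 0 = 0`, `t 1 = (1,0)`, `t 2 = (-p, p(1+p))` (on the curve: `z(z-1)(z-p⁴) = -p(-p-1)(-p-p⁴) = -p²(1+p)(1+p³)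
= -p²(1+p)²(1-p+p²) = p²(1+p)²`, as `1 - p + p² = -1`), `t (n+1)` for `n ≥ 2` chosen by surjectivity of `φ`
(`Nat.rec`). `φ (t 2) = t 1`: `fZ p (-p) = -p(-p-p⁴)/(p²(-p-1)) = -(1+p³)/(1+p) = -(1-p+p²) = 1` (`1 + p ≠ 0`, since
`(1+p)² = mu ≠ 0`) and `fY` has the factor `(1-p)⁴ - (p+1)² = 0`. `φ (t 1) = 0`. -/
def S_tower : Prop :=
  IsAlgClosed Ω → ∀ p : Ω, p ^ 2 = p - 2 → ∀ φ : Pt p →+ Pt p, IsPhi p φ →
    ∃ t : ℕ → Pt p, IsTower p φ t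

/-- [E kerPow] The kernel of `φ^n` is cyclic of order `2^n`, generated by `t n`.
PROOF. (0) `φ^[n] (t n) = 0`: clear by induction.
(1) `2^n • t (n+1) = t 1 =: T`. `n = 0` clear. Step: `W0 = 2^(n+1) • t (n+2)`; `φ W0 = 2^(n+1) • t (n+1) = 2 • T = 0`,
so `W0 ∈ {0, T}`. If `W0 = 0`: `W = 2^n • t (n+2)` has `φ W = 2^n • t (n+1) = T ≠ 0` and `W + W = 0`, so `W` is one of
`0, (1,0), (0,0), (p⁴,0)` (`S_ker`), and `φ W` is `0` or `(0,0)`, not `T`: contradiction.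
(2) `2^n • t n = 0`: from (1), `2 • T = 0` (`n = 0`: `t 0 = 0`). `j • t n = 0 → 2^n ∣ j`: the order of `t n` divides `2^n`
and not `2^(n-1)` (by (1), `n ≥ 1`), so it is `2^n` (`addOrderOf_eq_prime_pow`, `addOrderOf_dvd_iff_zsmul_eq_zero`).
(3) `φ^[n] P = 0 → P` is a multiple of `t n`, by induction: `φ^[n+1] P = 0 → φ P = j • t n = φ (j • t (n+1))`, so
`P - j • t (n+1) ∈ {0, T}` and `T = 2^n • t (n+1)`. -/
def S_kerPow : Prop :=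
  ∀ p : Ω, p ^ 2 = p - 2 → ∀ φ : Pt p →+ Pt p, IsPhi p φ → ∀ t : ℕ → Pt p, IsTower p φ t →
    (∀ (n : ℕ) (P : Pt p), φ^[n] P = 0 → ∃ j : ℤ, P = j • t n) ∧
    (∀ n : ℕ, φ^[n] (t n) = 0) ∧
    (∀ n : ℕ, (2 ^ n : ℤ) • t n = 0) ∧
    (∀ n : ℕ, (2 ^ n : ℤ) • t (n + 1) = t 1) ∧
    (∀ (n : ℕ) (j : ℤ), j • t n = 0 → (2 ^ n : ℤ) ∣ j)

/-- [E PQ] The points `P`, `Q` and the abscissa of `P + Q`. Here `p = (1+s)/2`.
PROOF. `(3+5s)² = 9 - 175 + 30s = -166 + 30 s`, etc.: `OnC` for both by `s² = -7`, `r² = 2145`, `p = (1+s)/2`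
(`p⁴ = -3p + 2 = (1-3s)/2`). The slope is
`l = (yP - yQ)/(zP - zQ) = - r (13 + 55 s)/3120` (`zP - zQ = -672/65`), and `l² + 1 + p⁴ - zP - zQ =
-39 (s (1-p)³/24)²` (`(1-p)³ = (s-5)/2`, `(1-p)⁶ = (9-5s)/2`, `p⁴ = (1-3s)/2`; compute with `s² = -7`, `r² = 2145`). -/
def S_PQ : Prop :=
  ∀ s r p : Ω, s ^ 2 = -7 → r ^ 2 = 2145 → 2 * p = 1 + s →
    p ^ 2 = p - 2 ∧ OnC p (-39 / 5) ((3 + 5 * s) * r / 25) ∧ OnC p (33 / 13) ((13 + 3 * s) * r / 169) ∧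
    ∀ P Q : Pt p, HasC P (-39 / 5) ((3 + 5 * s) * r / 25) → HasC Q (33 / 13) ((13 + 3 * s) * r / 169) →
      ∃ y : Ω, HasC (P + Q) (-39 * (s * (1 - p) ^ 3 / 24) ^ 2) y

end E

end Pool.Agent.Lib.MP_869d3b_nt
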