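import Pool.Agent.Lib.MP_869d3b_nt.Defs

/-!
# MP_869d3b_nt, interface statements of the sections 1, 2, 5
(proofs organised by helper21 and helper24 / helper5)
-/

set_option autoImplicit false

open NumberField IsDedekindDomain

namespace Pool.Agent.Lib.MP_869d3b_nt

section I

/-- `σ` acts trivially modulo the maximal ideal of `B` on `E ∩ B`. -/
def Inert {Ω : Type} [Field Ω] (B : ValuationSubring Ω) (E : Set Ω) (σ : Ω → Ω) : Prop :=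
  ∀ x ∈ E, x ∈ B → σ x - x ∈ B.nonunits

/-- `x` is `c` times a nonzero square of `FB B`. -/
def Cl {Ω : Type} [Field Ω] (B : ValuationSubring Ω) (c x : Ω) : Prop :=
  ∃ w ∈ FB B, w ≠ 0 ∧ x = c * w ^ 2

variable (Ω : Type) [Field Ω] [CharZero Ω]

/-- [I R1] (paper (R1)). -/
def S_R1 : Prop :=
  ∀ p : Ω, p ^ 2 = p - 2 → ∀ B : ValuationSubring Ω, p ∉ B.nonunits →
    ∀ (L : Subfield Ω) (σ : Ω ≃+* Ω), p ∈ L → σ p = p → Inert B L σ →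
    ∀ z y r : Ω, z ∈ L → y ∈ L → r ∈ L → OnC p z y → z ≠ 0 → σ z = z → σ y = y → r ^ 2 = z →
      σ r = r

/-- [I L1] `FB B` is the set of the limits of rationals. -/
def S_L1 : Prop :=
  Algebra.IsAlgebraic ℚ Ω → ∀ B : ValuationSubring Ω, (2 : Ω) ∈ B.nonunits → ∀ x : Ω, x ∈ FB B ↔ Lim B x

/-- [I L3] An inertial automorphism fixes the limits of rationals (uses (L1), (L2)). -/
def S_L3 : Prop :=
  Algebra.IsAlgebraic ℚ Ω → ∀ B : ValuationSubring Ω, (2 : Ω) ∈ B.nonunits →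
    ∀ (L : Subfield Ω) (σ : Ω ≃+* Ω), Inert B L σ → ∀ x : Ω, x ∈ L → x ∈ FB B → σ x = x

/-- [I loc] (L4)-(L7). -/
def S_loc : Prop :=
  IsAlgClosed Ω → Algebra.IsAlgebraic ℚ Ω →
  ∀ p : Ω, p ^ 2 = p - 2 → ∀ B : ValuationSubring Ω, p ∈ B.nonunits →
    (2 : Ω) ∈ B.nonunits ∧ p ∈ FB B ∧ Cl B 10 (-p) ∧ Cl B 5 (-39 / 5) ∧ Cl B 1 (-39) ∧
    (¬ ∃ w ∈ FB B, w ^ 2 = -(1 - p)) ∧ (∀ r : Ω, r ^ 2 = 2145 → r ∈ FB B) ∧
    (∀ z y : Ω, z ∈ FB B → y ∈ FB B → z ≠ 0 → OnC p z y →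
      Cl B 1 z ∨ Cl B 2 z ∨ Cl B 5 z ∨ Cl B 10 z)

/-- [I L10] Conjugation. -/
def S_L10 : Prop :=
  IsAlgClosed Ω → Algebra.IsAlgebraic ℚ Ω →
  ∀ B0 B : ValuationSubring Ω, (2 : Ω) ∈ B0.nonunits → (2 : Ω) ∈ B.nonunits →
    ∀ T : Finset Ω, ∃ g : Ω ≃+* Ω, ∀ x ∈ Subfield.closure (T : Set Ω), x ∈ B0 ↔ g x ∈ B

/-- [I V2] The pro-2 group of `FB B` needs only two elements to detect `ℤ_2`-characters. -/
def S_V2 : Prop :=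
  IsAlgClosed Ω → Algebra.IsAlgebraic ℚ Ω →
  ∀ B : ValuationSubring Ω, (2 : Ω) ∈ B.nonunits →
    ∃ g1 g2 : Ω ≃ₐ[FB B] Ω, ∀ ψ : (Ω ≃ₐ[FB B] Ω) →* Multiplicative ℤ_[2], Continuous ψ →
      ψ g1 = 1 → ψ g2 = 1 → ψ = 1

end I

/-- [I U] Theorem U. -/
def S_U : Prop :=
  ∀ (k : Type) [Field k] [NumberField k] [IsTotallyComplex k] (v : HeightOneSpectrum (𝓞 k)),
    Nat.card (𝓞 k ⧸ v.asIdeal) = 2 → (2 : 𝓞 k) ∉ v.asIdeal ^ 2 →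
    ∀ ε : (𝓞 k)ˣ, (∀ n : ℕ, 0 < n → ε ^ n ≠ 1) →
    ∃ C : ℕ, ∀ (L : Type) [Field L] [NumberField L] [Algebra k L], IsGalois k L →
      IsCyclic (L ≃ₐ[k] L) → (∃ n : ℕ, Module.finrank k L = 2 ^ n) →
      (∀ (P : Ideal (𝓞 L)) [P.IsPrime], P.comap (algebraMap (𝓞 k) (𝓞 L)) ≠ v.asIdeal →
        Algebra.IsUnramifiedAt (𝓞 k) P) →
      Module.finrank k L ≤ C

end Pool.Agent.Lib.MP_869d3b_nt
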