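import Pool.Agent.Lib.MP_869d3b_nt.StmE
import Pool.Agent.Lib.MP_869d3b_nt.StmI

/-!
# MP_869d3b_nt, sections 1 (L8, L9) and 4: the Kummer extensions `N(φ^{-n} R)` (statements)
-/

set_option autoImplicit false

open NumberField IsDedekindDomain

namespace Pool.Agent.Lib.MP_869d3b_nt

section M

variable (Ω : Type) [Field Ω] [DecidableEq Ω] [CharZero Ω]

/-- [M exB] There is a valuation ring with `p` in its maximal ideal.
PROOF. `p` is not a unit of the subring `ℤ[p] = {a + b p}` of `Ω`: `p (a + b p) = 1` gives `(a + b) p - 2b = 1`; `p` is not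
rational (`(2p-1)² = -7`), so `a + b = 0`, `-2b = 1`, impossible. (`{a + bp}` is closed under multiplication as
`p² = p - 2`.) Take a maximal ideal of `ℤ[p]` containing `p` (`exists_max_ideal_of_mem_nonunits`), the local ring of
`ℤ[p]` at it (inside `Ω`), and a valuation ring of `Ω` dominating it (`LocalSubring.exists_le_valuationSubring` or
similar). Another way: `1/p` is not integral over `ℤ` (it is a root of the irreducible primitive `2X² - X + 1`; or
`1/p` integral and its norm and trace in `ℚ(p)`: trace `= 1/2`), so it is not in the intersection of all valuation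
rings of `Ω` (Mathlib: the integral closure is the intersection of the valuation subrings). -/
def S_exB : Prop :=
  ∀ p : Ω, p ^ 2 = p - 2 → ∃ B : ValuationSubring Ω, p ∈ B.nonunits

/-- [M step] (L8).
PROOF. `p ∈ FB B` and `Rat (FB B) t2` (coordinates `-p`, `p(1+p)`). `S = 0`: `e = e' = 0`, `U = 0`. `S = (z,y)`:
`z = 0`: `y² = 0`, `S = (0,0) = φ S` (`S_ker`), `U = S`. `z ≠ 0`: by `S_loc` `z` is in one of the classes 1, 2, 5, 10.
Class 1: `z = w²`, `S_descOne`. Class 5: `z (-39/5) = (5 w w')²`, `S_desc` for `S`, `P`: `e = 0`, `e' = 1`.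
Class 10: `z (-p) = (10 w w')²`, `S_desc` for `S`, `t2`: `e = 1`, `e' = 0`.
Class 2: look at `S + t2`. If it is `0`: `U = 0`, `e = 1`, `e' = 0`. If its abscissa is `0`: it is `(0,0)`, `U = S + t2`.
Otherwise its abscissa `z3 ≠ 0` satisfies `z (-p) z3 = c²`, `c ∈ FB B` (`S_desc`, first part), `z = 2w²`,
`-p = 10 w'²`: `z3 = 5 (c/(10 w w'))²` has class 5 (`c ≠ 0`), so (as above) `(S + t2) + P = φ U`. -/
def S_step : Prop :=
  IsAlgClosed Ω → Algebra.IsAlgebraic ℚ Ω → ∀ p : Ω, p ^ 2 = p - 2 →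
  ∀ B : ValuationSubring Ω, p ∈ B.nonunits → ∀ φ : Pt p →+ Pt p, IsPhi p φ →
  ∀ (t2 P S : Pt p) (yP : Ω), HasC t2 (-p) (p * (1 + p)) → HasC P (-39 / 5) yP →
    Rat (FB B) P → Rat (FB B) S →
    ∃ (e e' : ℤ) (U : Pt p), Rat (FB B) U ∧ φ U = S + e • t2 + e' • P

/-- [M rec] (L9).
PROOF. Induction on `n ≥ 1`. `n = 1`: `-39 = x²` with `x ∈ FB B` (`Cl B 1 (-39)` in `S_loc`), so `-39 w² = (x w)²` and
by `S_descOne` `P + Q = φ S`; `R = P + Q`, `W = 0`, `τ = 0`, `m = 0`. Step: `S + e t2 + e' P = φ S''` (`S_step`,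
`t2 = t 2`). `R' = R + e' φ^n P = φ^n (φ S'' - e t2) + τ = φ^(n+1) S'' + (τ - e φ^n t2)`,
`R' = P + Q + φ (W + e' φ^(n-1) P)` (`n ≥ 1`), and `φ^(m+2)` kills `τ - e φ^n t2` because `φ² t2 = φ (t 1) = t 0 = 0`.
(`φ^[n]` is additive: `map_add` for `φ ^ n` in the monoid of endomorphisms, or `Function.iterate` induction.) -/
def S_rec : Prop :=
  IsAlgClosed Ω → Algebra.IsAlgebraic ℚ Ω → ∀ p : Ω, p ^ 2 = p - 2 →
  ∀ B : ValuationSubring Ω, p ∈ B.nonunits → ∀ φ : Pt p →+ Pt p, IsPhi p φ →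
  ∀ t : ℕ → Pt p, IsTower p φ t → ∀ (P Q : Pt p) (yP w y0 : Ω), HasC P (-39 / 5) yP →
    Rat (FB B) P → Rat (FB B) Q → w ∈ FB B → HasC (P + Q) (-39 * w ^ 2) y0 →
    ∀ n : ℕ, 1 ≤ n → ∃ (R S τ W : Pt p) (m : ℕ), R = P + Q + φ W ∧
      W ∈ AddSubgroup.closure (Set.range fun i : ℕ => φ^[i] P) ∧ Rat (FB B) S ∧
      φ^[m] τ = 0 ∧ R = φ^[n] S + τ

/-- [M sgn] Automorphisms map `R = P + Q + φ W` to `± R`; `W` is rational where `P` is.
PROOF. `AddSubgroup.closure_induction` for `g W = W` (resp. `g W = -W`), `g (φ^i P) = φ^i (g P)` (`S_act`), and for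
`Rat F W` (`S_rat`). -/
def S_sgn : Prop :=
  ∀ p : Ω, p ^ 2 = p - 2 → ∀ φ : Pt p →+ Pt p, IsPhi p φ →
    ∀ P Q W : Pt p, W ∈ AddSubgroup.closure (Set.range fun i : ℕ => φ^[i] P) →
    (∀ (σ : Ω ≃+* Ω) (g : Pt p ≃+ Pt p), σ p = p → IsAct p σ g →
      ((g P = P → g Q = Q → g (P + Q + φ W) = P + Q + φ W) ∧
        (g P = -P → g Q = -Q → g (P + Q + φ W) = -(P + Q + φ W)))) ∧
    (∀ F : Subfield Ω, p ∈ F → Rat F P → Rat F W)

/-- [M core1] Inertia acts trivially away from `p`.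
PROOF. Induction on `n`. `n = 0` clear. Step: `φ^[n+1] S = φ^[n] (φ S)`, `Rat L (φ S)` (`S_rat`), so by induction
`g (φ S) = φ S`. Put `R = φ S`. If `S = 0`: `g 0 = 0`. `S = (z,y)`. If `z = 1` then `y² = 0`, `y = 0` and `g S = S`
by `S_act` (`σ 1 = 1`, `σ 0 = 0`). If `z ≠ 1`: `R = (a,b)` affine (`IsPhi.aff`) and by `S_act` `σ a = a`, `σ b = b`. Let
`r = y/(p(z-1)) ∈ L`; by `S_halfConv` `r² = a`; if `r ≠ 0`, `S_R1` for `a`, `b`, `r` gives `σ r = r`, and
`z = (p²/2)(p²+r²-b/r)`, `y = p r (z-1)` are fixed by `σ`; if `r = 0` then `y = 0`, `z ∈ {0, p⁴}`: fixed. So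
`g S = S` by `S_act`. (`b ∈ L`, `a ∈ L` as `Rat L R`.) -/
def S_core1 : Prop :=
  ∀ p : Ω, p ^ 2 = p - 2 → ∀ φ : Pt p →+ Pt p, IsPhi p φ → ∀ B : ValuationSubring Ω,
    p ∉ B.nonunits → ∀ (L : Subfield Ω) (σ : Ω ≃+* Ω) (g : Pt p ≃+ Pt p), p ∈ L → σ p = p →
    IsAct p σ g → Inert B L σ → ∀ (n : ℕ) (S : Pt p), Rat L S → g (φ^[n] S) = φ^[n] S → g S = S

/-- [M core2] Inertia acts trivially above `p`, for the special points `S`.
PROOF. `2 ∈ B0.nonunits`, `2 ∈ B.nonunits` (`S_loc`). Let `T` be the finite set consisting of `p` and the coordinates of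
`S'` (if `S' ≠ 0`), and `σ'` the automorphism given by `S_L10` for `B0`, `B`, `T`. `σ' p = p`: `σ' p` is a root of
`X² = X - 2`, so `σ' p ∈ {p, 1 - p}`; `p ∈ B0.nonunits` implies `σ' p ∈ B.nonunits` (`x` is in the maximal ideal iff
`x ∈ B0` and (`x = 0` or `x⁻¹ ∉ B0`)), and `1 - p ∈ B.nonunits` is impossible (`1 = p + (1-p)`). Let `g'` be the
action of `σ'` (`S_act`). `Rat (FB B) (g' S')`: for a coordinate `x` of `S'`, `x ∈ FB B0`, by `S_L1` for all `N` there is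
`q` with `(x - q)/2^N ∈ B0`, it is in `Subfield.closure T`, so `(σ' x - q)/2^N ∈ B`; hence `σ' x ∈ FB B`.
`g' R = ε R`, `ε = ±1`. `φ^n (ε S - g' S') = ε R - g' (φ^n S') = ε R - g' R + g' τ = g' τ`, killed by `φ^m`:
`φ^(m+n) (ε S - g' S') = 0`, so `ε S - g' S' = j • t (m+n)` (`S_kerPow`). So `g' S' = ε S - j • t (m+n)` is rational
over `L` (`S_rat`) and over `FB B`; `σ` fixes its coordinates by `S_L3`, so `g (g' S') = g' S'`; as `g (t i) = t i`:
`g (ε S) = ε S`, `g S = S`. -/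
def S_core2 : Prop :=
  IsAlgClosed Ω → Algebra.IsAlgebraic ℚ Ω → ∀ p : Ω, p ^ 2 = p - 2 →
  ∀ φ : Pt p →+ Pt p, IsPhi p φ → ∀ t : ℕ → Pt p, IsTower p φ t →
  ∀ B0 B : ValuationSubring Ω, p ∈ B0.nonunits → p ∈ B.nonunits →
  ∀ (L : Subfield Ω) (σ : Ω ≃+* Ω) (g : Pt p ≃+ Pt p), p ∈ L → σ p = p → IsAct p σ g →
    Inert B L σ → (∀ n : ℕ, Rat L (t n)) → (∀ n : ℕ, g (t n) = t n) →
    ∀ (n m : ℕ) (R S S' τ : Pt p), Rat L S → φ^[n] S = R → Rat (FB B0) S' → φ^[m] τ = 0 →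
    R = φ^[n] S' + τ →
    (∀ (σ' : Ω ≃+* Ω) (g' : Pt p ≃+ Pt p), σ' p = p → IsAct p σ' g' → g' R = R ∨ g' R = -R) →
    g S = S

end M

section MF

/-- The set of the coordinates of `S`. -/
def coo {Ω : Type} [Field Ω] [DecidableEq Ω] {p : Ω} (S : Pt p) : Set Ω :=
  {x | ∃ z y : Ω, HasC S z y ∧ (x = z ∨ x = y)}

/-- [M kumA] The field `F(S)`, `φ^n S = R`: finite and Galois over `F`; description of its automorphisms.
PROOF. (Write `F0 = (algebraMap F Ω).fieldRange`.) Finite: at most two elements, algebraic over `F`. Let `σ : Ω ≃ₐ[F] Ω`,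
`g` an action of `σ` (it exists by `S_act`, since `σ p = p`). `g (t m) = t m` as the coordinates are in `F0`. `φ^n (g S - S) =
g R - R = 0` so `g S = S + j • t n` (`S_kerPow`). So the coordinates of `g S`, i.e. `σ x` for `x ∈ coo S`, are in
`M := adjoin F (coo S)` (`S_rat` for the subfield `M`), hence `σ M ≤ M` for all `σ` (`IntermediateField.adjoin_le_iff`,
`map`), and `M/F` is normal (`IntermediateField.normal_iff_forall_map_le'` or similar), Galois because of characteristic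
`0`. `g S = S` iff `σ` fixes the coordinates of `S` iff `σ` fixes `M`. -/
def S_kumA : Prop :=
  ∀ (F Ω : Type) [Field F] [Field Ω] [DecidableEq Ω] [CharZero Ω] [Algebra F Ω],
    IsAlgClosed Ω → Algebra.IsAlgebraic F Ω → ∀ p : Ω, p ^ 2 = p - 2 →
    ∀ φ : Pt p →+ Pt p, IsPhi p φ → ∀ t : ℕ → Pt p, IsTower p φ t →
    p ∈ (algebraMap F Ω).fieldRange → (∀ n : ℕ, Rat (algebraMap F Ω).fieldRange (t n)) →
    ∀ (n : ℕ) (R S : Pt p), Rat (algebraMap F Ω).fieldRange R → φ^[n] S = R →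
    FiniteDimensional F (IntermediateField.adjoin F (coo S)) ∧
    IsGalois F (IntermediateField.adjoin F (coo S)) ∧
    ∀ (σ : Ω ≃ₐ[F] Ω) (g : Pt p ≃+ Pt p), IsAct p (σ : Ω ≃+* Ω) g →
      (∃ j : ℤ, g S = S + j • t n) ∧ (∀ m : ℕ, g (t m) = t m) ∧
      (g S = S ↔ ∀ x ∈ IntermediateField.adjoin F (coo S), σ x = x)

/-- [M kumB] `Gal(F(S)/F)` is abelian of order `2^n` if `R` is not in `φ(E(F))`.
PROOF. Let `M = adjoin F (coo S)`, `G = Gal(M/F)`; every element of `G` is the restriction of a `σ : Ω ≃ₐ[F] Ω`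
(`AlgEquiv.liftNormal`; `Ω/F` is normal). By `S_kumA` `g_σ S = S + κ(σ) • t n`, `κ(σ)` is determined modulo `2^n`
(`S_kerPow`: order of `t n` is `2^n`), `κ(στ) = κ(σ) + κ(τ)` (`g_σ g_τ S = g_σ (S + κ(τ) • t n)`; `g_(στ) = g_σ g_τ`:
both are actions of `στ`), `κ(σ) = 0` mod `2^n` iff `σ` is trivial on `M`. So `κ : G → ZMod (2^n)` is an injective
homomorphism: `G` is commutative. It is surjective: otherwise `n ≥ 1` and the image is in `2 ZMod (2^n)` (a proper
subgroup of a cyclic 2-group: if some `κ(σ)` is odd, it generates), so `φ^(n-1) (κ(σ) • t n) = 0` [`κ(σ) = 2i`,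
`φ^(n-1) (t n) = t 1`, `2 • t 1 = 0`], hence `U = φ^(n-1) S` is fixed by all `g_σ`, its coordinates are fixed by all
`σ`, so they are in `F0` (`Ω/F` is Galois: `IsGalois.mem_bot_iff_fixed` / `IsGalois.fixedField_top`), and `φ U = R`:
contradiction. So the degree is `|G| = 2^n` (`IsGalois.card_aut_eq_finrank`). `n = 0`: `S = R`, `κ` has values in
`ZMod 1`, degree `1`. -/
def S_kumB : Prop :=
  ∀ (F Ω : Type) [Field F] [Field Ω] [DecidableEq Ω] [CharZero Ω] [Algebra F Ω],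
    IsAlgClosed Ω → Algebra.IsAlgebraic F Ω → ∀ p : Ω, p ^ 2 = p - 2 →
    ∀ φ : Pt p →+ Pt p, IsPhi p φ → ∀ t : ℕ → Pt p, IsTower p φ t →
    p ∈ (algebraMap F Ω).fieldRange → (∀ n : ℕ, Rat (algebraMap F Ω).fieldRange (t n)) →
    ∀ (n : ℕ) (R S : Pt p), Rat (algebraMap F Ω).fieldRange R → φ^[n] S = R →
    (¬ ∃ U : Pt p, Rat (algebraMap F Ω).fieldRange U ∧ φ U = R) →
    (∀ σ τ : IntermediateField.adjoin F (coo S) ≃ₐ[F] IntermediateField.adjoin F (coo S),
      σ * τ = τ * σ) ∧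
    Module.finrank F (IntermediateField.adjoin F (coo S)) = 2 ^ n

/-- [M lift] Triviality of the inertia groups of `M/F` from valuation rings and automorphisms of `Ω`.
PROOF. Let `B` be a valuation ring of `M`, `σ0` in the decomposition group, trivial on the residue field of `B`. There is a
valuation ring `B'` of `Ω` with `B' ∩ M = B` and `max B' ∩ M = max B`: the image of `B` in `Ω` is a local subring, take `B'`
dominating it (`LocalSubring.exists_le_valuationSubring`); if `x ∈ M`, `x ∈ B'`, `x ∉ B` then `x⁻¹ ∈ max B ⊆ max B'`,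
contradiction. Let `σ : Ω ≃ₐ[F] Ω` extend `σ0` (`AlgEquiv.liftNormal`, `Ω/F` is normal). If `x ∈ M ∩ B'` then
`x ∈ B`, `σ0 x ∈ B` and `σ0 x - x ∈ max B` (trivial action on the residue field, `σ0 x` and `x` have the same residue
class), so `σ x - x ∈ B'.nonunits`: `Inert B' M σ`. By hypothesis `σ` is trivial on `M`, `σ0 = 1`. -/
def S_lift : Prop :=
  ∀ (F Ω : Type) [Field F] [Field Ω] [Algebra F Ω], IsAlgClosed Ω → Algebra.IsAlgebraic F Ω →
    ∀ M : IntermediateField F Ω,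
    (∀ (B' : ValuationSubring Ω) (σ : Ω ≃ₐ[F] Ω), Inert B' (M : Set Ω) σ → ∀ x ∈ M, σ x = x) →
    ∀ B : ValuationSubring M, B.inertiaSubgroup F = ⊥

/-- [M Xinf] Unramified abelian extensions of degree `2^n` for all `n ≥ 1` make `X` infinite.
PROOF. `L = maxUnramified 2 F Ω` is the compositum of Galois extensions, so it is normal (`IntermediateField.normal_iSup`)
over `F`. If `X = Gal(L/F)` is finite, let `n ≥ 1` with `2^n > card X`, `M` of degree `2^n`. `M ≤ L` (`le_sSup`), `M/F`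
is Galois of degree `2^n`, and every automorphism of `M/F` extends to `L` (`AlgEquiv.liftNormal`, or
`AlgEquiv.restrictNormalHom_surjective`): so `2^n = card Gal(M/F) ≤ card Gal(L/F)`, contradiction. -/
def S_Xinf : Prop :=
  ∀ (F Ω : Type) [Field F] [Field Ω] [Algebra F Ω],
    (∀ n : ℕ, 1 ≤ n → ∃ M : IntermediateField F Ω, IsUnramifiedAbelianP 2 M ∧
      Module.finrank F M = 2 ^ n) → Infinite (X 2 F Ω)

/-- [M sec4] Section 4: `X(F)` is infinite for every field `F` containing `p`, `r`, the coordinates of all `t n`, with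
`-39` not a square in `F`.
PROOF. `Ω` is algebraic over `F`. `s := 2p - 1`, `s² = -7`. `φ`, `t` are given. `P = (-39/5, (3+5s) r/25)`,
`Q = (33/13, (13+3s) r/169)`, `P + Q = (-39 w², y0)`, `w = s (1-p)³/24` (`S_PQ`, `S_coord`). `B0` from `S_exB`. For `n ≥ 1`
take `R, S', τ, W, m` from `S_rec` (for `B0`; `r ∈ FB B0` by `S_loc`, so `P`, `Q` are rational over `FB B0`, `w ∈ FB B0`).
Take `S` with `φ^[n] S = R` (`S_surj`, iterated). `R` is rational over `F0 = (algebraMap F Ω).fieldRange` (`S_sgn`,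
`S_rat`). `R ∉ φ(E(F))`: if `R = φ U` then `P + Q = φ (U - W)`, `U - W = (z,y)` affine, rational over `F0` with `z ≠ 1` and
`-39 w² = (y/(p(z-1)))²` (`S_halfConv`), `w ≠ 0`, so `-39` is a square in `F`: contradiction.
`M = adjoin F (coo S)`: `S_kumA`, `S_kumB` give finite, Galois, commutative, degree `2^n`. Unramified: by `S_lift` let `B'` be
a valuation ring of `Ω`, `σ : Ω ≃ₐ[F] Ω`, `Inert B' M σ`; `g` an action of `σ` (`S_act`; `σ p = p`); `L` = the subfield `M`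
(`M.toSubfield`), `p ∈ L`, `Rat L S`, `g R = R`. If `p ∉ B'.nonunits`: `S_core1` gives `g S = S`. If `p ∈ B'.nonunits`:
`S_core2` (`g (t n) = t n` by `S_kumA`; the hypothesis on `g' R = ± R`: `σ' p = p`, `σ' r = ± r` since `(σ' r)² = 2145`, so
`g' P = ± P`, `g' Q = ± Q` with the same sign by `S_act`, and `S_sgn`). So `g S = S`, `σ` is trivial on `M`
(`S_kumA`). Then `S_Xinf`. -/
def S_sec4 : Prop :=
  ∀ (F Ω : Type) [Field F] [Field Ω] [DecidableEq Ω] [CharZero Ω] [Algebra F Ω],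
    IsAlgClosed Ω → Algebra.IsAlgebraic ℚ Ω → ∀ p r : Ω, p ^ 2 = p - 2 → r ^ 2 = 2145 →
    ∀ φ : Pt p →+ Pt p, IsPhi p φ → ∀ t : ℕ → Pt p, IsTower p φ t →
    p ∈ (algebraMap F Ω).fieldRange → r ∈ (algebraMap F Ω).fieldRange →
    (∀ n : ℕ, Rat (algebraMap F Ω).fieldRange (t n)) → (¬ ∃ x : F, x ^ 2 = -39) →
    Infinite (X 2 F Ω)

end MF

end Pool.Agent.Lib.MP_869d3b_nt
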