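import Pool.Agent.Lib.MP_869d3b_nt.StmU13

/-!
# MP_869d3b_nt : statements for (U2) (ambiguous ideals) and Theorem U

`k`, `L` number fields, `L/k` Galois, `Gal(L/k)` acts on `𝓞 L` and (pointwise) on the ideals of `𝓞 L`
(Mathlib: `σ • x`, `σ • I`; the coercion of `σ • x` to `L` is `σ x` by `rfl`; there is an instance
`IsGaloisGroup (L ≃ₐ[k] L) (𝓞 k) (𝓞 L)`, so `Mathlib/NumberTheory/RamificationInertia/Galois.lean` applies).
Every `def S_xx : Prop` is one independent piece; its docstring contains the complete proof.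
-/

set_option autoImplicit false

open NumberField IsDedekindDomain

open scoped Pointwise

namespace Pool.Agent.Lib.MP_869d3b_nt.U

/-- [U2 C1] (about 90 lines) The product `R` of the primes above `q`.

Proof. `R = ∏ Q ∈ (q.primesOver (𝓞 L)).toFinset, Q` (finite set, nonempty). `R ≠ ⊥` (all `Q ≠ ⊥`, since `Q ∩ 𝓞 k = q ≠ ⊥`), `R ≠ ⊤` (`R ≤ Q`).
`σ • R = R`: `σ` permutes the primes above `q` (`MulAction G (primesOver p B)` in the Galois file, or directly: `σ • Q` is prime and lies over `q`), and `σ • (∏ ..) = ∏ σ • ..`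
(`Ideal.map` of a product; or prove `σ • R ≤ R` for all `σ` and apply it to `σ⁻¹`).
`q 𝓞_L = ∏ Q ^ e(Q)` (`Ideal.map_algebraMap_eq_finsetProd_pow`), and all `e(Q)` are equal to `ramificationIdxIn` (`Ideal.ramificationIdxIn_eq_ramificationIdx q Q (L ≃ₐ[k] L)`); `Finset.prod_pow`.
Last statement: `I ≤ Q`; for `Q'` above `q` there is `σ` with `σ • Q = Q'` (`Ideal.exists_smul_eq_of_isGaloisGroup`), so `I = σ • I ≤ σ • Q = Q'` (pointwise `smul` is monotone), so `Q' ∣ I`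
(`Ideal.dvd_iff_le`) for all `Q'` above `q`; different primes are not associated, so the product divides `I` (`Finset.prod_primes_dvd`, or `Ideal.prod_le_inf`, `Ideal.inf_eq_prod`-like for pairwise coprime ideals). -/
def S_C1 : Prop :=
  ∀ (k L : Type) [Field k] [NumberField k] [Field L] [NumberField L] [Algebra k L] [IsGalois k L]
    (q : Ideal (𝓞 k)), q.IsPrime → q ≠ ⊥ → ∃ R : Ideal (𝓞 L), R ≠ ⊥ ∧ R ≠ ⊤ ∧
      (∀ σ : L ≃ₐ[k] L, σ • R = R) ∧
      q.map (algebraMap (𝓞 k) (𝓞 L)) = R ^ q.ramificationIdxIn (𝓞 L) ∧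
      ∀ I : Ideal (𝓞 L), (∀ σ : L ≃ₐ[k] L, σ • I = I) → ∀ Q : Ideal (𝓞 L), Q.IsPrime →
        Q.under (𝓞 k) = q → I ≤ Q → R ∣ I

/-- [U2 C5] (about 20 lines) `1 ≤ e ≤ [L : k]`.

Proof. `Ideal.ramificationIdxIn_ne_zero (L ≃ₐ[k] L)` and
`Ideal.ncard_primesOver_mul_ramificationIdxIn_mul_inertiaDegIn v.asIdeal (𝓞 L) (L ≃ₐ[k] L)`: `ncard * (e * f) = Nat.card G = finrank` (`IsGalois.card_aut_eq_finrank`), which is positive. -/
def S_C5 : Prop :=
  ∀ (k L : Type) [Field k] [NumberField k] [Field L] [NumberField L] [Algebra k L] [IsGalois k L]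
    (v : HeightOneSpectrum (𝓞 k)), v.asIdeal.ramificationIdxIn (𝓞 L) ≠ 0 ∧
      v.asIdeal.ramificationIdxIn (𝓞 L) ≤ Module.finrank k L

/-- [U2 C2] (about 100 lines) Uses C1, C5. The ideals which are stable under the Galois group.

Proof. Let `R` be the ideal of C1 for `q = v.asIdeal`, `e = v.asIdeal.ramificationIdxIn (𝓞 L)` (`≥ 1`, C5). Strong induction on `Ideal.absNorm I` (positive as `I ≠ ⊥`), or on the number of
prime factors. If `I = ⊤`: `a = 0`, `J = ⊤`. Otherwise `I ≤ Q` with `Q` maximal, `Q ≠ ⊥`; `q = Q.under (𝓞 k)` is prime and `≠ ⊥` (`𝓞 L` is integral over `𝓞 k`). Let `R' = R` if `q = v.asIdeal`, otherwise the ideal of C1 for `q`.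
C1: `I = R' * I'`. `I' ≠ ⊥`; `σ • I' = I'` (cancel `R'` in `R' * I' = σ • (R' * I') = R' * (σ • I')`); `absNorm I' < absNorm I` because `absNorm R' ≥ 2` (`R' ≠ ⊤`, `R' ≠ ⊥`, multiplicative). Induction: `I' = R ^ a' * J' 𝓞_L`.
If `q ≠ v.asIdeal`: `q.ramificationIdxIn = Q.ramificationIdx (𝓞 k) = 1` (hypothesis and `Ideal.ramificationIdxIn_eq_ramificationIdx`), so `R' = q 𝓞_L` and `I = R ^ a' * (q * J') 𝓞_L` (`Ideal.map_mul`). If `q = v.asIdeal`:
`I = R ^ (a' + 1) * J' 𝓞_L`; if `a' + 1 < e` done; if `a' + 1 = e` then `R ^ e = v 𝓞_L`, `I = (v * J') 𝓞_L`, `a = 0`. (Products of nonzero ideals are nonzero.) -/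
def S_C2 : Prop :=
  ∀ (k L : Type) [Field k] [NumberField k] [Field L] [NumberField L] [Algebra k L] [IsGalois k L]
    (v : HeightOneSpectrum (𝓞 k)),
    (∀ Q : Ideal (𝓞 L), Q.IsPrime → Q ≠ ⊥ → Q.under (𝓞 k) ≠ v.asIdeal →
      Q.ramificationIdx (𝓞 k) = 1) →
    ∃ R : Ideal (𝓞 L), ∀ I : Ideal (𝓞 L), I ≠ ⊥ → (∀ σ : L ≃ₐ[k] L, σ • I = I) →
      ∃ a : ℕ, a < v.asIdeal.ramificationIdxIn (𝓞 L) ∧ ∃ J : Ideal (𝓞 k), J ≠ ⊥ ∧
        I = R ^ a * J.map (algebraMap (𝓞 k) (𝓞 L))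

/-- [U2 C3] (about 50 lines) Hilbert 90: units of norm one.

Proof. `η = algebraMap u`, `u : (𝓞 L)ˣ`. `Algebra.norm k (u : L) = 1` by `Algebra.norm_eq_prod_automorphisms` and injectivity of `algebraMap k L`; so `Algebra.norm k ((u⁻¹ : (𝓞 L)ˣ) : L) = 1`. Mathlib's
`groupCohomology.exists_mul_galRestrict_of_norm_eq_one` (with `A = 𝓞 k`, `K = k`, `B = 𝓞 L`, `η = u⁻¹`) gives `ε ≠ 0` in `𝓞 L` with `u⁻¹ * (galRestrict .. g ε) = ε`, i.e. `g ε = u ε` in `L`
(`algebraMap_galRestrict_apply`, or `algebraMap_galRestrictHom_apply`). `b = ε`. (Instances: `IsCyclic (L ≃ₐ[k] L)` from `g`: `⟨g, hg⟩`.) -/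
def S_C3 : Prop :=
  ∀ (k L : Type) [Field k] [NumberField k] [Field L] [NumberField L] [Algebra k L] [IsGalois k L]
    (g : L ≃ₐ[k] L), (∀ x, x ∈ Subgroup.zpowers g) → ∀ η ∈ uE L, nMap k L η = 1 →
    ∃ b : 𝓞 L, b ≠ 0 ∧ g (b : L) = η * b

/-- [U2 R] (about 30 lines) Index at most the number of classes.

Proof. The map from `K ⧸ (H.subgroupOf K)` to `ι` which sends a coset to `F` of a representative (`Quotient.out`) is injective. -/
def S_RI : Prop :=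
  ∀ (G : Type) [CommGroup G] (H K : Subgroup G) (ι : Type) [Finite ι] (F : G → ι),
    (∀ x ∈ K, ∀ y ∈ K, F x = F y → x / y ∈ H) → H.relIndex K ≤ Nat.card ι

/-- [U2] (about 120 lines) Uses C2, C3, R. `[ker N ∩ E : D E] ≤ h_k e`.

Proof. `R` from C2. For `η ∈ ker N ∩ E` choose (C3) `b = b(η) ≠ 0` in `𝓞 L` with `g b = η b`. The ideal `(b)` is stable: `g • (b) = (g • b) = (η b) = (b)` (`η` is a unit of `𝓞 L`), so it is stable under all powers of `g`, i.e. under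
`Gal(L/k)`. C2: `(b) = R ^ a * J 𝓞_L`, `a < e`, `J ≠ ⊥`. Put `F η = (a, class of J) ∈ Fin e × ClassGroup (𝓞 k)` (`ClassGroup.mk0 ⟨J, _⟩`); the number of elements of the target is `e h_k` (`classNumber k = Fintype.card (ClassGroup (𝓞 k))`). By R it is enough:
if `F η = F η'` then `η / η' ∈ D E`. Let `b, J, b', J'` be the data: `a = a'` and there are `x, y ≠ 0` in `𝓞 k` with `(x) J = (y) J'` (`ClassGroup.mk0_eq_mk0_iff`). So
`(x b) = R ^ a * ((x) J) 𝓞_L = R ^ a * ((y) J') 𝓞_L = (y b')` in `𝓞 L` (`Ideal.map_mul`, `Ideal.map_span`), so `x b = u y b'` with a unit `u` of `𝓞 L` (`Ideal.span_singleton_eq_span_singleton`). Apply `g`: `x η b = (g u) y η' b'`; dividing by `x b = u y b'`: `η = (g u / u) η'`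
(`g x = x`, `g y = y`). So `η / η' = dMap g u`. -/
def S_U2 : Prop :=
  ∀ (k L : Type) [Field k] [NumberField k] [Field L] [NumberField L] [Algebra k L] [IsGalois k L]
    (g : L ≃ₐ[k] L), (∀ x, x ∈ Subgroup.zpowers g) → ∀ v : HeightOneSpectrum (𝓞 k),
    (∀ Q : Ideal (𝓞 L), Q.IsPrime → Q ≠ ⊥ → Q.under (𝓞 k) ≠ v.asIdeal →
      Q.ramificationIdx (𝓞 k) = 1) →
    ((uE L).map (dMap g)).relIndex ((nMap k L).ker ⊓ uE L) ≤
      classNumber k * v.asIdeal.ramificationIdxIn (𝓞 L)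

/-- THEOREM U. Let `k` be a totally complex number field, `v` a prime of `k` with `O/v = F_2` and `2 ∉ v²`, `ε` a unit of infinite order.
There is a bound `C` for the degrees of the cyclic extensions `L/k` which are unramified outside `v`. -/
def S_thmU : Prop :=
  ∀ (k : Type) [Field k] [NumberField k] [IsTotallyComplex k] (v : HeightOneSpectrum (𝓞 k)),
    Ideal.absNorm v.asIdeal = 2 → (2 : 𝓞 k) ∉ v.asIdeal ^ 2 →
    ∀ ε : (𝓞 k)ˣ, (∀ m : ℕ, 0 < m → ε ^ m ≠ 1) →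
    ∃ C : ℕ, ∀ (L : Type) [Field L] [NumberField L] [Algebra k L] [IsGalois k L],
      IsCyclic (L ≃ₐ[k] L) →
      (∀ Q : Ideal (𝓞 L), Q.IsPrime → Q ≠ ⊥ → Q.under (𝓞 k) ≠ v.asIdeal →
        Q.ramificationIdx (𝓞 k) = 1) →
      Module.finrank k L ≤ C

end Pool.Agent.Lib.MP_869d3b_nt.U
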