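import Pool.Agent.Lib.MP_869d3b_nt.StmI

/-!
# MP_869d3b_nt, uniqueness of the `Σ`-ramified `ℤ₂`-extension: characters (V3, V4 of the paper)

`G = Ω ≃ₐ[k] Ω` with the Krull topology; characters are continuous homomorphisms
`χ : G →* Multiplicative ℤ_[2]`; `Dv m u` : the value `u` is divisible by `2 ^ m`.
-/

set_option autoImplicit false

open NumberField IsDedekindDomain

namespace Pool.Agent.Lib.MP_869d3b_nt

/-- `u` (written multiplicatively) is divisible by `2 ^ m`. -/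
def Dv (m : ℕ) (u : Multiplicative ℤ_[2]) : Prop := (2 : ℤ_[2]) ^ m ∣ Multiplicative.toAdd u

/-- **[V lin]** Linear combinations of characters are characters. No dependency.

Proof. The map `σ ↦ ofAdd (a * toAdd (χ₁ σ) + b * toAdd (χ₂ σ) + c * toAdd (χ₃ σ))` is a homomorphism into a
commutative group and continuous (`ℤ_[2]` is a topological ring). -/
def S_Vlin : Prop :=
  ∀ (G : Type) [Group G] [TopologicalSpace G] (χ₁ χ₂ χ₃ : G →* Multiplicative ℤ_[2]),
    Continuous χ₁ → Continuous χ₂ → Continuous χ₃ → ∀ a b c : ℤ_[2],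
    ∃ ψ : G →* Multiplicative ℤ_[2], Continuous ψ ∧ ∀ σ, Multiplicative.toAdd (ψ σ) =
      a * Multiplicative.toAdd (χ₁ σ) + b * Multiplicative.toAdd (χ₂ σ) +
        c * Multiplicative.toAdd (χ₃ σ)

/-- **[V dep]** Three vectors of `ℤ₂²` are linearly dependent over `ℤ₂`. No dependency.

Proof. The `3 × 3` matrix with rows `(x i)`, `(y i)` and a zero row has determinant `0`;
`Matrix.exists_mulVec_eq_zero_iff` (over a domain) gives `v ≠ 0` with `M v = 0`. (Or by hand with the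
`2 × 2` minors.) -/
def S_Vdep : Prop :=
  ∀ x₁ x₂ x₃ y₁ y₂ y₃ : ℤ_[2], ∃ a b c : ℤ_[2], ¬ (a = 0 ∧ b = 0 ∧ c = 0) ∧
    a * x₁ + b * x₂ + c * x₃ = 0 ∧ a * y₁ + b * y₂ + c * y₃ = 0

/-- **[V div]** A non-trivial character is `2 ^ j` times a character with a unit value.
No dependency.

Proof. Choose `σ₀` with `ψ σ₀ ≠ 0` of minimal valuation `j` (`PadicInt.valuation`, well-foundedness of `ℕ`).
Then `2 ^ j ∣ ψ σ` for all `σ` (`PadicInt`: elements of valuation `≥ j` are divisible by `2 ^ j`, and `0` too);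
let `ψ' σ` be the quotient (unique, `ℤ_[2]` is a domain of characteristic zero), a homomorphism.
Continuous: `x ↦ 2 ^ j * x` is a closed embedding of the compact space `ℤ_[2]` into itself
(`Continuous.isClosedEmbedding` for injective continuous maps on a compact space to a Hausdorff space),
so `ψ'` is continuous because `2 ^ j * ψ'` is (`IsInducing.continuous_iff`). `ψ' σ₀` has valuation `0`, a unit. -/
def S_Vdiv : Prop :=
  ∀ (G : Type) [Group G] [TopologicalSpace G] (ψ : G →* Multiplicative ℤ_[2]),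
    Continuous ψ → (∃ σ, ψ σ ≠ 1) →
    ∃ (j : ℕ) (ψ' : G →* Multiplicative ℤ_[2]), Continuous ψ' ∧
      (∀ σ, Multiplicative.toAdd (ψ σ) = 2 ^ j * Multiplicative.toAdd (ψ' σ)) ∧
      ∃ σ₀, IsUnit (Multiplicative.toAdd (ψ' σ₀))

/-- **[V res]** Restriction of scalars `Gal(Ω/F) → Gal(Ω/k)` for a subfield `F ⊇ k` of `Ω`; its image
consists of the automorphisms which fix `F`. No dependency.

Proof. `σ : Ω ≃ₐ[F] Ω` fixes `algebraMap k Ω x ∈ F`, so `AlgEquiv.ofRingEquiv` gives `ρ σ`. Continuous: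
it is enough at `1` (a homomorphism of topological groups,
`continuous_of_continuousAt_one`); a neighbourhood of `1` in `Gal(Ω/k)` contains the
`fixingSubgroup` of a finite extension `E/k` (`krullTopology_mem_nhds_one_iff`); `E = k(S)` for a finite set
`S` of algebraic elements, `E' = IntermediateField.adjoin F S` is finite over `F`
(`IntermediateField.finiteDimensional_adjoin`; elements of `Ω` are algebraic over `k`, so over `F`), and `ρ` maps
`E'.fixingSubgroup` (open, `IntermediateField.fixingSubgroup_isOpen`) into `E.fixingSubgroup`: the elements of `E` are in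
`E'` (`E = k(S)`, or directly: `IntermediateField.adjoin F (E : Set Ω)` is finite over `F` because `E` is spanned by
finitely many elements over `k`). Last claim: a `k`-automorphism which fixes `F` is an `F`-automorphism. -/
def S_Vres : Prop :=
  ∀ (k Ω : Type) [Field k] [Field Ω] [Algebra k Ω] [Algebra.IsAlgebraic k Ω] (F : Subfield Ω),
    (∀ x : k, algebraMap k Ω x ∈ F) →
    ∃ ρ : (Ω ≃ₐ[F] Ω) →* (Ω ≃ₐ[k] Ω), Continuous ρ ∧ (∀ σ x, ρ σ x = σ x) ∧
      ∀ σ : Ω ≃ₐ[k] Ω, (∀ x ∈ F, σ x = x) → ∃ τ, ρ τ = σ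

/-- **[V3]** If the characters of `Gal(Ω/F)` are detected by two elements then three characters of
`Gal(Ω/k)` are linearly dependent on `Gal(Ω/F)`. Uses `S_Vlin`, `S_Vdep`, `S_Vres`.

Proof. Let `ρ` be as in `S_Vres`. Apply `S_Vdep` to `x_i = χ_i (ρ g₁)`, `y_i = χ_i (ρ g₂)`. The character
`ψ = a χ₁ + b χ₂ + c χ₃` composed with `ρ` (continuous) vanishes at `g₁`, `g₂`, so it is trivial, i.e.
`ψ (ρ τ) = 0` for all `τ`; every `σ` fixing `F` is some `ρ τ`. -/
def S_V3 : Prop :=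
  ∀ (k Ω : Type) [Field k] [Field Ω] [Algebra k Ω] [Algebra.IsAlgebraic k Ω] (F : Subfield Ω),
    (∀ x : k, algebraMap k Ω x ∈ F) →
    (∃ g₁ g₂ : Ω ≃ₐ[F] Ω, ∀ ψ : (Ω ≃ₐ[F] Ω) →* Multiplicative ℤ_[2], Continuous ψ →
      ψ g₁ = 1 → ψ g₂ = 1 → ψ = 1) →
    ∀ χ₁ χ₂ χ₃ : (Ω ≃ₐ[k] Ω) →* Multiplicative ℤ_[2], Continuous χ₁ → Continuous χ₂ → Continuous χ₃ →
    ∃ a b c : ℤ_[2], ¬ (a = 0 ∧ b = 0 ∧ c = 0) ∧
      ∀ σ : Ω ≃ₐ[k] Ω, (∀ x ∈ F, σ x = x) →
        a * Multiplicative.toAdd (χ₁ σ) + b * Multiplicative.toAdd (χ₂ σ) +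
          c * Multiplicative.toAdd (χ₃ σ) = 0

/-- **[V4]** The character which is unramified at the first prime. `H` stands for `Gal(Ω/F)`. Uses
`S_Vlin`, `S_Vdiv`.

Proof. `(a, b) ≠ (0, 0)`: otherwise `c ≠ 0` and `c χ₃ = 0` on `H`, so `χ₃ = 1` on `H`. Let `ψ₀ = a χ₁ + b χ₂`
(`S_Vlin`). `ψ₀ ≠ 1`: otherwise `a χ₁ σ = - b χ₂ σ` for all `σ`; if `a = 0` then `b ≠ 0` and `χ₂ = 1`, contradiction to
`h2`; if `b = 0` then `χ₁ = 1`, contradiction to `h1`; if both are `≠ 0` then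
`χ₁ σ = 1 ↔ χ₂ σ = 1`, contradiction to `hne`. `S_Vdiv`: `ψ₀ = 2 ^ j ψ`. For `n` take `m = n + j`:
`2 ^ m ∣ χ₁ σ, χ₂ σ` gives `2 ^ (n + j) ∣ 2 ^ j ψ σ`, so `2 ^ n ∣ ψ σ` (`mul_dvd_mul_iff_left`); for `σ ∈ H`,
`2 ^ j ψ σ = - c χ₃ σ`. -/
def S_V4 : Prop :=
  ∀ (G : Type) [Group G] [TopologicalSpace G] (H : Set G) (χ₁ χ₂ χ₃ : G →* Multiplicative ℤ_[2])
    (a b c : ℤ_[2]), Continuous χ₁ → Continuous χ₂ → Continuous χ₃ →
    (∃ σ, χ₁ σ ≠ 1) → (∃ σ, χ₂ σ ≠ 1) → (¬ ∀ σ, χ₁ σ = 1 ↔ χ₂ σ = 1) → (∃ σ ∈ H, χ₃ σ ≠ 1) →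
    ¬ (a = 0 ∧ b = 0 ∧ c = 0) →
    (∀ σ ∈ H, a * Multiplicative.toAdd (χ₁ σ) + b * Multiplicative.toAdd (χ₂ σ) +
          c * Multiplicative.toAdd (χ₃ σ) = 0) →
    ∃ ψ : G →* Multiplicative ℤ_[2], Continuous ψ ∧ (∃ σ₀, IsUnit (Multiplicative.toAdd (ψ σ₀))) ∧
      ∀ n : ℕ, ∃ m : ℕ, (∀ σ, Dv m (χ₁ σ) → Dv m (χ₂ σ) → Dv n (ψ σ)) ∧
        ∀ σ ∈ H, Dv m (χ₃ σ) → Dv n (ψ σ)

/-- **[V lay]** The layer of level `m` of a character. No dependency.

Proof. `H = {σ | Dv m (ψ σ)}` is an open normal subgroup of `Gal(Ω/k)`: the preimage of the open subgroup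
`2 ^ m ℤ_[2]` (a closed ball; e.g. `PadicInt.norm_le_pow_iff_mem_span_pow`) under the continuous `ψ`. Let
`M = IntermediateField.fixedField H`. `H` is closed (open subgroups are closed), so
`M.fixingSubgroup = H` (`InfiniteGalois.fixingSubgroup_fixedField`; `Ω/k` is Galois: algebraically closed,
characteristic zero), `M/k` is finite (`InfiniteGalois.isOpen_iff_finite`) and Galois (`H` is normal:
`InfiniteGalois.isGalois_iff_isNormal...`). -/
def S_Vlay : Prop :=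
  ∀ (k Ω : Type) [Field k] [Field Ω] [CharZero k] [Algebra k Ω] [Algebra.IsAlgebraic k Ω]
    [IsAlgClosed Ω] (ψ : (Ω ≃ₐ[k] Ω) →* Multiplicative ℤ_[2]), Continuous ψ → ∀ m : ℕ,
    ∃ M : IntermediateField k Ω, FiniteDimensional k M ∧ IsGalois k M ∧
      ∀ σ : Ω ≃ₐ[k] Ω, (∀ x ∈ M, σ x = x) ↔ Dv m (ψ σ)

/-- **[V cyc]** The layer of level `m` is cyclic of degree `2 ^ m` if `ψ` has a unit value.
No dependency.

Proof. The composition `Gal(Ω/k) → ℤ_[2] → ZMod (2 ^ m)` (`PadicInt.toZModPow m`, kernel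
`2 ^ m ℤ_[2]`) is surjective because the image contains a unit of `ZMod (2 ^ m)`, which generates
the additive group; its kernel is the kernel of the surjection `AlgEquiv.restrictNormalHom M`. So
`M ≃ₐ[k] M` is isomorphic to `Multiplicative (ZMod (2 ^ m))` (`QuotientGroup.quotientKerEquivOfSurjective`
twice), cyclic of order `2 ^ m = finrank k M` (`IsGalois.card_aut_eq_finrank`). -/
def S_Vcyc : Prop :=
  ∀ (k Ω : Type) [Field k] [Field Ω] [CharZero k] [Algebra k Ω] [Algebra.IsAlgebraic k Ω]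
    [IsAlgClosed Ω] (ψ : (Ω ≃ₐ[k] Ω) →* Multiplicative ℤ_[2]) (m : ℕ) (M : IntermediateField k Ω),
    Continuous ψ → (∃ σ₀, IsUnit (Multiplicative.toAdd (ψ σ₀))) →
    FiniteDimensional k M → IsGalois k M →
    (∀ σ : Ω ≃ₐ[k] Ω, (∀ x ∈ M, σ x = x) ↔ Dv m (ψ σ)) →
    IsCyclic (M ≃ₐ[k] M) ∧ Module.finrank k M = 2 ^ m

/-- **[V tre]** In a Galois extension of number fields, unramified at one prime above `q` implies
unramified at all primes above `q`. No dependency.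

Proof. If the common prime below is `⊥` then `P = Q = ⊥` (`Ideal.eq_bot_of_comap_eq_bot`). Otherwise
`Algebra.IsUnramifiedAt (𝓞 k) P ↔ ramificationIdx = 1` (`Mathlib/NumberTheory/RamificationInertia/Unramified`) and
the ramification index is the same for all primes above `q`
(`Ideal.ramificationIdxIn_eq_ramificationIdx`, `IsGaloisGroup`), as in
`NumberField.exists_not_isUnramifiedAt_int_of_isGalois` in `Mathlib/NumberTheory/NumberField/ExistsRamified`. -/
def S_Vtre : Prop :=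
  ∀ (k L : Type) [Field k] [NumberField k] [Field L] [NumberField L] [Algebra k L] [IsGalois k L]
    (P Q : Ideal (𝓞 L)) [P.IsPrime] [Q.IsPrime],
    P.comap (algebraMap (𝓞 k) (𝓞 L)) = Q.comap (algebraMap (𝓞 k) (𝓞 L)) →
    Algebra.IsUnramifiedAt (𝓞 k) P → Algebra.IsUnramifiedAt (𝓞 k) Q

end Pool.Agent.Lib.MP_869d3b_nt
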