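import Pool.Agent.Lib.MP_869d3b_nt.StmV2
import Pool.Agent.Lib.MP_869d3b_nt.L.Bridge
import Pool.Agent.Lib.MP_869d3b_nt.P_UNIQ
import Pool.Agent.Lib.MP_869d3b_nt.P_V3
import Pool.Agent.Lib.MP_869d3b_nt.P_V4
import Pool.Agent.Lib.MP_869d3b_nt.P_V5
import Pool.Agent.Lib.MP_869d3b_nt.P_V5a
import Pool.Agent.Lib.MP_869d3b_nt.P_V5b
import Pool.Agent.Lib.MP_869d3b_nt.P_Vcyc
import Pool.Agent.Lib.MP_869d3b_nt.P_Vdep
import Pool.Agent.Lib.MP_869d3b_nt.P_Vdiv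
import Pool.Agent.Lib.MP_869d3b_nt.P_Vlay
import Pool.Agent.Lib.MP_869d3b_nt.P_Vle
import Pool.Agent.Lib.MP_869d3b_nt.P_Vlin
import Pool.Agent.Lib.MP_869d3b_nt.P_Vmov
import Pool.Agent.Lib.MP_869d3b_nt.P_Vres
import Pool.Agent.Lib.MP_869d3b_nt.P_Vtre
import Pool.Agent.Lib.MP_869d3b_nt.P_below1
import Pool.Agent.Lib.MP_869d3b_nt.P_below2
import Pool.Agent.Lib.MP_869d3b_nt.P_chi
import Pool.Agent.Lib.MP_869d3b_nt.P_inert
import Pool.Agent.Lib.MP_869d3b_nt.P_inertConv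
import Pool.Agent.Lib.MP_869d3b_nt.P_inertG
import Pool.Agent.Lib.MP_869d3b_nt.P_fin
import Pool.Agent.Lib.MP_869d3b_nt.P_frac
import Pool.Agent.Lib.MP_869d3b_nt.PU

/-!
# MP_869d3b_nt: the uniqueness theorem without hypotheses
-/

set_option autoImplicit false

namespace Pool.Agent.Lib.MP_869d3b_nt

theorem p_UNIQ : S_UNIQ :=
  have hG : S_inertG := p_inertG p_frac
  have hi : S_inert := p_inert p_below2 hG
  have hc : S_inertConv := p_inertConv hG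
  have hV3 : S_V3 := piece_V3 piece_Vlin piece_Vdep piece_Vres
  have hV4 : S_V4 := piece_V4 piece_Vlin piece_Vdiv
  have h5a : S_V5a := piece_V5a p_below1 p_below2 hi hc piece_Vle
  have h5b : S_V5b := piece_V5b p_below2 hi hc p_fin (fun Ω _ _ => p_L3 Ω)
  have h5 : S_V5 := piece_V5 h5a h5b p_below2 piece_Vtre
  piece_UNIQ p_below1 p_chi (fun Ω _ _ => p_V2 Ω) hV3 hV4 piece_Vlay piece_Vcyc piece_Vle
    piece_Vmov h5 p_U

end Pool.Agent.Lib.MP_869d3b_nt
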